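import Pool.Agent.Lib.MP_f4ebb7_co.RY.Nn

/-! RY-AConst (`q = p`): if `η = 1` for `ψ = 1` then the numbers `a_y = #{d ∈ D : d.1 = y}` are equal for `y ≠ x₀`.

PROOF. `q = p` is prime. `∑_h E t (x, h) = FF (E t) 1 x`, so `∑_h E t ((t-1) x₀, h) = m` and `∑_g E t g = m` (cast from `ℂ`). `nn_val` for `t` and `x = (t-1) x₀`: `q ∑_h Nt D t ((t-1)x₀, h) = (n+l)^2 + p^c (q - 1) m`, the same for every unit `t`; for `t = 1`: `x = 0`. By `nn_eq`:
`∑_y a_y a_{t y - (t-1) x₀} = ∑_y a_y a_{y}` for all `t`, and `t y - (t-1) x₀ = x₀ + t (y - x₀) =: π(y)`, a permutation of `ZMod q`. So `∑_y (a_{π y} - a_y)^2 = 2 ∑ a_y^2 - 2 ∑ a_y a_{π y} = 0`: `a_inv`. `a_off`: `y' = x₀ + t (y - x₀)` with `t = (y' - x₀)/(y - x₀)`.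
`a_sq`: `push_ac` for `AddMonoidHom.fst` and `ac_diff` (as in `size_a` in RY/Size.lean): `∑_i (a_i - a_{i+1})^2 = 2 n`; the only non-zero terms are `i = x₀` and `i = x₀ - 1` (different, `q ≥ 3`), both equal to `(a_{x₀} - a_y)^2`.
-/

set_option autoImplicit false

namespace Pool.RY

open Finset

variable {H : Type} [AddCommGroup H] [Fintype H] [DecidableEq H] {p s c m q n l : ℕ} [NeZero q]
  {D : Finset (ZMod q × H)}

private theorem ac_row (E : (ZMod q)ˣ → ZMod q × H → ℤ) (x₀ : ZMod q)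
    (hη : ∀ (t : (ZMod q)ˣ) (x : ZMod q), FF (E t) 1 x = if x = ((t : ZMod q) - 1) * x₀ then (m : ℂ) else 0)
    (t : (ZMod q)ˣ) (x : ZMod q) :
    ∑ k : H, E t (x, k) = if x = ((t : ZMod q) - 1) * x₀ then (m : ℤ) else 0 := by
  have h1 := hη t x
  unfold FF at h1
  have h2 : ∑ k : H, (E t (x, k) : ℂ) * (1 : AddChar H ℂ) k = ((∑ k : H, E t (x, k) : ℤ) : ℂ) := by
    push_cast
    refine sum_congr rfl fun k _ => ?_
    simp
  rw [h2] at h1
  by_cases h3 : x = ((t : ZMod q) - 1) * x₀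
  · rw [if_pos h3] at h1 ⊢
    exact_mod_cast h1
  · rw [if_neg h3] at h1 ⊢
    exact_mod_cast h1

private theorem ac_all (E : (ZMod q)ˣ → ZMod q × H → ℤ) (x₀ : ZMod q)
    (hη : ∀ (t : (ZMod q)ˣ) (x : ZMod q), FF (E t) 1 x = if x = ((t : ZMod q) - 1) * x₀ then (m : ℂ) else 0)
    (t : (ZMod q)ˣ) : ∑ g : ZMod q × H, E t g = (m : ℤ) := by
  rw [Fintype.sum_prod_type, sum_congr rfl fun x _ => ac_row E x₀ hη t x, sum_ite_eq']
  simp

private theorem ac_nt (h : Dat p 1 c m q n l D) (E : (ZMod q)ˣ → ZMod q × H → ℤ)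
    (hE : ∀ t : (ZMod q)ˣ, IsE p c m q D (t : ZMod q) (E t)) (x₀ : ZMod q)
    (hη : ∀ (t : (ZMod q)ˣ) (x : ZMod q), FF (E t) 1 x = if x = ((t : ZMod q) - 1) * x₀ then (m : ℂ) else 0)
    (t : (ZMod q)ˣ) : (q : ℤ) * ∑ k : H, Nt D t (((t : ZMod q) - 1) * x₀, k) =
      ((n : ℤ) + l) ^ 2 + (p : ℤ) ^ c * ((q : ℤ) * m - m) := by
  rw [nn_val h (hE t) (((t : ZMod q) - 1) * x₀), ac_row E x₀ hη t, if_pos rfl, ac_all E x₀ hη t]

theorem a_inv (h : Dat p 1 c m q n l D) (E : (ZMod q)ˣ → ZMod q × H → ℤ)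
    (hE : ∀ t : (ZMod q)ˣ, IsE p c m q D (t : ZMod q) (E t)) (x₀ : ZMod q)
    (hη : ∀ (t : (ZMod q)ˣ) (x : ZMod q), FF (E t) 1 x = if x = ((t : ZMod q) - 1) * x₀ then (m : ℂ) else 0)
    (t : (ZMod q)ˣ) (y : ZMod q) : fib Prod.fst D (x₀ + (t : ZMod q) * (y - x₀)) = fib Prod.fst D y := by
  have hq0 : (q : ℤ) ≠ 0 := by exact_mod_cast NeZero.ne q
  have h1 := ac_nt h E hE x₀ hη t
  have h2 := ac_nt h E hE x₀ hη 1
  have h3 : ∑ k : H, Nt D t (((t : ZMod q) - 1) * x₀, k) =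
      ∑ k : H, Nt D ((1 : (ZMod q)ˣ) : ZMod q) ((((1 : (ZMod q)ˣ) : ZMod q) - 1) * x₀, k) :=
    mul_left_cancel₀ hq0 (h1.trans h2.symm)
  rw [nn_eq, nn_eq] at h3
  have h4 : ∀ z : ZMod q, (t : ZMod q) * z - ((t : ZMod q) - 1) * x₀ = x₀ + (t : ZMod q) * (z - x₀) := by
    intro z
    ring
  have h5 : ∀ z : ZMod q, ((1 : (ZMod q)ˣ) : ZMod q) * z - (((1 : (ZMod q)ˣ) : ZMod q) - 1) * x₀ = z := by
    intro z
    rw [Units.val_one]
    ring
  simp only [h4, h5] at h3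
  have hinj : Function.Injective fun z : ZMod q => x₀ + (t : ZMod q) * (z - x₀) := by
    intro z w hzw
    have h6 : (t : ZMod q) * (z - x₀) = (t : ZMod q) * (w - x₀) := add_left_cancel hzw
    have h7 : z - x₀ = w - x₀ := (Units.mul_right_inj t).1 h6
    exact sub_left_injective h7
  have hbij : Function.Bijective fun z : ZMod q => x₀ + (t : ZMod q) * (z - x₀) :=
    Finite.injective_iff_bijective.1 hinj
  have h6 : ∑ z : ZMod q, fib Prod.fst D (x₀ + (t : ZMod q) * (z - x₀)) ^ 2 =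
      ∑ z : ZMod q, fib Prod.fst D z ^ 2 :=
    hbij.sum_comp fun z => fib Prod.fst D z ^ 2
  have h7 : ∑ z : ZMod q, (fib Prod.fst D (x₀ + (t : ZMod q) * (z - x₀)) - fib Prod.fst D z) ^ 2 = 0 := by
    have h8 : ∑ z : ZMod q, (fib Prod.fst D (x₀ + (t : ZMod q) * (z - x₀)) - fib Prod.fst D z) ^ 2 =
        ∑ z : ZMod q, fib Prod.fst D (x₀ + (t : ZMod q) * (z - x₀)) ^ 2 + ∑ z : ZMod q, fib Prod.fst D z ^ 2 -
          2 * ∑ z : ZMod q, fib Prod.fst D z * fib Prod.fst D (x₀ + (t : ZMod q) * (z - x₀)) := by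
      rw [mul_sum, ← sum_add_distrib, ← sum_sub_distrib]
      refine sum_congr rfl fun z _ => ?_
      ring
    have h9 : ∑ z : ZMod q, fib Prod.fst D z * fib Prod.fst D z = ∑ z : ZMod q, fib Prod.fst D z ^ 2 :=
      sum_congr rfl fun z _ => (sq _).symm
    rw [h8, h6, h3, h9]
    ring
  have h8 := (sum_eq_zero_iff_of_nonneg fun z _ => sq_nonneg _).1 h7 y (mem_univ y)
  exact sub_eq_zero.1 (pow_eq_zero_iff (two_ne_zero) |>.1 h8)

theorem a_off (h : Dat p 1 c m q n l D) (E : (ZMod q)ˣ → ZMod q × H → ℤ)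
    (hE : ∀ t : (ZMod q)ˣ, IsE p c m q D (t : ZMod q) (E t)) (x₀ : ZMod q)
    (hη : ∀ (t : (ZMod q)ˣ) (x : ZMod q), FF (E t) 1 x = if x = ((t : ZMod q) - 1) * x₀ then (m : ℂ) else 0)
    (y y' : ZMod q) (hy : y ≠ x₀) (hy' : y' ≠ x₀) : fib Prod.fst D y = fib Prod.fst D y' := by
  have hqp : q.Prime := by
    rw [h.hq, pow_one]
    exact h.hp
  have : Fact q.Prime := ⟨hqp⟩
  have h1 : y - x₀ ≠ 0 := sub_ne_zero.2 hy
  have h2 : y' - x₀ ≠ 0 := sub_ne_zero.2 hy'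
  have h3 := a_inv h E hE x₀ hη (Units.mk0 ((y' - x₀) / (y - x₀)) (div_ne_zero h2 h1)) y
  rw [Units.val_mk0, div_mul_cancel₀ _ h1, add_sub_cancel] at h3
  exact h3.symm

theorem a_sq (h : Dat p 1 c m q n l D) (E : (ZMod q)ˣ → ZMod q × H → ℤ)
    (hE : ∀ t : (ZMod q)ˣ, IsE p c m q D (t : ZMod q) (E t)) (x₀ : ZMod q)
    (hη : ∀ (t : (ZMod q)ˣ) (x : ZMod q), FF (E t) 1 x = if x = ((t : ZMod q) - 1) * x₀ then (m : ℂ) else 0)
    (y : ZMod q) (hy : y ≠ x₀) : (fib Prod.fst D x₀ - fib Prod.fst D y) ^ 2 = (n : ℤ) := by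
  have hqp : q.Prime := by
    rw [h.hq, pow_one]
    exact h.hp
  have : Fact q.Prime := ⟨hqp⟩
  have h10 : (1 : ZMod q) ≠ 0 := one_ne_zero
  have hsurj : Function.Surjective (AddMonoidHom.fst (ZMod q) H) := fun x => ⟨(x, 0), rfl⟩
  have h1 := ac_diff (fib (AddMonoidHom.fst (ZMod q) H) D) 1
  have hc : Fintype.card H * Fintype.card (ZMod q) = Fintype.card (ZMod q × H) := by
    rw [Fintype.card_prod, mul_comm]
  rw [push_ac (AddMonoidHom.fst (ZMod q) H) hsurj (Fintype.card H) hc h.ds h.card 0,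
    push_ac (AddMonoidHom.fst (ZMod q) H) hsurj (Fintype.card H) hc h.ds h.card 1,
    if_pos rfl, if_neg h10] at h1
  have h4 : fib (AddMonoidHom.fst (ZMod q) H) D = fib Prod.fst D := rfl
  rw [h4] at h1
  have hne : x₀ - 1 ≠ x₀ := fun h5 => h10 (sub_eq_self.1 h5)
  have hterm : ∀ g : ZMod q, (fib Prod.fst D g - fib Prod.fst D (g + 1)) ^ 2 =
      (if g = x₀ then (fib Prod.fst D x₀ - fib Prod.fst D y) ^ 2 else 0) +
        (if g = x₀ - 1 then (fib Prod.fst D x₀ - fib Prod.fst D y) ^ 2 else 0) := by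
    intro g
    by_cases hg : g = x₀
    · have h5 : g ≠ x₀ - 1 := fun h6 => hne (h6.symm.trans hg)
      have h6 : g + 1 ≠ x₀ := by
        rw [hg]
        intro h7
        exact h10 (add_eq_left.1 h7)
      rw [if_pos hg, if_neg h5, add_zero, a_off h E hE x₀ hη (g + 1) y h6 hy, hg]
    · by_cases hg' : g = x₀ - 1
      · have h5 : g + 1 = x₀ := by
          rw [hg', sub_add_cancel]
        rw [if_neg hg, if_pos hg', zero_add, h5, a_off h E hE x₀ hη g y hg hy]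
        ring
      · have h5 : g + 1 ≠ x₀ := fun h6 => hg' (eq_sub_of_add_eq h6)
        rw [if_neg hg, if_neg hg', a_off h E hE x₀ hη g y hg hy, a_off h E hE x₀ hη (g + 1) y h5 hy]
        ring
  rw [sum_congr rfl fun g _ => hterm g, sum_add_distrib, sum_ite_eq', sum_ite_eq'] at h1
  simp only [mem_univ, if_true] at h1
  linarith

end Pool.RY
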