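import Pool.Agent.Lib.MP_f4ebb7_co.RY.Defs2

/-! RY-Abs: the projections to the classes are divisible.

PROOF. `M := {x : R | (Q : R) ∣ x * Xc}` (closed under sums and multiples; `X ∈ M`, `Q ∈ M`). `ϖ = 1 - ζ`.
(1) For `x ∈ M` there are `α β` with `x = α X + Q β`: `x Xc = Q r`, so `m x Q = x X Xc = Q r X`, `m x = r X` (cancel `Q ≠ 0`); Bezout `1 = u m + u' Q` (integers): `x = u r X + Q (u' x)`.
(2) For `x ∈ M` there is `y ∈ M` with `σ x - x = ϖ y`: `σ X - X = ϖ Y0` (`hσ`), and `Y0 ∈ M`: `ϖ Y0 Xc = ϖ Q Y` (`hU`), cancel `ϖ`. `σ x - x = σ α (σ X - X) + (σ α - α) X + Q (σ β - β) = ϖ (σ α Y0 + α' X + Q β')`.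
(3) `τ x := ζ^a * σ x` (additive). `τ x - x = ζ^a (σ x - x) - (1 - ζ^a) x`, and `ϖ ∣ 1 - ζ^a` (`one_sub_dvd_one_sub_pow`): for `x ∈ M`, `τ x - x = ϖ y` with `y ∈ M`; and `τ (ϖ x) = ϖ τ x` (`σ ϖ = ϖ`). So by induction `(τ - 1)^i X = ϖ^i y_i` with `y_i ∈ M`;
for `i = p - 1`: `(τ-1)^(p-1) X = p ε y`, in `p M`. `τ` maps `M` to `M`.
(4) In `ℤ[τ]`: `∑_{k<p} τ^k = (τ - 1)^(p-1) + p Q0(τ)` (polynomial identity: `∑_{k<p} T^k = ((1 + (T-1))^p - 1)/(T - 1) = ∑_{i=1}^p C(p,i) (T-1)^(i-1)`, `p ∣ C(p,i)` for `0 < i < p`). E.g. prove by Newton's formula: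
`∑_{k<p} τ^k X = ∑_{i=1}^{p} C(p,i) (τ-1)^(i-1) X` (`∑_{k<p} C(k, i-1) = C(p, i)`, `τ^k X = ∑_i C(k,i) (τ-1)^i X`). Each `(τ-1)^(i-1) X ∈ M`. So `∑_{k<p} τ^k X = p y` with `y ∈ M`.
(5) `τ^k X = ζ^(a k) σ^k X` (`σ ζ = ζ`), so `p D0 = p y`, `D0 = y ∈ M`.
(You may use linear maps: `τ : Module.End ℤ R`, `Commute.add_pow`, `geom_sum`.)
-/

set_option autoImplicit false

namespace Pool.RY

open Finset

private theorem abs_geom {A : Type} [Ring A] (D : A) (n : ℕ) :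
    ∑ k ∈ range n, (1 + D) ^ k = ∑ i ∈ range n, (n.choose (i + 1) : A) * D ^ i := by
  induction n with
  | zero => simp
  | succ n ih =>
    have h1 : (1 + D) ^ n = ∑ i ∈ range (n + 1), (n.choose i : A) * D ^ i := by
      rw [add_comm, (Commute.one_right D).add_pow]
      refine sum_congr rfl fun i _ => ?_
      rw [one_pow, mul_one, (Nat.cast_commute _ _).eq]
    have h2 : ∑ i ∈ range n, (n.choose (i + 1) : A) * D ^ i
        = ∑ i ∈ range (n + 1), (n.choose (i + 1) : A) * D ^ i := by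
      rw [sum_range_succ, Nat.choose_succ_self, Nat.cast_zero, zero_mul, add_zero]
    rw [sum_range_succ, ih, h1, h2, ← sum_add_distrib]
    refine sum_congr rfl fun i _ => ?_
    rw [Nat.choose_succ_succ' n i, Nat.cast_add, add_mul, add_comm]

private theorem abs_sum_apply {A : Type} [AddCommGroup A] (n : ℕ) (f : ℕ → AddMonoid.End A) (x : A) :
    (∑ i ∈ range n, f i) x = ∑ i ∈ range n, f i x := by
  induction n with
  | zero => simp
  | succ n ih =>
    rw [sum_range_succ, sum_range_succ, ← ih]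
    rfl

theorem abs_dvd {R : Type} [CommRing R] [IsDomain R] (σ : R ≃+* R) (ζ ϖ X Xc : R) (p m Q : ℕ) (hp : p.Prime)
    (hp0 : (p : R) ≠ 0) (hQ0 : (Q : R) ≠ 0) (hϖ0 : ϖ ≠ 0) (hϖ : ϖ = 1 - ζ) (hζ : σ ζ = ζ)
    (hpow : ∃ ε, ϖ ^ (p - 1) = (p : R) * ε) (hσ : ∀ x, ∃ y, σ x - x = ϖ * y)
    (hX : X * Xc = (m : R) * (Q : R)) (hcop : Nat.Coprime m Q)
    (hU : ∃ Y, (σ X - X) * Xc = ϖ * (Q : R) * Y) (a : ℕ) (D0 : R)
    (hD : (p : R) * D0 = ∑ k ∈ range p, ζ ^ (a * k) * (fun y => σ y)^[k] X) : (Q : R) ∣ D0 * Xc := by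
  -- membership facts
  have hXM : (Q : R) ∣ X * Xc := ⟨m, by rw [hX, mul_comm]⟩
  obtain ⟨Y0, hY0⟩ := hσ X
  have hY0M : (Q : R) ∣ Y0 * Xc := by
    obtain ⟨Y, hY⟩ := hU
    refine ⟨Y, mul_left_cancel₀ hϖ0 ?_⟩
    rw [hY0] at hY
    linear_combination hY
  have hσϖ : σ ϖ = ϖ := by rw [hϖ, map_sub, map_one, hζ]
  -- step 1
  have step1 : ∀ x : R, (Q : R) ∣ x * Xc → ∃ α β : R, x = α * X + Q * β := by
    rintro x ⟨r, hr⟩
    have h1 : (m : R) * x = r * X := by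
      apply mul_left_cancel₀ hQ0
      linear_combination X * hr - x * hX
    obtain ⟨u, v, huv⟩ := Nat.isCoprime_iff_coprime.mpr hcop
    have huv' : (u : R) * m + v * Q = 1 := by exact_mod_cast congrArg (Int.cast : ℤ → R) huv
    exact ⟨u * r, v * x, by linear_combination (-x) * huv' + (u : R) * h1⟩
  -- step 2
  have step2 : ∀ x : R, (Q : R) ∣ x * Xc → ∃ y : R, (Q : R) ∣ y * Xc ∧ σ x - x = ϖ * y := by
    intro x hx
    obtain ⟨α, β, hαβ⟩ := step1 x hx
    obtain ⟨α', hα'⟩ := hσ α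
    obtain ⟨β', hβ'⟩ := hσ β
    refine ⟨σ α * Y0 + α' * X + Q * β', ?_, ?_⟩
    · rw [add_mul, add_mul, mul_assoc, mul_assoc, mul_assoc]
      exact dvd_add (dvd_add (dvd_mul_of_dvd_right hY0M _) (dvd_mul_of_dvd_right hXM _))
        (dvd_mul_right _ _)
    · have e1 : σ x = σ α * σ X + Q * σ β := by
        rw [hαβ, map_add, map_mul, map_mul, map_natCast]
      rw [e1, hαβ]
      linear_combination σ α * hY0 + X * hα' + (Q : R) * hβ'
  -- the additive map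
  set τ : AddMonoid.End R :=
    (AddMonoidHom.mulLeft (ζ ^ a)).comp (σ : R →+* R).toAddMonoidHom with hτ
  have τap : ∀ x, τ x = ζ ^ a * σ x := fun x => rfl
  obtain ⟨c, hc⟩ : (1 - ζ) ∣ (1 - ζ ^ a) := one_sub_dvd_one_sub_pow ζ a
  set D : AddMonoid.End R := τ - 1 with hD'
  have Dap : ∀ x, D x = ζ ^ a * σ x - x := fun x => rfl
  have step3 : ∀ x : R, (Q : R) ∣ x * Xc → ∃ y : R, (Q : R) ∣ y * Xc ∧ D x = ϖ * y := by
    intro x hx
    obtain ⟨y, hy, hxy⟩ := step2 x hx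
    refine ⟨ζ ^ a * y - c * x, ?_, ?_⟩
    · rw [sub_mul, mul_assoc, mul_assoc]
      exact dvd_sub (dvd_mul_of_dvd_right hy _) (dvd_mul_of_dvd_right hx _)
    · rw [Dap]
      rw [← hϖ] at hc
      linear_combination ζ ^ a * hxy - x * hc
  have Dmul : ∀ (i : ℕ) (x : R), D (ϖ ^ i * x) = ϖ ^ i * D x := by
    intro i x
    rw [Dap, Dap, map_mul, map_pow, hσϖ]
    ring
  have step4 : ∀ i : ℕ, ∃ y : R, (Q : R) ∣ y * Xc ∧ (D ^ i) X = ϖ ^ i * y := by
    intro i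
    induction i with
    | zero => exact ⟨X, hXM, by simp⟩
    | succ i ih =>
      obtain ⟨y, hy, hi⟩ := ih
      obtain ⟨z, hz, hyz⟩ := step3 y hy
      refine ⟨z, hz, ?_⟩
      rw [pow_succ', AddMonoid.End.coe_mul, Function.comp_apply, hi, Dmul, hyz]
      ring
  have hτD : τ = 1 + D := by rw [hD']; abel
  have key := congrArg (fun f : AddMonoid.End R => f X) (abs_geom D p)
  simp only [← hτD] at key
  have hl : (∑ k ∈ range p, τ ^ k) X = (p : R) * D0 := by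
    rw [hD, abs_sum_apply]
    refine sum_congr rfl fun k hk => ?_
    clear hk
    induction k with
    | zero => simp
    | succ k ih =>
      rw [pow_succ', AddMonoid.End.coe_mul, Function.comp_apply, ih, τap, map_mul, map_pow, hζ,
        Function.iterate_succ', Function.comp_apply]
      ring
  have hr : ∃ y : R, (Q : R) ∣ y * Xc ∧
      (∑ i ∈ range p, (p.choose (i + 1) : AddMonoid.End R) * D ^ i) X = (p : R) * y := by
    obtain ⟨ε, hε⟩ := hpow
    have hterm : ∀ i ∈ range p, ∃ y : R, (Q : R) ∣ y * Xc ∧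
        ((p.choose (i + 1) : AddMonoid.End R) * D ^ i) X = (p : R) * y := by
      intro i hi
      obtain ⟨y, hy, hDi⟩ := step4 i
      have h0 : ((p.choose (i + 1) : AddMonoid.End R) * D ^ i) X
          = (p.choose (i + 1) : R) * (ϖ ^ i * y) := by
        rw [AddMonoid.End.coe_mul, Function.comp_apply, hDi, AddMonoid.End.natCast_apply,
          nsmul_eq_mul]
      rw [h0]
      rcases Nat.lt_or_ge (i + 1) p with h | h
      · obtain ⟨c', hc'⟩ := hp.dvd_choose_self (Nat.succ_ne_zero i) h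
        refine ⟨(c' : R) * ϖ ^ i * y, ?_, ?_⟩
        · rw [mul_assoc]
          exact dvd_mul_of_dvd_right hy _
        · rw [hc', Nat.cast_mul]
          ring
      · have hip : i + 1 = p := le_antisymm (mem_range.mp hi) h
        have hip' : i = p - 1 := by omega
        refine ⟨ε * y, ?_, ?_⟩
        · rw [mul_assoc]
          exact dvd_mul_of_dvd_right hy _
        · rw [hip, Nat.choose_self, Nat.cast_one, hip', hε]
          ring
    choose! f hf1 hf2 using hterm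
    refine ⟨∑ i ∈ range p, f i, ?_, ?_⟩
    · rw [sum_mul]
      exact dvd_sum hf1
    · rw [abs_sum_apply, mul_sum]
      exact sum_congr rfl hf2
  obtain ⟨y, hy, hsum⟩ := hr
  have hfin : (p : R) * D0 = (p : R) * y := by rw [← hl, ← hsum]; exact key
  rw [mul_left_cancel₀ hp0 hfin]
  exact hy

end Pool.RY
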