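import Pool.Agent.Lib.MP_f4ebb7_co.RY.Defs2

/-! RY-ArE: from real to integer inequality.

PROOF. `er_sq`: `n = p^2 μ^2`: `n/p = p μ^2`, `√(2 n) = p μ √2` (`Real.sqrt_mul_self` etc.), `n (n/p + √(2n)) = p^3 μ^2 (μ^2 + √2 μ)`, and `√2 μ ≤ (√2/2) μ^2` (`μ ≥ 2`), `16 (1 + √2/2) ≤ 16 * 1.7072 < 36`... so `≤ 36 p^3 μ^4`.
`ar_e`: let `A` be the number in the absolute value of `hmain`; `w / p * A = (p w)(J - μ^2) - e μ (p w - 2 (p^2 μ^2 + l)) =: T` (check: `w/p * p^2 (J - μ^2) = p w (J - μ^2)`; `w/p * (p - 2 k / w) * e p μ = (p w - 2 k) e μ`). `|A| ≤ 4 √B` gives `A^2 ≤ 16 B ≤ 36 p^3 μ^4` (`er_sq`),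
`T^2 = (w/p)^2 A^2 ≤ 36 w^2 p μ^4`, `p T^2 ≤ 36 μ^4 (p w)^2`. Cast to integers (`exact_mod_cast`).
-/

set_option autoImplicit false

namespace Pool.RY

open Finset

theorem er_sq {p μ : ℕ} (hp : 0 < p) (hμ : 2 ≤ μ) :
    16 * ((p : ℝ) ^ 2 * (μ : ℝ) ^ 2 * ((p : ℝ) ^ 2 * (μ : ℝ) ^ 2 / p + √(2 * ((p : ℝ) ^ 2 * (μ : ℝ) ^ 2)))) ≤
      36 * (p : ℝ) ^ 3 * (μ : ℝ) ^ 4 := by
  have hp0 : (0 : ℝ) < p := by exact_mod_cast hp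
  have hm : (2 : ℝ) ≤ μ := by exact_mod_cast hμ
  have hm0 : (0 : ℝ) < μ := by linarith
  have h1 : √(2 * ((p : ℝ) ^ 2 * (μ : ℝ) ^ 2)) ≤ 3 / 2 * (p * μ) := by
    rw [Real.sqrt_le_left (by positivity)]
    nlinarith [mul_pos hp0 hm0, mul_pos (mul_pos hp0 hm0) (mul_pos hp0 hm0)]
  have h2 : (p : ℝ) ^ 2 * (μ : ℝ) ^ 2 / p = p * μ ^ 2 := by
    field_simp
  rw [h2]
  have h3 : (p : ℝ) * μ ^ 2 + √(2 * ((p : ℝ) ^ 2 * (μ : ℝ) ^ 2)) ≤ p * μ ^ 2 + 3 / 2 * (p * μ) := by linarith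
  have h4 : (0 : ℝ) ≤ (p : ℝ) ^ 2 * (μ : ℝ) ^ 2 := by positivity
  have h5 := mul_le_mul_of_nonneg_left h3 h4
  have h6 : (0 : ℝ) ≤ (p : ℝ) ^ 3 * (μ : ℝ) ^ 3 * (μ - 2) := mul_nonneg (by positivity) (by linarith)
  have h7 : (0 : ℝ) ≤ (p : ℝ) ^ 3 * (μ : ℝ) ^ 4 := by positivity
  nlinarith [h5, h6, h7]

theorem ar_e {p μ w l : ℕ} {J e : ℤ} (hp : 0 < p) (hμ : 2 ≤ μ) (hw : 0 < w)
    (hmain : |(p : ℝ) ^ 2 * ((J : ℝ) - (μ : ℝ) ^ 2) -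
      ((p : ℝ) - 2 * (((p : ℝ) ^ 2 * (μ : ℝ) ^ 2 + l) / w)) * ((e : ℝ) * (p * μ))| ≤
        4 * √((p : ℝ) ^ 2 * (μ : ℝ) ^ 2 * ((p : ℝ) ^ 2 * (μ : ℝ) ^ 2 / p + √(2 * ((p : ℝ) ^ 2 * (μ : ℝ) ^ 2))))) :
    (p : ℤ) * ((p : ℤ) * w * (J - (μ : ℤ) ^ 2) - e * μ * ((p : ℤ) * w - 2 * ((p : ℤ) ^ 2 * (μ : ℤ) ^ 2 + l))) ^ 2 ≤
      36 * (μ : ℤ) ^ 4 * ((p : ℤ) * w) ^ 2 := by
  have hp0 : (0 : ℝ) < p := by exact_mod_cast hp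
  have hw0 : (0 : ℝ) < w := by exact_mod_cast hw
  have hsq := er_sq hp hμ
  generalize hB : (p : ℝ) ^ 2 * (μ : ℝ) ^ 2 * ((p : ℝ) ^ 2 * (μ : ℝ) ^ 2 / p + √(2 * ((p : ℝ) ^ 2 * (μ : ℝ) ^ 2))) = B
    at hmain hsq
  have hB0 : 0 ≤ B := by
    rw [← hB]
    positivity
  generalize hA : (p : ℝ) ^ 2 * ((J : ℝ) - (μ : ℝ) ^ 2) -
      ((p : ℝ) - 2 * (((p : ℝ) ^ 2 * (μ : ℝ) ^ 2 + l) / w)) * ((e : ℝ) * (p * μ)) = A at hmain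
  have hA2 : A ^ 2 ≤ 36 * (p : ℝ) ^ 3 * (μ : ℝ) ^ 4 := by
    have h1 : |A| ^ 2 ≤ (4 * √B) ^ 2 := pow_le_pow_left₀ (abs_nonneg _) hmain 2
    rw [sq_abs, mul_pow, Real.sq_sqrt hB0] at h1
    linarith
  have hT : (p : ℝ) * ((p : ℝ) * w * (J - (μ : ℝ) ^ 2) - e * μ * ((p : ℝ) * w - 2 * ((p : ℝ) ^ 2 * (μ : ℝ) ^ 2 + l))) =
      w * A := by
    rw [← hA]
    field_simp
  have hT2 : (p : ℝ) * ((p : ℝ) * w * (J - (μ : ℝ) ^ 2) -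
      e * μ * ((p : ℝ) * w - 2 * ((p : ℝ) ^ 2 * (μ : ℝ) ^ 2 + l))) ^ 2 ≤ 36 * (μ : ℝ) ^ 4 * ((p : ℝ) * w) ^ 2 := by
    generalize (p : ℝ) * w * (J - (μ : ℝ) ^ 2) - e * μ * ((p : ℝ) * w - 2 * ((p : ℝ) ^ 2 * (μ : ℝ) ^ 2 + l)) = T at hT
    have h1 : (p : ℝ) * (p * T ^ 2) ≤ p * (36 * (μ : ℝ) ^ 4 * ((p : ℝ) * w) ^ 2) := by
      calc (p : ℝ) * (p * T ^ 2) = (p * T) ^ 2 := by ring
        _ = (w : ℝ) ^ 2 * A ^ 2 := by rw [hT, mul_pow]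
        _ ≤ (w : ℝ) ^ 2 * (36 * (p : ℝ) ^ 3 * (μ : ℝ) ^ 4) := mul_le_mul_of_nonneg_left hA2 (by positivity)
        _ = p * (36 * (μ : ℝ) ^ 4 * ((p : ℝ) * w) ^ 2) := by ring
    exact le_of_mul_le_mul_left h1 hp0
  exact_mod_cast hT2

end Pool.RY
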