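import Pool.Agent.Lib.MP_f4ebb7_co.RY.Defs2

/-! RY-ArP1: integer arithmetic (all variables integers).

PROOF. `v = p w`, `m = μ^2`, `n = p^2 m`, `k = n + l`, `d = v - 2 k`, `Δ = J - m`, `T = v Δ - e μ d`. `hds`: `d^2 = v^2 - 4 n v + 4 n` (expand). `l ≥ 1` (else `n^2 = n`, `n = 1`), so `l v = n^2 + 2 n l + l^2 - n ≥ 2 n l`, `v ≥ 2 n`.
(1) `p T^2 ≤ 36 μ^4 v^2` and `p > 36 μ^4` give `|T| < v`; `|d| ≤ v`; so `|v Δ| ≤ |T| + μ |d| < (μ + 1) v`, `|Δ| ≤ μ`. `J = m + Δ`, `0 < J ≤ m + μ ≤ 2 m` (`J > 0` from `hJ`: `w J = m (p-1) N0 > 0`).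
(2) If `Δ^2 = m` we are done. Otherwise `G := m - Δ^2 ≥ 1`. `v^2 Δ^2 - m d^2 = (v Δ - e μ d)(v Δ + e μ d) = T (T + 2 e μ d)` (`e^2 = 1`), and the left side is `-G v^2 + 4 n m v - 4 n m`. So `|G v^2 - 4 n m v + 4 n m| ≤ |T| (v + 2 μ v) ≤ (5/2) μ v |T|` (`μ ≥ 2`), and
`|G v - 4 n m| ≤ (5/2) μ |T| + 4 n m / v ≤ (5/2) μ |T| + 2 m`. With `|T| ≤ 6 μ^2 v / √p`: `|G v - 4 n m| ≤ 15 μ^3 v / √p + 2 m`. (Use a real number `√p`, or a natural number `r` with `r^2 ≤ p < (r+1)^2`.)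
(3) Multiply by `J` and use `v J = p m (p-1) N0`, `4 n m = 4 p^2 m^2`: `J (G v - 4 n m) = p m (G (p-1) N0 - 4 p m J)`. So `|G (p-1) N0 - 4 p m J| ≤ 15 μ^3 (p-1) N0 / √p + 2 J / p`. So `|(p-1) (G N0 - 4 m J)| ≤ 4 m J + 15 μ^3 (p-1) N0/√p + 2 J/p`.
(4) As `p > 4^(μ^4) ≥ 2^18 μ^14` (`hbig` here), `√p > 512 μ^7`: `15 μ^3 / √p < 1/(34 μ^4) ≤ 1/4`, `(p - 1)` is huge: `G N0 ≤ 4 m J + N0/4 + 1`, `N0 (3/4) ≤ 4 m J + 1`, `N0 ≤ 6 m J ≤ 12 m^2` (`m ≥ 4`). Then `|G N0 - 4 m J| ≤ 4 m J/(p-1) + 15 μ^3 N0/√p + 1/p ≤ small + 180 μ^7/√p < 1` (`180/512 < 1/2`).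
So `G N0 = 4 m J`.
-/

set_option autoImplicit false

namespace Pool.RY

private theorem arp1_core {p μ v n m J N0 G T E P : ℤ} (hμ : 2 ≤ μ) (hm : m = μ ^ 2)
    (hbig : 2 ^ 18 * μ ^ 14 < p) (hv : 0 < v) (hn : n = p ^ 2 * m) (hvn : 2 * n ≤ v)
    (hJ0 : 0 < J) (hJ1 : J ≤ 2 * m) (hN : 1 ≤ N0) (hG : 1 ≤ G)
    (hP : P = p * m * (p - 1)) (hvJ : v * J = P * N0) (hE : E = G * N0 - 4 * m * J)
    (hA : |G * v ^ 2 - 4 * n * m * v + 4 * n * m| ≤ |T| * v * (1 + 2 * μ))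
    (hT : 256 * μ ^ 5 * |T| ≤ 3 * v) : E = 0 := by
  have hμ0 : 0 < μ := by linarith
  have hm4 : 4 ≤ m := by rw [hm]; nlinarith
  have hμ5 : (0 : ℤ) < μ ^ 5 := by positivity
  have hmm : m ^ 2 = μ ^ 4 := by rw [hm]; ring
  have h14 : μ ^ 4 ≤ μ ^ 14 := pow_le_pow_right₀ (by linarith) (by norm_num)
  have hμ4 : (16 : ℤ) ≤ μ ^ 4 := by
    have : (2 : ℤ) ^ 4 ≤ μ ^ 4 := pow_le_pow_left₀ (by norm_num) hμ 4
    linarith
  have hp1 : 144 * m ^ 2 ≤ p - 1 := by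
    rw [hmm]; nlinarith
  have hp0 : 0 < p := by nlinarith
  have hPpos : 0 < P := by
    rw [hP]
    have : 0 < p - 1 := by nlinarith
    positivity
  -- J * A
  have hJA : J * (G * v ^ 2 - 4 * n * m * v + 4 * n * m) =
      v * (P * E - 4 * m ^ 2 * p * J) + 4 * n * m * J := by
    have h1 : J * (G * v ^ 2 - 4 * n * m * v + 4 * n * m) =
        G * v * (v * J) - 4 * n * m * v * J + 4 * n * m * J := by ring
    rw [h1, hvJ, hE, hn, hP]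
    ring
  have h2 : |v * (P * E - 4 * m ^ 2 * p * J) + 4 * n * m * J| ≤ J * (|T| * v * (1 + 2 * μ)) := by
    rw [← hJA, abs_mul, abs_of_pos hJ0]
    exact mul_le_mul_of_nonneg_left hA hJ0.le
  have h3 : v * P * |E| ≤ v * (4 * m ^ 2 * p * J) + v * (2 * m * J) + J * (|T| * v * (1 + 2 * μ)) := by
    have e1 : v * P * |E| = |v * P * E| := by
      rw [abs_mul, abs_of_pos (mul_pos hv hPpos)]
    have e2 : v * P * E = (v * (P * E - 4 * m ^ 2 * p * J) + 4 * n * m * J) +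
        (v * (4 * m ^ 2 * p * J) - 4 * n * m * J) := by ring
    have e3 : |v * (4 * m ^ 2 * p * J) - 4 * n * m * J| ≤ v * (4 * m ^ 2 * p * J) + v * (2 * m * J) := by
      have a1 : 0 ≤ v * (4 * m ^ 2 * p * J) := by positivity
      have a2 : 0 ≤ 4 * n * m * J := by rw [hn]; positivity
      have a3 : 4 * n * m * J ≤ v * (2 * m * J) := by
        have : (2 * n) * (2 * m * J) ≤ v * (2 * m * J) := mul_le_mul_of_nonneg_right hvn (by positivity)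
        linarith
      rw [abs_le]
      constructor <;> linarith
    rw [e1, e2]
    refine (abs_add_le _ _).trans ?_
    linarith
  have h4 : P * |E| ≤ 4 * m ^ 2 * p * J + 2 * m * J + J * (|T| * (1 + 2 * μ)) := by
    have : v * (P * |E|) ≤ v * (4 * m ^ 2 * p * J + 2 * m * J + J * (|T| * (1 + 2 * μ))) := by
      calc v * (P * |E|) = v * P * |E| := by ring
        _ ≤ _ := h3
        _ = _ := by ring
    exact le_of_mul_le_mul_left this hv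
  have h5 : 16 * (4 * m ^ 2 * p * J + 2 * m * J) ≤ P := by
    have b1 : 4 * m ^ 2 * p * J + 2 * m * J ≤ (4 * m ^ 2 * p + 2 * m) * (2 * m) := by
      have : (4 * m ^ 2 * p + 2 * m) * J ≤ (4 * m ^ 2 * p + 2 * m) * (2 * m) :=
        mul_le_mul_of_nonneg_left hJ1 (by positivity)
      linarith
    have b2 : (4 * m ^ 2 * p + 2 * m) * (2 * m) ≤ p * m * (9 * m ^ 2) := by
      have : 4 * m ^ 2 ≤ p * m * m ^ 2 := by
        have c1 : (1 : ℤ) * m ^ 2 * 4 ≤ p * m ^ 2 * m := by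
          gcongr
          linarith
        linarith
      nlinarith
    have b3 : p * m * (144 * m ^ 2) ≤ p * m * (p - 1) :=
      mul_le_mul_of_nonneg_left hp1 (by positivity)
    rw [hP]
    linarith
  have h6 : 256 * μ ^ 5 * |E| ≤ 16 * μ ^ 5 + 3 * (1 + 2 * μ) * N0 := by
    have c1 : P * (256 * μ ^ 5 * |E|) ≤ P * (16 * μ ^ 5 + 3 * (1 + 2 * μ) * N0) := by
      have d1 : 256 * μ ^ 5 * (P * |E|) ≤ 256 * μ ^ 5 * (4 * m ^ 2 * p * J + 2 * m * J +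
          J * (|T| * (1 + 2 * μ))) := mul_le_mul_of_nonneg_left h4 (by positivity)
      have d2 : J * (1 + 2 * μ) * (256 * μ ^ 5 * |T|) ≤ J * (1 + 2 * μ) * (3 * v) :=
        mul_le_mul_of_nonneg_left hT (by positivity)
      have d3 : J * (1 + 2 * μ) * (3 * v) = P * (3 * (1 + 2 * μ) * N0) := by
        have : J * (1 + 2 * μ) * (3 * v) = 3 * (1 + 2 * μ) * (v * J) := by ring
        rw [this, hvJ]; ring
      have d4 : 16 * μ ^ 5 * (16 * (4 * m ^ 2 * p * J + 2 * m * J)) ≤ 16 * μ ^ 5 * P :=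
        mul_le_mul_of_nonneg_left h5 (by positivity)
      calc P * (256 * μ ^ 5 * |E|) = 256 * μ ^ 5 * (P * |E|) := by ring
        _ ≤ 256 * μ ^ 5 * (4 * m ^ 2 * p * J + 2 * m * J + J * (|T| * (1 + 2 * μ))) := d1
        _ = 16 * μ ^ 5 * (16 * (4 * m ^ 2 * p * J + 2 * m * J)) +
            J * (1 + 2 * μ) * (256 * μ ^ 5 * |T|) := by ring
        _ ≤ 16 * μ ^ 5 * P + P * (3 * (1 + 2 * μ) * N0) := by linarith
        _ = _ := by ring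
    exact le_of_mul_le_mul_left c1 hPpos
  have h7 : N0 ≤ 8 * μ ^ 4 + |E| := by
    have e1 : G * N0 = 4 * m * J + E := by linarith
    have e2 : 1 * N0 ≤ G * N0 := mul_le_mul_of_nonneg_right hG (by linarith)
    have e3 : 4 * m * J ≤ 4 * m * (2 * m) := mul_le_mul_of_nonneg_left hJ1 (by linarith)
    have e5 : 4 * m * (2 * m) = 8 * μ ^ 4 := by rw [← hmm]; ring
    have e4 := le_abs_self E
    linarith
  by_contra hne
  have hE1 : 1 ≤ |E| := Int.one_le_abs hne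
  have h8 : 3 * (1 + 2 * μ) * N0 ≤ 8 * μ * (8 * μ ^ 4 + |E|) := by
    have : 3 * (1 + 2 * μ) ≤ 8 * μ := by linarith
    calc 3 * (1 + 2 * μ) * N0 ≤ 8 * μ * N0 := mul_le_mul_of_nonneg_right this (by linarith)
      _ ≤ _ := mul_le_mul_of_nonneg_left h7 (by positivity)
  have h9 : 8 * μ ≤ μ ^ 5 := by
    have : μ ^ 5 = μ * μ ^ 4 := by ring
    rw [this]; nlinarith
  have h10 : 8 * μ * |E| ≤ μ ^ 5 * |E| := mul_le_mul_of_nonneg_right h9 (abs_nonneg _)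
  have h11 : μ ^ 5 ≤ μ ^ 5 * |E| := le_mul_of_one_le_right hμ5.le hE1
  have h12 : 8 * μ * (8 * μ ^ 4 + |E|) = 64 * μ ^ 5 + 8 * μ * |E| := by ring
  have h13 : 256 * μ ^ 5 * |E| = 256 * (μ ^ 5 * |E|) := by ring
  rw [h13] at h6
  rw [h12] at h8
  linarith

theorem ar_one {p μ w l N0 J e : ℤ} (hμ : 2 ≤ μ) (hbig : 2 ^ 18 * μ ^ 14 < p) (hw : 0 < w) (hl : 0 ≤ l) (hN : 1 ≤ N0)
    (he : e = 1 ∨ e = -1) (hds : (p ^ 2 * μ ^ 2 + l) ^ 2 = p ^ 2 * μ ^ 2 + l * (p * w))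
    (hJ : w * J = μ ^ 2 * (p - 1) * N0)
    (hT : p * (p * w * (J - μ ^ 2) - e * μ * (p * w - 2 * (p ^ 2 * μ ^ 2 + l))) ^ 2 ≤ 36 * μ ^ 4 * (p * w) ^ 2) :
    (J - μ ^ 2) ^ 2 = μ ^ 2 ∨
      ((J - μ ^ 2) ^ 2 < μ ^ 2 ∧ (μ ^ 2 - (J - μ ^ 2) ^ 2) * N0 = 4 * μ ^ 2 * J) := by
  have hμ0 : 0 < μ := by linarith
  have hμ14 : (1 : ℤ) ≤ μ ^ 14 := one_le_pow₀ (by linarith)
  have hp0 : 0 < p := by nlinarith
  have hp2 : 2 ≤ p := by nlinarith
  obtain ⟨v, hv⟩ : ∃ v, v = p * w := ⟨_, rfl⟩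
  obtain ⟨n, hn⟩ : ∃ n, n = p ^ 2 * μ ^ 2 := ⟨_, rfl⟩
  obtain ⟨D, hD⟩ : ∃ D, D = J - μ ^ 2 := ⟨_, rfl⟩
  obtain ⟨d, hd⟩ : ∃ d, d = v - 2 * (n + l) := ⟨_, rfl⟩
  obtain ⟨T, hTd⟩ : ∃ T, T = v * D - e * μ * d := ⟨_, rfl⟩
  rw [← hv, ← hn, ← hD, ← hd, ← hTd] at hT
  rw [← hv, ← hn] at hds
  rw [← hD]
  have hv0 : 0 < v := by rw [hv]; positivity
  have hn4 : 4 ≤ n := by
    rw [hn]
    have h1 : (2 : ℤ) ^ 2 * 1 ≤ p ^ 2 * μ ^ 2 := by
      have a1 : (2 : ℤ) ^ 2 ≤ p ^ 2 := pow_le_pow_left₀ (by norm_num) hp2 2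
      have a2 : (1 : ℤ) ≤ μ ^ 2 := one_le_pow₀ (by linarith)
      exact mul_le_mul a1 a2 (by norm_num) (by positivity)
    linarith
  have hl1 : 1 ≤ l := by
    by_contra h
    have h0 : l = 0 := by omega
    rw [h0] at hds
    nlinarith
  have hvn : 2 * n ≤ v := by
    have h1 : l * (2 * n) ≤ l * v := by nlinarith
    exact le_of_mul_le_mul_left h1 (by linarith)
  have hd2 : d ^ 2 = v ^ 2 - 4 * n * v + 4 * n := by
    rw [hd]
    linear_combination 4 * hds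
  have hdv : |d| ≤ v := by
    refine abs_le_of_sq_le_sq ?_ hv0.le
    rw [hd2]
    nlinarith
  have he2 : e ^ 2 = 1 := by rcases he with h | h <;> rw [h] <;> norm_num
  have heabs : |e| = 1 := by rcases he with h | h <;> rw [h] <;> norm_num
  -- the bound for T
  have hTb : 256 * μ ^ 5 * |T| ≤ 3 * v := by
    have h1 : (512 * μ ^ 7 * |T|) ^ 2 ≤ (6 * μ ^ 2 * v) ^ 2 := by
      have a1 : (512 * μ ^ 7 * |T|) ^ 2 = 2 ^ 18 * μ ^ 14 * T ^ 2 := by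
        rw [mul_pow, sq_abs]; ring
      have a2 : 2 ^ 18 * μ ^ 14 * T ^ 2 ≤ p * T ^ 2 :=
        mul_le_mul_of_nonneg_right hbig.le (sq_nonneg _)
      have a3 : (6 * μ ^ 2 * v) ^ 2 = 36 * μ ^ 4 * v ^ 2 := by ring
      rw [a1, a3]
      exact a2.trans hT
    have h2 : 512 * μ ^ 7 * |T| ≤ 6 * μ ^ 2 * v :=
      le_of_sq_le_sq h1 (by positivity)
    have h3 : (2 * μ ^ 2) * (256 * μ ^ 5 * |T|) ≤ (2 * μ ^ 2) * (3 * v) := by
      calc (2 * μ ^ 2) * (256 * μ ^ 5 * |T|) = 512 * μ ^ 7 * |T| := by ring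
        _ ≤ 6 * μ ^ 2 * v := h2
        _ = _ := by ring
    exact le_of_mul_le_mul_left h3 (by positivity)
  have hTv : |T| < v := by
    have h5 : (1 : ℤ) ≤ μ ^ 5 := one_le_pow₀ (by linarith)
    have h6 : |T| ≤ μ ^ 5 * |T| := le_mul_of_one_le_left (abs_nonneg _) h5
    have h7 := abs_nonneg T
    nlinarith
  have hDμ : |D| ≤ μ := by
    have h1 : v * |D| ≤ |T| + μ * |d| := by
      have a1 : v * |D| = |v * D| := by rw [abs_mul, abs_of_pos hv0]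
      have a2 : v * D = T + e * μ * d := by rw [hTd]; ring
      have a3 : |e * μ * d| = μ * |d| := by
        rw [abs_mul, abs_mul, heabs, abs_of_pos hμ0, one_mul]
      rw [a1, a2, ← a3]
      exact abs_add_le _ _
    have h2 : μ * |d| ≤ μ * v := mul_le_mul_of_nonneg_left hdv hμ0.le
    have h3 : v * |D| < v * (μ + 1) := by linarith
    have h4 : |D| < μ + 1 := lt_of_mul_lt_mul_left h3 hv0.le
    linarith [Int.lt_add_one_iff.1 h4]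
  have hD2 : D ^ 2 ≤ μ ^ 2 := by
    rw [← sq_abs D]
    exact pow_le_pow_left₀ (abs_nonneg _) hDμ 2
  rcases eq_or_lt_of_le hD2 with h | h
  · exact Or.inl h
  refine Or.inr ⟨h, ?_⟩
  have hJ0 : 0 < J := by
    have h1 : 0 < w * J := by
      rw [hJ]
      have : 0 < p - 1 := by linarith
      positivity
    exact (pos_iff_pos_of_mul_pos h1).1 hw
  have hJ1 : J ≤ 2 * μ ^ 2 := by
    have h1 := (abs_le.1 hDμ).2
    nlinarith
  have hA : |(μ ^ 2 - D ^ 2) * v ^ 2 - 4 * n * μ ^ 2 * v + 4 * n * μ ^ 2| ≤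
      |T| * v * (1 + 2 * μ) := by
    have h1 : (μ ^ 2 - D ^ 2) * v ^ 2 - 4 * n * μ ^ 2 * v + 4 * n * μ ^ 2 =
        -(T * (T + 2 * (e * μ * d))) := by
      rw [hTd]
      linear_combination (-μ ^ 2) * hd2 - (μ ^ 2 * d ^ 2) * he2
    have h2 : |T + 2 * (e * μ * d)| ≤ v + 2 * μ * v := by
      refine (abs_add_le _ _).trans ?_
      have a3 : |2 * (e * μ * d)| = 2 * μ * |d| := by
        rw [abs_mul, abs_mul, abs_mul, heabs, abs_of_pos hμ0, one_mul, abs_two]; ring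
      rw [a3]
      have : 2 * μ * |d| ≤ 2 * μ * v := mul_le_mul_of_nonneg_left hdv (by positivity)
      linarith
    rw [h1, abs_neg, abs_mul]
    calc |T| * |T + 2 * (e * μ * d)| ≤ |T| * (v + 2 * μ * v) :=
          mul_le_mul_of_nonneg_left h2 (abs_nonneg _)
      _ = _ := by ring
  have hvJ : v * J = p * μ ^ 2 * (p - 1) * N0 := by
    rw [hv]
    linear_combination p * hJ
  have key := arp1_core (p := p) (μ := μ) (v := v) (n := n) (m := μ ^ 2) (J := J) (N0 := N0)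
    (G := μ ^ 2 - D ^ 2) (T := T) (E := (μ ^ 2 - D ^ 2) * N0 - 4 * μ ^ 2 * J)
    (P := p * μ ^ 2 * (p - 1)) hμ rfl hbig hv0 hn hvn hJ0 hJ1 hN (by linarith) rfl hvJ rfl hA hTb
  linarith

end Pool.RY
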