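import Pool.Agent.Lib.MP_f4ebb7_co.RY.Defs2

/-! RY-ArP2: integer arithmetic: the case `G N0 = 4 m J` is impossible.

PROOF. `m = μ^2`, `Δ = J - m`, `G = m - Δ^2 > 0`, `v = p w`, `d = v - 2 (p^2 m + l)`. `J ≠ 0` (`hJ`: the right side is positive). `w J G = m (p-1) N0 G = 4 m^2 (p-1) J`, so `w G = 4 m^2 (p - 1)` and `v G = 4 p (p-1) m^2`.
`hds` gives `d^2 = v^2 - 4 n v + 4 n`, `n = p^2 m`. So `(G d)^2 = (G v)^2 - 4 n G (G v) + 4 n G^2 = 16 p^2 (p-1)^2 m^4 - 16 p^3 (p-1) m^3 G + 4 p^2 m G^2 = 4 p^2 m Q` with `Q = 4 (p-1)^2 m^3 - 4 p (p-1) m^2 G + G^2 = 4 (p-1) m^2 (p Δ^2 - m) + G^2`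
(as `(p-1) m - p G = p Δ^2 - m`).
`Δ = 0`: `G = m`, `Q = -4 (p-1) m^3 + m^2 < 0`: contradiction with `(G d)^2 ≥ 0`.
`Δ ≠ 0`: with `A = m (2 p Δ^2 - Δ^2 - m)` one has `Δ^2 Q = A^2 - G^2 (m^2 - Δ^2)` (`ring`, after `G = m - Δ^2`). So `(Δ G d)^2 = 4 p^2 m Δ^2 Q = (2 p μ)^2 (A^2 - G^2 (m^2 - Δ^2))`; so `(2 p μ)^2 ∣ (Δ G d)^2`, `2 p μ ∣ Δ G d` (`Int.pow_dvd_pow_iff`), `Δ G d = 2 p μ S`,
`S^2 = A^2 - G^2 (m^2 - Δ^2)`. `Δ^2 < m ≤ m^2`, so `G^2 (m^2 - Δ^2) > 0`, `|S| < A` (`A > 0`), `A^2 - S^2 = (A - |S|)(A + |S|) ≥ A`. So `A ≤ G^2 (m^2 - Δ^2) ≤ m^4`; but `A ≥ m (2 p - 1 - m - ...)`: `A = m (Δ^2 (2 p - 1) - m) ≥ m (2 p - 1 - m) > m^4` since `p > 2^18 μ^14 ≥ m^3 + m`.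
-/

set_option autoImplicit false

namespace Pool.RY



theorem ar_two {p μ w l N0 J : ℤ} (hμ : 2 ≤ μ) (hbig : 2 ^ 18 * μ ^ 14 < p) (hw : 0 < w) (hN : 1 ≤ N0)
    (hds : (p ^ 2 * μ ^ 2 + l) ^ 2 = p ^ 2 * μ ^ 2 + l * (p * w)) (hJ : w * J = μ ^ 2 * (p - 1) * N0)
    (hlt : (J - μ ^ 2) ^ 2 < μ ^ 2) (hG : (μ ^ 2 - (J - μ ^ 2) ^ 2) * N0 = 4 * μ ^ 2 * J) : False := by
  obtain ⟨Δ, hΔ⟩ : ∃ Δ, Δ = J - μ ^ 2 := ⟨_, rfl⟩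
  obtain ⟨G, hGd⟩ : ∃ G, G = μ ^ 2 - Δ ^ 2 := ⟨_, rfl⟩
  rw [← hΔ] at hlt hG
  rw [← hGd] at hG
  have hG0 : 0 < G := by
    rw [hGd]
    linarith
  have hm4 : 4 ≤ μ ^ 2 := by nlinarith
  have hμ0 : 0 < μ := by linarith
  -- `p` is large
  have hp3 : 2 * (μ ^ 2) ^ 3 < p := by
    have h1 : 1 ≤ μ ^ 8 := one_le_pow₀ (by linarith)
    have h2 : 0 ≤ μ ^ 6 := by positivity
    have h3 : μ ^ 6 ≤ μ ^ 14 := by
      have : μ ^ 14 = μ ^ 6 * μ ^ 8 := by ring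
      rw [this]
      nlinarith
    have h4 : (μ ^ 2) ^ 3 = μ ^ 6 := by ring
    rw [h4]
    nlinarith
  have hp0 : 0 < p := by
    have : 0 < (μ ^ 2) ^ 3 := by positivity
    linarith
  have h1 : w * G = 4 * μ ^ 4 * (p - 1) := by
    have h : (w * G) * N0 = (4 * μ ^ 4 * (p - 1)) * N0 := by
      linear_combination w * hG + 4 * μ ^ 2 * hJ
    exact mul_right_cancel₀ (show N0 ≠ 0 by omega) h
  obtain ⟨d, hd⟩ : ∃ d, d = p * w - 2 * (p ^ 2 * μ ^ 2 + l) := ⟨_, rfl⟩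
  have h2 : d ^ 2 = (p * w) ^ 2 - 4 * (p ^ 2 * μ ^ 2) * (p * w) + 4 * (p ^ 2 * μ ^ 2) := by
    rw [hd]
    linear_combination 4 * hds
  have h3 : G * (p * w) = 4 * p * (p - 1) * μ ^ 4 := by linear_combination p * h1
  have h4 : G ^ 2 * d ^ 2 = 4 * p ^ 2 * μ ^ 2 *
      (4 * (p - 1) * (μ ^ 2) ^ 2 * (p * Δ ^ 2 - μ ^ 2) + G ^ 2) := by
    have h5 : G ^ 2 * d ^ 2 = (G * (p * w)) ^ 2 - 4 * (p ^ 2 * μ ^ 2) * G * (G * (p * w))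
        + 4 * (p ^ 2 * μ ^ 2) * G ^ 2 := by
      rw [h2]
      ring
    rw [h5, h3, hGd]
    ring
  by_cases hD : Δ = 0
  · have hGm : G = μ ^ 2 := by
      rw [hGd, hD]
      ring
    rw [hD, hGm] at h4
    have h5 : (0 : ℤ) ≤ (μ ^ 2) ^ 2 * d ^ 2 := by positivity
    rw [h4] at h5
    have h6 : 4 * (p - 1) * (μ ^ 2) ^ 2 * (p * 0 ^ 2 - μ ^ 2) + (μ ^ 2) ^ 2 < 0 := by
      have h7 : 4 * (p - 1) * (μ ^ 2) ^ 2 * (p * 0 ^ 2 - μ ^ 2) + (μ ^ 2) ^ 2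
          = (μ ^ 2) ^ 2 * (1 - 4 * (p - 1) * μ ^ 2) := by ring
      rw [h7]
      refine mul_neg_of_pos_of_neg (by positivity) ?_
      have h8 : 1 ≤ p - 1 := by nlinarith
      nlinarith
    have h9 : 0 < 4 * p ^ 2 * μ ^ 2 := by positivity
    nlinarith
  · have hΔ1 : 1 ≤ Δ ^ 2 := by
      have : 0 < Δ ^ 2 := by positivity
      linarith
    obtain ⟨m, hm⟩ : ∃ m, m = μ ^ 2 := ⟨_, rfl⟩
    obtain ⟨A, hA⟩ : ∃ A, A = m * (2 * p * Δ ^ 2 - Δ ^ 2 - m) := ⟨_, rfl⟩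
    have h5 : (Δ * (G * d)) ^ 2 = (2 * p * μ) ^ 2 * (A ^ 2 - G ^ 2 * (m ^ 2 - Δ ^ 2)) := by
      have h6 : (Δ * (G * d)) ^ 2 = Δ ^ 2 * (G ^ 2 * d ^ 2) := by ring
      rw [h6, h4, hA, hm, hGd]
      ring
    have h6 : (2 * p * μ) ∣ Δ * (G * d) := by
      rw [← Int.pow_dvd_pow_iff (two_ne_zero)]
      exact ⟨_, h5⟩
    obtain ⟨S, hS⟩ := h6
    have h7 : S ^ 2 = A ^ 2 - G ^ 2 * (m ^ 2 - Δ ^ 2) := by
      rw [hS, mul_pow] at h5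
      exact mul_left_cancel₀ (by positivity) h5
    have hm0 : 4 ≤ m := by rw [hm]; exact hm4
    have hGm : G ≤ m - 1 := by rw [hGd, hm]; linarith
    have hΔm : Δ ^ 2 < m := by rw [hm]; exact hlt
    have hR0 : 0 < G ^ 2 * (m ^ 2 - Δ ^ 2) := by
      have : 0 < m ^ 2 - Δ ^ 2 := by nlinarith
      positivity
    have hR1 : G ^ 2 * (m ^ 2 - Δ ^ 2) ≤ m ^ 2 * m ^ 2 := by
      have h8 : G ^ 2 ≤ m ^ 2 := by nlinarith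
      have h9 : m ^ 2 - Δ ^ 2 ≤ m ^ 2 := by linarith
      exact mul_le_mul h8 h9 (by nlinarith) (by positivity)
    have hp4 : 2 * m ^ 3 < p := by rw [hm]; exact hp3
    have hA1 : m * (2 * p - 1 - m) ≤ A := by
      rw [hA]
      refine mul_le_mul_of_nonneg_left ?_ (by linarith)
      nlinarith
    have hA2 : m ^ 4 < m * (2 * p - 1 - m) := by
      have h8 : m ^ 3 < 2 * p - 1 - m := by nlinarith [pow_pos (show (0:ℤ) < m by linarith) 3]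
      calc m ^ 4 = m * m ^ 3 := by ring
        _ < m * (2 * p - 1 - m) := mul_lt_mul_of_pos_left h8 (by linarith)
    have hA0 : 0 < A := by
      have : 0 ≤ m ^ 4 := by positivity
      linarith
    have hS1 : |S| < A := by
      refine abs_lt_of_sq_lt_sq ?_ hA0.le
      linarith
    have hS2 : S ^ 2 ≤ (A - 1) ^ 2 := by
      rw [← sq_abs S]
      exact pow_le_pow_left₀ (abs_nonneg S) (by linarith) 2
    have : m ^ 2 * m ^ 2 = m ^ 4 := by ring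
    nlinarith

end Pool.RY
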