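import Pool.Agent.Lib.MP_f4ebb7_co.RY.Defs2

/-! RY-ArP3: integer arithmetic: the case `(J - m)^2 = m`: then `λ` or the `λ` of the complement is small.

PROOF. `m = μ^2`, `n = p^2 m`, `k = n + l`, `v = p w`, `d = v - 2k`, `Δ = J - m = f μ`, `f = 1` or `-1`, `T = v Δ - e μ d = μ (f v - e d)`.
If `f = e`: `T = e μ (v - d) = 2 e μ k`, so `4 p μ^2 k^2 ≤ 36 μ^4 v^2`, `p k^2 ≤ 9 μ^2 v^2`. `l v ≤ k^2` (`hds`), so `p (l v)^2 ≤ p k^4 ≤ 9 μ^2 v^2 k^2`, `p l^2 ≤ 9 μ^2 k^2` (`v > 0`). If `l ≥ n` then `k ≤ 2 l`, `p l^2 ≤ 36 μ^2 l^2`, `l > 0`: contradiction with `p > 36 μ^2`.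
So `l < n`, `k < 2 n`, `p l^2 ≤ 36 μ^2 n^2 = 36 μ^6 p^4`, `l^2 ≤ 36 μ^6 p^3`, `(2 l)^2 ≤ 144 μ^6 p^3 < p^4`: `2 l < p^2`.
If `f = -e`: `T = -e μ (v + d) = -2 e μ (v - k)`, so with `k' = v - k`, `l' = l + v - 2 k = k' - n`: `p k'^2 ≤ 9 μ^2 v^2` and `k'^2 = n + l' v` (expand `hds`). `hkv : k ≤ v` gives `k' ≥ 0`. If `l' ≤ 0` then `2 l' < p^2`. If `l' > 0`: the same argument with `k', l'` gives `2 l' < p^2`.
-/

set_option autoImplicit false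

namespace Pool.RY



private theorem ar3_key {p μ v l k n : ℤ} (hμ : 2 ≤ μ) (hbig : 2 ^ 18 * μ ^ 14 < p) (hv : 0 < v) (hl : 0 ≤ l)
    (hn : n = p ^ 2 * μ ^ 2) (hk : k = n + l) (hds : k ^ 2 = n + l * v) (hpk : p * k ^ 2 ≤ 9 * μ ^ 2 * v ^ 2) :
    2 * l < p ^ 2 := by
  have hμ1 : (1 : ℤ) ≤ μ := by omega
  have hμ2 : (1 : ℤ) ≤ μ ^ 2 := one_le_pow₀ hμ1
  have hμ6 : (1 : ℤ) ≤ μ ^ 6 := one_le_pow₀ hμ1
  have h12 : (1 : ℤ) ≤ μ ^ 12 := one_le_pow₀ hμ1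
  have h8 : (1 : ℤ) ≤ μ ^ 8 := one_le_pow₀ hμ1
  have hp36 : 36 * μ ^ 2 < p := by
    have : μ ^ 2 * 1 ≤ μ ^ 2 * μ ^ 12 := mul_le_mul_of_nonneg_left h12 (by positivity)
    have h3 : μ ^ 14 = μ ^ 2 * μ ^ 12 := by ring
    rw [h3] at hbig
    nlinarith
  have hp144 : 144 * μ ^ 6 < p := by
    have : μ ^ 6 * 1 ≤ μ ^ 6 * μ ^ 8 := mul_le_mul_of_nonneg_left h8 (by positivity)
    have h3 : μ ^ 14 = μ ^ 6 * μ ^ 8 := by ring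
    rw [h3] at hbig
    nlinarith
  have hp0 : 0 < p := by nlinarith
  have hn0 : 0 < n := by
    rw [hn]
    positivity
  have hk0 : 0 < k := by omega
  have h1 : l * v ≤ k ^ 2 := by omega
  have h2 : p * l ^ 2 ≤ 9 * μ ^ 2 * k ^ 2 := by
    have h3 : (l * v) ^ 2 ≤ (k ^ 2) ^ 2 := pow_le_pow_left₀ (mul_nonneg hl hv.le) h1 2
    have h4 : p * (l * v) ^ 2 ≤ p * (k ^ 2) ^ 2 := mul_le_mul_of_nonneg_left h3 hp0.le
    have h5 : p * k ^ 2 * k ^ 2 ≤ 9 * μ ^ 2 * v ^ 2 * k ^ 2 := mul_le_mul_of_nonneg_right hpk (by positivity)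
    have h6 : (p * l ^ 2) * v ^ 2 ≤ (9 * μ ^ 2 * k ^ 2) * v ^ 2 := by
      calc (p * l ^ 2) * v ^ 2 = p * (l * v) ^ 2 := by ring
        _ ≤ p * (k ^ 2) ^ 2 := h4
        _ = p * k ^ 2 * k ^ 2 := by ring
        _ ≤ 9 * μ ^ 2 * v ^ 2 * k ^ 2 := h5
        _ = (9 * μ ^ 2 * k ^ 2) * v ^ 2 := by ring
    exact le_of_mul_le_mul_right h6 (by positivity)
  have h3 : l < n := by
    by_contra hcon
    push Not at hcon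
    have hl0 : 0 < l := by omega
    have h4 : k ≤ 2 * l := by omega
    have h5 : k ^ 2 ≤ (2 * l) ^ 2 := pow_le_pow_left₀ hk0.le h4 2
    have h6 : p * l ^ 2 ≤ (36 * μ ^ 2) * l ^ 2 := by
      calc p * l ^ 2 ≤ 9 * μ ^ 2 * k ^ 2 := h2
        _ ≤ 9 * μ ^ 2 * (2 * l) ^ 2 := mul_le_mul_of_nonneg_left h5 (by positivity)
        _ = (36 * μ ^ 2) * l ^ 2 := by ring
    have h7 : p ≤ 36 * μ ^ 2 := le_of_mul_le_mul_right h6 (by positivity)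
    omega
  have h4 : k ≤ 2 * n := by omega
  have h5 : k ^ 2 ≤ (2 * n) ^ 2 := pow_le_pow_left₀ hk0.le h4 2
  have h6 : l ^ 2 * p ≤ (36 * μ ^ 6 * p ^ 3) * p := by
    calc l ^ 2 * p = p * l ^ 2 := by ring
      _ ≤ 9 * μ ^ 2 * k ^ 2 := h2
      _ ≤ 9 * μ ^ 2 * (2 * n) ^ 2 := mul_le_mul_of_nonneg_left h5 (by positivity)
      _ = (36 * μ ^ 6 * p ^ 3) * p := by rw [hn]; ring
  have h7 : l ^ 2 ≤ 36 * μ ^ 6 * p ^ 3 := le_of_mul_le_mul_right h6 hp0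
  have h8' : (2 * l) ^ 2 < (p ^ 2) ^ 2 := by
    calc (2 * l) ^ 2 = 4 * l ^ 2 := by ring
      _ ≤ 4 * (36 * μ ^ 6 * p ^ 3) := by omega
      _ = (144 * μ ^ 6) * p ^ 3 := by ring
      _ < p * p ^ 3 := mul_lt_mul_of_pos_right hp144 (by positivity)
      _ = (p ^ 2) ^ 2 := by ring
  exact lt_of_pow_lt_pow_left₀ 2 (by positivity) h8'

theorem ar_three {p μ w l J e : ℤ} (hμ : 2 ≤ μ) (hbig : 2 ^ 18 * μ ^ 14 < p) (hw : 0 < w) (hl : 0 ≤ l)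
    (he : e = 1 ∨ e = -1) (hds : (p ^ 2 * μ ^ 2 + l) ^ 2 = p ^ 2 * μ ^ 2 + l * (p * w))
    (hkv : p ^ 2 * μ ^ 2 + l ≤ p * w) (hJ : (J - μ ^ 2) ^ 2 = μ ^ 2)
    (hT : p * (p * w * (J - μ ^ 2) - e * μ * (p * w - 2 * (p ^ 2 * μ ^ 2 + l))) ^ 2 ≤ 36 * μ ^ 4 * (p * w) ^ 2) :
    2 * l < p ^ 2 ∨ 2 * (l + p * w - 2 * (p ^ 2 * μ ^ 2 + l)) < p ^ 2 := by
  have hμ1 : (1 : ℤ) ≤ μ := by omega
  have hp0 : 0 < p := by
    have h14 : (1 : ℤ) ≤ μ ^ 14 := one_le_pow₀ hμ1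
    nlinarith
  have hv : 0 < p * w := mul_pos hp0 hw
  have hμ2 : 0 < 4 * μ ^ 2 := by positivity
  have he2 : e ^ 2 = 1 := by
    rcases he with h | h <;> rw [h] <;> norm_num
  have hf : ∃ f : ℤ, (f = e ∨ f = -e) ∧ J - μ ^ 2 = f * μ := by
    have h1 : (J - μ ^ 2 - μ) * (J - μ ^ 2 + μ) = 0 := by linear_combination hJ
    rcases mul_eq_zero.1 h1 with h | h
    · refine ⟨1, ?_, by linarith⟩
      rcases he with h' | h' <;> rw [h'] <;> norm_num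
    · refine ⟨-1, ?_, by linarith⟩
      rcases he with h' | h' <;> rw [h'] <;> norm_num
  obtain ⟨f, hfe, hf⟩ := hf
  rw [hf] at hT
  rcases hfe with hfe | hfe
  · left
    refine ar3_key (v := p * w) (k := p ^ 2 * μ ^ 2 + l) (n := p ^ 2 * μ ^ 2) hμ hbig hv hl rfl rfl hds ?_
    rw [hfe] at hT
    have h1 : (4 * μ ^ 2) * (p * (p ^ 2 * μ ^ 2 + l) ^ 2) ≤ (4 * μ ^ 2) * (9 * μ ^ 2 * (p * w) ^ 2) := by
      calc (4 * μ ^ 2) * (p * (p ^ 2 * μ ^ 2 + l) ^ 2)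
          = e ^ 2 * ((4 * μ ^ 2) * (p * (p ^ 2 * μ ^ 2 + l) ^ 2)) := by rw [he2, one_mul]
        _ = p * (p * w * (e * μ) - e * μ * (p * w - 2 * (p ^ 2 * μ ^ 2 + l))) ^ 2 := by ring
        _ ≤ 36 * μ ^ 4 * (p * w) ^ 2 := hT
        _ = (4 * μ ^ 2) * (9 * μ ^ 2 * (p * w) ^ 2) := by ring
    exact le_of_mul_le_mul_left h1 hμ2
  · right
    by_cases hl' : 0 ≤ l + p * w - 2 * (p ^ 2 * μ ^ 2 + l)
    · refine ar3_key (v := p * w) (k := p * w - (p ^ 2 * μ ^ 2 + l)) (n := p ^ 2 * μ ^ 2) hμ hbig hv hl' rfl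
        (by ring) (by linear_combination hds) ?_
      rw [hfe] at hT
      have h1 : (4 * μ ^ 2) * (p * (p * w - (p ^ 2 * μ ^ 2 + l)) ^ 2) ≤ (4 * μ ^ 2) * (9 * μ ^ 2 * (p * w) ^ 2) := by
        calc (4 * μ ^ 2) * (p * (p * w - (p ^ 2 * μ ^ 2 + l)) ^ 2)
            = e ^ 2 * ((4 * μ ^ 2) * (p * (p * w - (p ^ 2 * μ ^ 2 + l)) ^ 2)) := by rw [he2, one_mul]
          _ = p * (p * w * (-e * μ) - e * μ * (p * w - 2 * (p ^ 2 * μ ^ 2 + l))) ^ 2 := by ring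
          _ ≤ 36 * μ ^ 4 * (p * w) ^ 2 := hT
          _ = (4 * μ ^ 2) * (9 * μ ^ 2 * (p * w) ^ 2) := by ring
      exact le_of_mul_le_mul_left h1 hμ2
    · push Not at hl'
      have h3 : 0 < p ^ 2 := by positivity
      linarith

end Pool.RY
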