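import Pool.Agent.Lib.MP_f4ebb7_co.RY.Cnt

/-! RY-B1: the autocorrelation of `N_t`.

PROOF. Let `τ (x, h) = (t x, h)`, an automorphism of `ZMod q × H` (`t` a unit), `ρ g = #{(a, b) ∈ D × D : a - b = g} = l + n [g = 0]` (`ds_rep`).
`N_t(g) = ∑_{a, b ∈ D} [τ a - b = g]`. So `ac (Nt D t) u = ∑_{a, b, a', b' ∈ D} [τ a' - b' = τ a - b + u]
= ∑_{a, a' ∈ D} #{(b', b) : b' - b = τ (a' - a) - u} = ∑_{a, a' ∈ D} ρ(τ (a' - a) - u) = |D|^2 l + n ρ(τ⁻¹ u)`.
`|D|^2 = n + l |G|` (`ds_sq`), `|G| = q * |H|` (`Fintype.card_prod`, `ZMod.card`). `nt_one`: `1 * x - y = x - y`, `ds_rep`.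
-/

set_option autoImplicit false

namespace Pool.RY

open Finset

variable {H : Type} [AddCommGroup H] [Fintype H] [DecidableEq H] {p s c m q n l : ℕ} [NeZero q]
  {D : Finset (ZMod q × H)}

private def tt {q : ℕ} {H : Type} (t : ZMod q) (g : ZMod q × H) : ZMod q × H := (t * g.1, g.2)

private theorem tt_sub (t : ZMod q) (a b : ZMod q × H) : tt t (a - b) = tt t a - tt t b := by
  unfold tt
  ext
  · simp [mul_sub]
  · simp

private theorem tt_inv (t : (ZMod q)ˣ) (a u : ZMod q × H) :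
    tt (t : ZMod q) a = u ↔ a = tt ((t⁻¹ : (ZMod q)ˣ) : ZMod q) u := by
  unfold tt
  constructor
  · intro h
    rw [← h]
    ext
    · simp
    · rfl
  · intro h
    rw [h]
    ext
    · simp
    · rfl

private theorem nt_sum (t : ZMod q) (g : ZMod q × H) :
    Nt D t g = ∑ a ∈ D, ∑ b ∈ D, if tt t a - b = g then (1 : ℤ) else 0 := by
  unfold Nt
  rw [Finset.card_filter, Finset.sum_product]
  push_cast
  rfl

private theorem rep_sum (hD : CHD.IsDS (ZMod q × H) D l) (hk : D.card = n + l) (g : ZMod q × H) :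
    ∑ a ∈ D, ∑ b ∈ D, (if a - b = g then (1 : ℤ) else 0) = (l : ℤ) + if g = 0 then (n : ℤ) else 0 := by
  rw [← ds_rep hD hk g, Finset.card_filter, Finset.sum_product]
  push_cast
  rfl

theorem nt_ac (hD : CHD.IsDS (ZMod q × H) D l) (hk : D.card = n + l) (t : (ZMod q)ˣ) (u : ZMod q × H) :
    ac (Nt D (t : ZMod q)) u = (l : ℤ) ^ 2 * ((q : ℤ) * Fintype.card H) + 2 * n * l + if u = 0 then (n : ℤ) ^ 2 else 0 := by
  have h1 : ac (Nt D (t : ZMod q)) u = ∑ a ∈ D, ∑ b ∈ D, Nt D (t : ZMod q) (tt (t : ZMod q) a - b + u) := by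
    unfold ac
    have h2 : ∀ g, Nt D (t : ZMod q) g * Nt D (t : ZMod q) (g + u)
        = ∑ a ∈ D, ∑ b ∈ D, if tt (t : ZMod q) a - b = g then Nt D (t : ZMod q) (g + u) else 0 := by
      intro g
      conv_lhs => rw [nt_sum (t : ZMod q) g]
      rw [Finset.sum_mul]
      refine Finset.sum_congr rfl fun a _ => ?_
      rw [Finset.sum_mul]
      refine Finset.sum_congr rfl fun b _ => ?_
      rw [ite_mul, one_mul, zero_mul]
    rw [Finset.sum_congr rfl fun g _ => h2 g, Finset.sum_comm]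
    refine Finset.sum_congr rfl fun a _ => ?_
    rw [Finset.sum_comm]
    refine Finset.sum_congr rfl fun b _ => ?_
    rw [Finset.sum_ite_eq, if_pos (Finset.mem_univ _)]
  have h3 : ∀ a ∈ D, ∑ b ∈ D, Nt D (t : ZMod q) (tt (t : ZMod q) a - b + u)
      = ∑ a' ∈ D, ((l : ℤ) + if a' - a = tt ((t⁻¹ : (ZMod q)ˣ) : ZMod q) u then (n : ℤ) else 0) := by
    intro a _
    have h4 : ∀ b ∈ D, Nt D (t : ZMod q) (tt (t : ZMod q) a - b + u)
        = ∑ a' ∈ D, ∑ b' ∈ D, if b' - b = tt (t : ZMod q) (a' - a) - u then (1 : ℤ) else 0 := by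
      intro b _
      rw [nt_sum]
      refine Finset.sum_congr rfl fun a' _ => Finset.sum_congr rfl fun b' _ => ?_
      refine if_congr ?_ rfl rfl
      rw [tt_sub]
      constructor
      · intro h
        have h5 : b' = tt (t : ZMod q) a' - (tt (t : ZMod q) a - b + u) := by
          rw [← h]; abel
        rw [h5]; abel
      · intro h
        have h5 : b' = tt (t : ZMod q) a' - tt (t : ZMod q) a - u + b := by
          rw [← h]; abel
        rw [h5]; abel
    rw [Finset.sum_congr rfl h4, Finset.sum_comm]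
    refine Finset.sum_congr rfl fun a' _ => ?_
    rw [Finset.sum_comm, rep_sum hD hk]
    congr 1
    refine if_congr ?_ rfl rfl
    rw [sub_eq_zero, tt_inv]
  have h6 : ∑ a ∈ D, ∑ a' ∈ D, (if a' - a = tt ((t⁻¹ : (ZMod q)ˣ) : ZMod q) u then (n : ℤ) else 0)
      = n * ((l : ℤ) + if u = 0 then (n : ℤ) else 0) := by
    rw [Finset.sum_comm]
    have h7 := rep_sum hD hk (tt ((t⁻¹ : (ZMod q)ˣ) : ZMod q) u)
    have h8 : (tt ((t⁻¹ : (ZMod q)ˣ) : ZMod q) u = 0) ↔ u = 0 := by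
      rw [tt_inv t⁻¹ u 0, inv_inv]
      have h9 : tt (t : ZMod q) (0 : ZMod q × H) = 0 := by
        unfold tt
        ext
        · simp
        · rfl
      rw [h9]
    rw [if_congr h8 rfl rfl] at h7
    rw [← h7, Finset.mul_sum]
    refine Finset.sum_congr rfl fun a' _ => ?_
    rw [Finset.mul_sum]
    refine Finset.sum_congr rfl fun a _ => ?_
    rw [mul_ite, mul_one, mul_zero]
  rw [h1, Finset.sum_congr rfl h3]
  have h10 : ∑ a ∈ D, ∑ a' ∈ D, ((l : ℤ) + if a' - a = tt ((t⁻¹ : (ZMod q)ˣ) : ZMod q) u then (n : ℤ) else 0)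
      = (D.card : ℤ) * ((D.card : ℤ) * l) + n * ((l : ℤ) + if u = 0 then (n : ℤ) else 0) := by
    rw [← h6]
    simp only [Finset.sum_add_distrib, Finset.sum_const, nsmul_eq_mul]
  rw [h10, hk]
  have h11 := ds_sq hD hk
  rw [Fintype.card_prod, ZMod.card] at h11
  push_cast at h11 ⊢
  split_ifs <;> linear_combination (l : ℤ) * h11

theorem nt_one (hD : CHD.IsDS (ZMod q × H) D l) (hk : D.card = n + l) (g : ZMod q × H) :
    Nt D 1 g = (l : ℤ) + if g = 0 then (n : ℤ) else 0 := by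
  rw [nt_sum, ← rep_sum hD hk g]
  refine Finset.sum_congr rfl fun a _ => Finset.sum_congr rfl fun b _ => ?_
  refine if_congr ?_ rfl rfl
  unfold tt
  rw [one_mul]

end Pool.RY
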