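import Pool.Agent.Lib.MP_f4ebb7_co.RY.Defs2

/-! RY-Unq: small supports.

PROOF. `inv_zero`: if `f g ≠ 0` then `f` is non-zero on `g + P` (`hinv`), which has `Nat.card P` elements: contradiction.
`sp_card`, `abs_sum`: `ac E 0 = ∑ E g * E (g + 0) = ∑ E g ^ 2`, and `1 ≤ E g ^ 2` on the support, `|E g| ≤ E g ^ 2` (integers).
`card_P1`: `P1` is in bijection with `{y : ZMod q | p y = 0}`, `q = p ^ s`, `s ≥ 1`: `y = p^(s-1) * j`, `j < p` (e.g. the solutions of `p y = 0` in
`ZMod q` correspond to `y.val` divisible by `p^(s-1)`, `y.val < p^s`; bijection with `Fin p` or `range p` by `j ↦ ((p^(s-1) * j : ℕ) : ZMod q)`).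
-/

set_option autoImplicit false

namespace Pool.RY

open Finset

theorem inv_zero {G : Type} [AddCommGroup G] [Fintype G] (P : AddSubgroup G) (f : G → ℤ) (hinv : Inv P f)
    (hS : (sp f).card < Nat.card P) (g : G) : f g = 0 := by
  by_contra hg
  have h1 : Nat.card P ≤ Nat.card (sp f : Set G) := by
    have : Finite (sp f : Set G) := (sp f).finite_toSet
    refine Nat.card_le_card_of_injective
      (fun y : P => (⟨g + y.1, ?_⟩ : (sp f : Set G))) ?_
    · simp only [sp, coe_filter, mem_univ, true_and, Set.mem_ofPred_eq]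
      rw [hinv y.1 y.2 g]
      exact hg
    · intro a b hab
      have h2 : g + a.1 = g + b.1 := congrArg Subtype.val hab
      exact Subtype.ext (add_left_cancel h2)
  have h2 : Nat.card (sp f : Set G) = (sp f).card := by
    rw [Nat.card_coe_set_eq, Set.ncard_coe_finset]
  omega

private theorem ryUnq_ac {G : Type} [AddCommGroup G] [Fintype G] (E : G → ℤ) :
    ac E 0 = ∑ g, E g ^ 2 := by
  unfold ac
  exact sum_congr rfl fun g _ => by rw [add_zero, pow_two]

theorem sp_card {G : Type} [AddCommGroup G] [Fintype G] (E : G → ℤ) (μ : ℕ) (h : ac E 0 = (μ : ℤ)) : (sp E).card ≤ μ := by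
  have h1 : ((sp E).card : ℤ) ≤ μ := by
    rw [← h, ryUnq_ac]
    calc ((sp E).card : ℤ) = ∑ _g ∈ sp E, 1 := by simp
      _ ≤ ∑ g ∈ sp E, E g ^ 2 := by
          refine sum_le_sum fun g hg => ?_
          have h2 : E g ≠ 0 := (mem_filter.1 hg).2
          have h3 : 0 < E g ^ 2 := by positivity
          omega
      _ ≤ ∑ g, E g ^ 2 := sum_le_sum_of_subset_of_nonneg (filter_subset _ _) fun g _ _ => sq_nonneg _
  exact_mod_cast h1

theorem abs_sum {G : Type} [AddCommGroup G] [Fintype G] (E : G → ℤ) (μ : ℕ) (h : ac E 0 = (μ : ℤ)) : ∑ g, |E g| ≤ (μ : ℤ) := by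
  rw [← h, ryUnq_ac]
  refine sum_le_sum fun g _ => ?_
  rcases eq_or_ne (E g) 0 with h0 | h0
  · simp [h0]
  · have h1 : 1 ≤ |E g| := Int.one_le_abs h0
    rw [← sq_abs]
    nlinarith

theorem card_P1 {p s q : ℕ} [NeZero q] (hp : p.Prime) (hs : 1 ≤ s) (hq : q = p ^ s) (H : Type) [AddCommGroup H] :
    Nat.card (P1 p q H) = p := by
  obtain ⟨r, rfl⟩ : ∃ r, s = r + 1 := ⟨s - 1, by omega⟩
  have hq' : q = p ^ r * p := by rw [hq, pow_succ]
  have hpr : 0 < p ^ r := pow_pos hp.pos _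
  have hmem : ∀ j : Fin p, (((p ^ r * j.1 : ℕ) : ZMod q), (0 : H)) ∈ P1 p q H := by
    intro j
    rw [mem_P1]
    refine ⟨?_, rfl⟩
    have h1 : (p : ZMod q) * ((p ^ r * j.1 : ℕ) : ZMod q) = ((p ^ r * p * j.1 : ℕ) : ZMod q) := by
      push_cast
      ring
    simp only
    rw [h1, ← hq', ZMod.natCast_eq_zero_iff]
    exact dvd_mul_right _ _
  have hlt : ∀ j : Fin p, p ^ r * j.1 < q := by
    intro j
    rw [hq']
    exact Nat.mul_lt_mul_of_pos_left j.2 hpr
  have hbij : Function.Bijective (fun j : Fin p => (⟨_, hmem j⟩ : P1 p q H)) := by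
    constructor
    · intro a b hab
      have h1 : ((p ^ r * a.1 : ℕ) : ZMod q) = ((p ^ r * b.1 : ℕ) : ZMod q) :=
        congrArg Prod.fst (congrArg Subtype.val hab)
      rw [ZMod.natCast_eq_natCast_iff] at h1
      have h2 : p ^ r * a.1 = p ^ r * b.1 := Nat.ModEq.eq_of_lt_of_lt h1 (hlt a) (hlt b)
      exact Fin.ext (Nat.eq_of_mul_eq_mul_left hpr h2)
    · rintro ⟨⟨y, h⟩, hy⟩
      rw [mem_P1] at hy
      obtain ⟨hy1, hy2⟩ := hy
      simp only at hy1 hy2
      have h1 : ((p * y.val : ℕ) : ZMod q) = 0 := by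
        rw [Nat.cast_mul, ZMod.natCast_zmod_val]
        exact hy1
      rw [ZMod.natCast_eq_zero_iff] at h1
      have h1' : p * p ^ r ∣ p * y.val := by
        rwa [show p * p ^ r = q by rw [hq', mul_comm]]
      have h2 : p ^ r ∣ y.val := Nat.dvd_of_mul_dvd_mul_left hp.pos h1'
      obtain ⟨j, hj⟩ := h2
      have h3 : y.val < q := ZMod.val_lt y
      have h4 : j < p := by
        have h5 : p ^ r * j < p ^ r * p := by
          rw [← hj, ← hq']
          exact h3
        exact Nat.lt_of_mul_lt_mul_left h5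
      refine ⟨⟨j, h4⟩, ?_⟩
      apply Subtype.ext
      simp only
      rw [hy2, ← hj, ZMod.natCast_zmod_val]
  rw [← Nat.card_congr (Equiv.ofBijective _ hbij), Nat.card_eq_fintype_card, Fintype.card_fin]

end Pool.RY
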