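import Pool.Agent.Lib.MP_f4ebb7_co.RY.Cnt
import Pool.Agent.Lib.MP_f4ebb7_co.RY.Unq

/-! RY-BigB: the counting contradiction, version with `3 m^2 < p`, `m ≥ 1`.

PROOF. As in RY/Big.lean (complete in the store: RY_mod_Big.lean, by helper85; copy and adapt). Differences: `m = 1` is allowed, so `n ≥ 2 p^2` may fail. The inequality needed is: all `b_i ≥ n/m^2 - √(2n)` implies `p b_i ≥ 2 n`, i.e. `p (n/m^2 - √(2n)) ≥ 2 n`.
`n = p^c m ≥ p^2 m`, `(p √(2n))^2 = 2 p^2 n ≤ 2 n^2/m`, so `p √(2n) ≤ n √(2/m)`; need `p/m^2 ≥ 2 + √(2/m)`. `m = 1`: `p > 3` prime, so `p ≥ 5 > 3.42`. `m ≥ 2`: `p > 3 m^2` and `√(2/m) ≤ 1`.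
Integer form: with `r = b_j - b_i`, `r^2 ≤ 2 n`, `m^2 b_j ≥ n`: `m^2 p b_i ≥ p n - m^2 p r`; for `m ≥ 2`, `(p r)^2 ≤ 2 p^2 n ≤ n^2` so `p r ≤ n`; for `m = 1`, `(p r)^2 ≤ 2 p^2 n ≤ 2 n^2 < (3n/2)^2`, `2 p r ≤ 3 n`, and `p ≥ 5`: `p n - p r ≥ 5 n - 3n/2 ≥ 2 n`.
-/

set_option autoImplicit false

namespace Pool.RY

open Finset

variable {H : Type} [AddCommGroup H] [Fintype H] [DecidableEq H] {p s c m q n l : ℕ} [NeZero q]
  {D : Finset (ZMod q × H)}

private theorem bigB_aux (p m n : ℕ) [NeZero p] (J : Finset (ZMod p)) (hJ : J.card ≤ m ^ 2)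
    (hp5 : 5 ≤ p) (hm : 1 ≤ m) (hpm : 3 * m ^ 2 < p) (hn : p ^ 2 * m ≤ n) (w : ZMod p → ℤ)
    (h1 : ∀ i j, (w i - w j) ^ 2 ≤ 2 * (n : ℤ)) (h2 : (n : ℤ) ≤ ∑ j ∈ J, w j) :
    2 * (n : ℤ) ≤ ∑ i, w i := by
  have hp0 : 0 < p := Nat.pos_of_ne_zero (NeZero.ne p)
  have hn0 : (0 : ℤ) < n := by
    have : 0 < n := by
      have : 0 < p ^ 2 * m := Nat.mul_pos (pow_pos hp0 2) hm
      omega
    exact_mod_cast this
  have hm0 : (0 : ℤ) < (m : ℤ) ^ 2 := by
    have : (0 : ℤ) < m := by exact_mod_cast hm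
    positivity
  have hex : ∃ j ∈ J, (n : ℤ) ≤ (m : ℤ) ^ 2 * w j := by
    by_contra hno
    push Not at hno
    have h3 : (m : ℤ) ^ 2 * ∑ j ∈ J, w j ≤ J.card * (n - 1 : ℤ) := by
      rw [Finset.mul_sum]
      calc ∑ j ∈ J, (m : ℤ) ^ 2 * w j ≤ ∑ j ∈ J, ((n : ℤ) - 1) := by
            apply Finset.sum_le_sum
            intro j hj
            have := hno j hj
            omega
        _ = J.card * (n - 1 : ℤ) := by rw [Finset.sum_const, nsmul_eq_mul]
    have h4 : (J.card : ℤ) ≤ (m : ℤ) ^ 2 := by exact_mod_cast hJ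
    have h5 : (J.card : ℤ) * (n - 1 : ℤ) ≤ (m : ℤ) ^ 2 * (n - 1) :=
      mul_le_mul_of_nonneg_right h4 (by omega)
    nlinarith
  obtain ⟨j, -, hj⟩ := hex
  have hall : ∀ i, 2 * (n : ℤ) ≤ p * w i := by
    intro i
    have h3 := h1 j i
    have hsq : ((p : ℤ) * (w j - w i)) ^ 2 ≤ 2 * (p : ℤ) ^ 2 * n := by
      calc ((p : ℤ) * (w j - w i)) ^ 2 = (p : ℤ) ^ 2 * (w j - w i) ^ 2 := by ring
        _ ≤ (p : ℤ) ^ 2 * (2 * n) := mul_le_mul_of_nonneg_left h3 (by positivity)
        _ = 2 * (p : ℤ) ^ 2 * n := by ring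
    rcases Nat.eq_or_lt_of_le hm with hm1 | hm2
    · -- `m = 1`
      have hj' : (n : ℤ) ≤ w j := by
        rw [← hm1] at hj
        simpa using hj
      have hn' : (p : ℤ) ^ 2 ≤ n := by
        rw [← hm1, mul_one] at hn
        exact_mod_cast hn
      have h4 : (2 * ((p : ℤ) * (w j - w i))) ^ 2 ≤ (3 * (n : ℤ)) ^ 2 := by
        have h5 : (p : ℤ) ^ 2 * n ≤ n * n := mul_le_mul_of_nonneg_right hn' hn0.le
        nlinarith
      have h5 := (abs_le_of_sq_le_sq' h4 (by positivity)).2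
      have h6 : (5 : ℤ) ≤ p := by exact_mod_cast hp5
      have h7 : (p : ℤ) * n ≤ p * w j := mul_le_mul_of_nonneg_left hj' (by positivity)
      have h8 : (5 : ℤ) * n ≤ p * n := mul_le_mul_of_nonneg_right h6 hn0.le
      nlinarith
    · have hn' : 2 * (p : ℤ) ^ 2 ≤ n := by
        have h4 : p ^ 2 * 2 ≤ n := (Nat.mul_le_mul_left _ hm2).trans hn
        have h5 : 2 * p ^ 2 ≤ n := by rw [mul_comm]; exact h4
        exact_mod_cast h5
      have hr : (p : ℤ) * (w j - w i) ≤ n := by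
        have h4 : ((p : ℤ) * (w j - w i)) ^ 2 ≤ (n : ℤ) ^ 2 := by
          calc ((p : ℤ) * (w j - w i)) ^ 2 ≤ 2 * (p : ℤ) ^ 2 * n := hsq
            _ ≤ n * n := mul_le_mul_of_nonneg_right hn' hn0.le
            _ = (n : ℤ) ^ 2 := by ring
        exact abs_le_of_sq_le_sq' h4 hn0.le |>.2
      have h3 : (m : ℤ) ^ 2 * (2 * n) ≤ (m : ℤ) ^ 2 * (p * w i) := by
        have h4 : (3 : ℤ) * m ^ 2 ≤ p := by exact_mod_cast hpm.le
        have h5 : (p : ℤ) * n ≤ p * (m ^ 2 * w j) := mul_le_mul_of_nonneg_left hj (by positivity)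
        have h6 : (m : ℤ) ^ 2 * (p * (w j - w i)) ≤ m ^ 2 * n := mul_le_mul_of_nonneg_left hr hm0.le
        have h7 : (3 : ℤ) * m ^ 2 * n ≤ p * n := mul_le_mul_of_nonneg_right h4 hn0.le
        linarith
      exact le_of_mul_le_mul_left h3 hm0
  have hsum : (p : ℤ) * (2 * n) ≤ p * ∑ i, w i := by
    rw [Finset.mul_sum]
    calc (p : ℤ) * (2 * n) = ∑ _i : ZMod p, 2 * (n : ℤ) := by
          rw [Finset.sum_const, nsmul_eq_mul, Finset.card_univ, ZMod.card]
      _ ≤ ∑ i, (p : ℤ) * w i := Finset.sum_le_sum (fun i _ => hall i)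
  exact le_of_mul_le_mul_left hsum (by exact_mod_cast hp0)

theorem bigB (hp : p.Prime) (hs : 1 ≤ s) (hq : q = p ^ s) (hc : 2 ≤ c) (hm : 1 ≤ m) (hbig : 3 * m ^ 2 < p)
    (hn : n = p ^ c * m) (hD : CHD.IsDS (ZMod q × H) D l) (hk : D.card = n + l) (J : Finset (ZMod p)) (hJ : J.card ≤ m ^ 2)
    (hinv : ∀ x : ZMod q, ((x.val : ℕ) : ZMod p) ∉ J →
      ∀ y : ZMod q, (p : ZMod q) * y = 0 → ∀ h : H, ((x + y, h) ∈ D ↔ (x, h) ∈ D)) : False := by
  classical
  have hp1 : 1 < p := hp.one_lt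
  haveI : NeZero p := ⟨hp.ne_zero⟩
  have hpq : p ∣ q := by
    rw [hq]
    exact dvd_pow_self p (by have := hs; omega)
  set φ : ZMod q × H →+ ZMod p :=
    (ZMod.castHom hpq (ZMod p)).toAddMonoidHom.comp (AddMonoidHom.fst (ZMod q) H) with hφdef
  have hφv : ∀ g, φ g = ((g.1.val : ℕ) : ZMod p) := by
    intro g
    rw [ZMod.natCast_val]
    rfl
  have hφ : Function.Surjective φ := by
    intro y
    obtain ⟨x, hx⟩ := ZMod.castHom_surjective hpq y
    exact ⟨(x, 0), hx⟩
  have hcG : Fintype.card (ZMod q × H) = p ^ s * Fintype.card H := by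
    rw [Fintype.card_prod, ZMod.card, hq]
  have hκ : p ^ (s - 1) * Fintype.card H * Fintype.card (ZMod p) =
      Fintype.card (ZMod q × H) := by
    rw [hcG, ZMod.card]
    obtain ⟨r, hr⟩ : ∃ r, s = r + 1 := ⟨s - 1, by have := hs; omega⟩
    rw [hr, Nat.add_sub_cancel, pow_succ]
    ring
  -- differences of the fibre numbers
  have hdiff : ∀ i j, (fib φ D i - fib φ D j) ^ 2 ≤ 2 * (n : ℤ) := by
    intro i j
    by_cases hij : i = j
    · rw [hij, sub_self]
      positivity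
    · have h1 := ac_diff (fib φ D) (j - i)
      have h2 := push_ac φ hφ _ hκ hD hk 0
      have h3 := push_ac φ hφ _ hκ hD hk (j - i)
      rw [if_pos rfl] at h2
      rw [if_neg (sub_ne_zero.2 (Ne.symm hij))] at h3
      rw [h2, h3] at h1
      have h4 : (fib φ D i - fib φ D (i + (j - i))) ^ 2 ≤
          ∑ g, (fib φ D g - fib φ D (g + (j - i))) ^ 2 :=
        Finset.single_le_sum (f := fun g => (fib φ D g - fib φ D (g + (j - i))) ^ 2)
          (fun g _ => sq_nonneg _) (Finset.mem_univ i)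
      rw [add_sub_cancel, h1] at h4
      linarith
  -- sums over fibres
  have hswap : ∀ f : ZMod q × H → ℤ, ∑ j ∈ J, (∑ g, if φ g = j then f g else 0) =
      ∑ g, if φ g ∈ J then f g else 0 := by
    intro f
    rw [Finset.sum_comm]
    apply Finset.sum_congr rfl
    intro g _
    rw [Finset.sum_ite_eq]
  have hfib : ∀ j, fib φ D j = ∑ g, if φ g = j then ind D g else 0 := by
    intro j
    unfold fib ind
    have h1 : (D.filter fun d => φ d = j) = univ.filter (fun g => φ g = j ∧ g ∈ D) := by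
      ext g
      simp only [Finset.mem_filter, Finset.mem_univ, true_and]
      exact and_comm
    rw [h1, Finset.card_filter]
    push_cast
    apply Finset.sum_congr rfl
    intro g _
    by_cases h2 : φ g = j <;> by_cases h3 : g ∈ D <;> simp [h2, h3]
  have hone : ∀ i j, (∑ g, if φ g = i then (1 : ℤ) else 0) = ∑ g, if φ g = j then (1 : ℤ) else 0 := by
    intro i j
    obtain ⟨u, hu⟩ := hφ (j - i)
    rw [← Equiv.sum_comp (Equiv.addRight u) (fun g => if φ g = j then (1 : ℤ) else 0)]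
    apply Finset.sum_congr rfl
    intro g _
    have : (φ (g + u) = j) ↔ (φ g = i) := by
      rw [map_add, hu]
      constructor
      · intro h1
        rw [← add_sub_cancel_right (φ g) (j - i), h1]; abel
      · intro h1
        rw [h1]; abel
    simp only [Equiv.coe_addRight]
    simp only [this]
  obtain ⟨κ, hκdef⟩ : ∃ κ : ℤ, κ = ∑ g, if φ g = 0 then (1 : ℤ) else 0 := ⟨_, rfl⟩
  have hκj : ∀ j, (∑ g, if φ g = j then (1 : ℤ) else 0) = κ := fun j => by rw [hκdef]; exact hone j 0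
  have hcfib : ∀ j, κ - fib φ D j = ∑ g, if φ g = j then (1 - ind D g) else 0 := by
    intro j
    rw [hfib, ← hκj j, ← Finset.sum_sub_distrib]
    apply Finset.sum_congr rfl
    intro g _
    split_ifs <;> ring
  -- the elements of `P1`
  set Y : Finset (ZMod q × H) := univ.filter (fun y => y ∈ P1 p q H ∧ y ≠ 0) with hY
  have hYc : (Y.card : ℤ) = p - 1 := by
    have h1 := card_P1 hp hs hq H
    have h2 : Nat.card (P1 p q H) = (univ.filter (fun y : ZMod q × H => y ∈ P1 p q H)).card := by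
      rw [Nat.card_eq_fintype_card, Fintype.card_subtype]
    have h3 : Y = (univ.filter (fun y : ZMod q × H => y ∈ P1 p q H)).erase 0 := by
      ext y
      simp only [hY, Finset.mem_filter, Finset.mem_univ, true_and, Finset.mem_erase]
      tauto
    rw [h3, Finset.card_erase_of_mem (by simp [(P1 p q H).zero_mem]), ← h2, h1]
    push_cast [hp1.le]
    ring
  have hYp : (0 : ℤ) < p - 1 := by
    have : (1 : ℤ) < p := by exact_mod_cast hp1
    omega
  have hmemY : ∀ y ∈ Y, ∀ g, φ g ∉ J → ind D (g + y) = ind D g := by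
    intro y hy g hg
    rw [hY, Finset.mem_filter] at hy
    obtain ⟨-, ⟨hy1, hy2⟩, -⟩ := hy
    rw [hφv] at hg
    have h1 := hinv g.1 hg y.1 hy1 g.2
    have h2 : g + y = (g.1 + y.1, g.2) := by
      apply Prod.ext
      · rfl
      · rw [Prod.snd_add, hy2, add_zero]
    unfold ind
    rw [h2]
    have h3 : (g ∈ D) ↔ ((g.1, g.2) ∈ D) := Iff.rfl
    by_cases h4 : g ∈ D
    · rw [if_pos h4, if_pos (h1.2 h4)]
    · rw [if_neg h4, if_neg (fun h5 => h4 (h1.1 h5))]
  have hind01 : ∀ g, ind D g = 0 ∨ ind D g = 1 := by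
    intro g
    unfold ind
    split_ifs
    · right; rfl
    · left; rfl
  have hindsum : ∑ g, ind D g = (n : ℤ) + l := by
    unfold ind
    rw [Finset.sum_ite_mem, Finset.univ_inter, Finset.sum_const, hk]
    push_cast
    ring
  have hac : ∀ y ∈ Y, ∑ g, ind D g * ind D (g + y) = (l : ℤ) := by
    intro y hy
    rw [hY, Finset.mem_filter] at hy
    have h1 := ds_ac hD hk y
    rw [if_neg hy.2.2, add_zero] at h1
    exact h1
  have hsum1 : (n : ℤ) ≤ ∑ j ∈ J, fib φ D j := by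
    have h1 : (p - 1 : ℤ) * n = ∑ y ∈ Y, ∑ g, ind D g * (1 - ind D (g + y)) := by
      rw [← hYc, ← nsmul_eq_mul, ← Finset.sum_const]
      apply Finset.sum_congr rfl
      intro y hy
      have : ∀ g, ind D g * (1 - ind D (g + y)) = ind D g - ind D g * ind D (g + y) := by
        intro g; ring
      simp only [this]
      rw [Finset.sum_sub_distrib, hindsum, hac y hy]
      ring
    have h2 : ∑ y ∈ Y, ∑ g, ind D g * (1 - ind D (g + y)) ≤
        ∑ _y ∈ Y, ∑ g, if φ g ∈ J then ind D g else 0 := by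
      apply Finset.sum_le_sum
      intro y hy
      apply Finset.sum_le_sum
      intro g _
      split_ifs with hg
      · rcases hind01 g with h3 | h3 <;> rcases hind01 (g + y) with h4 | h4 <;> rw [h3, h4] <;>
          norm_num
      · rw [hmemY y hy g hg]
        rcases hind01 g with h3 | h3 <;> rw [h3] <;> norm_num
    rw [← h1, Finset.sum_const, nsmul_eq_mul, hYc, ← hswap] at h2
    have h3 := le_of_mul_le_mul_left h2 hYp
    simpa only [← hfib] using h3
  have hsum2 : (n : ℤ) ≤ ∑ j ∈ J, (κ - fib φ D j) := by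
    have h1 : (p - 1 : ℤ) * n = ∑ y ∈ Y, ∑ g, (1 - ind D g) * ind D (g + y) := by
      rw [← hYc, ← nsmul_eq_mul, ← Finset.sum_const]
      apply Finset.sum_congr rfl
      intro y hy
      have : ∀ g, (1 - ind D g) * ind D (g + y) = ind D (g + y) - ind D g * ind D (g + y) := by
        intro g; ring
      simp only [this]
      have h2 : ∑ g, ind D (g + y) = (n : ℤ) + l := by
        rw [← hindsum]
        exact Equiv.sum_comp (Equiv.addRight y) (fun g => ind D g)
      rw [Finset.sum_sub_distrib, h2, hac y hy]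
      ring
    have h2 : ∑ y ∈ Y, ∑ g, (1 - ind D g) * ind D (g + y) ≤
        ∑ _y ∈ Y, ∑ g, if φ g ∈ J then (1 - ind D g) else 0 := by
      apply Finset.sum_le_sum
      intro y hy
      apply Finset.sum_le_sum
      intro g _
      split_ifs with hg
      · rcases hind01 g with h3 | h3 <;> rcases hind01 (g + y) with h4 | h4 <;> rw [h3, h4] <;>
          norm_num
      · rw [hmemY y hy g hg]
        rcases hind01 g with h3 | h3 <;> rw [h3] <;> norm_num
    rw [← h1, Finset.sum_const, nsmul_eq_mul, hYc, ← hswap] at h2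
    have h3 := le_of_mul_le_mul_left h2 hYp
    simpa only [← hcfib] using h3
  have hp5 : 5 ≤ p := by
    have h1 : 1 ≤ m ^ 2 := Nat.one_le_pow _ _ hm
    have h3 : 3 < p := by omega
    rcases Nat.eq_or_lt_of_le (show 4 ≤ p by omega) with h4 | h4
    · exfalso
      rw [← h4] at hp
      exact absurd hp (by norm_num)
    · omega
  have hn2 : p ^ 2 * m ≤ n := by
    rw [hn]
    exact Nat.mul_le_mul_right _ (Nat.pow_le_pow_right hp.pos hc)
  have hn0' : 0 < n := by
    have : 0 < p ^ 2 * m := Nat.mul_pos (pow_pos hp.pos 2) hm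
    omega
  have hA := bigB_aux p m n J hJ hp5 hm hbig hn2 (fib φ D) hdiff hsum1
  have hB := bigB_aux p m n J hJ hp5 hm hbig hn2 (fun j => κ - fib φ D j) (by
    intro i j
    have := hdiff j i
    have h1 : (κ - fib φ D i - (κ - fib φ D j)) ^ 2 = (fib φ D j - fib φ D i) ^ 2 := by ring
    rw [h1]; exact this) hsum2
  have hfs : ∑ j, fib φ D j = (n : ℤ) + l := by
    rw [fib_sum, hk]; push_cast; ring
  have hκs : ∑ _j : ZMod p, κ = (Fintype.card (ZMod q × H) : ℤ) := by
    have h1 : ∑ j : ZMod p, (∑ g, if φ g = j then (1 : ℤ) else 0) =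
        (Fintype.card (ZMod q × H) : ℤ) := by
      rw [Finset.sum_comm]
      simp
    rw [← h1]
    apply Finset.sum_congr rfl
    intro j _
    exact (hκj j).symm
  rw [hfs] at hA
  rw [Finset.sum_sub_distrib, hκs, hfs] at hB
  have hsq := ds_sq hD hk
  have hn0 : (0 : ℤ) < n := by exact_mod_cast hn0'
  have hl0 : (0 : ℤ) ≤ l := by positivity
  nlinarith [mul_le_mul_of_nonneg_left hB hl0, mul_le_mul_of_nonneg_left hA hn0.le]

end Pool.RY
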