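import Pool.Agent.Lib.MP_f4ebb7_co.RY.Defs3

/-! RY-Chr: the characters `χ_b` of `ZMod q × ZMod w` with values in `R`.

PROOF. `wq C r i = z^(r * i.val)`, `z_pow_eq_iff`: exponents modulo `2 q w`. `wq_add`: `(x + y).val ≡ x.val + y.val mod q` (`ZMod.val_add`), multiplied by `2 w`. `wq_add'` the same for `ZMod w` with `2 q`.
`cj_chi`: `cj = sg (-1)`, `(-1).val + 1 ≡ 0 mod 2qw`; so `cj (z^(2 w a)) * z^(2 w a) = 1` and `z^(2w a) * (inverse) = 1` (compare RY/El.lean: `neg_one_val`, `cj_wz`).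
`sg_chi`: `T.val * (2 w x.val) ≡ 2 w (t x).val mod 2qw` from `T.val ≡ t.val mod q`; `T.val * 2 q y.val ≡ 2 q y.val mod 2qw` from `T.val ≡ 1 mod 2 w` (so mod `w`).
`phi_mul_cj`: expand, `χ (a) cj χ(b) = χ (a - b)`, group the pairs by the difference (`Finset.sum_fiberwise`); `∑_g (ind A g) χ g = ∑_{a ∈ A} χ a`. `phi_nt`: the same, `sg T (χ (x,h)) = χ (t x, h)`.
`sum_chi`: `∑_x ζ_q^x = 0` for `q > 1` (shift by `1`: `ζ_q ≠ 1`), times `∑_h`.
`inv_b`: multiply by `wq C (2q) (-(b h₀))` and sum over `b`: `∑_b wq C (2q) (b (h - h₀)) = w [h = h₀]` (for `h ≠ h₀` a shift `b → b + 1` multiplies by `wq (h - h₀) ≠ 1`). So `w * (κ ∑_x f(x,h₀) ζ_q^x) ∈ I`; also `p^e * (...) ∈ I`;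
Bezout for `gcd(w, p^e) = 1` (`Int.gcd_eq_gcd_ab` or `Nat.Coprime` / `IsCoprime` of integers, cast to `R`).
-/

set_option autoImplicit false

namespace Pool.RY

open Finset CHD

section gen

variable {N : ℕ} [NeZero N] {R : Type} [CommRing R] (C : Cyc N R)

private theorem gprim {q r : ℕ} (hN : N = q * r) : IsPrimitiveRoot (C.z ^ r) q :=
  (z_prim C).pow (NeZero.pos N) (by rw [hN, mul_comm])

private theorem gchar {q r : ℕ} [NeZero q] (hN : N = q * r) (i : ZMod q) :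
    wq C r i = AddChar.zmodChar q (gprim C hN).pow_eq_one i := by
  rw [AddChar.zmodChar_apply]
  unfold wq
  rw [pow_mul]

private theorem gadd {q r : ℕ} [NeZero q] (hN : N = q * r) (i j : ZMod q) :
    wq C r (i + j) = wq C r i * wq C r j := by
  rw [gchar C hN, gchar C hN, gchar C hN, AddChar.map_add_eq_mul]

private theorem gsum [IsDomain R] {q r : ℕ} [NeZero q] (hN : N = q * r) (j : ZMod q) :
    ∑ a : ZMod q, wq C r (a * j) = if j = 0 then (q : R) else 0 := by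
  have h := AddChar.sum_mulShift (R := ZMod q) (R' := R) j
    (AddChar.zmodChar_primitive_of_primitive_root q (gprim C hN))
  rw [ZMod.card] at h
  rw [Finset.sum_congr rfl fun a _ => gchar C hN (a * j)]
  rw [h]
  split_ifs <;> simp

private theorem gzero {q r : ℕ} : wq C r (0 : ZMod q) = 1 := by
  unfold wq
  rw [ZMod.val_zero, mul_zero, pow_zero]

private theorem gsg {q r : ℕ} [NeZero q] (hN : N = q * r) (T : (ZMod N)ˣ) (t : ZMod q)
    (hT : (T : ZMod N).val ≡ t.val [MOD q]) (k : ZMod q) :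
    C.sg T (wq C r k) = wq C r (t * k) := by
  unfold wq
  rw [sg_pow_z, z_pow_eq_iff]
  have h1 : (T : ZMod N).val * k.val ≡ (t * k).val [MOD q] := by
    rw [ZMod.val_mul]
    exact (hT.mul_right k.val).trans (Nat.mod_modEq _ _).symm
  have h2 := Nat.ModEq.mul_left' r h1
  have h3 : r * q = N := by rw [hN, mul_comm]
  rw [h3] at h2
  have h4 : (T : ZMod N).val * (r * k.val) = r * ((T : ZMod N).val * k.val) := by ring
  rw [h4]
  exact h2

private theorem neg_one_val' {q r : ℕ} [NeZero q] (hN : N = q * r) :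
    ((-1 : (ZMod N)ˣ) : ZMod N).val ≡ (-1 : ZMod q).val [MOD q] := by
  have h3 : (((((-1 : (ZMod N)ˣ) : ZMod N).val + 1 : ℕ)) : ZMod N) = ((0 : ℕ) : ZMod N) := by
    push_cast
    rw [ZMod.natCast_zmod_val]
    simp
  have h4 := (ZMod.natCast_eq_natCast_iff _ _ _).1 h3
  have h5 : ((-1 : (ZMod N)ˣ) : ZMod N).val + 1 ≡ 0 [MOD q] := h4.of_dvd ⟨r, hN⟩
  have h6 : (((((-1 : (ZMod N)ˣ) : ZMod N).val + 1 : ℕ)) : ZMod q) = ((0 : ℕ) : ZMod q) :=
    (ZMod.natCast_eq_natCast_iff _ _ _).2 h5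
  rw [← ZMod.natCast_eq_natCast_iff, ZMod.natCast_zmod_val]
  push_cast at h6
  linear_combination h6

private theorem gcj {q r : ℕ} [NeZero q] (hN : N = q * r) (k : ZMod q) : C.cj (wq C r k) = wq C r (-k) := by
  unfold Cyc.cj
  rw [gsg C hN (-1) (-1) (neg_one_val' hN) k, neg_one_mul]

end gen

variable {q w : ℕ} [NeZero q] [NeZero w] {R : Type} [CommRing R] (C : Cyc (2 * q * w) R)

private theorem hNq (q w : ℕ) : 2 * q * w = q * (2 * w) := by ring

private theorem hNw (q w : ℕ) : 2 * q * w = w * (2 * q) := by ring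

theorem wq_add (x y : ZMod q) : wq C (2 * w) (x + y) = wq C (2 * w) x * wq C (2 * w) y :=
  gadd C (hNq q w) x y

theorem wq_zero (r : ℕ) : wq C r (0 : ZMod q) = 1 := gzero C

theorem wq_nat (i : ℕ) (x : ZMod q) : wq C (2 * w) ((i : ZMod q) * x) = wq C (2 * w) x ^ i := by
  induction i with
  | zero => rw [Nat.cast_zero, zero_mul, pow_zero, wq_zero]
  | succ i ih => rw [Nat.cast_succ, add_mul, one_mul, wq_add, ih, pow_succ]

theorem chi_add (b : ZMod w) (g g' : ZMod q × ZMod w) : chi C b (g + g') = chi C b g * chi C b g' := by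
  unfold chi
  rw [Prod.fst_add, Prod.snd_add, wq_add, mul_add, gadd C (hNw q w)]
  ring

theorem cj_chi (b : ZMod w) (g : ZMod q × ZMod w) : C.cj (chi C b g) = chi C b (-g) := by
  unfold chi
  have h : C.cj (wq C (2 * w) g.1 * wq C (2 * q) (b * g.2)) =
      C.cj (wq C (2 * w) g.1) * C.cj (wq C (2 * q) (b * g.2)) := by
    unfold Cyc.cj
    rw [map_mul]
  rw [h, gcj C (hNq q w), gcj C (hNw q w), Prod.fst_neg, Prod.snd_neg, mul_neg]

theorem sg_chi (T : (ZMod (2 * q * w))ˣ) (t : ZMod q) (h1 : (T : ZMod (2 * q * w)).val ≡ t.val [MOD q])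
    (h2 : (T : ZMod (2 * q * w)).val ≡ 1 [MOD 2 * w]) (b : ZMod w) (x : ZMod q) (h : ZMod w) :
    C.sg T (chi C b (x, h)) = chi C b (t * x, h) := by
  unfold chi
  rw [map_mul, gsg C (hNq q w) T t h1 x]
  congr 1
  have h3 : (T : ZMod (2 * q * w)).val ≡ (1 : ZMod w).val [MOD w] := by
    have h4 : (T : ZMod (2 * q * w)).val ≡ 1 [MOD w] := h2.of_dvd ⟨2, mul_comm _ _⟩
    refine h4.trans ?_
    rw [← ZMod.natCast_eq_natCast_iff, ZMod.natCast_zmod_val, Nat.cast_one]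
  rw [gsg C (hNw q w) T 1 h3, one_mul]

private theorem Phi_ind (b : ZMod w) (A : Finset (ZMod q × ZMod w)) :
    Phi C b (ind A) = ∑ a ∈ A, chi C b a := by
  unfold Phi ind
  rw [← Finset.sum_filter_add_sum_filter_not univ (fun g => g ∈ A)]
  have h1 : ∑ g ∈ univ.filter (fun g => g ∉ A), (((if g ∈ A then 1 else 0 : ℤ)) : R) * chi C b g = 0 := by
    refine sum_eq_zero fun g hg => ?_
    rw [if_neg (mem_filter.1 hg).2, Int.cast_zero, zero_mul]
  rw [h1, add_zero]
  have h2 : univ.filter (fun g => g ∈ A) = A := by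
    ext g
    simp
  rw [h2]
  refine sum_congr rfl fun g hg => ?_
  rw [if_pos hg, Int.cast_one, one_mul]

private theorem sum_pairs (b : ZMod w) (S : Finset ((ZMod q × ZMod w) × (ZMod q × ZMod w)))
    (φ : (ZMod q × ZMod w) × (ZMod q × ZMod w) → ZMod q × ZMod w) :
    ∑ e ∈ S, chi C b (φ e) = ∑ g, (((S.filter fun e => φ e = g).card : ℤ) : R) * chi C b g := by
  rw [← Finset.sum_fiberwise_of_maps_to (s := S) (t := univ) (g := φ) (fun e _ => mem_univ _)]
  refine sum_congr rfl fun g _ => ?_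
  rw [Finset.sum_congr rfl (g := fun _ => chi C b g) (fun e he => by rw [(mem_filter.1 he).2]), sum_const,
    nsmul_eq_mul]
  push_cast
  rfl

private theorem cj_sum {ι : Type} (S : Finset ι) (f : ι → R) : C.cj (∑ i ∈ S, f i) = ∑ i ∈ S, C.cj (f i) := by
  unfold Cyc.cj
  rw [map_sum]

theorem phi_mul_cj (b : ZMod w) (A B : Finset (ZMod q × ZMod w)) :
    Phi C b (ind A) * C.cj (Phi C b (ind B)) = Phi C b (cnt A B) := by
  rw [Phi_ind, Phi_ind, cj_sum, sum_mul_sum, ← sum_product']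
  have h1 : ∀ e ∈ A ×ˢ B, chi C b e.1 * C.cj (chi C b e.2) = chi C b (e.1 - e.2) := by
    intro e _
    rw [cj_chi, ← chi_add, sub_eq_add_neg]
  rw [sum_congr rfl h1, sum_pairs C b (A ×ˢ B) (fun e => e.1 - e.2)]
  rfl

theorem phi_nt (T : (ZMod (2 * q * w))ˣ) (t : ZMod q) (h1 : (T : ZMod (2 * q * w)).val ≡ t.val [MOD q])
    (h2 : (T : ZMod (2 * q * w)).val ≡ 1 [MOD 2 * w]) (b : ZMod w) (D : Finset (ZMod q × ZMod w)) :
    C.sg T (Phi C b (ind D)) * C.cj (Phi C b (ind D)) = Phi C b (Nt D t) := by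
  rw [Phi_ind, map_sum, cj_sum, sum_mul_sum, ← sum_product']
  have h3 : ∀ e ∈ D ×ˢ D, C.sg T (chi C b e.1) * C.cj (chi C b e.2) =
      chi C b (t * e.1.1 - e.2.1, e.1.2 - e.2.2) := by
    intro e _
    have h4 : C.sg T (chi C b e.1) = chi C b (t * e.1.1, e.1.2) := sg_chi C T t h1 h2 b e.1.1 e.1.2
    rw [h4, cj_chi, ← chi_add]
    congr 1
    ext
    · simp [sub_eq_add_neg]
    · simp [sub_eq_add_neg]
  rw [sum_congr rfl h3, sum_pairs C b (D ×ˢ D) (fun e => (t * e.1.1 - e.2.1, e.1.2 - e.2.2))]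
  rfl

theorem sum_chi [IsDomain R] (hq : 1 < q) (b : ZMod w) : ∑ g : ZMod q × ZMod w, chi C b g = 0 := by
  rw [Fintype.sum_prod_type]
  unfold chi
  simp only
  have h1 : ∀ x : ZMod q, ∑ y : ZMod w, wq C (2 * w) x * wq C (2 * q) (b * y) =
      wq C (2 * w) x * ∑ y : ZMod w, wq C (2 * q) (b * y) := fun x => (mul_sum _ _ _).symm
  rw [sum_congr rfl fun x _ => h1 x, ← sum_mul]
  have h2 : ∑ x : ZMod q, wq C (2 * w) x = 0 := by
    have h3 := gsum C (hNq q w) (1 : ZMod q)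
    have h4 : (1 : ZMod q) ≠ 0 := by
      have : Fact (1 < q) := ⟨hq⟩
      exact one_ne_zero
    rw [if_neg h4] at h3
    rw [← h3]
    exact sum_congr rfl fun x _ => by rw [mul_one]
  rw [h2, zero_mul]

theorem inv_b [IsDomain R] (I : Ideal R) {p e : ℕ} (hp : p.Prime) (hw : ¬ p ∣ w) (hI : (p : R) ^ e ∈ I)
    (f : ZMod q × ZMod w → ℤ) (κ : R) (h : ∀ b, κ * Phi C b f ∈ I) (h₀ : ZMod w) :
    κ * ∑ x : ZMod q, (f (x, h₀) : R) * wq C (2 * w) x ∈ I := by
  classical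
  set S : R := ∑ x : ZMod q, (f (x, h₀) : R) * wq C (2 * w) x with hS
  have h1 : ∑ b : ZMod w, wq C (2 * q) (b * (-h₀)) * (κ * Phi C b f) = (w : R) * (κ * S) := by
    have h2 : ∀ b : ZMod w, wq C (2 * q) (b * (-h₀)) * (κ * Phi C b f) =
        κ * ∑ g : ZMod q × ZMod w, (f g : R) * wq C (2 * w) g.1 * wq C (2 * q) (b * (g.2 - h₀)) := by
      intro b
      unfold Phi chi
      rw [mul_left_comm, mul_sum]
      congr 1
      refine sum_congr rfl fun g _ => ?_
      rw [sub_eq_add_neg, mul_add, gadd C (hNw q w)]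
      ring
    rw [sum_congr rfl fun b _ => h2 b, ← mul_sum, sum_comm]
    have h3 : ∀ g : ZMod q × ZMod w, ∑ b : ZMod w, (f g : R) * wq C (2 * w) g.1 * wq C (2 * q) (b * (g.2 - h₀)) =
        (f g : R) * wq C (2 * w) g.1 * (if g.2 - h₀ = 0 then (w : R) else 0) := by
      intro g
      rw [← mul_sum, gsum C (hNw q w)]
    rw [sum_congr rfl fun g _ => h3 g, Fintype.sum_prod_type]
    have h4 : ∀ x : ZMod q, ∑ y : ZMod w, (f (x, y) : R) * wq C (2 * w) (x, y).1 *
        (if (x, y).2 - h₀ = 0 then (w : R) else 0) = (f (x, h₀) : R) * wq C (2 * w) x * w := by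
      intro x
      rw [sum_eq_single h₀]
      · rw [if_pos (sub_self _)]
      · intro y _ hy
        rw [if_neg (sub_ne_zero.2 hy), mul_zero]
      · intro hh
        exact absurd (mem_univ _) hh
    rw [sum_congr rfl fun x _ => h4 x, ← sum_mul, ← hS]
    ring
  have h5 : (w : R) * (κ * S) ∈ I := by
    rw [← h1]
    exact Ideal.sum_mem I fun b _ => Ideal.mul_mem_left I _ (h b)
  have h6 : (p : R) ^ e * (κ * S) ∈ I := Ideal.mul_mem_right _ I hI
  have hc : (w : ℕ).Coprime (p ^ e) :=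
    Nat.Coprime.pow_right e ((Nat.Prime.coprime_iff_not_dvd hp).2 hw).symm
  obtain ⟨a, c, hac⟩ := (Nat.isCoprime_iff_coprime.2 hc)
  have h7 : (a : R) * (w : R) + (c : R) * (p : R) ^ e = 1 := by
    have h8 := congrArg (fun n : ℤ => (n : R)) hac
    push_cast at h8
    exact h8
  have h9 : κ * S = (a : R) * ((w : R) * (κ * S)) + (c : R) * ((p : R) ^ e * (κ * S)) := by
    linear_combination (-(κ * S)) * h7
  rw [h9]
  exact Ideal.add_mem I (Ideal.mul_mem_left I _ h5) (Ideal.mul_mem_left I _ h6)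

end Pool.RY
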