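import Pool.Agent.Lib.MP_f4ebb7_co.RY.Defs2

/-! RY-Cnt: counting in a finite abelian group with a difference set.

PROOF. `ds_rep`: for `g ≠ 0` this is `hD`; for `g = 0` the pairs are `(d, d)`, so the number is `D.card = n + l`.
`ds_ac`: `ind D g * ind D (g + u)` is `1` exactly for the pairs `(d, d') = (g + u, g)`, `d - d' = u`: `ds_rep`.
`ds_sq`: count `D ×ˢ D` by the difference (`Finset.card_eq_sum_card_fiberwise` or `sum_card_fiberwise_eq_card`), `ds_rep`, sum over `g`.
`ac_diff`: expand the square, `∑ f (g + u) ^ 2 = ∑ f g ^ 2` (`Equiv.sum_comp (Equiv.addRight u)`).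
`push_ac`: `∑_y fib(y) fib(y+u) = #{(d', d) ∈ D × D : φ (d' - d) = u} = ∑_{g, φ g = u} #{(d', d) : d' - d = g}`; by `ds_rep` this is
`∑_{g, φ g = u} (l + n [g = 0]) = l κ + n [u = 0]` (a fibre of `φ` has `κ` elements: all fibres of a surjective homomorphism are
translates of one another, and they partition `G`).  `fib_sum`: `Finset.card_eq_sum_card_fiberwise`.
(`Pool.Agent.Lib.MP_f4ebb7_co.param_eq` and `autocorr` in Group.lean of main are similar; you may import them.)
-/

set_option autoImplicit false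

namespace Pool.RY

open Finset

variable {G : Type} [AddCommGroup G] [Fintype G] [DecidableEq G] {D : Finset G} {l n : ℕ}

private theorem corr {K : Type} [AddCommGroup K] [Fintype K] [DecidableEq K] (φ : G → K) (D : Finset G) (u : K) :
    ∑ y, fib φ D y * fib φ D (y + u) = (((D ×ˢ D).filter fun e => φ e.1 - φ e.2 = u).card : ℤ) := by
  rw [Finset.card_eq_sum_card_fiberwise (f := fun e : G × G => φ e.2) (t := (univ : Finset K))
    (fun _ _ => by simp)]
  push_cast
  refine Finset.sum_congr rfl fun y _ => ?_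
  have h : ((D ×ˢ D).filter fun e => φ e.1 - φ e.2 = u).filter (fun e => φ e.2 = y)
      = (D.filter fun d => φ d = y + u) ×ˢ (D.filter fun d => φ d = y) := by
    ext ⟨a, b⟩
    simp only [Finset.mem_filter, Finset.mem_product]
    constructor
    · rintro ⟨⟨⟨h1, h2⟩, h3⟩, h4⟩
      exact ⟨⟨h1, by rw [← h3, ← h4]; abel⟩, h2, h4⟩
    · rintro ⟨⟨h1, h2⟩, h3, h4⟩
      exact ⟨⟨⟨h1, h3⟩, by rw [h2, h4]; abel⟩, h4⟩
  rw [h, Finset.card_product]
  unfold fib
  push_cast
  ring

theorem ds_rep (hD : CHD.IsDS G D l) (hk : D.card = n + l) (g : G) :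
    ((((D ×ˢ D).filter fun e => e.1 - e.2 = g).card : ℕ) : ℤ) = (l : ℤ) + if g = 0 then (n : ℤ) else 0 := by
  by_cases hg : g = 0
  · subst hg
    rw [if_pos rfl]
    have h : ((D ×ˢ D).filter fun e => e.1 - e.2 = 0) = D.diag := by
      ext ⟨a, b⟩
      simp only [Finset.mem_filter, Finset.mem_product, Finset.mem_diag, sub_eq_zero]
      constructor
      · rintro ⟨⟨h1, h2⟩, h3⟩
        exact ⟨h1, h3⟩
      · rintro ⟨h1, h2⟩
        exact ⟨⟨h1, h2 ▸ h1⟩, h2⟩
    rw [h, Finset.diag_card, hk]
    push_cast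
    ring
  · rw [if_neg hg, add_zero, hD g hg]

private theorem ind_eq (D : Finset G) (g : G) : ind D g = fib (fun x : G => x) D g := by
  unfold ind fib
  by_cases h : g ∈ D
  · rw [if_pos h]
    have : (D.filter fun d => d = g) = {g} := by
      ext a
      simp only [Finset.mem_filter, Finset.mem_singleton]
      exact ⟨fun h => h.2, fun h' => ⟨h' ▸ h, h'⟩⟩
    rw [this]
    simp
  · rw [if_neg h]
    have : (D.filter fun d => d = g) = ∅ := by
      ext a
      simp only [Finset.mem_filter, Finset.notMem_empty, iff_false, not_and]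
      rintro h1 rfl
      exact h h1
    rw [this]
    simp

theorem ds_ac (hD : CHD.IsDS G D l) (hk : D.card = n + l) (u : G) :
    ac (ind D) u = (l : ℤ) + if u = 0 then (n : ℤ) else 0 := by
  rw [← ds_rep hD hk u, ← corr (fun x : G => x) D u]
  unfold ac
  exact Finset.sum_congr rfl fun g _ => by rw [ind_eq, ind_eq]

theorem ds_sq (hD : CHD.IsDS G D l) (hk : D.card = n + l) : ((n : ℤ) + l) ^ 2 = n + l * Fintype.card G := by
  have h1 : ((D ×ˢ D).card : ℤ) = ∑ g : G, ((l : ℤ) + if g = 0 then (n : ℤ) else 0) := by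
    rw [Finset.card_eq_sum_card_fiberwise (f := fun e : G × G => e.1 - e.2) (t := (univ : Finset G))
      (fun _ _ => by simp)]
    push_cast
    exact Finset.sum_congr rfl fun g _ => ds_rep hD hk g
  rw [Finset.card_product, hk, Finset.sum_add_distrib, Finset.sum_const, Finset.sum_ite_eq' univ (0 : G)] at h1
  simp only [Finset.mem_univ, if_true, Finset.card_univ, nsmul_eq_mul] at h1
  push_cast at h1
  linear_combination h1

theorem ac_diff (f : G → ℤ) (u : G) : ∑ g, (f g - f (g + u)) ^ 2 = 2 * ac f 0 - 2 * ac f u := by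
  have h1 : ∑ g, f (g + u) ^ 2 = ∑ g, f g ^ 2 := Equiv.sum_comp (Equiv.addRight u) (fun g => f g ^ 2)
  have h2 : ac f 0 = ∑ g, f g ^ 2 := by
    unfold ac
    exact Finset.sum_congr rfl fun g _ => by rw [add_zero]; ring
  have h3 : ∑ g, (f g - f (g + u)) ^ 2 = ∑ g, f g ^ 2 + ∑ g, f (g + u) ^ 2 - 2 * ac f u := by
    unfold ac
    rw [Finset.mul_sum, ← Finset.sum_add_distrib, ← Finset.sum_sub_distrib]
    exact Finset.sum_congr rfl fun g _ => by ring
  rw [h3, h1, h2]
  ring

private theorem fibre_card {K : Type} [AddCommGroup K] [Fintype K] [DecidableEq K] (φ : G →+ K)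
    (hφ : Function.Surjective φ) (κ : ℕ) (hκ : κ * Fintype.card K = Fintype.card G) (u : K) :
    ((univ : Finset G).filter fun g => φ g = u).card = κ := by
  have h1 : ∀ w : K, ((univ : Finset G).filter fun g => φ g = w).card
      = ((univ : Finset G).filter fun g => φ g = u).card := by
    intro w
    obtain ⟨a, ha⟩ := hφ (u - w)
    refine Finset.card_bij (fun g _ => g + a) ?_ ?_ ?_
    · intro g hg
      simp only [Finset.mem_filter, Finset.mem_univ, true_and] at hg ⊢
      rw [map_add, hg, ha]
      abel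
    · intro g _ g' _ h
      exact add_right_cancel h
    · intro b hb
      simp only [Finset.mem_filter, Finset.mem_univ, true_and] at hb
      refine ⟨b - a, ?_, by abel⟩
      simp only [Finset.mem_filter, Finset.mem_univ, true_and]
      rw [map_sub, hb, ha]
      abel
  have h2 : Fintype.card G = ∑ w : K, ((univ : Finset G).filter fun g => φ g = w).card := by
    rw [← Finset.card_univ]
    exact Finset.card_eq_sum_card_fiberwise (fun _ _ => by simp)
  rw [Finset.sum_congr rfl fun w _ => h1 w, Finset.sum_const, Finset.card_univ, smul_eq_mul, ← hκ] at h2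
  have h3 : 0 < Fintype.card K := Fintype.card_pos
  rw [mul_comm] at h2
  exact (Nat.eq_of_mul_eq_mul_left h3 h2).symm

theorem push_ac {K : Type} [AddCommGroup K] [Fintype K] [DecidableEq K] (φ : G →+ K) (hφ : Function.Surjective φ)
    (κ : ℕ) (hκ : κ * Fintype.card K = Fintype.card G) (hD : CHD.IsDS G D l) (hk : D.card = n + l) (u : K) :
    ac (fib φ D) u = (l : ℤ) * κ + if u = 0 then (n : ℤ) else 0 := by
  unfold ac
  rw [corr φ D u, Finset.card_eq_sum_card_fiberwise (f := fun e : G × G => e.1 - e.2)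
    (t := (univ : Finset G).filter fun g => φ g = u) ?_]
  · push_cast
    have h1 : ∀ g ∈ (univ : Finset G).filter fun g => φ g = u,
        ((((((D ×ˢ D).filter fun e => φ e.1 - φ e.2 = u).filter fun e => e.1 - e.2 = g).card : ℕ) : ℤ))
        = (l : ℤ) + if g = 0 then (n : ℤ) else 0 := by
      intro g hg
      rw [← ds_rep hD hk g]
      congr 2
      ext e
      simp only [Finset.mem_filter, Finset.mem_univ, true_and] at hg ⊢
      constructor
      · rintro ⟨⟨h1, _⟩, h3⟩
        exact ⟨h1, h3⟩
      · rintro ⟨h1, h3⟩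
        exact ⟨⟨h1, by rw [← map_sub, h3, hg]⟩, h3⟩
    rw [Finset.sum_congr rfl h1, Finset.sum_add_distrib, Finset.sum_const, fibre_card φ hφ κ hκ u,
      Finset.sum_ite_eq']
    simp only [Finset.mem_filter, Finset.mem_univ, true_and, map_zero, nsmul_eq_mul]
    rw [mul_comm]
    congr 1
    exact if_congr eq_comm rfl rfl
  · intro e he
    simp only [Finset.coe_filter, Set.mem_ofPred_eq, Finset.mem_univ, true_and, Finset.mem_product] at he ⊢
    rw [map_sub, he.2]

theorem fib_sum {K : Type} [Fintype K] [DecidableEq K] (φ : G → K) (D : Finset G) :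
    ∑ y, fib φ D y = (D.card : ℤ) := by
  unfold fib
  rw [Finset.card_eq_sum_card_fiberwise (f := φ) (t := (univ : Finset K)) (fun _ _ => by simp)]
  push_cast
  rfl

end Pool.RY
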