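import Pool.Agent.Lib.MP_f4ebb7_co.RY.El

/-! RY-Gauss: the quadratic Gauss sum in `ℤ[ζ_{2p}]`. -/

set_option autoImplicit false

namespace Pool.RY

open Finset CHD

variable {p : ℕ} [NeZero p] {R : Type} [CommRing R] (C : Cyc (2 * p) R)

/-- the additive character `i ↦ ζ_p^i` -/
def wc : AddChar (ZMod p) R where
  toFun := wz C
  map_zero_eq_one' := wz_zero C
  map_add_eq_mul' := wz_add C

theorem wc_prim : (wc C).IsPrimitive := by
  refine AddChar.zmod_char_primitive_of_eq_one_only_at_zero p (wc C) fun a ha => ?_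
  have h1 : C.z ^ (2 * a.val) = C.z ^ 0 := by
    rw [pow_zero]
    exact ha
  rw [z_pow_eq_iff] at h1
  have h2 := Nat.modEq_zero_iff_dvd.1 h1
  have h3 := Nat.dvd_of_mul_dvd_mul_left (by norm_num : 0 < 2) h2
  have h4 := Nat.eq_zero_of_dvd_of_lt h3 (ZMod.val_lt a)
  exact (ZMod.val_eq_zero a).1 h4

theorem gauss [IsDomain R] [CharZero R] (hp : p.Prime) (hp2 : p ≠ 2) :
    ∃ g : R, (g ^ 2 = (p : R) ∨ g ^ 2 = -(p : R)) ∧ g * C.cj g = (p : R) := by
  have : Fact p.Prime := ⟨hp⟩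
  obtain ⟨χ, hχ⟩ : ∃ χ, χ = (quadraticChar (ZMod p)).ringHomComp (Int.castRingHom R) := ⟨_, rfl⟩
  have hF : ringChar (ZMod p) ≠ 2 := by
    rw [ZMod.ringChar_zmod_n]
    exact hp2
  have h1 : χ ≠ 1 := by
    rw [hχ]
    exact (MulChar.ringHomComp_ne_one_iff (Int.cast_injective (α := R))).2 (quadraticChar_ne_one hF)
  have h2 : χ.IsQuadratic := by
    rw [hχ]
    exact (quadraticChar_isQuadratic (F := ZMod p)).comp _
  have h3 := gaussSum_sq h1 h2 (wc_prim C)
  rw [ZMod.card] at h3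
  obtain ⟨g, hg⟩ : ∃ g, g = gaussSum χ (wc C) := ⟨_, rfl⟩
  rw [← hg] at h3
  have h4 : χ (-1) = 1 ∨ χ (-1) = -1 := by
    rcases h2 (-1) with h | h | h
    · exfalso
      have h5 : IsUnit (-1 : ZMod p) := isUnit_one.neg
      exact (h5.map χ).ne_zero h
    · exact Or.inl h
    · exact Or.inr h
  have h5 : g ^ 2 = (p : R) ∨ g ^ 2 = -(p : R) := by
    rcases h4 with h | h
    · left
      rw [h3, h, one_mul]
    · right
      rw [h3, h, neg_one_mul]
  refine ⟨g, h5, ?_⟩
  have h6 : (g * C.cj g) ^ 2 = (p : R) ^ 2 := by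
    have h7 : C.cj (g ^ 2) = C.cj g ^ 2 := by
      unfold Cyc.cj
      rw [map_pow]
    rw [mul_pow, ← h7]
    unfold Cyc.cj
    rcases h5 with h | h
    · rw [h, map_natCast]
      ring
    · rw [h, map_neg, map_natCast]
      ring
  rcases sq_eq_sq_iff_eq_or_eq_neg.1 h6 with h | h
  · exact h
  · exfalso
    have h8 := congrArg C.io h
    rw [map_mul, io_cj, Complex.mul_conj, map_neg, map_natCast] at h8
    have h9 := congrArg Complex.re h8
    simp only [Complex.ofReal_re, Complex.neg_re, Complex.natCast_re] at h9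
    have h10 := Complex.normSq_nonneg (C.io g)
    have h11 : (0 : ℝ) < p := by exact_mod_cast hp.pos
    linarith

end Pool.RY
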