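import Pool.Agent.Lib.MP_f4ebb7_co.RY.Ind
import Pool.Agent.Lib.MP_f4ebb7_co.RY.Gauss
import Pool.Agent.Lib.MP_f4ebb7_co.CHD.Ded
import Pool.Agent.Lib.MP_f4ebb7_co.CHD.Frob

/-! RY-Crit: `|Y|^2 = m` in `ℤ[ζ_p]` has a solution only if some `s`, `0 < s < p`, has `s^2 ≡ m mod p` and
`s (p - s) ≤ m (p - 1)`; how to strip off the self-conjugate part. -/

set_option autoImplicit false

namespace Pool.RY

open Finset CHD

theorem ac_total {G : Type} [AddCommGroup G] [Fintype G] (f : G → ℤ) : ∑ u, ac f u = (∑ g, f g) ^ 2 := by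
  unfold ac
  rw [sum_comm, sq, sum_mul]
  refine sum_congr rfl fun g _ => ?_
  rw [← mul_sum]
  congr 1
  exact Equiv.sum_comp (Equiv.addLeft g) f

theorem crit_e {p : ℕ} [NeZero p] (e : ZMod p → ℤ) (j : ℤ) (m : ℕ) (h2 : ∑ i, e i ^ 2 = m + j)
    (h1 : (∑ i, e i) ^ 2 = m + p * j) (hpm : ¬ p ∣ m) :
    ∃ s : ℕ, 0 < s ∧ s < p ∧ s ^ 2 ≡ m [MOD p] ∧ s * (p - s) ≤ m * (p - 1) := by
  have hp0 : (0 : ℤ) < p := by exact_mod_cast NeZero.pos p
  obtain ⟨a, ha⟩ : ∃ a, a = ∑ i, e i := ⟨_, rfl⟩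
  rw [← ha] at h1
  obtain ⟨k, hk⟩ : ∃ k, k = a / p := ⟨_, rfl⟩
  obtain ⟨r, hr⟩ : ∃ r, r = a % p := ⟨_, rfl⟩
  have hr0 : 0 ≤ r := by rw [hr]; exact Int.emod_nonneg _ hp0.ne'
  have hrp : r < p := by rw [hr]; exact Int.emod_lt_of_pos _ hp0
  have har : a = r + p * k := by rw [hr, hk]; exact (Int.emod_add_mul_ediv a p).symm
  obtain ⟨s, hs⟩ := Int.eq_ofNat_of_zero_le hr0
  have hmod : ((s : ℤ) ^ 2 - m) = p * (j - 2 * s * k - p * k ^ 2) := by
    have h3 : ((s : ℤ) + p * k) ^ 2 = m + p * j := by rw [← hs, ← har]; exact h1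
    linear_combination h3
  have hcong : s ^ 2 ≡ m [MOD p] := by
    rw [Nat.ModEq.comm, Nat.modEq_iff_dvd]
    push_cast
    exact ⟨_, hmod⟩
  have hcard : ∑ _i : ZMod p, (1 : ℤ) = p := by
    rw [sum_const, card_univ, ZMod.card, nsmul_eq_mul, mul_one]
  have h4 : 0 ≤ ∑ i, (e i - k) * (e i - k - 1) := by
    refine sum_nonneg fun i _ => ?_
    rcases le_or_gt (e i - k) 0 with h | h
    · nlinarith
    · nlinarith
  have h5 : ∑ i, (e i - k) * (e i - k - 1) = (m + j) - (2 * k + 1) * a + (k ^ 2 + k) * p := by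
    have h6 : ∀ i, (e i - k) * (e i - k - 1) = e i ^ 2 - (2 * k + 1) * e i + (k ^ 2 + k) * 1 := by
      intro i
      ring
    rw [sum_congr rfl fun i _ => h6 i, sum_add_distrib, sum_sub_distrib, ← mul_sum, ← mul_sum, hcard, h2, ← ha]
  rw [h5, har, hs] at h4
  have hs0 : s ≠ 0 := by
    rintro rfl
    apply hpm
    have h7 := (Nat.modEq_zero_iff_dvd.1 (by simpa using hcong.symm))
    exact h7
  have hsp : s < p := by
    rw [hs] at hrp
    exact_mod_cast hrp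
  refine ⟨s, Nat.pos_of_ne_zero hs0, hsp, hcong, ?_⟩
  have h8 : ((s : ℤ) * (p - s)) ≤ m * (p - 1) := by
    nlinarith
  have h9 : ((s * (p - s) : ℕ) : ℤ) ≤ ((m * (p - 1) : ℕ) : ℤ) := by
    push_cast [Nat.cast_sub hsp.le, Nat.cast_sub (NeZero.pos p : 1 ≤ p)]
    exact h8
  exact_mod_cast h9

variable {p : ℕ} [NeZero p] {R : Type} [CommRing R] (C : Cyc (2 * p) R)

theorem crit_y [IsDomain R] [CharZero R] (hp : p.Prime) (hp2 : p ≠ 2) (Y : R) (m : ℕ) (hY : Y * C.cj Y = (m : R))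
    (hpm : ¬ p ∣ m) :
    ∃ s : ℕ, 0 < s ∧ s < p ∧ s ^ 2 ≡ m [MOD p] ∧ s * (p - s) ≤ m * (p - 1) := by
  obtain ⟨e, rfl⟩ := el_surj C (hp.odd_of_ne_two hp2) Y
  rw [el_mul_cj] at hY
  have h0 : el C (fun u => ac e u - if u = 0 then (m : ℤ) else 0) = 0 := by
    have h1 : el C (fun u => ac e u - if u = 0 then (m : ℤ) else 0) =
        (∑ u : ZMod p, (ac e u : R) * wz C u) - el C (fun u => if u = 0 then (m : ℤ) else 0) := by
      unfold el
      rw [← sum_sub_distrib]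
      refine sum_congr rfl fun u _ => ?_
      push_cast
      ring
    rw [h1, hY, el_single, wz_zero]
    push_cast
    ring
  have h1 := el_eq_zero C hp _ h0
  obtain ⟨j, hj⟩ : ∃ j, j = ac e 0 - m := ⟨_, rfl⟩
  have h2 : ∀ u, ac e u = j + if u = 0 then (m : ℤ) else 0 := by
    intro u
    have h3 := h1 u
    simp only [if_true] at h3
    rw [hj]
    linear_combination h3
  have h3 : ∑ i, e i ^ 2 = m + j := by
    have h4 := h2 0
    rw [if_pos rfl] at h4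
    unfold ac at h4
    rw [add_comm, ← h4]
    refine sum_congr rfl fun i _ => ?_
    rw [add_zero, sq]
  have h4 : (∑ i, e i) ^ 2 = m + p * j := by
    rw [← ac_total, sum_congr rfl fun u _ => h2 u, sum_add_distrib, sum_const, card_univ, ZMod.card, sum_ite_eq',
      if_pos (mem_univ _), nsmul_eq_mul]
    ring
  exact crit_e e j m h3 h4 hpm

/-- if `p > m^2 + m + 1` then `m` is a perfect square -/
theorem sq_of {p m s : ℕ} (hp : m ^ 2 + m + 1 < p) (hs0 : 0 < s) (hsp : s < p) (hs : s ^ 2 ≡ m [MOD p])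
    (h : s * (p - s) ≤ m * (p - 1)) : IsSquare m := by
  -- the smaller one of `s` and `p - s`
  obtain ⟨r, hr0, hrp, hr, hrle⟩ : ∃ r : ℕ, 0 < r ∧ 2 * r ≤ p ∧ (p : ℤ) ∣ (r : ℤ) ^ 2 - m ∧
      (r : ℤ) * (p - r) ≤ m * (p - 1) := by
    have h1 : (p : ℤ) ∣ (s : ℤ) ^ 2 - m := by
      have h2 := (Nat.modEq_iff_dvd.1 hs.symm)
      push_cast at h2
      exact h2
    have h3 : (s : ℤ) * (p - s) ≤ m * (p - 1) := by
      have h4 : ((s * (p - s) : ℕ) : ℤ) ≤ ((m * (p - 1) : ℕ) : ℤ) := by exact_mod_cast h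
      push_cast [Nat.cast_sub hsp.le, Nat.cast_sub (by omega : 1 ≤ p)] at h4
      exact h4
    rcases le_or_gt (2 * s) p with h5 | h5
    · exact ⟨s, hs0, h5, h1, h3⟩
    · refine ⟨p - s, by omega, by omega, ?_, ?_⟩
      · rw [Nat.cast_sub hsp.le]
        have h6 : ((p : ℤ) - s) ^ 2 - m = (s : ℤ) ^ 2 - m + p * (p - 2 * s) := by ring
        rw [h6]
        exact dvd_add h1 (Dvd.intro _ rfl)
      · rw [Nat.cast_sub hsp.le]
        linarith
  obtain ⟨j, hj⟩ := hr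
  have hpz : ((m : ℤ) ^ 2 + m + 1) < p := by exact_mod_cast hp
  have hr0' : (0 : ℤ) < r := by exact_mod_cast hr0
  have hrp' : 2 * (r : ℤ) ≤ p := by exact_mod_cast hrp
  have hm0 : (0 : ℤ) ≤ m := by positivity
  rcases lt_trichotomy j 0 with hj0 | hj0 | hj0
  · exfalso
    have h1 : (p : ℤ) * j ≤ -p := by nlinarith
    nlinarith
  · rw [hj0, mul_zero, sub_eq_zero] at hj
    refine ⟨r, ?_⟩
    rw [← sq]
    exact_mod_cast hj.symm
  · have h1 : (p : ℤ) ≤ p * j := by nlinarith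
    have h2 : ((m : ℤ) + 1) ^ 2 < (r : ℤ) ^ 2 := by nlinarith
    have h3 : (m : ℤ) + 1 < r := by
      by_contra hcon
      push Not at hcon
      nlinarith
    have h4 : ((m : ℤ) + 2) ≤ r := by linarith
    have h5 : 0 ≤ ((r : ℤ) - (m + 2)) * (p - r - (m + 2)) := mul_nonneg (by linarith) (by linarith)
    have h6 : 2 * (p : ℤ) ≤ m ^ 2 + 3 * m + 4 := by nlinarith
    have h7 : (m : ℤ) ≤ 1 := by nlinarith
    have h8 : m = 0 ∨ m = 1 := by
      have : m ≤ 1 := by exact_mod_cast h7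
      omega
    rcases h8 with h | h
    · rw [h]
      exact ⟨0, rfl⟩
    · rw [h]
      exact ⟨1, rfl⟩

theorem cj_cj (x : R) : C.cj (C.cj x) = x := by
  unfold Cyc.cj
  rw [← sg_mul, neg_one_mul, neg_neg, sg_one]

/-- `-1` is a power of `ℓ` modulo the `ℓ`-free part of `2 p` -/
theorem fx_neg_one (hp : p.Prime) (hp2 : p ≠ 2) {ℓ : ℕ} (hl : ℓ.Prime)
    (h : ℓ = p ∨ ∃ j, p ∣ ℓ ^ j + 1) : Fx (2 * p) ℓ (-1) := by
  have hodd := hp.odd_of_ne_two hp2
  have h0 := neg_one_val (p := p)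
  have hval : ((-1 : (ZMod (2 * p))ˣ) : ZMod (2 * p)).val + 1 ≡ 0 [MOD 2 * p] := by
    rw [Nat.ModEq, h0, Nat.zero_mod]
  by_cases hlp : ℓ = p
  · refine ⟨1, 2, 0, by rw [hlp]; ring, ?_⟩
    have h1 : ((-1 : (ZMod (2 * p))ˣ) : ZMod (2 * p)).val + 1 ≡ 0 [MOD 2] :=
      hval.of_dvd (Dvd.intro p rfl)
    rw [pow_zero]
    unfold Nat.ModEq at h1 ⊢
    omega
  · obtain ⟨j, hj⟩ := h.resolve_left hlp
    by_cases hl2 : ℓ = 2
    · refine ⟨1, p, j, by rw [hl2]; ring, ?_⟩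
      have h1 : ((-1 : (ZMod (2 * p))ˣ) : ZMod (2 * p)).val + 1 ≡ 0 [MOD p] :=
        hval.of_dvd (Dvd.intro_left 2 rfl)
      have h2 : ℓ ^ j + 1 ≡ 0 [MOD p] := Nat.modEq_zero_iff_dvd.2 hj
      exact Nat.ModEq.add_right_cancel' 1 (h1.trans h2.symm)
    · refine ⟨0, 2 * p, j, by ring, ?_⟩
      have h2 : ℓ ^ j + 1 ≡ 0 [MOD 2 * p] := by
        rw [Nat.modEq_zero_iff_dvd]
        refine Nat.Coprime.mul_dvd_of_dvd_of_dvd ?_ ?_ hj
        · rw [Nat.coprime_two_left]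
          exact hodd
        · exact (((hl.odd_of_ne_two hl2).pow).add_one).two_dvd
      exact Nat.ModEq.add_right_cancel' 1 (hval.trans h2.symm)

theorem strip [IsDomain R] [IsDedekindDomain R] [CharZero R] (hp : p.Prime) (hp2 : p ≠ 2) (X : R) (n m u : ℕ)
    (hX : X * C.cj X = (n : R)) (hn0 : 0 < n) (hn : n = u ^ 2 * m ∨ n = p * u ^ 2 * m)
    (hu : ∀ ℓ : ℕ, ℓ.Prime → ℓ ∣ u → ℓ = p ∨ ∃ j, p ∣ ℓ ^ j + 1) : ∃ Y : R, Y * C.cj Y = (m : R) := by
  have hu0 : u ≠ 0 := by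
    rintro rfl
    rcases hn with h | h <;> simp [h] at hn0
  have huR : (u : R) ≠ 0 := by exact_mod_cast hu0
  have hpR : (p : R) ≠ 0 := by exact_mod_cast hp.ne_zero
  have hX0 : X ≠ 0 := by
    rintro rfl
    rw [zero_mul] at hX
    exact hn0.ne' (by exact_mod_cast hX.symm)
  have key : ∀ n0 : ℕ, n0 ≠ 0 → n = m * n0 → (∀ ℓ : ℕ, ℓ.Prime → ℓ ∣ n0 → ℓ = p ∨ ∃ j, p ∣ ℓ ^ j + 1) →
      (n0 : R) ∣ X ^ 2 := by
    intro n0 hn00 hnn h0
    have h1 : (n0 : R) ∣ C.sg (-1) X * C.cj X := by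
      refine div_lemma (C.sg (-1)) X (C.cj X) m n0 (by rw [hX, hnn]; push_cast; ring) hX0 ?_
      intro P hP hmem
      obtain ⟨ℓ, hl, hld, hlm⟩ := exists_prime_mem n0 hn00 P hP hmem
      exact frob C ℓ hl (-1) (fx_neg_one hp hp2 hl (h0 ℓ hl hld)) P hP hlm
    have h2 : C.sg (-1) (n0 : R) ∣ C.sg (-1) (C.sg (-1) X * C.cj X) := map_dvd _ h1
    rw [map_natCast, map_mul] at h2
    have h3 : C.sg (-1) (C.sg (-1) X) = X := cj_cj C X
    have h4 : C.sg (-1) (C.cj X) = X := cj_cj C X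
    rw [h3, h4, ← sq] at h2
    exact h2
  rcases hn with hn | hn
  · have h1 := key (u ^ 2) (pow_ne_zero 2 hu0) (by rw [hn]; ring) (fun ℓ hl hd => hu ℓ hl (hl.dvd_of_dvd_pow hd))
    rw [Nat.cast_pow] at h1
    have h2 : (u : R) ∣ X := (IsIntegrallyClosed.pow_dvd_pow_iff two_ne_zero).1 h1
    obtain ⟨Y, rfl⟩ := h2
    refine ⟨Y, ?_⟩
    have h3 : C.cj ((u : R) * Y) = (u : R) * C.cj Y := by
      unfold Cyc.cj
      rw [map_mul, map_natCast]
    rw [h3, hn] at hX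
    push_cast at hX
    refine mul_left_cancel₀ (pow_ne_zero 2 huR) ?_
    linear_combination hX
  · obtain ⟨g, hg, hgg⟩ := gauss C hp hp2
    have h1 := key (p * u ^ 2) (mul_ne_zero hp.ne_zero (pow_ne_zero 2 hu0)) (by rw [hn]; ring) (by
      intro ℓ hl hd
      rcases (hl.dvd_mul).1 hd with h | h
      · exact Or.inl ((Nat.prime_dvd_prime_iff_eq hl hp).1 h)
      · exact hu ℓ hl (hl.dvd_of_dvd_pow h))
    have h2 : ((p : R) * u) ^ 2 ∣ (X * g) ^ 2 := by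
      obtain ⟨y, hy⟩ := h1
      push_cast at hy
      rcases hg with h | h
      · refine ⟨y, ?_⟩
        rw [mul_pow, h, hy]
        ring
      · refine ⟨-y, ?_⟩
        rw [mul_pow, h, hy]
        ring
    have h3 : ((p : R) * u) ∣ X * g := (IsIntegrallyClosed.pow_dvd_pow_iff two_ne_zero).1 h2
    obtain ⟨Y, hY⟩ := h3
    refine ⟨Y, ?_⟩
    have h4 : C.cj (X * g) = (p : R) * u * C.cj Y := by
      rw [hY]
      unfold Cyc.cj
      rw [map_mul, map_mul, map_natCast, map_natCast]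
    have h5 : C.cj (X * g) = C.cj X * C.cj g := by
      unfold Cyc.cj
      rw [map_mul]
    have h6 : (X * g) * C.cj (X * g) = (n : R) * p := by
      rw [h5, ← hX, ← hgg]
      ring
    rw [h4, hY, hn] at h6
    push_cast at h6
    refine mul_left_cancel₀ (pow_ne_zero 2 (mul_ne_zero hpR huR)) ?_
    linear_combination h6

end Pool.RY
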