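import Pool.Agent.Lib.MP_f4ebb7_co.CHD.Defs

/-! RY-Defs (difference sets of order `n = p^c m`, `p` large against `m`): definitions. Do not change. -/

set_option autoImplicit false

namespace Pool.RY

open Finset

/-- indicator function -/
def ind {G : Type} [DecidableEq G] (D : Finset G) (g : G) : ℤ := if g ∈ D then 1 else 0

/-- autocorrelation -/
def ac {G : Type} [AddCommGroup G] [Fintype G] (f : G → ℤ) (u : G) : ℤ := ∑ g, f g * f (g + u)

/-- `f` is constant on the cosets of `P` -/
def Inv {G α : Type} [AddCommGroup G] (P : AddSubgroup G) (f : G → α) : Prop := ∀ y ∈ P, ∀ g, f (g + y) = f g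

/-- the support -/
def sp {G : Type} [Fintype G] (f : G → ℤ) : Finset G := univ.filter fun g => f g ≠ 0

/-- the number of elements of `D` in the fibre of `φ` over `y` -/
def fib {G K : Type} [DecidableEq K] (φ : G → K) (D : Finset G) (y : K) : ℤ := ((D.filter fun d => φ d = y).card : ℤ)

end Pool.RY
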