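import Pool.Agent.Lib.MP_f4ebb7_co.RY.Defs

/-! RY-Defs2 (cyclic difference sets of order `n = p^c m`, `p > 16 m^4`): definitions. Do not change. -/

set_option autoImplicit false

namespace Pool.RY

open Finset

/-- the number of pairs `(d, d') ∈ D × D` with `(t d₁ - d'₁, d₂ - d'₂) = g` -/
def Nt {q : ℕ} {H : Type} [AddCommGroup H] [DecidableEq H] (D : Finset (ZMod q × H)) (t : ZMod q)
    (g : ZMod q × H) : ℤ :=
  (((D ×ˢ D).filter fun e => (t * e.1.1 - e.2.1, e.1.2 - e.2.2) = g).card : ℤ)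

/-- the subgroup `{(y, 0) : p y = 0}` -/
def P1 (p q : ℕ) (H : Type) [AddCommGroup H] : AddSubgroup (ZMod q × H) where
  carrier := {g | (p : ZMod q) * g.1 = 0 ∧ g.2 = 0}
  add_mem' := by
    rintro a b ⟨h1, h2⟩ ⟨h3, h4⟩
    exact ⟨by rw [Prod.fst_add, mul_add, h1, h3, add_zero], by rw [Prod.snd_add, h2, h4, add_zero]⟩
  zero_mem' := ⟨by simp, rfl⟩
  neg_mem' := by
    rintro a ⟨h1, h2⟩
    exact ⟨by rw [Prod.fst_neg, mul_neg, h1, neg_zero], by rw [Prod.snd_neg, h2, neg_zero]⟩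

theorem mem_P1 {p q : ℕ} {H : Type} [AddCommGroup H] {g : ZMod q × H} :
    g ∈ P1 p q H ↔ (p : ZMod q) * g.1 = 0 ∧ g.2 = 0 := Iff.rfl

/-- `E` is the small part of `N_t`: `N_t - p^c E` is constant on the cosets of `P1` and `E` has autocorrelation `m² δ₀` -/
structure IsE {H : Type} [AddCommGroup H] [Fintype H] [DecidableEq H] (p c m q : ℕ) [NeZero q]
    (D : Finset (ZMod q × H)) (t : ZMod q) (E : ZMod q × H → ℤ) : Prop where
  inv : Inv (P1 p q H) fun g => Nt D t g - (p : ℤ) ^ c * E g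
  hac : ∀ u, ac E u = if u = 0 then (m : ℤ) ^ 2 else 0

/-- a difference set of order `n = p^c m` in `ℤ/q × H`, `q = p^s`, with the divisibility property of the `N_t` -/
structure Dat {H : Type} [AddCommGroup H] [Fintype H] [DecidableEq H] (p s c m q n l : ℕ) [NeZero q]
    (D : Finset (ZMod q × H)) : Prop where
  hp : p.Prime
  hs : 1 ≤ s
  hc : 2 ≤ c
  hm : 2 ≤ m
  hpm : ¬ p ∣ m
  h16 : 16 * m ^ 4 < p
  hH : ¬ p ∣ Fintype.card H
  hq : q = p ^ s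
  hn : n = p ^ c * m
  ds : CHD.IsDS (ZMod q × H) D l
  card : D.card = n + l
  div : ∀ t : (ZMod q)ˣ, ∀ y ∈ P1 p q H, ∀ g, (p : ℤ) ^ c ∣ Nt D t (g + y) - Nt D t g

/-- `∑_x E(x, h)` -/
def Zf {q : ℕ} [NeZero q] {H : Type} (E : ZMod q × H → ℤ) (h : H) : ℤ := ∑ x : ZMod q, E (x, h)

/-- `∑_h E(x, h) ψ(h)` -/
noncomputable def FF {q : ℕ} {H : Type} [AddCommGroup H] [Fintype H] (E : ZMod q × H → ℤ) (ψ : AddChar H ℂ)
    (x : ZMod q) : ℂ := ∑ h : H, (E (x, h) : ℂ) * ψ h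

/-- `∑_{t} N_t((t - 1) i, 0)`, sum over the units -/
def KK {q : ℕ} [NeZero q] {H : Type} [AddCommGroup H] [DecidableEq H] (D : Finset (ZMod q × H)) (i : ZMod q) : ℤ :=
  ∑ t : (ZMod q)ˣ, Nt D t (((t : ZMod q) - 1) * i, 0)

/-- `∑_{t} E_t((t - 1) i, 0)`, sum over the units -/
def WW {q : ℕ} [NeZero q] {H : Type} [AddCommGroup H] (E : (ZMod q)ˣ → ZMod q × H → ℤ) (i : ZMod q) : ℤ :=
  ∑ t : (ZMod q)ˣ, E t (((t : ZMod q) - 1) * i, 0)

/-- the character `(x, h) ↦ e(a x / q) ψ(h)` -/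
noncomputable def ch {q : ℕ} [NeZero q] {H : Type} [AddCommGroup H] (a : ZMod q) (ψ : AddChar H ℂ)
    (g : ZMod q × H) : ℂ := ZMod.stdAddChar (a * g.1) * ψ g.2

/-- the character sums of `D` -/
noncomputable def X {q : ℕ} [NeZero q] {H : Type} [AddCommGroup H] (D : Finset (ZMod q × H)) (a : ZMod q)
    (ψ : AddChar H ℂ) : ℂ := ∑ d ∈ D, ch a ψ d

theorem pow_big {m : ℕ} (hm : 2 ≤ m) : 16 * m ^ 4 ≤ 4 ^ (m ^ 2) := by
  rcases eq_or_lt_of_le hm with h | h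
  · rw [← h]
    norm_num
  · have h1 : m < 2 ^ m := Nat.lt_two_pow_self
    have h2 : m ^ 4 ≤ (2 ^ m) ^ 4 := Nat.pow_le_pow_left h1.le 4
    have h3 : 16 * m ^ 4 ≤ 2 ^ (4 * m + 4) := by
      calc 16 * m ^ 4 ≤ 16 * (2 ^ m) ^ 4 := Nat.mul_le_mul_left _ h2
        _ = 2 ^ (4 * m + 4) := by rw [← pow_mul, pow_add, mul_comm m 4]; ring
    refine h3.trans ?_
    rw [show (4 : ℕ) = 2 ^ 2 by norm_num, ← pow_mul]
    refine Nat.pow_le_pow_right (by norm_num) ?_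
    norm_num
    nlinarith

variable {H : Type} [AddCommGroup H] [Fintype H] [DecidableEq H] {p s c m q n l : ℕ} [NeZero q]
  {D : Finset (ZMod q × H)}

theorem Dat.hp2 (h : Dat p s c m q n l D) : p ≠ 2 := by
  have h1 := h.h16
  have h2 := h.hm
  have h3 : 1 ≤ m ^ 4 := Nat.one_le_pow _ _ (by omega)
  omega

theorem Dat.hn0 (h : Dat p s c m q n l D) : 0 < n := by
  rw [h.hn]
  exact Nat.mul_pos (Nat.pos_of_ne_zero (pow_ne_zero _ h.hp.ne_zero)) (by have := h.hm; omega)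

end Pool.RY
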