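import Pool.Agent.Lib.MP_f4ebb7_co.RY.NTa
import Pool.Agent.Lib.MP_f4ebb7_co.RY.Cnt
import Pool.Agent.Lib.MP_f4ebb7_co.CHD.Base

/-! RY-Defs3: definitions for the second part (`p^2` divides `v`: `p ≤ 3 m^2`). Do not change.
-/

set_option autoImplicit false

namespace Pool.RY

open Finset CHD

/-- the number of pairs in `A × B` with difference `g` -/
def cnt {G : Type} [AddCommGroup G] [DecidableEq G] (A B : Finset G) (g : G) : ℤ :=
  (((A ×ˢ B).filter fun e => e.1 - e.2 = g).card : ℤ)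

/-- the elements of `D` whose first coordinate is `j` modulo `p` -/
def cls {q : ℕ} {H : Type} (D : Finset (ZMod q × H)) (p : ℕ) (j : ZMod p) : Finset (ZMod q × H) :=
  D.filter fun g => ((g.1.val : ℕ) : ZMod p) = j

/-- `∑_{p y = 0} (f(g + y) - f(g))` -/
def TT (p : ℕ) {q : ℕ} [NeZero q] {H : Type} [AddCommGroup H] (f : ZMod q × H → ℤ) (g : ZMod q × H) : ℤ :=
  ∑ y ∈ univ.filter (fun y : ZMod q => (p : ZMod q) * y = 0), (f (g + (y, 0)) - f g)

/-- the character `(x, h) ↦ ζ_q^x ζ_w^{b h}` with values in `ℤ[ζ_{2qw}]` -/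
def chi {q w : ℕ} [NeZero q] [NeZero w] {R : Type} [CommRing R] (C : Cyc (2 * q * w) R) (b : ZMod w)
    (g : ZMod q × ZMod w) : R := wq C (2 * w) g.1 * wq C (2 * q) (b * g.2)

/-- `∑_g f(g) χ_b(g)` -/
def Phi {q w : ℕ} [NeZero q] [NeZero w] {R : Type} [CommRing R] (C : Cyc (2 * q * w) R) (b : ZMod w)
    (f : ZMod q × ZMod w → ℤ) : R := ∑ g, (f g : R) * chi C b g

end Pool.RY
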