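import Pool.Agent.Lib.MP_f4ebb7_co.RY.Chr
import Pool.Agent.Lib.MP_f4ebb7_co.CHD.Frob

/-! RY-Rng: facts on `ℤ[ζ_{2qw}]`, `q = p^s`; `z := p^(s-1)` in `ZMod q`, `ζ_p = wq C (2w) z`.

PROOF. `rng_w`: `g = wq z`, `g^p = wq (p z) = 1` (`wq_nat`); `(g - 1) ∑_{i<p} i g^i = (p-1) g^p - ∑_{1≤i<p} g^i = p - ∑_{i<p} g^i = p` since `∑_{i<p} g^i = 0` (`g ≠ 1`, `(g-1) ∑ g^i = g^p - 1 = 0`, domain).
`rng_pow`: `∏_{i=1}^{p-1} (1 - g^i) = p` (`g` primitive `p`-th root of unity; evaluate the cyclotomic polynomial at `1`: `IsPrimitiveRoot.prod_one_sub_pow_eq_order` or `Polynomial.eval_one_cyclotomic_prime`, `cyclotomic` as a product), and `1 - g^i ∣ 1 - g`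
for `1 ≤ i < p` (`g = (g^i)^{i'}`, `i i' ≡ 1 mod p`), so `p = ∏ (1 - g^i) ∣ (1 - g)^(p-1)`.
`rng_fix`: `T.val * p^(s-1) ≡ (1 + p^(s-1)) p^(s-1) = p^(s-1) mod p^s` (`s ≥ 2`).
`rng_sigma`: by `C.span` and additivity it is enough for `x = z^j`: `j` arbitrary; `sg T (z^j) = z^(T j)`; `T ≡ 1 mod 2w` and `T ≡ 1 mod p^(s-1)`, so `T - 1` is divisible by `2 w p^(s-1)` (coprime), `z^(T j) = z^j * z^((T-1) j)` and `z^((T-1) j)` is a
power of `z^(2 w p^(s-1)) = wq z = g`; `1 - g ∣ g^i - 1`.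
`rng_prime`: in the domain `R ⧸ P` of characteristic `p`: `(1 - ζ)^(p^(s-1)) = 1 - ζ^(p^(s-1)) = 1 - g` (`sub_pow_char_pow`), and `1 - g ∈ P` since `(1 - g)^(p-1) = p ε ∈ P` (`rng_pow`). So `1 - ζ ∈ P`, `ζ = wq 1`.
-/

set_option autoImplicit false

namespace Pool.RY

open Finset CHD

variable {p s q w : ℕ} [NeZero q] [NeZero w] {R : Type} [CommRing R] [IsDomain R] (C : Cyc (2 * q * w) R)

private theorem rng_nat (a : ℕ) : wq C (2 * w) ((a : ℕ) : ZMod q) = C.z ^ (2 * w * a) := by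
  unfold wq
  rw [z_pow_eq_iff, ZMod.val_natCast, show 2 * q * w = (2 * w) * q by ring]
  exact Nat.ModEq.mul_left' _ (Nat.mod_modEq _ _)

private theorem rng_g : wq C (2 * w) ((p : ZMod q) ^ (s - 1)) = C.z ^ (2 * w * p ^ (s - 1)) := by
  rw [← Nat.cast_pow, rng_nat]

private theorem rng_N (hs : 1 ≤ s) (hq : q = p ^ s) : 2 * q * w = (2 * w * p ^ (s - 1)) * p := by
  have h : p ^ s = p ^ (s - 1) * p := by
    rw [← pow_succ, Nat.sub_add_cancel hs]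
  rw [hq, h]
  ring

private theorem rng_prim (hs : 1 ≤ s) (hq : q = p ^ s) :
    IsPrimitiveRoot (wq C (2 * w) ((p : ZMod q) ^ (s - 1))) p := by
  rw [rng_g]
  exact (z_prim C).pow (NeZero.pos _) (rng_N hs hq)

theorem rng_ne (hp : p.Prime) (hs : 1 ≤ s) (hq : q = p ^ s) : wq C (2 * w) ((p : ZMod q) ^ (s - 1)) ≠ 1 :=
  (rng_prim C hs hq).ne_one hp.one_lt

private theorem rng_sum (g : R) (n : ℕ) :
    (g - 1) * ∑ i ∈ range n, (i : R) * g ^ i = (n : R) * g ^ n - g * ∑ i ∈ range n, g ^ i := by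
  induction n with
  | zero => simp
  | succ n ih =>
    rw [sum_range_succ, sum_range_succ, mul_add, ih]
    push_cast
    ring

theorem rng_w (hp : p.Prime) (hs : 1 ≤ s) (hq : q = p ^ s) :
    (wq C (2 * w) ((p : ZMod q) ^ (s - 1)) - 1) *
      ∑ i ∈ range p, (i : R) * wq C (2 * w) ((i : ZMod q) * (p : ZMod q) ^ (s - 1)) = (p : R) := by
  have h1 : ∀ i : ℕ, wq C (2 * w) ((i : ZMod q) * (p : ZMod q) ^ (s - 1)) =
      wq C (2 * w) ((p : ZMod q) ^ (s - 1)) ^ i := by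
    intro i
    rw [rng_g, ← Nat.cast_pow, ← Nat.cast_mul, rng_nat, ← pow_mul]
    congr 1
    ring
  have h2 := rng_prim C hs hq
  simp only [h1]
  rw [rng_sum, h2.pow_eq_one, h2.geom_sum_eq_zero hp.one_lt]
  ring

theorem rng_pow (hp : p.Prime) (hs : 1 ≤ s) (hq : q = p ^ s) :
    ∃ ε : R, (1 - wq C (2 * w) ((p : ZMod q) ^ (s - 1))) ^ (p - 1) = (p : R) * ε := by
  have h2 := rng_prim C hs hq
  generalize wq C (2 * w) ((p : ZMod q) ^ (s - 1)) = g at h2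
  have h3 : p - 1 + 1 = p := Nat.sub_add_cancel hp.one_le
  have h4 : IsPrimitiveRoot g (p - 1 + 1) := by rw [h3]; exact h2
  have h5 := h4.prod_one_sub_pow_eq_order
  have h6 : ((p - 1 : ℕ) : R) + 1 = (p : R) := by
    rw [← Nat.cast_succ, Nat.succ_eq_add_one, h3]
  rw [h6] at h5
  have h7 : ∏ k ∈ range (p - 1), (1 - g ^ (k + 1)) ∣ ∏ _k ∈ range (p - 1), (1 - g) := by
    refine Finset.prod_dvd_prod_of_dvd _ _ fun k hk => ?_
    have hk1 : k + 1 < p := by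
      have := mem_range.1 hk
      omega
    have hc : Nat.Coprime (k + 1) p :=
      (Nat.coprime_comm.1 ((Nat.Prime.coprime_iff_not_dvd hp).2 fun hd => by
        have := Nat.le_of_dvd (Nat.succ_pos k) hd
        omega))
    obtain ⟨m, hm⟩ := Nat.exists_mul_mod_eq_one_of_coprime hc hp.one_lt
    have h8 : g = (g ^ (k + 1)) ^ m := by
      rw [← pow_mul, ← Nat.div_add_mod ((k + 1) * m) p, hm.2, pow_add, pow_mul, h2.pow_eq_one, one_pow, pow_one,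
        one_mul]
    have h9 := sub_dvd_pow_sub_pow (1 : R) (g ^ (k + 1)) m
    rw [one_pow, ← h8] at h9
    exact h9
  rw [h5, prod_const, card_range] at h7
  exact h7

theorem rng_fix (hp : p.Prime) (hs : 2 ≤ s) (hq : q = p ^ s) (T : (ZMod (2 * q * w))ˣ) (t : ZMod q)
    (ht : t = 1 + (p : ZMod q) ^ (s - 1)) (h1 : (T : ZMod (2 * q * w)).val ≡ t.val [MOD q]) :
    C.sg T (wq C (2 * w) ((p : ZMod q) ^ (s - 1))) = wq C (2 * w) ((p : ZMod q) ^ (s - 1)) := by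
  rw [rng_g, sg_pow_z, z_pow_eq_iff]
  obtain ⟨v, hv⟩ : ∃ v, v = (T : ZMod (2 * q * w)).val := ⟨_, rfl⟩
  rw [← hv] at h1 ⊢
  rw [show 2 * q * w = (2 * w) * q by ring, show v * (2 * w * p ^ (s - 1)) = 2 * w * (v * p ^ (s - 1)) by ring]
  refine Nat.ModEq.mul_left' _ ?_
  rw [← ZMod.natCast_eq_natCast_iff]
  have h2 : ((v : ℕ) : ZMod q) = t := by
    rw [(ZMod.natCast_eq_natCast_iff _ _ _).2 h1, ZMod.natCast_zmod_val]
  push_cast
  rw [h2, ht, add_mul, one_mul, ← pow_add]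
  have h3 : (p : ZMod q) ^ (s - 1 + (s - 1)) = 0 := by
    rw [← Nat.cast_pow, ZMod.natCast_eq_zero_iff]
    nth_rw 1 [hq]
    exact pow_dvd_pow _ (by omega)
  rw [h3, add_zero]

theorem rng_sigma (hp : p.Prime) (hp2 : p ≠ 2) (hs : 2 ≤ s) (hq : q = p ^ s) (hw : ¬ p ∣ w) (T : (ZMod (2 * q * w))ˣ)
    (t : ZMod q) (ht : t = 1 + (p : ZMod q) ^ (s - 1)) (h1 : (T : ZMod (2 * q * w)).val ≡ t.val [MOD q])
    (h2 : (T : ZMod (2 * q * w)).val ≡ 1 [MOD 2 * w]) (x : R) :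
    ∃ y, C.sg T x - x = (1 - wq C (2 * w) ((p : ZMod q) ^ (s - 1))) * y := by
  set M := 2 * w * p ^ (s - 1) with hM
  have hw0 : 0 < w := NeZero.pos w
  have hp0 : 0 < p ^ (s - 1) := Nat.pow_pos hp.pos
  have hM2 : 2 ≤ M := by
    rw [hM]
    nlinarith
  have h3 : (T : ZMod (2 * q * w)).val ≡ 1 [MOD p ^ (s - 1)] := by
    have hd : p ^ (s - 1) ∣ q := by
      nth_rw 1 [hq]
      exact pow_dvd_pow _ (by omega)
    have h4 : t.val ≡ 1 + p ^ (s - 1) [MOD q] := by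
      rw [← ZMod.natCast_eq_natCast_iff, ZMod.natCast_zmod_val, ht]
      push_cast
      rfl
    have h5 := (h1.trans h4).of_dvd hd
    have h6 : 1 + p ^ (s - 1) ≡ 1 + 0 [MOD p ^ (s - 1)] :=
      Nat.ModEq.add_left 1 ((Nat.modEq_zero_iff_dvd).2 dvd_rfl)
    exact h5.trans h6
  have hcop : Nat.Coprime (2 * w) (p ^ (s - 1)) := by
    refine Nat.Coprime.pow_right _ ?_
    refine Nat.coprime_comm.1 ((Nat.Prime.coprime_iff_not_dvd hp).2 fun hd => ?_)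
    rcases (Nat.Prime.dvd_mul hp).1 hd with h | h
    · exact hp2 ((Nat.prime_dvd_prime_iff_eq hp Nat.prime_two).1 h)
    · exact hw h
  have h4 : (T : ZMod (2 * q * w)).val ≡ 1 [MOD M] := (Nat.modEq_and_modEq_iff_modEq_mul hcop).1 ⟨h2, h3⟩
  have h5 : 1 ≤ (T : ZMod (2 * q * w)).val := by
    rcases Nat.eq_zero_or_pos (T : ZMod (2 * q * w)).val with h0 | h0
    · rw [h0] at h4
      have h6 := (Nat.modEq_zero_iff_dvd).1 h4.symm
      have h7 := Nat.le_of_dvd Nat.one_pos h6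
      omega
    · exact h0
  obtain ⟨k, hk⟩ := (Nat.modEq_iff_dvd' h5).1 h4.symm
  have hT : (T : ZMod (2 * q * w)).val = 1 + M * k := by omega
  have hdv : ∀ j : ℕ, (1 - wq C (2 * w) ((p : ZMod q) ^ (s - 1))) ∣ C.sg T (C.z ^ j) - C.z ^ j := by
    intro j
    have h6 := sub_dvd_pow_sub_pow (1 : R) (wq C (2 * w) ((p : ZMod q) ^ (s - 1))) (k * j)
    have h7 : C.sg T (C.z ^ j) - C.z ^ j = (1 ^ (k * j) - wq C (2 * w) ((p : ZMod q) ^ (s - 1)) ^ (k * j)) *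
        (-C.z ^ j) := by
      rw [sg_pow_z, hT, rng_g, ← hM, ← pow_mul, add_mul, one_mul, pow_add, one_pow,
        show M * k * j = M * (k * j) by ring]
      ring
    rw [h7]
    exact Dvd.dvd.mul_right h6 _
  obtain ⟨c, rfl⟩ := C.span x
  have h8 : C.sg T (∑ i : ZMod (2 * q * w), (c i : R) * C.z ^ i.val) -
      ∑ i : ZMod (2 * q * w), (c i : R) * C.z ^ i.val =
      ∑ i : ZMod (2 * q * w), (c i : R) * (C.sg T (C.z ^ i.val) - C.z ^ i.val) := by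
    rw [map_sum, ← sum_sub_distrib]
    refine sum_congr rfl fun i _ => ?_
    rw [map_mul, map_intCast]
    ring
  rw [h8]
  exact Finset.dvd_sum fun i _ => Dvd.dvd.mul_left (hdv _) _

theorem rng_prime (hp : p.Prime) (hs : 1 ≤ s) (hq : q = p ^ s) (P : Ideal R) (hP : P.IsPrime) (h : (p : R) ∈ P) :
    1 - wq C (2 * w) (1 : ZMod q) ∈ P := by
  haveI : Fact p.Prime := ⟨hp⟩
  haveI := hP
  have hq0 : ((p : ℕ) : R ⧸ P) = 0 := by
    rw [← map_natCast (Ideal.Quotient.mk P)]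
    exact Ideal.Quotient.eq_zero_iff_mem.mpr h
  haveI : Nontrivial (R ⧸ P) := Ideal.Quotient.nontrivial_iff.mpr hP.ne_top
  haveI : CharP (R ⧸ P) p := (CharP.charP_iff_prime_eq_zero hp).mpr hq0
  have h1 : 1 - wq C (2 * w) ((p : ZMod q) ^ (s - 1)) ∈ P := by
    obtain ⟨ε, hε⟩ := rng_pow C hp hs hq
    refine hP.mem_of_pow_mem (p - 1) ?_
    rw [hε]
    exact P.mul_mem_right _ h
  have h2 : wq C (2 * w) (1 : ZMod q) ^ (p ^ (s - 1)) = wq C (2 * w) ((p : ZMod q) ^ (s - 1)) := by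
    rw [rng_g, show (1 : ZMod q) = ((1 : ℕ) : ZMod q) by rw [Nat.cast_one], rng_nat, ← pow_mul, mul_one]
  refine hP.mem_of_pow_mem (p ^ (s - 1)) ?_
  rw [← Ideal.Quotient.eq_zero_iff_mem, map_pow, map_sub, sub_pow_char_pow, map_one, one_pow, ← map_pow, h2,
    ← map_one (Ideal.Quotient.mk P), ← map_sub, Ideal.Quotient.eq_zero_iff_mem]
  exact h1

end Pool.RY
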