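import Pool.Agent.Lib.MP_f4ebb7_co.RY.Tzero
import Pool.Agent.Lib.MP_f4ebb7_co.RY.Abs
import Pool.Agent.Lib.MP_f4ebb7_co.RY.Rng

/-! RY-Djd: `p^c` divides `χ_b(D_j) * conj χ_b(D)`, `D_j` the part of `D` in the class `j` modulo `p`.

PROOF. `T` the lift of `t = 1 + p^(s-1)`, `σ = sg T`, `X = Phi C b (ind D)`, `Xc = cj X`, `z = p^(s-1)`, `g = wq C (2w) z = ζ_p`, `ϖ = 1 - g`. As in Tcon: `(σ X - X) Xc = Phi b Δ`, `X Xc = m p^c`.
(1) `Phi b Δ = ϖ p^c Y`: group the sum over `ZMod q × ZMod w` by the cosets of `P1`: `p * Phi b Δ = ∑_{p y = 0} ∑_g Δ(g + y) χ(g + y)` is awkward; better: choose representatives `x = x₀ + i z`, `0 ≤ x₀ < p^(s-1)`, `0 ≤ i < p`: `∑_i Δ(x₀ + i z, h) χ(x₀, h) g^i =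
χ(x₀,h) [∑_i (Δ(x₀ + i z, h) - Δ(x₀, h)) (g^i - 1) + ∑_i (Δ(x₀ + i z, h) - Δ(x₀, h))]` (because `∑_i g^i = 0`). In the first sum the differences are multiples of `p^c` (`nt_div` for `Nt`; and `cnt D D = l + n [= 0]` with `p^c ∣ n`) and `ϖ ∣ g^i - 1`; the second sum is
`TT p Δ (x₀, h)`, a multiple of `p^(c+1)` (`t_zero`) and `ϖ ∣ p` (`rng_w`). So every term is in `span {ϖ p^c}`. (The map `(x₀, i) ↦ x₀ + i z` from `range (p^(s-1)) × range p` to `ZMod q` is a bijection: `Nat` division, `x.val = x₀ + p^(s-1) i`.)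
(2) `abs_dvd` with `ζ = g`, `Q = p^c`, `a = p - j.val` (or any `a` with `a + j ≡ 0 mod p`), `D0 = Phi b (ind (cls D p j))`. `hD`: `sg T (χ (x, h)) = χ (t x, h) = χ (x + z x, h) = g^(x.val) χ (x, h)` (`sg_chi`, `wq_add`, `wq_nat`), so `σ^k X = ∑_{d ∈ D} g^(k d.1.val) χ d` (induction; `σ g = g` by
`rng_fix`), `∑_{k<p} g^(a k) σ^k X = ∑_{d ∈ D} (∑_{k<p} g^((a + d.1.val) k)) χ d = p ∑_{d ∈ D, d.1.val ≡ j mod p} χ d` (`g` is a primitive `p`-th root of unity: `g^p = 1`, `g ≠ 1`, `p` prime).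
`hpow = rng_pow`, `hσ = rng_sigma`, `hϖ0` from `rng_ne`.
-/

set_option autoImplicit false

namespace Pool.RY

open Finset CHD

variable {p s c m q w n l : ℕ} [NeZero q] [NeZero w] {D : Finset (ZMod q × ZMod w)}

private theorem djd_split {A : Type} [AddCommMonoid A] {q u p : ℕ} [NeZero q] (hq : q = u * p) (F : ZMod q → A) :
    ∑ x : ZMod q, F x = ∑ i ∈ range u, ∑ k ∈ range p, F ((i + u * k : ℕ) : ZMod q) := by
  have hq0 : 0 < q := NeZero.pos q
  have hu : 0 < u := Nat.pos_of_ne_zero fun h => by rw [h, zero_mul] at hq; omega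
  rw [← Finset.sum_product' (range u) (range p) fun i k => F ((i + u * k : ℕ) : ZMod q)]
  symm
  refine Finset.sum_bij' (fun e _ => ((e.1 + u * e.2 : ℕ) : ZMod q)) (fun x _ => (x.val % u, x.val / u)) ?_ ?_ ?_ ?_ ?_
  · intro e _
    exact mem_univ _
  · intro x _
    rw [mem_product, mem_range, mem_range]
    refine ⟨Nat.mod_lt _ hu, ?_⟩
    have h1 : x.val < u * p := (ZMod.val_lt x).trans_eq hq
    exact Nat.div_lt_of_lt_mul h1
  · intro e he
    rw [mem_product, mem_range, mem_range] at he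
    have h1 : e.1 + u * e.2 < q := by
      rw [hq]
      calc e.1 + u * e.2 < u + u * e.2 := by omega
        _ = u * (e.2 + 1) := by ring
        _ ≤ u * p := Nat.mul_le_mul_left _ he.2
    have h2 : (((e.1 + u * e.2 : ℕ) : ZMod q)).val = e.1 + u * e.2 := ZMod.val_cast_of_lt h1
    show ((((e.1 + u * e.2 : ℕ) : ZMod q)).val % u, (((e.1 + u * e.2 : ℕ) : ZMod q)).val / u) = e
    rw [h2, Nat.add_mul_mod_self_left, Nat.mod_eq_of_lt he.1, Nat.add_mul_div_left _ _ hu, Nat.div_eq_of_lt he.1,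
      zero_add]
  · intro x _
    show (((x.val % u + u * (x.val / u) : ℕ)) : ZMod q) = x
    rw [Nat.mod_add_div, ZMod.natCast_zmod_val]
  · intro e _
    rfl

private theorem djd_tor {p s q : ℕ} [NeZero q] (hp : p.Prime) (hs : 1 ≤ s) (hq : q = p ^ s) (F : ZMod q → ℤ) :
    ∑ y ∈ univ.filter (fun y : ZMod q => (p : ZMod q) * y = 0), F y =
      ∑ k ∈ range p, F ((p ^ (s - 1) * k : ℕ) : ZMod q) := by
  obtain ⟨r, rfl⟩ : ∃ r, s = r + 1 := ⟨s - 1, by omega⟩
  rw [Nat.add_sub_cancel]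
  have hq' : q = p ^ r * p := by rw [hq, pow_succ]
  have hpr : 0 < p ^ r := pow_pos hp.pos _
  symm
  refine Finset.sum_bij (fun k _ => ((p ^ r * k : ℕ) : ZMod q)) ?_ ?_ ?_ ?_
  · intro k _
    rw [mem_filter]
    refine ⟨mem_univ _, ?_⟩
    have h1 : (p : ZMod q) * ((p ^ r * k : ℕ) : ZMod q) = ((p ^ r * p * k : ℕ) : ZMod q) := by
      push_cast
      ring
    rw [h1, ← hq', ZMod.natCast_eq_zero_iff]
    exact dvd_mul_right _ _
  · intro a ha b hb hab
    rw [mem_range] at ha hb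
    have h0 : ∀ k, k < p → p ^ r * k < q := fun k hk => by
      rw [hq']
      exact Nat.mul_lt_mul_of_pos_left hk hpr
    rw [ZMod.natCast_eq_natCast_iff] at hab
    have h2 : p ^ r * a = p ^ r * b := Nat.ModEq.eq_of_lt_of_lt hab (h0 a ha) (h0 b hb)
    exact Nat.eq_of_mul_eq_mul_left hpr h2
  · intro y hy
    rw [mem_filter] at hy
    have h1 : ((p * y.val : ℕ) : ZMod q) = 0 := by
      rw [Nat.cast_mul, ZMod.natCast_zmod_val]
      exact hy.2
    rw [ZMod.natCast_eq_zero_iff] at h1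
    have h1' : p * p ^ r ∣ p * y.val := by
      rwa [show p * p ^ r = q by rw [hq', mul_comm]]
    have h2 : p ^ r ∣ y.val := Nat.dvd_of_mul_dvd_mul_left hp.pos h1'
    obtain ⟨k, hk⟩ := h2
    have h3 : y.val < q := ZMod.val_lt y
    refine ⟨k, ?_, ?_⟩
    · rw [mem_range]
      have h5 : p ^ r * k < p ^ r * p := by
        rw [← hk, ← hq']
        exact h3
      exact Nat.lt_of_mul_lt_mul_left h5
    · show ((p ^ r * k : ℕ) : ZMod q) = y
      rw [← hk, ZMod.natCast_zmod_val]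
  · intro k _
    rfl

private theorem djd_phi_ind {R : Type} [CommRing R] (C : Cyc (2 * q * w) R) (b : ZMod w) (A : Finset (ZMod q × ZMod w)) :
    Phi C b (ind A) = ∑ d ∈ A, chi C b d := by
  unfold Phi ind
  have h1 : ∀ g : ZMod q × ZMod w, (((if g ∈ A then (1 : ℤ) else 0) : ℤ) : R) * chi C b g =
      if g ∈ A then chi C b g else 0 := by
    intro g
    split_ifs
    · rw [Int.cast_one, one_mul]
    · rw [Int.cast_zero, zero_mul]
  rw [Finset.sum_congr rfl fun g _ => h1 g, ← Finset.sum_filter]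
  congr 1
  ext g
  simp

theorem dj_dvd {R : Type} [CommRing R] [IsDedekindDomain R] [CharZero R] (C : Cyc (2 * q * w) R)
    (hp : p.Prime) (hp2 : p ≠ 2) (hs : 2 ≤ s) (hq : q = p ^ s) (hw : ¬ p ∣ w) (hn : n = p ^ c * m) (hm : m ≠ 0) (hpm : ¬ p ∣ m)
    (hbig : 3 * m ^ 2 < p) (hD : IsDS (ZMod q × ZMod w) D l) (hk : D.card = n + l) (b : ZMod w) (j : ZMod p) :
    (p : R) ^ c ∣ Phi C b (ind (cls D p j)) * C.cj (Phi C b (ind D)) := by
  classical
  haveI : Fact p.Prime := ⟨hp⟩
  haveI : NeZero p := ⟨hp.ne_zero⟩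
  have hs1 : 1 ≤ s := by omega
  have hq1 : 1 < q := by
    rw [hq]
    exact Nat.one_lt_pow (by omega) hp.one_lt
  have hqr : q.Coprime (2 * w) := by
    rw [hq]
    apply Nat.Coprime.pow_left
    rw [Nat.Prime.coprime_iff_not_dvd hp, Nat.Prime.dvd_mul hp]
    rintro (h | h)
    · exact hp2 ((Nat.prime_dvd_prime_iff_eq hp Nat.prime_two).1 h)
    · exact hw h
  have hN : 2 * q * w = q * (2 * w) := by ring
  -- the unit
  have htc : (1 + p ^ (s - 1)).Coprime q := by
    rw [hq]
    apply Nat.Coprime.pow_right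
    rw [Nat.coprime_comm, Nat.Prime.coprime_iff_not_dvd hp]
    intro h
    have h1 : p ∣ p ^ (s - 1) := dvd_pow_self p (by omega)
    have h2 : p ∣ 1 := (Nat.dvd_add_left h1).1 h
    exact hp.one_lt.ne' (Nat.dvd_one.1 h2)
  obtain ⟨t, ht⟩ : ∃ t : (ZMod q)ˣ, (t : ZMod q) = 1 + (p : ZMod q) ^ (s - 1) := by
    refine ⟨ZMod.unitOfCoprime _ htc, ?_⟩
    rw [ZMod.coe_unitOfCoprime]
    push_cast
    ring
  obtain ⟨T, hT1, hT2⟩ := unit_lift (N := 2 * q * w) hN hqr t
  set z : ZMod q := (p : ZMod q) ^ (s - 1) with hz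
  set g : R := wq C (2 * w) z with hg
  have hgfix : C.sg T g = g := rng_fix C hp hs hq T (t : ZMod q) ht hT1
  have hg1 : g ≠ 1 := rng_ne C hp hs1 hq
  have hgp : g ^ p = 1 := by
    have h1 := wq_nat C p z
    rw [← h1]
    have h2 : (p : ZMod q) * z = 0 := by
      rw [hz, ← pow_succ', Nat.sub_add_cancel hs1]
      have h3 : ((p ^ s : ℕ) : ZMod q) = 0 := by rw [← hq]; exact ZMod.natCast_self q
      exact_mod_cast h3
    rw [h2, wq_zero]
  have hgeom : ∑ k ∈ range p, g ^ k = 0 := by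
    have h1 := mul_geom_sum g p
    rw [hgp, sub_self] at h1
    rcases mul_eq_zero.1 h1 with h | h
    · exact absurd (sub_eq_zero.1 h) hg1
    · exact h
  have hord : ∀ e : ℕ, g ^ e = 1 ↔ p ∣ e := by
    intro e
    have h1 : orderOf g = p := orderOf_eq_prime hgp hg1
    rw [← h1]
    exact orderOf_dvd_iff_pow_eq_one.symm
  -- the character sums
  have hchi0 : chi C b (0 : ZMod q × ZMod w) = 1 := by
    have h1 := chi_add C b 0 0
    rw [add_zero] at h1
    unfold chi at h1 ⊢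
    have h2 : wq C (2 * w) (0 : ZMod q × ZMod w).1 = 1 := wq_zero C (2 * w)
    rw [h2]
    have h3 : b * (0 : ZMod q × ZMod w).2 = 0 := mul_zero b
    rw [h3]
    unfold wq
    rw [ZMod.val_zero, mul_zero, pow_zero, one_mul]
  have hchiz : ∀ (k : ℕ) (x : ZMod q) (h : ZMod w), chi C b (x + (k : ZMod q) * z, h) = chi C b (x, h) * g ^ k := by
    intro k x h
    unfold chi
    show wq C (2 * w) (x + (k : ZMod q) * z) * _ = wq C (2 * w) x * _ * g ^ k
    rw [wq_add, wq_nat]
    ring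
  have hcnt : ∀ g' : ZMod q × ZMod w, cnt D D g' = (l : ℤ) + if g' = 0 then (n : ℤ) else 0 := fun g' =>
    ds_rep hD hk g'
  set X : R := Phi C b (ind D) with hX
  set Xc : R := C.cj X with hXc
  have hXX : X * Xc = (m : R) * ((p ^ c : ℕ) : R) := by
    rw [hXc, hX, phi_mul_cj]
    unfold Phi
    have h1 : ∀ g' : ZMod q × ZMod w, ((cnt D D g' : ℤ) : R) * chi C b g' =
        (l : R) * chi C b g' + if g' = 0 then (n : R) * chi C b g' else 0 := by
      intro g'
      rw [hcnt]
      split_ifs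
      · push_cast
        ring
      · push_cast
        ring
    rw [Finset.sum_congr rfl fun g' _ => h1 g', Finset.sum_add_distrib, ← Finset.mul_sum, sum_chi C hq1 b, mul_zero,
      zero_add, Finset.sum_ite_eq' univ (0 : ZMod q × ZMod w), if_pos (mem_univ _), hchi0, mul_one, hn]
    push_cast
    ring
  set Δ : ZMod q × ZMod w → ℤ := fun g' => Nt D (t : ZMod q) g' - cnt D D g' with hΔ
  have hPhi : (C.sg T X - X) * Xc = Phi C b Δ := by
    have h1 := phi_nt C T (t : ZMod q) hT1 hT2 b D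
    have h2 := phi_mul_cj C b D D
    rw [sub_mul, hXc, hX, h1, h2]
    unfold Phi
    rw [← Finset.sum_sub_distrib]
    refine Finset.sum_congr rfl fun g' _ => ?_
    rw [hΔ]
    push_cast
    ring
  have hpdiv : (1 - g) ∣ (p : R) := by
    have h1 := rng_w C hp hs1 hq (w := w)
    rw [← h1]
    refine Dvd.dvd.mul_right ?_ _
    refine ⟨-1, ?_⟩
    ring
  -- the differences
  have hdif : ∀ (x : ZMod q) (h : ZMod w) (y : ZMod q), (p : ZMod q) * y = 0 →
      (p : ℤ) ^ c ∣ Δ (x + y, h) - Δ (x, h) := by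
    intro x h y hy
    have h1 := nt_div hp hp2 hs1 hq hw hn hm D hD hk t (y, 0) ((mem_P1).2 ⟨hy, rfl⟩) (x, h)
    have h2 : ((x, h) : ZMod q × ZMod w) + (y, 0) = (x + y, h) := by
      ext
      · rfl
      · show h + 0 = h
        rw [add_zero]
    rw [h2] at h1
    have h3 : (p : ℤ) ^ c ∣ cnt D D (x + y, h) - cnt D D (x, h) := by
      rw [hcnt, hcnt]
      have h4 : (p : ℤ) ^ c ∣ (n : ℤ) := by
        rw [hn]
        push_cast
        exact dvd_mul_right _ _
      split_ifs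
      · simp
      · rw [add_zero, add_sub_cancel_left]
        exact h4
      · have h5 : (l : ℤ) + 0 - (l + n) = -n := by ring
        rw [h5]
        exact (dvd_neg).2 h4
      · simp
    have h5 : Δ (x + y, h) - Δ (x, h) = (Nt D (t : ZMod q) (x + y, h) - Nt D (t : ZMod q) (x, h)) -
        (cnt D D (x + y, h) - cnt D D (x, h)) := by
      rw [hΔ]
      ring
    rw [h5]
    exact dvd_sub h1 h3
  have hpz : ∀ k : ℕ, (p : ZMod q) * ((k : ZMod q) * z) = 0 := by
    intro k
    have h2 : (p : ZMod q) * z = 0 := by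
      rw [hz, ← pow_succ', Nat.sub_add_cancel hs1]
      have h3 : ((p ^ s : ℕ) : ZMod q) = 0 := by rw [← hq]; exact ZMod.natCast_self q
      exact_mod_cast h3
    calc (p : ZMod q) * ((k : ZMod q) * z) = k * ((p : ZMod q) * z) := by ring
      _ = 0 := by rw [h2, mul_zero]
  have hU : ((1 - g) * ((p ^ c : ℕ) : R)) ∣ Phi C b Δ := by
    unfold Phi
    rw [Fintype.sum_prod_type_right]
    refine Finset.dvd_sum fun h _ => ?_
    have hq' : q = p ^ (s - 1) * p := by rw [hq, ← pow_succ, Nat.sub_add_cancel hs1]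
    rw [djd_split hq' fun x : ZMod q => ((Δ (x, h) : ℤ) : R) * chi C b (x, h)]
    refine Finset.dvd_sum fun i _ => ?_
    set x : ZMod q := (i : ZMod q) with hx
    have hcast : ∀ k : ℕ, ((i + p ^ (s - 1) * k : ℕ) : ZMod q) = x + (k : ZMod q) * z := by
      intro k
      rw [hx, hz]
      push_cast
      ring
    have e1 : ∀ k ∈ range p, ((Δ (((i + p ^ (s - 1) * k : ℕ) : ZMod q), h) : ℤ) : R) *
        chi C b (((i + p ^ (s - 1) * k : ℕ) : ZMod q), h) =
        chi C b (x, h) * (((Δ (x + (k : ZMod q) * z, h) - Δ (x, h) : ℤ) : R) * (g ^ k - 1) +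
          ((Δ (x + (k : ZMod q) * z, h) - Δ (x, h) : ℤ) : R) + ((Δ (x, h) : ℤ) : R) * g ^ k) := by
      intro k _
      rw [hcast, hchiz]
      push_cast
      ring
    rw [Finset.sum_congr rfl e1, ← Finset.mul_sum, Finset.sum_add_distrib, Finset.sum_add_distrib, ← Finset.mul_sum,
      hgeom, mul_zero, add_zero]
    refine Dvd.dvd.mul_left ?_ _
    refine dvd_add ?_ ?_
    · refine Finset.dvd_sum fun k _ => ?_
      rw [mul_comm ((1 : R) - g)]
      refine mul_dvd_mul ?_ ?_
      · have h1 := hdif x h ((k : ZMod q) * z) (hpz k)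
        obtain ⟨y, hy⟩ := h1
        rw [hy]
        push_cast
        exact dvd_mul_right _ _
      · have h1 := one_sub_dvd_one_sub_pow g k
        have h2 : g ^ k - 1 = -(1 - g ^ k) := by ring
        rw [h2]
        exact (dvd_neg).2 h1
    · have h1 := t_zero hp hp2 hs hq hw hn hm hbig hD hk t ht (x, h)
      have h2 : TT p (fun g => Nt D (t : ZMod q) g - cnt D D g) (x, h) =
          ∑ k ∈ range p, (Δ (x + (k : ZMod q) * z, h) - Δ (x, h)) := by
        unfold TT
        rw [djd_tor hp hs1 hq fun y => ((fun g => Nt D (t : ZMod q) g - cnt D D g) ((x, h) + (y, (0 : ZMod w))) -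
          (fun g => Nt D (t : ZMod q) g - cnt D D g) (x, h))]
        refine Finset.sum_congr rfl fun k _ => ?_
        have h3 : ((x, h) : ZMod q × ZMod w) + (((p ^ (s - 1) * k : ℕ) : ZMod q), 0) = (x + (k : ZMod q) * z, h) := by
          ext
          · show x + ((p ^ (s - 1) * k : ℕ) : ZMod q) = x + (k : ZMod q) * z
            rw [hz]
            push_cast
            ring
          · show h + 0 = h
            rw [add_zero]
        rw [h3]
      rw [h2] at h1
      obtain ⟨y, hy⟩ := h1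
      rw [← Int.cast_sum, hy]
      obtain ⟨r, hr⟩ := hpdiv
      refine ⟨r * (y : R), ?_⟩
      push_cast
      rw [pow_succ]
      calc (p : R) ^ c * (p : R) * (y : R) = (p : R) ^ c * ((1 - g) * r) * (y : R) := by rw [← hr]
        _ = _ := by ring
  -- the powers of the automorphism
  have hchiT : ∀ d : ZMod q × ZMod w, C.sg T (chi C b d) = g ^ d.1.val * chi C b d := by
    intro d
    have h1 := sg_chi C T (t : ZMod q) hT1 hT2 b d.1 d.2
    have h2 : (t : ZMod q) * d.1 = d.1 + ((d.1.val : ℕ) : ZMod q) * z := by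
      rw [ht, ZMod.natCast_zmod_val]
      ring
    rw [h2, hchiz] at h1
    exact h1.trans (mul_comm _ _)
  have hiter : ∀ k : ℕ, (fun y => C.sg T y)^[k] X = ∑ d ∈ D, g ^ (k * d.1.val) * chi C b d := by
    intro k
    induction k with
    | zero =>
      rw [Function.iterate_zero, id, hX, djd_phi_ind]
      refine Finset.sum_congr rfl fun d _ => ?_
      rw [zero_mul, pow_zero, one_mul]
    | succ k ih =>
      rw [Function.iterate_succ_apply', ih, map_sum]
      refine Finset.sum_congr rfl fun d _ => ?_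
      rw [map_mul, map_pow, hgfix, hchiT, ← mul_assoc, ← pow_add]
      congr 2
      ring
  have hmain := abs_dvd (C.sg T) g (1 - g) X Xc p m (p ^ c) hp (by exact_mod_cast hp.ne_zero)
    (by
      have : (p ^ c : ℕ) ≠ 0 := pow_ne_zero _ hp.ne_zero
      exact_mod_cast this)
    (fun h => hg1 (sub_eq_zero.1 h).symm) rfl hgfix (rng_pow C hp hs1 hq)
    (fun x => rng_sigma C hp hp2 hs hq hw T (t : ZMod q) ht hT1 hT2 x) hXX
    (by
      apply Nat.Coprime.pow_right
      rw [Nat.coprime_comm, Nat.Prime.coprime_iff_not_dvd hp]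
      exact hpm)
    (by
      rw [hPhi]
      obtain ⟨Y, hY⟩ := hU
      exact ⟨Y, hY⟩)
    (p - j.val) (Phi C b (ind (cls D p j)))
    (by
      have h1 : ∀ k ∈ range p, g ^ ((p - j.val) * k) * (fun y => C.sg T y)^[k] X =
          ∑ d ∈ D, (g ^ (p - j.val + d.1.val)) ^ k * chi C b d := by
        intro k _
        rw [hiter, Finset.mul_sum]
        refine Finset.sum_congr rfl fun d _ => ?_
        rw [← mul_assoc, ← pow_add, ← pow_mul]
        congr 2
        ring
      rw [Finset.sum_congr rfl h1, Finset.sum_comm, djd_phi_ind]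
      unfold cls
      rw [Finset.sum_filter, Finset.mul_sum]
      refine Finset.sum_congr rfl fun d _ => ?_
      rw [← Finset.sum_mul]
      have hiff : ((d.1.val : ℕ) : ZMod p) = j ↔ p ∣ p - j.val + d.1.val := by
        rw [← ZMod.natCast_eq_zero_iff, Nat.cast_add, Nat.cast_sub (ZMod.val_lt j).le, ZMod.natCast_self,
          ZMod.natCast_zmod_val, zero_sub, neg_add_eq_zero]
        exact eq_comm
      by_cases h : ((d.1.val : ℕ) : ZMod p) = j
      · rw [if_pos h, (hord _).2 (hiff.1 h)]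
        simp
      · rw [if_neg h, mul_zero]
        have h2 : g ^ (p - j.val + d.1.val) ≠ 1 := fun h3 => h (hiff.2 ((hord _).1 h3))
        have h3 := mul_geom_sum (g ^ (p - j.val + d.1.val)) p
        rw [← pow_mul, mul_comm (p - j.val + d.1.val) p, pow_mul, hgp, one_pow, sub_self] at h3
        rcases mul_eq_zero.1 h3 with h4 | h4
        · exact absurd (sub_eq_zero.1 h4) h2
        · rw [h4, zero_mul])
  have h9 : ((p ^ c : ℕ) : R) = (p : R) ^ c := by push_cast; rfl
  rw [h9] at hmain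
  exact hmain

end Pool.RY
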