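import Pool.Agent.Lib.MP_f4ebb7_co.RY.Defs
import Pool.Agent.Lib.MP_f4ebb7_co.CHD.Basic

/-! RY-El: the elements `∑ e_i ζ_p^i` of `ℤ[ζ_{2p}]`. -/

set_option autoImplicit false

namespace Pool.RY

open Finset CHD

variable {p : ℕ} [NeZero p] {R : Type} [CommRing R] (C : Cyc (2 * p) R)

/-- `ζ_p^i` -/
def wz (i : ZMod p) : R := C.z ^ (2 * i.val)

/-- `∑ e_i ζ_p^i` -/
def el (e : ZMod p → ℤ) : R := ∑ i : ZMod p, (e i : R) * wz C i

theorem wz_of_modEq {i : ZMod p} {a : ℕ} (h : a ≡ i.val [MOD p]) : C.z ^ (2 * a) = wz C i := by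
  unfold wz
  rw [z_pow_eq_iff]
  exact h.mul_left' 2

theorem wz_add (i j : ZMod p) : wz C (i + j) = wz C i * wz C j := by
  rw [← wz_of_modEq C (i := i + j) (a := i.val + j.val), mul_add, pow_add]
  · rfl
  · rw [ZMod.val_add]
    exact (Nat.mod_modEq _ _).symm

theorem wz_zero : wz C (0 : ZMod p) = 1 := by
  unfold wz
  rw [ZMod.val_zero, mul_zero, pow_zero]

theorem wz_neg_mul (i : ZMod p) : wz C (-i) * wz C i = 1 := by
  rw [← wz_add, neg_add_cancel, wz_zero]

theorem sg_wz (t : (ZMod (2 * p))ˣ) (i j : ZMod p) (h : (t : ZMod (2 * p)).val * i.val ≡ j.val [MOD p]) :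
    C.sg t (wz C i) = wz C j := by
  unfold wz
  rw [sg_pow_z, z_pow_eq_iff]
  have h2 := h.mul_left' 2
  rw [show (t : ZMod (2 * p)).val * (2 * i.val) = 2 * ((t : ZMod (2 * p)).val * i.val) by ring]
  exact h2

theorem neg_one_val : (((-1 : (ZMod (2 * p))ˣ) : ZMod (2 * p)).val + 1) % (2 * p) = 0 := by
  have h3 : (((((-1 : (ZMod (2 * p))ˣ) : ZMod (2 * p)).val + 1 : ℕ)) : ZMod (2 * p)) = ((0 : ℕ) : ZMod (2 * p)) := by
    push_cast
    rw [ZMod.natCast_zmod_val]
    simp
  have h4 := (ZMod.natCast_eq_natCast_iff _ _ _).1 h3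
  rw [Nat.ModEq, Nat.zero_mod] at h4
  exact h4

theorem cj_wz (i : ZMod p) : C.cj (wz C i) = wz C (-i) := by
  unfold Cyc.cj
  apply sg_wz
  have h := neg_one_val (p := p)
  have h1 : ((((-1 : (ZMod (2 * p))ˣ) : ZMod (2 * p)).val + 1 : ℕ) : ZMod p) = 0 := by
    rw [ZMod.natCast_eq_zero_iff]
    exact (Dvd.intro_left 2 rfl).trans (Nat.dvd_of_mod_eq_zero h)
  rw [← ZMod.natCast_eq_natCast_iff, Nat.cast_mul, ZMod.natCast_zmod_val, ZMod.natCast_zmod_val]
  push_cast at h1
  linear_combination i * h1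

theorem cj_el (e : ZMod p → ℤ) : C.cj (el C e) = ∑ i : ZMod p, (e i : R) * wz C (-i) := by
  unfold el
  have h1 : C.cj (∑ i : ZMod p, (e i : R) * wz C i) = ∑ i : ZMod p, C.cj ((e i : R) * wz C i) := by
    unfold Cyc.cj
    rw [map_sum]
  rw [h1]
  refine sum_congr rfl fun i _ => ?_
  have h2 : C.cj ((e i : R) * wz C i) = C.cj (e i : R) * C.cj (wz C i) := by
    unfold Cyc.cj
    rw [map_mul]
  rw [h2, cj_wz]
  congr 1
  unfold Cyc.cj
  rw [map_intCast]

/-- the product with the conjugate -/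
theorem el_mul_cj (e : ZMod p → ℤ) : el C e * C.cj (el C e) = ∑ u : ZMod p, (ac e u : R) * wz C u := by
  rw [cj_el, el, sum_mul_sum]
  have h1 : ∀ u : ZMod p, (ac e u : R) * wz C u = ∑ j : ZMod p, (e (j + u) : R) * wz C (j + u) *
      ((e j : R) * wz C (-j)) := by
    intro u
    unfold ac
    push_cast
    rw [sum_mul]
    refine sum_congr rfl fun j _ => ?_
    rw [wz_add, show (e (j + u) : R) * (wz C j * wz C u) * ((e j : R) * wz C (-j)) =
      (e j : R) * (e (j + u) : R) * wz C u * (wz C (-j) * wz C j) by ring, wz_neg_mul, mul_one]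
  have h2 : ∑ u : ZMod p, (ac e u : R) * wz C u = ∑ j : ZMod p, ∑ u : ZMod p,
      (e (j + u) : R) * wz C (j + u) * ((e j : R) * wz C (-j)) := by
    rw [sum_comm]
    exact sum_congr rfl fun u _ => h1 u
  rw [h2, sum_comm]
  refine sum_congr rfl fun j _ => ?_
  exact (Equiv.sum_comp (Equiv.addLeft j)
    (fun i => (e i : R) * wz C i * ((e j : R) * wz C (-j)))).symm

theorem el_add (e f : ZMod p → ℤ) : el C (e + f) = el C e + el C f := by
  unfold el
  rw [← sum_add_distrib]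
  refine sum_congr rfl fun i _ => ?_
  rw [Pi.add_apply]
  push_cast
  ring

theorem el_single (i : ZMod p) (a : ℤ) : el C (fun j => if j = i then a else 0) = (a : R) * wz C i := by
  unfold el
  rw [sum_eq_single i]
  · simp
  · intro j _ hj
    simp [hj]
  · intro h
    exact absurd (mem_univ i) h

theorem el_sum {κ : Type} (S : Finset κ) (f : κ → ZMod p → ℤ) : el C (∑ k ∈ S, f k) = ∑ k ∈ S, el C (f k) := by
  classical
  induction S using Finset.induction_on with
  | empty =>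
    rw [sum_empty, sum_empty]
    unfold el
    exact sum_eq_zero fun i _ => by simp
  | insert a S ha ih => rw [sum_insert ha, sum_insert ha, el_add, ih]

variable [IsDomain R]

theorem z_pow_p : C.z ^ p = -1 := by
  have h1 : (C.z ^ p) ^ 2 = 1 := by
    rw [← pow_mul]
    have h0 := C.z_pow
    rwa [show C.z ^ (2 * p) = C.z ^ (p * 2) from congrArg (fun k => C.z ^ k) (mul_comm 2 p)] at h0
  have h2 : C.z ^ p ≠ 1 := by
    intro h
    have h3 : C.z ^ p = C.z ^ 0 := by rw [h, pow_zero]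
    rw [z_pow_eq_iff] at h3
    have h4 := (Nat.modEq_zero_iff_dvd.1 h3)
    have h5 := Nat.le_of_dvd (NeZero.pos p) h4
    have := NeZero.pos p
    omega
  have h3 : (C.z ^ p - 1) * (C.z ^ p + 1) = 0 := by linear_combination h1
  rcases mul_eq_zero.1 h3 with h | h
  · exact absurd (sub_eq_zero.1 h) h2
  · exact eq_neg_of_add_eq_zero_left h

/-- every power of `z` is `± ζ_p^j` (`p` odd) -/
theorem z_pow_eq (hp : Odd p) (k : ℕ) : ∃ (a : ℤ) (i : ZMod p), C.z ^ k = (a : R) * wz C i := by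
  rcases Nat.even_or_odd k with ⟨j, hj⟩ | hk
  · refine ⟨1, (j : ZMod p), ?_⟩
    rw [← wz_of_modEq C (i := (j : ZMod p)) (a := j)]
    · rw [hj, ← two_mul]
      push_cast
      ring
    · rw [ZMod.val_natCast]
      exact (Nat.mod_modEq _ _).symm
  · obtain ⟨j, hj⟩ := hk.add_odd hp
    refine ⟨-1, (j : ZMod p), ?_⟩
    rw [← wz_of_modEq C (i := (j : ZMod p)) (a := j)]
    · have h2 : C.z ^ (2 * j) = C.z ^ (k + p) := congrArg (fun k => C.z ^ k) (by omega)
      rw [h2, pow_add, z_pow_p]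
      push_cast
      ring
    · rw [ZMod.val_natCast]
      exact (Nat.mod_modEq _ _).symm

/-- every element is `∑ e_i ζ_p^i` (`p` odd) -/
theorem el_surj (hp : Odd p) (x : R) : ∃ e : ZMod p → ℤ, x = el C e := by
  obtain ⟨c, rfl⟩ := C.span x
  choose a i h using fun k : ℕ => z_pow_eq C hp k
  refine ⟨∑ k : ZMod (2 * p), fun j => if j = i k.val then c k * a k.val else 0, ?_⟩
  rw [el_sum]
  refine sum_congr rfl fun k _ => ?_
  rw [el_single, h k.val]
  push_cast
  ring

end Pool.RY
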