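import Pool.Agent.Lib.MP_f4ebb7_co.RY.Cnt

/-! RY-KId (`q` prime): the numbers `K_i = ∑_t N_t((t-1) i, 0)`.

PROOF. `kid`: `K_i = ∑_t #{(d, d') ∈ D × D : t d.1 - d'.1 = (t - 1) i, d.2 = d'.2}`; the condition is `t (x - i) = x' - i` for `d = (x, h)`, `d' = (x', h)`. Sum over `t` first: for fixed `(x, x', h)` the number of units `t` is: `1` if `x ≠ i`, `x' ≠ i`
(`t = (x' - i)/(x - i)`, field); `q - 1` if `x = i = x'`; `0` if exactly one of them is `i`. With `r_h = fib Prod.snd D h`, `δ_h = [(i,h) ∈ D]`: `K_i = ∑_h ((r_h - δ_h)^2 + (q-1) δ_h) = ∑ r_h^2 - 2 ∑ r_h δ_h + q ∑ δ_h` (`δ^2 = δ`) and `∑_h δ_h = fib Prod.fst D i`.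
`kdiff`: `Nt D t ((t-1) i, 0) - p^c E_t((t-1) i, 0) = Nt D t ((t-1) j, 0) - p^c E_t((t-1) j, 0)`: `hE t .inv` with `y = ((t-1)(i - j), 0) ∈ P1` (`p = 0` in `ZMod q`, `q = p`). Sum over `t`.
-/

set_option autoImplicit false

namespace Pool.RY

open Finset

variable {H : Type} [AddCommGroup H] [Fintype H] [DecidableEq H] {p s c m q n l : ℕ} [NeZero q]
  {D : Finset (ZMod q × H)}

private theorem kid_card_t (hq : q.Prime) (i x x' : ZMod q) :
    ∑ t : (ZMod q)ˣ, (if (t : ZMod q) * (x - i) = x' - i then (1 : ℤ) else 0) =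
      1 - (if x = i then (1 : ℤ) else 0) - (if x' = i then (1 : ℤ) else 0) +
        q * ((if x = i then (1 : ℤ) else 0) * (if x' = i then (1 : ℤ) else 0)) := by
  have : Fact q.Prime := ⟨hq⟩
  by_cases hx : x = i
  · subst hx
    by_cases hx' : x' = x
    · subst hx'
      simp only [sub_self, mul_zero, if_true, sum_const, card_univ, ZMod.card_units q, nsmul_eq_mul,
        mul_one]
      rw [Nat.cast_sub hq.one_lt.le]
      push_cast
      ring
    · have h : ∀ t : (ZMod q)ˣ, ¬ ((t : ZMod q) * (x - x) = x' - x) := by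
        intro t ht
        rw [sub_self, mul_zero] at ht
        exact hx' (sub_eq_zero.1 ht.symm)
      rw [sum_congr rfl fun t _ => if_neg (h t), sum_const_zero, if_pos rfl, if_neg hx']
      ring
  · have hxi : x - i ≠ 0 := sub_ne_zero.2 hx
    by_cases hx' : x' = i
    · subst hx'
      have h : ∀ t : (ZMod q)ˣ, ¬ ((t : ZMod q) * (x - x') = x' - x') := by
        intro t ht
        rw [sub_self] at ht
        rcases mul_eq_zero.1 ht with h1 | h1
        · exact t.ne_zero h1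
        · exact hxi h1
      rw [sum_congr rfl fun t _ => if_neg (h t), sum_const_zero, if_neg hx, if_pos rfl]
      ring
    · have hxi' : x' - i ≠ 0 := sub_ne_zero.2 hx'
      have h : ∀ t : (ZMod q)ˣ, ((t : ZMod q) * (x - i) = x' - i) ↔
          t = Units.mk0 ((x' - i) / (x - i)) (div_ne_zero hxi' hxi) := by
        intro t
        rw [Units.ext_iff, Units.val_mk0, eq_div_iff hxi]
      simp only [h, sum_ite_eq', mem_univ, if_true, if_neg hx, if_neg hx']
      ring

private theorem kid_sum (D : Finset (ZMod q × H)) (i : ZMod q) (h : H) :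
    ∑ d ∈ D, (if d.2 = h then (1 : ℤ) else 0) * (if d.1 = i then (1 : ℤ) else 0) =
      if (i, h) ∈ D then 1 else 0 := by
  have h1 : ∀ d ∈ D, (if d.2 = h then (1 : ℤ) else 0) * (if d.1 = i then (1 : ℤ) else 0) =
      if d = (i, h) then 1 else 0 := by
    intro d _
    by_cases h2 : d.2 = h
    · by_cases h3 : d.1 = i
      · rw [if_pos h2, if_pos h3, if_pos (Prod.ext h3 h2), one_mul]
      · rw [if_pos h2, if_neg h3, if_neg (fun h4 => h3 (by rw [h4])), one_mul]
    · rw [if_neg h2, zero_mul, if_neg (fun h4 => h2 (by rw [h4]))]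
  rw [sum_congr rfl h1, sum_ite_eq']

theorem kid (hq : q.Prime) (D : Finset (ZMod q × H)) (i : ZMod q) :
    KK D i = ∑ h : H, fib Prod.snd D h ^ 2 - 2 * ∑ h : H, (if (i, h) ∈ D then fib Prod.snd D h else 0) +
      q * fib Prod.fst D i := by
  have hN : ∀ t : (ZMod q)ˣ, Nt D t (((t : ZMod q) - 1) * i, 0) = ∑ d ∈ D, ∑ d' ∈ D,
      (if d.2 = d'.2 then (1 : ℤ) else 0) *
        (if (t : ZMod q) * (d.1 - i) = d'.1 - i then (1 : ℤ) else 0) := by
    intro t
    unfold Nt
    rw [card_filter, sum_product]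
    push_cast
    refine sum_congr rfl fun d _ => sum_congr rfl fun d' _ => ?_
    by_cases h1 : d.2 = d'.2
    · by_cases h2 : (t : ZMod q) * (d.1 - i) = d'.1 - i
      · rw [if_pos h1, if_pos h2, if_pos, mul_one]
        refine Prod.ext ?_ (sub_eq_zero.2 h1)
        change (t : ZMod q) * d.1 - d'.1 = ((t : ZMod q) - 1) * i
        linear_combination h2
      · rw [if_pos h1, if_neg h2, if_neg, mul_zero]
        intro h3
        have h4 : (t : ZMod q) * d.1 - d'.1 = ((t : ZMod q) - 1) * i := congrArg Prod.fst h3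
        exact h2 (by linear_combination h4)
    · rw [if_neg h1, if_neg, zero_mul]
      intro h3
      have h4 : d.2 - d'.2 = 0 := congrArg Prod.snd h3
      exact h1 (sub_eq_zero.1 h4)
  have hK : KK D i = ∑ d ∈ D, ∑ d' ∈ D, (if d.2 = d'.2 then (1 : ℤ) else 0) *
      (1 - (if d.1 = i then (1 : ℤ) else 0) - (if d'.1 = i then (1 : ℤ) else 0) +
        q * ((if d.1 = i then (1 : ℤ) else 0) * (if d'.1 = i then (1 : ℤ) else 0))) := by
    unfold KK
    rw [sum_congr rfl fun t _ => hN t, sum_comm]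
    refine sum_congr rfl fun d _ => ?_
    rw [sum_comm]
    refine sum_congr rfl fun d' _ => ?_
    rw [← mul_sum, kid_card_t hq]
  have hsplit : ∀ d d' : ZMod q × H, (if d.2 = d'.2 then (1 : ℤ) else 0) =
      ∑ h : H, (if d.2 = h then (1 : ℤ) else 0) * (if d'.2 = h then (1 : ℤ) else 0) := by
    intro d d'
    simp only [ite_mul, one_mul, zero_mul, sum_ite_eq, mem_univ, if_true]
    by_cases h : d.2 = d'.2
    · rw [if_pos h, if_pos h.symm]
    · rw [if_neg h, if_neg (Ne.symm h)]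
  have hA : ∀ h : H, fib Prod.snd D h = ∑ d ∈ D, (if d.2 = h then (1 : ℤ) else 0) := by
    intro h
    unfold fib
    rw [card_filter]
    push_cast
    rfl
  have hB : fib Prod.fst D i = ∑ h : H, (if (i, h) ∈ D then (1 : ℤ) else 0) := by
    unfold fib
    rw [card_filter]
    push_cast
    rw [← sum_congr rfl fun h (_ : h ∈ (univ : Finset H)) => kid_sum D i h, sum_comm]
    refine sum_congr rfl fun d _ => ?_
    simp only [ite_mul, one_mul, zero_mul, sum_ite_eq, mem_univ, if_true]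
  have hmain : KK D i = ∑ h : H, ((fib Prod.snd D h) ^ 2 -
      2 * (fib Prod.snd D h * (if (i, h) ∈ D then (1 : ℤ) else 0)) +
      q * ((if (i, h) ∈ D then (1 : ℤ) else 0) * (if (i, h) ∈ D then (1 : ℤ) else 0))) := by
    rw [hK]
    have h1 : ∀ d ∈ D, ∑ d' ∈ D, (if d.2 = d'.2 then (1 : ℤ) else 0) *
        (1 - (if d.1 = i then (1 : ℤ) else 0) - (if d'.1 = i then (1 : ℤ) else 0) +
        q * ((if d.1 = i then (1 : ℤ) else 0) * (if d'.1 = i then (1 : ℤ) else 0))) =
        ∑ h : H, ∑ d' ∈ D, ((if d.2 = h then (1 : ℤ) else 0) * (if d'.2 = h then (1 : ℤ) else 0) *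
        (1 - (if d.1 = i then (1 : ℤ) else 0) - (if d'.1 = i then (1 : ℤ) else 0) +
        q * ((if d.1 = i then (1 : ℤ) else 0) * (if d'.1 = i then (1 : ℤ) else 0)))) := by
      intro d _
      rw [sum_comm]
      refine sum_congr rfl fun d' _ => ?_
      rw [hsplit, sum_mul]
    rw [sum_congr rfl h1, sum_comm]
    refine sum_congr rfl fun h _ => ?_
    rw [← kid_sum D i h, hA h]
    have h2 : ∀ (a b : ZMod q × H → ℤ), ∑ d ∈ D, ∑ d' ∈ D, (a d * a d' * (1 - b d - b d' + q * (b d * b d'))) =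
        (∑ d ∈ D, a d) ^ 2 - 2 * ((∑ d ∈ D, a d) * ∑ d ∈ D, a d * b d) +
        q * ((∑ d ∈ D, a d * b d) * ∑ d ∈ D, a d * b d) := by
      intro a b
      have h3 : ∀ d ∈ D, ∑ d' ∈ D, (a d * a d' * (1 - b d - b d' + q * (b d * b d'))) =
          a d * (∑ d' ∈ D, a d') - a d * b d * (∑ d' ∈ D, a d') - a d * (∑ d' ∈ D, a d' * b d') +
          q * (a d * b d * ∑ d' ∈ D, a d' * b d') := by
        intro d _
        rw [mul_sum, mul_sum, mul_sum, mul_sum, mul_sum, ← sum_sub_distrib, ← sum_sub_distrib,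
          ← sum_add_distrib]
        refine sum_congr rfl fun d' _ => ?_
        ring
      rw [sum_congr rfl h3, sum_add_distrib, sum_sub_distrib, sum_sub_distrib, ← mul_sum, ← sum_mul,
        ← sum_mul, ← sum_mul, ← sum_mul]
      ring
    exact h2 (fun d => if d.2 = h then (1 : ℤ) else 0) (fun d => if d.1 = i then (1 : ℤ) else 0)
  rw [hmain, sum_add_distrib, sum_sub_distrib, ← mul_sum, ← mul_sum, hB]
  have h5 : ∀ h ∈ (univ : Finset H), fib Prod.snd D h * (if (i, h) ∈ D then (1 : ℤ) else 0) =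
      if (i, h) ∈ D then fib Prod.snd D h else 0 := by
    intro h _
    rw [mul_ite, mul_one, mul_zero]
  have h6 : ∀ h ∈ (univ : Finset H), (if (i, h) ∈ D then (1 : ℤ) else 0) * (if (i, h) ∈ D then (1 : ℤ) else 0) =
      if (i, h) ∈ D then (1 : ℤ) else 0 := by
    intro h _
    by_cases h7 : (i, h) ∈ D
    · rw [if_pos h7, one_mul]
    · rw [if_neg h7, zero_mul]
  rw [sum_congr rfl h5, sum_congr rfl h6]

theorem kdiff (h : Dat p 1 c m q n l D) (E : (ZMod q)ˣ → ZMod q × H → ℤ) (hE : ∀ t : (ZMod q)ˣ, IsE p c m q D (t : ZMod q) (E t))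
    (i j : ZMod q) : KK D i - KK D j = (p : ℤ) ^ c * (WW E i - WW E j) := by
  have hpq : p = q := by rw [h.hq, pow_one]
  have hp0 : (p : ZMod q) = 0 := by
    rw [ZMod.natCast_eq_zero_iff, hpq]
  have h1 : ∀ t : (ZMod q)ˣ, Nt D t (((t : ZMod q) - 1) * i, 0) - Nt D t (((t : ZMod q) - 1) * j, 0) =
      (p : ℤ) ^ c * (E t (((t : ZMod q) - 1) * i, 0) - E t (((t : ZMod q) - 1) * j, 0)) := by
    intro t
    have h2 := (hE t).inv (((t : ZMod q) - 1) * (i - j), 0)
      (mem_P1.2 ⟨by rw [hp0, zero_mul], rfl⟩) (((t : ZMod q) - 1) * j, 0)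
    have h3 : ((((t : ZMod q) - 1) * j, 0) : ZMod q × H) + (((t : ZMod q) - 1) * (i - j), 0) =
        (((t : ZMod q) - 1) * i, 0) := by
      rw [Prod.mk_add_mk, add_zero]
      congr 1
      ring
    simp only [h3] at h2
    linear_combination h2
  unfold KK WW
  rw [← sum_sub_distrib, ← sum_sub_distrib, mul_sum]
  exact sum_congr rfl fun t _ => h1 t

end Pool.RY
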