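import Pool.Agent.Lib.MP_f4ebb7_co.RY.Defs2

/-! RY-Num: two numerical inequalities.

PROOF. `num3`: divide by `p^c`; `n = p^c m`. `p √(2n) / p^c = √(2m) p^(1 - c/2) ≤ √(2m)/√p` (`c ≥ 3`) `≤ √(2m)/(4 m^2) ≤ 1/8` (`p > 16 m^4`, `m ≥ 2`: `√(2m) ≤ m`). `4 √(n (n/p + √(2n))) / p^c = 4 √(m^2/p + √2 m^(3/2) p^(-c/2))
≤ 4 √(m^2/p + √2 m^(3/2) p^(-3/2))`; with `p > 16 m^4`: `m^2/p < 1/(16 m^2) ≤ 1/64`, `√2 m^(3/2) p^(-3/2) ≤ √2 m^(3/2)/(64 m^6) ≤ 1/1024·...` (tiny, `≤ 1/900`): `4 √(1/64 + 1/900) < 0.52`. Sum `< 1`.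
In polynomial form: it is enough that `(p √(2n))^2 = 2 p^2 n = 2 m p^(c+2) ≤ (p^c/8)^2` (i.e. `128 m p^2 ≤ p^c`; `p^3 ≥ p^2 * 16 m^4 ≥ 128 m p^2` since `m^3 ≥ 8`) and `16 n (n/p + √(2n)) ≤ (7/8)^2 p^(2c)`: `√(2n) ≤ p^(c-1)/8` by the first, so
`n/p + √(2n) ≤ p^(c-1) (m + 1/8)`, `16 n (n/p + √(2n)) ≤ 16 m (m + 1/8) p^(2c-1)` and `16 m (m+1/8) ≤ (49/64) p` since `p > 16 m^4 ≥ 64 m^2`.
`num2` (`c = 2`, `m ≥ 3`): `p √(2n) = p^2 √(2m)`, `4 √(n (n/p + √(2n))) = 4 √(p^3 (m^2 + m √(2m))) ≤ 4 p^2 √((m^2 + m √(2m))/p)`; `√(2m) ≤ m` gives with `p > 16 m^4`: `(m^2 + m √(2m))/p ≤ 2 m^2/(16 m^4) = 1/(8 m^2)`, so the second is `≤ 4 p^2/(√8 m) = √2 p^2/m`.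
Need `√(2m) + √2/m < m` for `m ≥ 3`: `m = 3`: `2.4495 + 0.4715 = 2.921 < 3`; `m ≥ 4`: `√(2m) ≤ m/√2`, `0.7072 m + 0.354 < m`.
-/

set_option autoImplicit false

namespace Pool.RY

open Finset

theorem num3 {p m c n : ℕ} (hm : 2 ≤ m) (hp : 16 * m ^ 4 < p) (hc : 3 ≤ c) (hn : n = p ^ c * m) :
    (p : ℝ) * √(2 * n) + 4 * √(n * (n / p + √(2 * n))) < (p : ℝ) ^ c := by
  obtain ⟨k, rfl⟩ : ∃ k, c = k + 3 := ⟨c - 3, by omega⟩
  have hM : (2 : ℝ) ≤ m := by exact_mod_cast hm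
  have hP : 16 * (m : ℝ) ^ 4 < p := by exact_mod_cast hp
  have hm2 : (4 : ℝ) ≤ (m : ℝ) ^ 2 := by nlinarith
  have hm4 : 4 * (m : ℝ) ^ 2 ≤ (m : ℝ) ^ 4 := by nlinarith
  have hm3 : 8 * (m : ℝ) ≤ (m : ℝ) ^ 4 := by nlinarith
  have hP64 : 64 * (m : ℝ) ^ 2 < p := by nlinarith
  have hP0 : (1 : ℝ) < p := by nlinarith
  have hPp : (0 : ℝ) < p := by linarith
  have hPm : 128 * (m : ℝ) < p := by nlinarith
  set P : ℝ := (p : ℝ) with hPdef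
  set M : ℝ := (m : ℝ) with hMdef
  obtain ⟨Q, hQ⟩ : ∃ Q : ℝ, Q = P ^ (k + 2) := ⟨_, rfl⟩
  have hQ0 : 0 < Q := by rw [hQ]; positivity
  have hPc : P ^ (k + 3) = Q * P := by rw [hQ]; ring
  have hN : (n : ℝ) = Q * P * M := by
    rw [hn]; push_cast; rw [← hPdef, ← hMdef, hPc]
  have hQP : P ^ 2 ≤ Q := by
    rw [hQ]; exact pow_le_pow_right₀ hP0.le (by omega)
  have hQ2 : 128 * P * M ≤ Q := by nlinarith
  have h1 : √(2 * (n : ℝ)) ≤ Q / 8 := by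
    rw [Real.sqrt_le_left (by positivity), hN]
    nlinarith
  have h1' : 0 ≤ √(2 * (n : ℝ)) := Real.sqrt_nonneg _
  have hdiv : (n : ℝ) / P = Q * M := by
    rw [hN]; field_simp
  have h2 : √((n : ℝ) * (n / P + √(2 * n))) < 7 * Q * P / 32 := by
    rw [Real.sqrt_lt' (by positivity), hdiv]
    have e1 : (n : ℝ) * (Q * M + √(2 * n)) ≤ Q * P * M * (Q * M + Q / 8) := by
      rw [hN] at h1 ⊢
      have : 0 ≤ Q * P * M := by positivity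
      exact mul_le_mul_of_nonneg_left (by linarith) this
    have e2 : 1024 * (M * (M + 1 / 8)) < 49 * P := by nlinarith
    have e3 : 0 < Q ^ 2 * P := by positivity
    have e4 := mul_lt_mul_of_pos_left e2 e3
    have e5 : Q * P * M * (Q * M + Q / 8) = Q ^ 2 * P * (1024 * (M * (M + 1 / 8))) / 1024 := by ring
    have e6 : (7 * Q * P / 32) ^ 2 = Q ^ 2 * P * (49 * P) / 1024 := by ring
    rw [e6]
    linarith
  rw [hPc]
  have h3 : P * √(2 * (n : ℝ)) ≤ P * (Q / 8) := mul_le_mul_of_nonneg_left h1 hPp.le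
  linarith

theorem num2 {p m n : ℕ} (hm : 3 ≤ m) (hp : 16 * m ^ 4 < p) (hn : n = p ^ 2 * m) :
    (p : ℝ) * √(2 * n) + 4 * √(n * (n / p + √(2 * n))) < m * (p : ℝ) ^ 2 := by
  have hM : (3 : ℝ) ≤ m := by exact_mod_cast hm
  have hP : 16 * (m : ℝ) ^ 4 < p := by exact_mod_cast hp
  have hm4 : 1 ≤ (m : ℝ) ^ 4 := one_le_pow₀ (by linarith)
  have hPp : (0 : ℝ) < p := by linarith
  set P : ℝ := (p : ℝ) with hPdef
  set M : ℝ := (m : ℝ) with hMdef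
  have hM0 : 0 < M := by linarith
  have hN : (n : ℝ) = P ^ 2 * M := by
    rw [hn]; push_cast; rw [← hPdef, ← hMdef]
  set s : ℝ := √(2 * M) with hs
  have hs0 : 0 ≤ s := Real.sqrt_nonneg _
  have hs2 : s ^ 2 = 2 * M := Real.sq_sqrt (by positivity)
  have hsM : s ≤ M := by
    rw [hs, Real.sqrt_le_left hM0.le]; nlinarith
  have h1 : √(2 * (n : ℝ)) = P * s := by
    rw [hN, show 2 * (P ^ 2 * M) = P ^ 2 * (2 * M) by ring, Real.sqrt_mul (by positivity),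
      Real.sqrt_sq hPp.le]
  have hdiv : (n : ℝ) / P = P * M := by
    rw [hN]; field_simp
  have hr0 : (0 : ℝ) ≤ √2 := Real.sqrt_nonneg _
  have hr2 : √(2 : ℝ) ^ 2 = 2 := Real.sq_sqrt (by norm_num)
  have hr : √(2 : ℝ) < 3 / 2 := by
    rw [Real.sqrt_lt' (by norm_num)]; norm_num
  have h2 : 4 * √((n : ℝ) * (n / P + √(2 * n))) ≤ √2 * P ^ 2 / M := by
    have e1 : √((n : ℝ) * (n / P + √(2 * n))) ≤ √2 * P ^ 2 / (4 * M) := by
      rw [Real.sqrt_le_left (by positivity), hdiv, h1, hN]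
      have e2 : (√2 * P ^ 2 / (4 * M)) ^ 2 = P ^ 4 / (8 * M ^ 2) := by
        rw [div_pow, mul_pow, hr2]; field_simp; ring
      rw [e2, le_div_iff₀ (by positivity)]
      have e3 : P ^ 2 * M * (P * M + P * s) ≤ P ^ 3 * (2 * M ^ 2) := by
        have : P ^ 2 * M * (P * M + P * s) = P ^ 3 * (M * (M + s)) := by ring
        rw [this]
        exact mul_le_mul_of_nonneg_left (by nlinarith) (by positivity)
      have e4 : P ^ 3 * (16 * M ^ 4) ≤ P ^ 3 * P := mul_le_mul_of_nonneg_left hP.le (by positivity)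
      have e5 := mul_le_mul_of_nonneg_right e3 (show (0 : ℝ) ≤ 8 * M ^ 2 by positivity)
      nlinarith
    have e6 : √2 * P ^ 2 / M = 4 * (√2 * P ^ 2 / (4 * M)) := by field_simp
    rw [e6]
    linarith
  have h3 : s + √2 / M < M := by
    have e0 : √2 / M ≤ √2 / 3 := div_le_div_of_nonneg_left hr0 (by norm_num) hM
    have e1 : √2 / M < M := by linarith
    have e2 : s < M - √2 / M := by
      rw [hs, Real.sqrt_lt' (by linarith)]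
      have e3 : (M - √2 / M) ^ 2 = M ^ 2 - 2 * √2 + (√2 / M) ^ 2 := by
        field_simp
        ring
      rw [e3]
      have e4 := sq_nonneg (√2 / M)
      nlinarith
    linarith
  have h4 : P * √(2 * (n : ℝ)) = P ^ 2 * s := by rw [h1]; ring
  rw [h4]
  have h5 : P ^ 2 * (s + √2 / M) < P ^ 2 * M := mul_lt_mul_of_pos_left h3 (by positivity)
  have h6 : P ^ 2 * (s + √2 / M) = P ^ 2 * s + √2 * P ^ 2 / M := by ring
  linarith

end Pool.RY
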