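import Pool.Agent.Lib.MP_f4ebb7_co.RY.KId

/-! RY-Par (`s = 1`): if all `K_i` are equal then `n` is even.

PROOF. `q` is an odd prime. By `kid`, `q (a_i - a_j) = 2 (R_i - R_j)`, `a_i = fib Prod.fst D i`, so all `a_i - a_j` are even. `push_ac` for `Prod.fst` and `ac_diff`: `∑_i (a_i - a_{i+1})^2 = 2 n` (`1 ≠ 0` in `ZMod q`), a sum of multiples of `4`: `4 ∣ 2 n`, `n` is even.
-/

set_option autoImplicit false

namespace Pool.RY

open Finset

variable {H : Type} [AddCommGroup H] [Fintype H] [DecidableEq H] {p s c m q n l : ℕ} [NeZero q]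
  {D : Finset (ZMod q × H)}

theorem par (hq : q.Prime) (hq2 : q ≠ 2) (hD : CHD.IsDS (ZMod q × H) D l) (hk : D.card = n + l)
    (hkk : ∀ i j, KK D i = KK D j) : Even n := by
  set a : ZMod q → ℤ := fib Prod.fst D with ha
  have hqo : Odd (q : ℤ) := by
    exact_mod_cast hq.odd_of_ne_two hq2
  have hpar : ∀ i j, (2 : ℤ) ∣ a i - a j := by
    intro i j
    have h1 := hkk i j
    rw [kid hq D i, kid hq D j] at h1
    have h2 : (q : ℤ) * (a i - a j) =
        2 * (∑ h : H, (if (i, h) ∈ D then fib Prod.snd D h else 0) -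
          ∑ h : H, (if (j, h) ∈ D then fib Prod.snd D h else 0)) := by
      linear_combination h1
    have h3 : Even ((q : ℤ) * (a i - a j)) := by
      rw [h2]
      exact even_two_mul _
    rcases Int.even_mul.1 h3 with h4 | h4
    · exact absurd h4 (Int.not_even_iff_odd.2 hqo)
    · exact h4.two_dvd
  have hκ : Fintype.card H * Fintype.card (ZMod q) = Fintype.card (ZMod q × H) := by
    rw [Fintype.card_prod, mul_comm]
  have hs : Function.Surjective (AddMonoidHom.fst (ZMod q) H) := fun x => ⟨(x, 0), rfl⟩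
  have hp0 := push_ac (AddMonoidHom.fst (ZMod q) H) hs (Fintype.card H) hκ hD hk 0
  have hp1 := push_ac (AddMonoidHom.fst (ZMod q) H) hs (Fintype.card H) hκ hD hk 1
  have h10 : (1 : ZMod q) ≠ 0 := by
    have : Fact q.Prime := ⟨hq⟩
    exact one_ne_zero
  rw [if_pos rfl] at hp0
  rw [if_neg h10] at hp1
  have hd := ac_diff (fib (AddMonoidHom.fst (ZMod q) H) D) 1
  rw [hp0, hp1] at hd
  have h4 : (4 : ℤ) ∣ ∑ g, (fib (AddMonoidHom.fst (ZMod q) H) D g -
      fib (AddMonoidHom.fst (ZMod q) H) D (g + 1)) ^ 2 := by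
    refine Finset.dvd_sum fun g _ => ?_
    obtain ⟨r, hr⟩ := hpar g (g + 1)
    have hr' : fib (AddMonoidHom.fst (ZMod q) H) D g - fib (AddMonoidHom.fst (ZMod q) H) D (g + 1) = 2 * r := hr
    rw [hr']
    exact ⟨r ^ 2, by ring⟩
  rw [hd] at h4
  have h5 : (4 : ℤ) ∣ 2 * n := by
    convert h4 using 1
    ring
  have h6 : 2 ∣ n := by omega
  exact even_iff_two_dvd.2 h6

end Pool.RY
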