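import Pool.Agent.Lib.MP_f4ebb7_co.RY.ExE
import Pool.Agent.Lib.MP_f4ebb7_co.RY.TauB
import Pool.Agent.Lib.MP_f4ebb7_co.RY.KId
import Pool.Agent.Lib.MP_f4ebb7_co.RY.Size
import Pool.Agent.Lib.MP_f4ebb7_co.RY.Num
import Pool.Agent.Lib.MP_f4ebb7_co.RY.Par

/-! RY-EndB (`s = 1`, `c ≥ 3`): `p - 1` divides `|H|`. -/

set_option autoImplicit false

namespace Pool.RY

open Finset

variable {H : Type} [AddCommGroup H] [Fintype H] [DecidableEq H] {p s c m q n l : ℕ} [NeZero q]
  {D : Finset (ZMod q × H)}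

theorem endB (h : Dat p 1 c m q n l D) (hc : 3 ≤ c)
    (hR : ∀ (t : (ZMod q)ˣ) (E : ZMod q × H → ℤ), IsE p c m q D (t : ZMod q) E → 4 ^ ((sp E).image Prod.fst).card < p) :
    (p - 1) ∣ Fintype.card H := by
  have hqp : q = p := by
    have := h.hq
    rwa [pow_one] at this
  have hprime : q.Prime := by
    rw [hqp]
    exact h.hp
  choose E hE using exE h
  obtain ⟨N0, τ, h1, h2, i₀, h3⟩ := tauB h E hE (fun t => hR t _ (hE t))
  have hp0 : (0 : ℝ) < (p : ℝ) := by exact_mod_cast h.hp.pos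
  have hpc : (0 : ℝ) < (p : ℝ) ^ c := pow_pos hp0 c
  have hsz : ∀ i j, (p : ℝ) ^ c * |((WW E i - WW E j : ℤ) : ℝ)| ≤
      (p : ℝ) * √(2 * n) + 4 * √(n * (n / p + √(2 * n))) := by
    intro i j
    have h3 := size hprime h.ds h.card i j
    rw [kdiff h E hE i j] at h3
    have hq' : (q : ℝ) = p := by rw [hqp]
    rw [hq'] at h3
    rw [Int.cast_mul, abs_mul, Int.cast_pow, Int.cast_natCast, abs_of_pos hpc] at h3
    exact h3
  have hW : ∀ i j, WW E i = WW E j := by
    intro i j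
    have h4 := (hsz i j).trans_lt (num3 h.hm h.h16 hc h.hn)
    have h5 : |((WW E i - WW E j : ℤ) : ℝ)| < 1 := by
      by_contra hcon
      push Not at hcon
      have := mul_le_mul_of_nonneg_left hcon hpc.le
      linarith
    have h6 : |WW E i - WW E j| < 1 := by
      rw [← Int.cast_abs] at h5
      exact_mod_cast h5
    have h7 := Int.abs_lt_one_iff.1 h6
    omega
  have hm0 : (m : ℤ) ≠ 0 := by
    have := h.hm
    exact_mod_cast (by omega : m ≠ 0)
  have hτ : ∀ i, τ i = Fintype.card H := by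
    intro i
    have h3' := h1 i
    rw [hW i i₀, h1 i₀] at h3'
    rw [← h3]
    exact (mul_left_cancel₀ hm0 h3').symm
  rw [Finset.sum_congr rfl fun i _ => hτ i, Finset.sum_const, Finset.card_univ, ZMod.card, nsmul_eq_mul] at h2
  have h4 : (Fintype.card H : ℤ) = ((q : ℤ) - 1) * N0 := by linear_combination h2
  rw [hqp] at h4
  have h5 : ((p - 1 : ℕ) : ℤ) = (p : ℤ) - 1 := by
    rw [Nat.cast_sub h.hp.one_lt.le]
    rfl
  rw [← h5] at h4
  exact ⟨N0, by exact_mod_cast h4⟩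

end Pool.RY
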