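import Pool.Agent.Lib.MP_f4ebb7_co.RY.Nn

/-! RY-EtaOne (`q = p`, `c = 2`, `m` a square): the character `η` that belongs to `ψ = 1` is trivial.

PROOF. `FF (E t) 1 x = ∑_h E t (x, h)` (an integer). So `m η(t) = ∑_h E t ((t-1) x₀, h)` is an integer, `η t` is rational, and `η(t)^(q-1) = 1` (`map_pow`, `pow_card_eq_one`), so `η t = e t` with `e t ∈ {1, -1}` (integers); `e` is multiplicative.
Suppose `η ≠ 1`; then `∑_t e t = 0` (multiply by `e t1 = -1`; compare `tau_hom` in RY/Tau.lean). Let `a y = fib Prod.fst D y`, `χ(y) = e(y)` for `y ≠ 0` (a unit, `q` prime) and `χ(0) = 0`, `S = ∑_y χ(y - x₀) a_y` (integer).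
`S^2 = ∑_{y, y' ≠ x₀} χ(y-x₀) χ(y'-x₀) a_y a_{y'}`; for fixed `y ≠ x₀` the `y' ≠ x₀` are `x₀ + t (y - x₀)`, `t` a unit, and `χ(y-x₀) χ(t (y-x₀)) = e t`: `S^2 = ∑_t e t ∑_{y ≠ x₀} a_y a_{x₀ + t (y-x₀)} = ∑_t e t ∑_y a_y a_{t y - (t-1) x₀} - a_{x₀}^2 ∑_t e t
= ∑_t e t ∑_h Nt D t ((t-1) x₀, h)` (`nn_eq`; `x₀ + t (y - x₀) = t y - (t-1) x₀`). By `nn_val`, with `∑_g E t g = ∑_x FF (E t) 1 x = m e t`: `q S^2 = ∑_t e t ((n+l)^2 + p^2 (q m e t - m e t)) = p^2 m (q-1) ∑_t 1 = p^2 m (q-1)^2`. As `q = p`: `S^2 = p m (p-1)^2`,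
`m = μ^2`: `S^2 = p (μ (p-1))^2` with `μ (p-1) ≠ 0`: impossible for a prime `p` (valuation at `p`, or `Nat.Prime.irrational_sqrt`).
-/

set_option autoImplicit false

namespace Pool.RY

open Finset

variable {H : Type} [AddCommGroup H] [Fintype H] [DecidableEq H] {p s c m q n l : ℕ} [NeZero q]
  {D : Finset (ZMod q × H)}

private theorem ff_one (E : ZMod q × H → ℤ) (x : ZMod q) :
    FF E 1 x = ((∑ h : H, E (x, h) : ℤ) : ℂ) := by
  unfold FF
  push_cast
  exact Finset.sum_congr rfl fun h _ => by simp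

/-- a multiplicative function with values `±1` which is not constant has sum `0` -/
private theorem e_sum (e : (ZMod q)ˣ → ℤ) (hmul : ∀ s t, e (s * t) = e s * e t) (t1 : (ZMod q)ˣ)
    (h1 : e t1 = -1) : ∑ t : (ZMod q)ˣ, e t = 0 := by
  have h2 : e t1 * ∑ t : (ZMod q)ˣ, e t = ∑ t : (ZMod q)ˣ, e t := by
    rw [Finset.mul_sum]
    refine Fintype.sum_bijective (fun t => t1 * t) (Group.mulLeft_bijective t1) _ _ fun t => ?_
    rw [hmul]
  rw [h1] at h2
  linarith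

private theorem sum_units (hq : q.Prime) (F : ZMod q → ℤ) :
    ∑ u : (ZMod q)ˣ, F u = ∑ z : ZMod q, F z - F 0 := by
  have : Fact q.Prime := ⟨hq⟩
  have h1 : ∑ u : (ZMod q)ˣ, F u = ∑ z ∈ univ.erase (0 : ZMod q), F z := by
    refine Finset.sum_bij (fun u _ => (u : ZMod q)) ?_ ?_ ?_ ?_
    · intro u _
      rw [mem_erase]
      exact ⟨u.ne_zero, mem_univ _⟩
    · intro u _ v _ huv
      exact Units.ext huv
    · intro z hz
      rw [mem_erase] at hz
      exact ⟨Units.mk0 z hz.1, mem_univ _, rfl⟩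
    · intro u _
      rfl
  rw [h1, ← Finset.add_sum_erase univ F (mem_univ (0 : ZMod q))]
  ring

/-- the square of the character sum -/
private theorem e_sq (hq : q.Prime) (e : (ZMod q)ˣ → ℤ) (hmul : ∀ s t, e (s * t) = e s * e t)
    (he : ∀ t, e t * e t = 1) (hs : ∑ t : (ZMod q)ˣ, e t = 0) (a : ZMod q → ℤ) (x₀ : ZMod q) :
    (∑ u : (ZMod q)ˣ, e u * a (x₀ + u)) ^ 2 =
      ∑ t : (ZMod q)ˣ, e t * ∑ y : ZMod q, a y * a ((t : ZMod q) * y - ((t : ZMod q) - 1) * x₀) := by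
  have h1 : ∀ t : (ZMod q)ˣ, ∑ y : ZMod q, a y * a ((t : ZMod q) * y - ((t : ZMod q) - 1) * x₀) =
      ∑ u : (ZMod q)ˣ, a (x₀ + u) * a (x₀ + (t : ZMod q) * u) + a x₀ * a x₀ := by
    intro t
    have h2 := sum_units hq (fun z => a (x₀ + z) * a (x₀ + (t : ZMod q) * z))
    have h3 : ∑ z : ZMod q, a (x₀ + z) * a (x₀ + (t : ZMod q) * z) =
        ∑ y : ZMod q, a y * a ((t : ZMod q) * y - ((t : ZMod q) - 1) * x₀) := by
      refine Fintype.sum_equiv (Equiv.addLeft x₀) _ _ fun z => ?_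
      rw [Equiv.coe_addLeft]
      congr 2
      ring
    rw [← h3, h2, mul_zero, add_zero]
    ring
  have h4 : ∑ t : (ZMod q)ˣ, e t * ∑ y : ZMod q, a y * a ((t : ZMod q) * y - ((t : ZMod q) - 1) * x₀) =
      ∑ t : (ZMod q)ˣ, ∑ u : (ZMod q)ˣ, e t * (a (x₀ + u) * a (x₀ + (t : ZMod q) * u)) := by
    rw [Finset.sum_congr rfl fun t _ => by rw [h1 t, mul_add, Finset.mul_sum], Finset.sum_add_distrib,
      ← Finset.sum_mul, hs, zero_mul, add_zero]
  rw [h4, Finset.sum_comm, pow_two, Finset.sum_mul_sum]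
  refine Finset.sum_congr rfl fun u _ => ?_
  symm
  refine Fintype.sum_bijective (fun t => t * u) (Group.mulRight_bijective u) _ _ fun t => ?_
  rw [Units.val_mul, hmul]
  calc e t * (a (x₀ + ↑u) * a (x₀ + ↑t * ↑u)) = (e u * e u) * (e t * (a (x₀ + ↑u) * a (x₀ + ↑t * ↑u))) := by
        rw [he u, one_mul]
    _ = _ := by ring

/-- `S² = p w²`, `w ≠ 0`, is impossible -/
private theorem no_sq (hp : p.Prime) (S w : ℤ) (hw : w ≠ 0) (h : S ^ 2 = p * w ^ 2) : False := by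
  have h1 := hp.irrational_sqrt
  apply h1
  refine ⟨|(S : ℚ) / w|, ?_⟩
  have hw' : (w : ℝ) ≠ 0 := by exact_mod_cast hw
  have h2 : (S : ℝ) ^ 2 = p * (w : ℝ) ^ 2 := by exact_mod_cast h
  have h3 : ((S : ℝ) / w) ^ 2 = p := by
    rw [div_pow, h2]
    field_simp
  rw [← h3, Real.sqrt_sq_eq_abs]
  push_cast
  rfl

theorem eta_one (h : Dat p 1 2 m q n l D) (hsq : IsSquare m) (E : (ZMod q)ˣ → ZMod q × H → ℤ)
    (hE : ∀ t : (ZMod q)ˣ, IsE p 2 m q D (t : ZMod q) (E t)) (x₀ : ZMod q) (η : (ZMod q)ˣ →* ℂ)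
    (hη : ∀ (t : (ZMod q)ˣ) (x : ZMod q), FF (E t) 1 x = if x = ((t : ZMod q) - 1) * x₀ then (m : ℂ) * η t else 0) :
    η = 1 := by
  have hqp : q = p := by
    have := h.hq
    rwa [pow_one] at this
  have hq : q.Prime := by
    rw [hqp]
    exact h.hp
  have : Fact q.Prime := ⟨hq⟩
  have hm0 : m ≠ 0 := by
    have := h.hm
    omega
  have hmC : (m : ℂ) ≠ 0 := by exact_mod_cast hm0
  obtain ⟨Z, hZ⟩ : ∃ Z : (ZMod q)ˣ → ZMod q → ℤ, Z = fun t x => ∑ k : H, E t (x, k) := ⟨_, rfl⟩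
  have hZη : ∀ (t : (ZMod q)ˣ) (x : ZMod q), ((Z t x : ℤ) : ℂ) =
      if x = ((t : ZMod q) - 1) * x₀ then (m : ℂ) * η t else 0 := by
    intro t x
    rw [← hη t x, ff_one, hZ]
  -- the values are `±1`
  have hval : ∀ t, η t = 1 ∨ η t = -1 := by
    intro t
    have h1 := hZη t (((t : ZMod q) - 1) * x₀)
    rw [if_pos rfl] at h1
    have h2 : ‖η t‖ = 1 := by
      have h3 : η t ^ Fintype.card (ZMod q)ˣ = 1 := by
        rw [← map_pow, pow_card_eq_one, map_one]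
      exact Complex.norm_eq_one_of_pow_eq_one h3 Fintype.card_ne_zero
    have h3 : |Z t (((t : ZMod q) - 1) * x₀)| = (m : ℤ) := by
      have h4 := congrArg norm h1
      rw [norm_mul, h2, mul_one, Complex.norm_intCast, Complex.norm_natCast] at h4
      exact_mod_cast h4
    rcases (abs_eq (by positivity)).1 h3 with h4 | h4
    · left
      rw [h4] at h1
      push_cast at h1
      exact mul_left_cancel₀ hmC (by rw [← h1, mul_one])
    · right
      rw [h4] at h1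
      push_cast at h1
      exact mul_left_cancel₀ hmC (by rw [← h1, mul_neg, mul_one])
  classical
  obtain ⟨e, he⟩ : ∃ e : (ZMod q)ˣ → ℤ, e = fun t => if η t = 1 then 1 else -1 := ⟨_, rfl⟩
  have heη : ∀ t, ((e t : ℤ) : ℂ) = η t := by
    intro t
    rw [he]
    simp only
    rcases hval t with h1 | h1
    · rw [if_pos h1, h1]
      simp
    · rw [if_neg (by rw [h1]; norm_num), h1]
      simp
  have hmul : ∀ s t, e (s * t) = e s * e t := by
    intro s t
    have h1 : ((e (s * t) : ℤ) : ℂ) = ((e s * e t : ℤ) : ℂ) := by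
      push_cast
      rw [heη, heη, heη, map_mul]
    exact_mod_cast h1
  have hee : ∀ t, e t * e t = 1 := by
    intro t
    rw [he]
    simp only
    split_ifs <;> norm_num
  by_contra hne
  obtain ⟨t1, ht1⟩ : ∃ t1, η t1 ≠ 1 := by
    by_contra hcon
    push Not at hcon
    apply hne
    ext t
    rw [hcon t]
    rfl
  have he1 : e t1 = -1 := by
    rw [he]
    simp only
    rw [if_neg ht1]
  have hs := e_sum e hmul t1 he1
  obtain ⟨S, hS⟩ : ∃ S : ℤ, S = ∑ u : (ZMod q)ˣ, e u * fib Prod.fst D (x₀ + u) := ⟨_, rfl⟩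
  have hS2 := e_sq hq e hmul hee hs (fib Prod.fst D) x₀
  rw [← hS] at hS2
  -- the sums of `E`
  have hZ0 : ∀ t : (ZMod q)ˣ, Z t (((t : ZMod q) - 1) * x₀) = m * e t := by
    intro t
    have h1 := hZη t (((t : ZMod q) - 1) * x₀)
    rw [if_pos rfl, ← heη t] at h1
    exact_mod_cast h1
  have hZs : ∀ t : (ZMod q)ˣ, ∑ g : ZMod q × H, E t g = m * e t := by
    intro t
    rw [Fintype.sum_prod_type]
    have h1 : ∀ x : ZMod q, ∑ k : H, E t (x, k) =
        if x = ((t : ZMod q) - 1) * x₀ then m * e t else 0 := by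
      intro x
      have h2 := hZη t x
      rw [hZ] at h2
      simp only at h2
      split_ifs with h3
      · rw [if_pos h3, ← heη t] at h2
        exact_mod_cast h2
      · rw [if_neg h3] at h2
        exact_mod_cast h2
    rw [Finset.sum_congr rfl fun x _ => h1 x, Finset.sum_ite_eq' univ, if_pos (mem_univ _)]
  have hqS : (q : ℤ) * S ^ 2 = (p : ℤ) ^ 2 * m * (q - 1) * ((q : ℤ) - 1) := by
    rw [hS2, Finset.mul_sum]
    have h1 : ∀ t : (ZMod q)ˣ, (q : ℤ) * (e t * ∑ y : ZMod q, fib Prod.fst D y *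
        fib Prod.fst D ((t : ZMod q) * y - ((t : ZMod q) - 1) * x₀)) =
        e t * ((n : ℤ) + l) ^ 2 + (p : ℤ) ^ 2 * m * (q - 1) := by
      intro t
      rw [← nn_eq]
      have h2 := nn_val h (hE t) (((t : ZMod q) - 1) * x₀)
      have h3 : ∑ k : H, E t ((((t : ZMod q) - 1) * x₀), k) = m * e t := by
        rw [← hZ0 t, hZ]
      rw [h3, hZs t] at h2
      calc (q : ℤ) * (e t * ∑ k : H, Nt D t (((t : ZMod q) - 1) * x₀, k))
          = e t * ((q : ℤ) * ∑ k : H, Nt D t (((t : ZMod q) - 1) * x₀, k)) := by ring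
        _ = e t * ((n : ℤ) + l) ^ 2 + (p : ℤ) ^ 2 * m * (q - 1) * (e t * e t) := by
            rw [h2]
            ring
        _ = _ := by rw [hee t, mul_one]
    rw [Finset.sum_congr rfl fun t _ => h1 t, Finset.sum_add_distrib, ← Finset.sum_mul, hs, zero_mul,
      zero_add, Finset.sum_const, Finset.card_univ, ZMod.card_units, nsmul_eq_mul]
    have h2 : ((q - 1 : ℕ) : ℤ) = (q : ℤ) - 1 := by
      have := hq.one_lt.le
      push_cast [Nat.cast_sub this]
      rfl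
    rw [h2]
    ring
  obtain ⟨μ, hμ⟩ := hsq
  have hp0 : (p : ℤ) ≠ 0 := by exact_mod_cast h.hp.ne_zero
  have hfin : S ^ 2 = p * ((μ : ℤ) * ((p : ℤ) - 1)) ^ 2 := by
    rw [hqp] at hqS
    have hμ' : (m : ℤ) = μ * μ := by exact_mod_cast hμ
    rw [hμ'] at hqS
    apply mul_left_cancel₀ hp0
    rw [hqS]
    ring
  refine no_sq h.hp S _ ?_ hfin
  refine mul_ne_zero ?_ ?_
  · intro h1
    have h2 : μ = 0 := by exact_mod_cast h1
    rw [h2, mul_zero] at hμ
    exact hm0 hμ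
  · have h1 := h.hp.one_lt
    have h2 : (1 : ℤ) < p := by exact_mod_cast h1
    intro h3
    linarith

end Pool.RY
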