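import Pool.Agent.Lib.MP_f4ebb7_co.RY.ExE

/-! RY-Pos (`q = p`, `c = 2`): `E_t ≥ 0` if `λ = l` (or the `λ` of the complement) is small; then `m ∣ W_i`.

PROOF. `pos_single`: if `E g > 0` and `E g' > 0` with `g ≠ g'`, then `ac E (g' - g) = ∑ E x E (x + (g' - g)) ≥ E g * E g' > 0` (all terms `≥ 0`), but it is `0`. So at most one value is non-zero, and `ac E 0 = ∑ E^2 = m^2`: that value is `m`.
`pos_ge`: `q = p`, so `(y, 0) ∈ P1` for all `y` and `Nt D t (x, h) - p^2 E(x, h) =: b(h)` does not depend on `x` (`hE.inv`). Sum over `x`: `p b(h) = ∑_x Nt D t (x, h) - p^2 ∑_x E (x, h)`, and `∑_x Nt D t (x, h) = #{(d, d') : d.2 - d'.2 = h} = ∑_k r_k r_{k+h}`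
(or with `k - h`) `= l q + (if h = 0 then n else 0)` (`push_ac` for `AddMonoidHom.snd`, `r = fib Prod.snd D`). `n = p^2 m`. So `b(h) = l + p m [h = 0] - p ∑_x E(x, h) ≤ l + p m + p m^2` (`abs_sum`: `∑ |E| ≤ m^2`). If `E g ≤ -1`: `Nt D t g ≤ - p^2 + l + p m + p m^2`.
`2 (p m + p m^2) < p^2` since `p > 16 m^4` (`h.h16`), `m ≥ 2`. First alternative `2 l < p^2`: `Nt D t g < 0`, a contradiction. Second alternative: `Nt D t g ≥ 2 |D| - q |H|`: `Nt D t g = #{d ∈ D : φ d ∈ D}`, `φ d = (t d.1 - g.1, d.2 - g.2)` injective (`t` a unit), so it is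
`|D| - #{d ∈ D : φ d ∉ D} ≥ |D| - (q |H| - |D|)`. So `2 (n + l) - q |H| ≤ - p^2 + l + p m + p m^2`, `p^2 ≤ (l + q |H| - 2 (n + l)) + p m + p m^2 < p^2`.
`ww_dvd`: every term of `WW E i` is `0` or `m`.
-/

set_option autoImplicit false

namespace Pool.RY

open Finset

variable {H : Type} [AddCommGroup H] [Fintype H] [DecidableEq H] {p s c m q n l : ℕ} [NeZero q]
  {D : Finset (ZMod q × H)}

theorem pos_single (E : ZMod q × H → ℤ) (hac : ∀ u, ac E u = if u = 0 then (m : ℤ) ^ 2 else 0) (hpos : ∀ g, 0 ≤ E g)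
    (g : ZMod q × H) : E g = 0 ∨ E g = m := by
  by_cases hg : E g = 0
  · exact Or.inl hg
  right
  have hgpos : 0 < E g := lt_of_le_of_ne (hpos g) (Ne.symm hg)
  have hoth : ∀ g', g' ≠ g → E g' = 0 := by
    intro g' hne
    by_contra hg'
    have hg'pos : 0 < E g' := lt_of_le_of_ne (hpos g') (Ne.symm hg')
    have h1 := hac (g' - g)
    rw [if_neg (sub_ne_zero.2 hne)] at h1
    have h2 : E g * E (g + (g' - g)) ≤ ac E (g' - g) :=
      Finset.single_le_sum (f := fun x => E x * E (x + (g' - g)))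
        (fun x _ => mul_nonneg (hpos _) (hpos _)) (Finset.mem_univ g)
    rw [add_sub_cancel, h1] at h2
    have h3 : 0 < E g * E g' := mul_pos hgpos hg'pos
    omega
  have h0 := hac 0
  rw [if_pos rfl] at h0
  unfold ac at h0
  rw [Finset.sum_eq_single g (fun x _ hx => by rw [hoth x hx, zero_mul])
    (fun hx => absurd (Finset.mem_univ g) hx), add_zero, ← pow_two] at h0
  exact (pow_left_inj₀ hgpos.le (Int.natCast_nonneg m) two_ne_zero).1 h0

private theorem pos_nt_sum (t : ZMod q) (h0 : H) :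
    ∑ x : ZMod q, Nt D t (x, h0) = (((D ×ˢ D).filter fun e => e.1.2 - e.2.2 = h0).card : ℤ) := by
  rw [Finset.card_eq_sum_card_fiberwise (f := fun e : (ZMod q × H) × (ZMod q × H) => t * e.1.1 - e.2.1)
    (t := (univ : Finset (ZMod q))) (fun _ _ => by simp)]
  push_cast
  refine Finset.sum_congr rfl fun x _ => ?_
  unfold Nt
  congr 2
  ext e
  simp only [Finset.mem_filter, Prod.mk.injEq]
  constructor
  · rintro ⟨h1, h2, h3⟩
    exact ⟨⟨h1, h3⟩, h2⟩
  · rintro ⟨⟨h1, h3⟩, h2⟩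
    exact ⟨h1, h2, h3⟩

private theorem pos_snd (hD : CHD.IsDS (ZMod q × H) D l) (hk : D.card = n + l) (h0 : H) :
    (((D ×ˢ D).filter fun e => e.1.2 - e.2.2 = h0).card : ℤ) = (q : ℤ) * l + if h0 = 0 then (n : ℤ) else 0 := by
  rw [Finset.card_eq_sum_card_fiberwise (f := fun e : (ZMod q × H) × (ZMod q × H) => e.1.1 - e.2.1)
    (t := (univ : Finset (ZMod q))) (fun _ _ => by simp)]
  push_cast
  have h1 : ∀ x ∈ (univ : Finset (ZMod q)),
      (((((D ×ˢ D).filter fun e => e.1.2 - e.2.2 = h0).filter fun e => e.1.1 - e.2.1 = x).card : ℕ) : ℤ)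
      = (l : ℤ) + if x = 0 then (if h0 = 0 then (n : ℤ) else 0) else 0 := by
    intro x _
    have h2 := ds_rep hD hk ((x, h0) : ZMod q × H)
    have h3 : (((D ×ˢ D).filter fun e => e.1.2 - e.2.2 = h0).filter fun e => e.1.1 - e.2.1 = x)
        = (D ×ˢ D).filter fun e => e.1 - e.2 = (x, h0) := by
      ext e
      simp only [Finset.mem_filter, Prod.ext_iff, Prod.fst_sub, Prod.snd_sub]
      tauto
    rw [h3, h2]
    congr 1
    by_cases hx : x = 0
    · by_cases hh : h0 = 0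
      · subst hx hh
        simp
      · rw [if_neg (by simp [Prod.ext_iff, hh]), if_pos hx, if_neg hh]
    · rw [if_neg (by simp [Prod.ext_iff, hx]), if_neg hx]
  rw [Finset.sum_congr rfl h1, Finset.sum_add_distrib, Finset.sum_const, Finset.card_univ, ZMod.card, nsmul_eq_mul,
    Finset.sum_ite_eq' univ (0 : ZMod q)]
  simp

private theorem pos_low (t : (ZMod q)ˣ) (g : ZMod q × H) :
    2 * (D.card : ℤ) - (q : ℤ) * Fintype.card H ≤ Nt D (t : ZMod q) g := by
  obtain ⟨φ, hφ⟩ : ∃ φ : ZMod q × H → ZMod q × H, φ = fun d => ((t : ZMod q) * d.1 - g.1, d.2 - g.2) := ⟨_, rfl⟩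
  have hinj : Function.Injective φ := by
    intro a b hab
    rw [hφ] at hab
    simp only [Prod.mk.injEq] at hab
    obtain ⟨h1, h2⟩ := hab
    ext
    · have h3 : (t : ZMod q) * a.1 = (t : ZMod q) * b.1 := sub_left_injective h1
      exact (Units.mul_right_inj t).1 h3
    · exact sub_left_injective h2
  have h1 : (D.filter fun d => φ d ∈ D).card ≤
      ((D ×ˢ D).filter fun e => ((t : ZMod q) * e.1.1 - e.2.1, e.1.2 - e.2.2) = g).card := by
    refine Finset.card_le_card_of_injOn (fun d => (d, φ d)) ?_ ?_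
    · intro d hd
      simp only [Finset.coe_filter, Set.mem_ofPred_eq] at hd
      simp only [Finset.coe_filter, Set.mem_ofPred_eq, Finset.mem_product]
      refine ⟨hd, ?_⟩
      rw [hφ]
      ext
      · simp
      · simp
    · intro a _ b _ hab
      exact (Prod.mk.inj hab).1
  have h2 : (D.filter fun d => φ d ∉ D).card ≤ (Dᶜ).card := by
    refine Finset.card_le_card_of_injOn φ ?_ hinj.injOn
    intro d hd
    simp only [Finset.coe_filter, Set.mem_ofPred_eq] at hd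
    simp only [Finset.coe_compl, Set.mem_compl_iff, Finset.mem_coe]
    exact hd.2
  have h3 := Finset.card_filter_add_card_filter_not (s := D) (fun d => φ d ∈ D)
  have h4 : (Dᶜ).card + D.card = q * Fintype.card H := by
    rw [Finset.card_compl_add_card, Fintype.card_prod, ZMod.card]
  unfold Nt
  have h5 : ((q * Fintype.card H : ℕ) : ℤ) = (q : ℤ) * Fintype.card H := Nat.cast_mul _ _
  rw [← h5, ← h4]
  push_cast
  omega

theorem pos_ge (h : Dat p 1 c m q n l D) {t : (ZMod q)ˣ} {E : ZMod q × H → ℤ} (hE : IsE p c m q D (t : ZMod q) E)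
    (hsmall : 2 * (l : ℤ) < (p : ℤ) ^ c ∨
      2 * ((l : ℤ) + (q : ℤ) * Fintype.card H - 2 * ((n : ℤ) + l)) < (p : ℤ) ^ c) (g : ZMod q × H) : 0 ≤ E g := by
  by_contra hneg
  have hE1 : E g ≤ -1 := by omega
  have hqp : q = p := by rw [h.hq, pow_one]
  have hp0 : (0 : ℤ) < p := by exact_mod_cast h.hp.pos
  -- `b` does not depend on `x`
  have hb : ∀ x : ZMod q, Nt D (t : ZMod q) (x, g.2) - (p : ℤ) ^ c * E (x, g.2)
      = Nt D (t : ZMod q) g - (p : ℤ) ^ c * E g := by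
    intro x
    have hmem : ((x - g.1, 0) : ZMod q × H) ∈ P1 p q H := by
      rw [mem_P1]
      refine ⟨?_, rfl⟩
      have : (p : ZMod q) = 0 := by
        rw [← hqp]
        exact ZMod.natCast_self q
      rw [this, zero_mul]
    have h1 := hE.inv _ hmem g
    have h2 : g + (x - g.1, 0) = (x, g.2) := by
      ext
      · simp
      · simp
    rw [h2] at h1
    exact h1
  have hsum : (q : ℤ) * (Nt D (t : ZMod q) g - (p : ℤ) ^ c * E g)
      = (∑ x : ZMod q, Nt D (t : ZMod q) (x, g.2)) - (p : ℤ) ^ c * ∑ x : ZMod q, E (x, g.2) := by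
    rw [Finset.mul_sum, ← Finset.sum_sub_distrib, Finset.sum_congr rfl fun x _ => hb x, Finset.sum_const,
      Finset.card_univ, ZMod.card, nsmul_eq_mul]
  have hN : ∑ x : ZMod q, Nt D (t : ZMod q) (x, g.2) ≤ (q : ℤ) * l + n := by
    rw [pos_nt_sum (t : ZMod q) g.2, pos_snd h.ds h.card g.2]
    split_ifs
    · exact le_rfl
    · have : (0 : ℤ) ≤ n := Int.natCast_nonneg n
      omega
  have hEs : -(m : ℤ) ^ 2 ≤ ∑ x : ZMod q, E (x, g.2) := by
    have h1 := abs_sum E (m ^ 2) (by rw [hE.hac 0, if_pos rfl, Nat.cast_pow])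
    have h2 : ∑ x : ZMod q, |E (x, g.2)| ≤ ∑ g, |E g| := by
      rw [Fintype.sum_prod_type]
      refine Finset.sum_le_sum fun x _ => ?_
      exact Finset.single_le_sum (f := fun y => |E (x, y)|) (fun y _ => abs_nonneg _) (Finset.mem_univ g.2)
    have h3 := Finset.abs_sum_le_sum_abs (fun x : ZMod q => E (x, g.2)) Finset.univ
    have h4 := neg_abs_le (∑ x : ZMod q, E (x, g.2))
    rw [Nat.cast_pow] at h1
    omega
  obtain ⟨P, hP⟩ : ∃ P : ℤ, P = (p : ℤ) ^ (c - 1) := ⟨_, rfl⟩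
  have hP0 : 0 < P := by rw [hP]; positivity
  have hpc : (p : ℤ) ^ c = p * P := by
    rw [hP, ← pow_succ', Nat.sub_add_cancel (by have := h.hc; omega)]
  have hn : (n : ℤ) = (p : ℤ) ^ c * m := by
    rw [h.hn]
    push_cast
    ring
  have hbnd : Nt D (t : ZMod q) g - (p : ℤ) ^ c * E g ≤ l + P * m + P * m ^ 2 := by
    have h1 : (p : ℤ) * (Nt D (t : ZMod q) g - (p : ℤ) ^ c * E g) ≤ p * (l + P * m + P * m ^ 2) := by
      have h2 : (p : ℤ) ^ c * (-(m : ℤ) ^ 2) ≤ (p : ℤ) ^ c * ∑ x : ZMod q, E (x, g.2) :=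
        mul_le_mul_of_nonneg_left hEs (by positivity)
      have h3 : (q : ℤ) = p := by rw [hqp]
      rw [h3] at hsum hN
      rw [hsum]
      rw [hn] at hN
      rw [hpc] at hN h2 ⊢
      linarith
    exact le_of_mul_le_mul_left h1 hp0
  have hup : Nt D (t : ZMod q) g ≤ l + P * m + P * m ^ 2 - (p : ℤ) ^ c := by
    have h1 : (p : ℤ) ^ c * E g ≤ (p : ℤ) ^ c * (-1) := mul_le_mul_of_nonneg_left hE1 (by positivity)
    linarith
  -- `2 (P m + P m^2) < p^c`
  have hpm : 2 * (P * m + P * m ^ 2) < (p : ℤ) ^ c := by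
    have h1 : (16 : ℤ) * (m : ℤ) ^ 4 < p := by exact_mod_cast h.h16
    have h2 : (2 : ℤ) ≤ m := by exact_mod_cast h.hm
    have h3 : (m : ℤ) ≤ (m : ℤ) ^ 2 := by nlinarith
    have h4 : (m : ℤ) ^ 2 ≤ (m : ℤ) ^ 4 := by nlinarith [sq_nonneg ((m : ℤ) ^ 2)]
    have h5 : 2 * ((m : ℤ) + m ^ 2) < p := by
      have h6 : (0 : ℤ) < (m : ℤ) ^ 4 := by positivity
      linarith
    have h7 := mul_lt_mul_of_pos_left h5 hP0
    rw [hpc]
    linarith
  rcases hsmall with hs | hs
  · have h0 : (0 : ℤ) ≤ Nt D (t : ZMod q) g := Int.natCast_nonneg _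
    linarith
  · have h0 := pos_low (D := D) t g
    rw [h.card] at h0
    push_cast at h0
    linarith

theorem ww_dvd (E : (ZMod q)ˣ → ZMod q × H → ℤ) (hac : ∀ t : (ZMod q)ˣ, ∀ u, ac (E t) u = if u = 0 then (m : ℤ) ^ 2 else 0)
    (hpos : ∀ t : (ZMod q)ˣ, ∀ g, 0 ≤ E t g) (i : ZMod q) : (m : ℤ) ∣ WW E i := by
  unfold WW
  refine Finset.dvd_sum fun t _ => ?_
  rcases pos_single (E t) (hac t) (hpos t) (((t : ZMod q) - 1) * i, 0) with h1 | h1
  · rw [h1]
    exact dvd_zero _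
  · rw [h1]

theorem rect_exp (hbig : 4 ^ (m ^ 2) < p) {t : ZMod q} {E : ZMod q × H → ℤ} (hE : IsE p c m q D t E) :
    4 ^ ((sp E).image Prod.fst).card < p := by
  have h1 : ((sp E).image Prod.fst).card ≤ m ^ 2 := by
    refine card_image_le.trans (sp_card E (m ^ 2) ?_)
    rw [hE.hac 0, if_pos rfl]
    push_cast
    rfl
  exact (Nat.pow_le_pow_right (by norm_num) h1).trans_lt hbig

theorem rect_pos (hp4 : 4 < p) {E : ZMod q × H → ℤ} (hac : ∀ u, ac E u = if u = 0 then (m : ℤ) ^ 2 else 0)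
    (hpos : ∀ g, 0 ≤ E g) : 4 ^ ((sp E).image Prod.fst).card < p := by
  have h1 : (sp E).card ≤ 1 := by
    rw [Finset.card_le_one]
    intro a ha b hb
    by_contra hne
    unfold sp at ha hb
    rw [Finset.mem_filter] at ha hb
    have ha' : 0 < E a := lt_of_le_of_ne (hpos a) (Ne.symm ha.2)
    have hb' : 0 < E b := lt_of_le_of_ne (hpos b) (Ne.symm hb.2)
    have h1 := hac (b - a)
    rw [if_neg (sub_ne_zero.2 (Ne.symm hne))] at h1
    have h2 : E a * E (a + (b - a)) ≤ ac E (b - a) :=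
      Finset.single_le_sum (f := fun x => E x * E (x + (b - a)))
        (fun x _ => mul_nonneg (hpos _) (hpos _)) (Finset.mem_univ a)
    rw [add_sub_cancel, h1] at h2
    have h3 : 0 < E a * E b := mul_pos ha' hb'
    omega
  have h2 : ((sp E).image Prod.fst).card ≤ 1 := Finset.card_image_le.trans h1
  calc 4 ^ ((sp E).image Prod.fst).card ≤ 4 ^ 1 := Nat.pow_le_pow_right (by norm_num) h2
    _ < p := by omega

end Pool.RY
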