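import Pool.Agent.Lib.MP_f4ebb7_co.RY.KId

/-! RY-Size2 (`q` prime): `|K_i - K_j - (q - 2 k / w)(a_i - a_j)| ≤ 4 √(n (n/q + √(2n)))`. -/

set_option autoImplicit false

namespace Pool.RY

open Finset

variable {H : Type} [AddCommGroup H] [Fintype H] [DecidableEq H] {p s c m q n l : ℕ} [NeZero q]
  {D : Finset (ZMod q × H)}

private theorem sizeB_fst_surj : Function.Surjective (AddMonoidHom.fst (ZMod q) H) := fun x => ⟨(x, 0), rfl⟩

private theorem sizeB_snd_surj : Function.Surjective (AddMonoidHom.snd (ZMod q) H) := fun x => ⟨(0, x), rfl⟩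

private theorem sizeB_a (hD : CHD.IsDS (ZMod q × H) D l) (hk : D.card = n + l) (i j : ZMod q) :
    |((fib Prod.fst D i : ℤ) : ℝ) - (fib Prod.fst D j : ℤ)| ≤ √(2 * n) := by
  by_cases hij : i = j
  · rw [hij, sub_self, abs_zero]
    exact Real.sqrt_nonneg _
  have hu : j - i ≠ 0 := fun h => hij (sub_eq_zero.1 h).symm
  have h1 := ac_diff (fib (AddMonoidHom.fst (ZMod q) H) D) (j - i)
  have hc : Fintype.card H * Fintype.card (ZMod q) = Fintype.card (ZMod q × H) := by
    rw [Fintype.card_prod, mul_comm]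
  rw [push_ac (AddMonoidHom.fst (ZMod q) H) sizeB_fst_surj (Fintype.card H) hc hD hk 0,
    push_ac (AddMonoidHom.fst (ZMod q) H) sizeB_fst_surj (Fintype.card H) hc hD hk (j - i),
    if_pos rfl, if_neg hu] at h1
  have h2 : (fib (AddMonoidHom.fst (ZMod q) H) D i - fib (AddMonoidHom.fst (ZMod q) H) D (i + (j - i))) ^ 2 ≤
      ∑ g, (fib (AddMonoidHom.fst (ZMod q) H) D g - fib (AddMonoidHom.fst (ZMod q) H) D (g + (j - i))) ^ 2 :=
    single_le_sum (f := fun g => (fib (AddMonoidHom.fst (ZMod q) H) D g -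
      fib (AddMonoidHom.fst (ZMod q) H) D (g + (j - i))) ^ 2) (fun g _ => sq_nonneg _) (mem_univ i)
  rw [h1, add_sub_cancel] at h2
  have h3 : (fib (AddMonoidHom.fst (ZMod q) H) D i - fib (AddMonoidHom.fst (ZMod q) H) D j) ^ 2 ≤ 2 * (n : ℤ) := by
    linarith
  have h4 : fib (AddMonoidHom.fst (ZMod q) H) D = fib Prod.fst D := rfl
  rw [h4] at h3
  have h5 : (((fib Prod.fst D i : ℤ) : ℝ) - (fib Prod.fst D j : ℤ)) ^ 2 ≤ 2 * (n : ℝ) := by
    exact_mod_cast h3
  exact Real.abs_le_sqrt h5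

private theorem sizeB_fib (D : Finset (ZMod q × H)) (i : ZMod q) :
    fib Prod.fst D i = ∑ h : H, (if (i, h) ∈ D then (1 : ℤ) else 0) := by
  unfold fib
  rw [card_filter]
  push_cast
  have h1 : ∀ d ∈ D, (if d.1 = i then (1 : ℤ) else 0) = ∑ h : H, if d = (i, h) then (1 : ℤ) else 0 := by
    intro d _
    by_cases h2 : d.1 = i
    · rw [if_pos h2]
      have h3 : ∀ h : H, (d = (i, h)) ↔ (h = d.2) := by
        intro h
        constructor
        · intro h4
          rw [h4]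
        · intro h4
          exact Prod.ext h2 h4.symm
      simp only [h3, sum_ite_eq', mem_univ, if_true]
    · rw [if_neg h2]
      symm
      refine sum_eq_zero fun h _ => ?_
      rw [if_neg]
      intro h4
      exact h2 (by rw [h4])
  rw [sum_congr rfl h1, sum_comm]
  refine sum_congr rfl fun h _ => ?_
  rw [sum_ite_eq']

private theorem sizeB_phi {w a b : ℝ} (hw : 0 < w) (ha : 0 ≤ a) (haw : a ≤ w) (hb : 0 ≤ b) (hbw : b ≤ w) :
    a * (w - a) / w - b * (w - b) / w ≤ |a - b| := by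
  have h1 : a * (w - a) / w - b * (w - b) / w = (a - b) * ((w - a - b) / w) := by
    field_simp
    ring
  rw [h1]
  have h2 : |(w - a - b) / w| ≤ 1 := by
    rw [abs_div, abs_of_pos hw, div_le_one hw, abs_le]
    constructor <;> linarith
  calc (a - b) * ((w - a - b) / w) ≤ |(a - b) * ((w - a - b) / w)| := le_abs_self _
    _ = |a - b| * |(w - a - b) / w| := abs_mul _ _
    _ ≤ |a - b| * 1 := mul_le_mul_of_nonneg_left h2 (abs_nonneg _)
    _ = |a - b| := mul_one _

theorem size2 (hq : q.Prime) (hD : CHD.IsDS (ZMod q × H) D l) (hk : D.card = n + l) (i j : ZMod q) :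
    |((KK D i - KK D j : ℤ) : ℝ) - ((q : ℝ) - 2 * (((n : ℝ) + l) / Fintype.card H)) *
      ((fib Prod.fst D i : ℤ) - (fib Prod.fst D j : ℤ))| ≤ 4 * √(n * (n / q + √(2 * n))) := by
  obtain ⟨w, hw⟩ : ∃ w : ℝ, w = Fintype.card H := ⟨_, rfl⟩
  have hw0 : (0 : ℝ) < w := by
    rw [hw]
    exact_mod_cast Fintype.card_pos
  have hw1 : (1 : ℝ) ≤ w := by
    rw [hw]
    exact_mod_cast Nat.one_le_iff_ne_zero.2 Fintype.card_ne_zero
  have hq0 : (0 : ℝ) < q := by exact_mod_cast hq.pos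
  have hn0 : (0 : ℝ) ≤ n := Nat.cast_nonneg n
  obtain ⟨k, hkk⟩ : ∃ k : ℝ, k = n + l := ⟨_, rfl⟩
  have hk0 : 0 ≤ k := by
    rw [hkk]
    positivity
  have hsq : k ^ 2 = n + l * (q * w) := by
    have h1 := ds_sq hD hk
    rw [Fintype.card_prod, ZMod.card] at h1
    rw [hkk, hw]
    exact_mod_cast h1
  have hkv : k ≤ q * w := by
    have h1 : D.card ≤ Fintype.card (ZMod q × H) := card_le_univ D
    rw [Fintype.card_prod, ZMod.card, hk] at h1
    rw [hkk, hw]
    exact_mod_cast h1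
  -- the fibre sizes
  have ha_sum : ∑ x : ZMod q, ((fib Prod.fst D x : ℤ) : ℝ) = k := by
    have h1 := fib_sum (Prod.fst : ZMod q × H → ZMod q) D
    rw [hk] at h1
    rw [hkk]
    exact_mod_cast h1
  have hr_sum : ∑ h : H, ((fib Prod.snd D h : ℤ) : ℝ) = k := by
    have h1 := fib_sum (Prod.snd : ZMod q × H → H) D
    rw [hk] at h1
    rw [hkk]
    exact_mod_cast h1
  have hr_sq : ∑ h : H, ((fib Prod.snd D h : ℤ) : ℝ) ^ 2 = l * q + n := by
    have hc : q * Fintype.card H = Fintype.card (ZMod q × H) := by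
      rw [Fintype.card_prod, ZMod.card]
    have h1 := push_ac (AddMonoidHom.snd (ZMod q) H) sizeB_snd_surj q hc hD hk 0
    rw [if_pos rfl] at h1
    unfold ac at h1
    have h2 : ∑ h : H, (fib Prod.snd D h) ^ 2 = (l : ℤ) * q + n := by
      rw [← h1]
      refine sum_congr rfl fun h _ => ?_
      rw [add_zero, sq]
      rfl
    exact_mod_cast h2
  have ha_le : ∀ x : ZMod q, ((fib Prod.fst D x : ℤ) : ℝ) ≤ w := by
    intro x
    rw [sizeB_fib, hw]
    push_cast
    calc ∑ h : H, (if (x, h) ∈ D then (1 : ℝ) else 0) ≤ ∑ _h : H, (1 : ℝ) :=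
          sum_le_sum fun h _ => by split_ifs <;> norm_num
      _ = Fintype.card H := by rw [sum_const, card_univ, nsmul_eq_mul, mul_one]
  have ha_ge : ∀ x : ZMod q, (0 : ℝ) ≤ ((fib Prod.fst D x : ℤ) : ℝ) := by
    intro x
    unfold fib
    positivity
  -- the variance of the `r_h`
  have hvar : ∑ h : H, (((fib Prod.snd D h : ℤ) : ℝ) - k / w) ^ 2 ≤ n := by
    have h1 : ∑ h : H, (((fib Prod.snd D h : ℤ) : ℝ) - k / w) ^ 2 =
        ∑ h : H, ((fib Prod.snd D h : ℤ) : ℝ) ^ 2 - 2 * (k / w) * ∑ h : H, ((fib Prod.snd D h : ℤ) : ℝ) +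
          w * (k / w) ^ 2 := by
      rw [mul_sum, ← sum_sub_distrib]
      have h2 : w * (k / w) ^ 2 = ∑ _h : H, (k / w) ^ 2 := by
        rw [sum_const, card_univ, nsmul_eq_mul, hw]
      rw [h2, ← sum_add_distrib]
      refine sum_congr rfl fun h _ => ?_
      ring
    rw [h1, hr_sq, hr_sum]
    have h3 : l * q + n - 2 * (k / w) * k + w * (k / w) ^ 2 = l * q + n - k ^ 2 / w := by
      field_simp
      ring
    rw [h3, hsq]
    have h4 : (l : ℝ) * q + n - (n + l * (q * w)) / w = n - n / w := by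
      field_simp
      ring
    rw [h4]
    have h5 : 0 ≤ (n : ℝ) / w := div_nonneg hn0 hw0.le
    linarith
  -- the mean of the `a_i`
  have hmean : ∀ x : ZMod q, |((fib Prod.fst D x : ℤ) : ℝ) - k / q| ≤ √(2 * n) := by
    intro x
    have h1 : ((fib Prod.fst D x : ℤ) : ℝ) - k / q =
        (∑ y : ZMod q, (((fib Prod.fst D x : ℤ) : ℝ) - (fib Prod.fst D y : ℤ))) / q := by
      rw [sum_sub_distrib, ha_sum, sum_const, card_univ, ZMod.card, nsmul_eq_mul]
      field_simp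
    rw [h1, abs_div, abs_of_pos hq0, div_le_iff₀ hq0]
    calc |∑ y : ZMod q, (((fib Prod.fst D x : ℤ) : ℝ) - (fib Prod.fst D y : ℤ))|
        ≤ ∑ y : ZMod q, |((fib Prod.fst D x : ℤ) : ℝ) - (fib Prod.fst D y : ℤ)| := abs_sum_le_sum_abs _ _
      _ ≤ ∑ _y : ZMod q, √(2 * n) := sum_le_sum fun y _ => sizeB_a hD hk x y
      _ = √(2 * n) * q := by rw [sum_const, card_univ, ZMod.card, nsmul_eq_mul, mul_comm]
  have hphi : ∀ x : ZMod q, ((fib Prod.fst D x : ℤ) : ℝ) * (w - (fib Prod.fst D x : ℤ)) / w ≤ n / q + √(2 * n) := by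
    intro x
    have h1 := sizeB_phi hw0 (ha_ge x) (ha_le x) (div_nonneg hk0 hq0.le) ((div_le_iff₀ hq0).2 (by linarith))
      (b := k / q)
    have h2 : k / q * (w - k / q) / w ≤ n / q := by
      have h3 : k / q * (w - k / q) / w = (k * (q * w) - k ^ 2) / (q * (q * w)) := by
        field_simp
      have h4 : k * (q * w) - k ^ 2 = n * (q * w) - n := by
        rw [hsq, hkk]
        ring
      rw [h3, h4, div_le_div_iff₀ (by positivity) hq0]
      have h5 : 0 ≤ (n : ℝ) * q := by positivity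
      nlinarith
    have h3 := hmean x
    linarith
  -- Cauchy-Schwarz
  obtain ⟨R, hR⟩ : ∃ R : ZMod q → ℝ, R = fun x => ∑ h : H, (if (x, h) ∈ D then ((fib Prod.snd D h : ℤ) : ℝ) else 0) :=
    ⟨_, rfl⟩
  have hCS : ∀ x : ZMod q, |R x - k / w * (fib Prod.fst D x : ℤ)| ≤ √(n * (n / q + √(2 * n))) := by
    intro x
    refine Real.abs_le_sqrt ?_
    obtain ⟨a, ha⟩ : ∃ a : ℝ, a = ((fib Prod.fst D x : ℤ) : ℝ) := ⟨_, rfl⟩
    have hsa : ∑ h : H, (if (x, h) ∈ D then (1 : ℝ) else 0) = a := by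
      rw [ha, sizeB_fib]
      push_cast
      rfl
    have h0 : ∑ h : H, (((fib Prod.snd D h : ℤ) : ℝ) - k / w) = 0 := by
      rw [sum_sub_distrib, hr_sum, sum_const, card_univ, nsmul_eq_mul, ← hw]
      field_simp
      ring
    have h1 : R x - k / w * a = ∑ h : H, (((fib Prod.snd D h : ℤ) : ℝ) - k / w) *
        ((if (x, h) ∈ D then (1 : ℝ) else 0) - a / w) := by
      have h2 : ∀ h ∈ (univ : Finset H), (((fib Prod.snd D h : ℤ) : ℝ) - k / w) *
          ((if (x, h) ∈ D then (1 : ℝ) else 0) - a / w) =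
          (if (x, h) ∈ D then ((fib Prod.snd D h : ℤ) : ℝ) else 0) - k / w * (if (x, h) ∈ D then (1 : ℝ) else 0) -
          (((fib Prod.snd D h : ℤ) : ℝ) - k / w) * (a / w) := by
        intro h _
        split_ifs <;> ring
      rw [sum_congr rfl h2, sum_sub_distrib, sum_sub_distrib, ← sum_mul, h0, zero_mul, sub_zero, ← mul_sum, hsa, hR]
    have h2 : ∑ h : H, ((if (x, h) ∈ D then (1 : ℝ) else 0) - a / w) ^ 2 = a * (w - a) / w := by
      have h3 : ∀ h ∈ (univ : Finset H), ((if (x, h) ∈ D then (1 : ℝ) else 0) - a / w) ^ 2 =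
          (1 - 2 * (a / w)) * (if (x, h) ∈ D then (1 : ℝ) else 0) + (a / w) ^ 2 := by
        intro h _
        split_ifs <;> ring
      rw [sum_congr rfl h3, sum_add_distrib, ← mul_sum, hsa, sum_const, card_univ, nsmul_eq_mul, ← hw]
      field_simp
      ring
    rw [← ha, h1]
    calc (∑ h : H, (((fib Prod.snd D h : ℤ) : ℝ) - k / w) * ((if (x, h) ∈ D then (1 : ℝ) else 0) - a / w)) ^ 2
        ≤ (∑ h : H, (((fib Prod.snd D h : ℤ) : ℝ) - k / w) ^ 2) *
          ∑ h : H, ((if (x, h) ∈ D then (1 : ℝ) else 0) - a / w) ^ 2 := sum_mul_sq_le_sq_mul_sq _ _ _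
      _ ≤ n * (n / q + √(2 * n)) := by
        refine mul_le_mul hvar ?_ (sum_nonneg fun h _ => sq_nonneg _) hn0
        rw [h2, ha]
        exact hphi x
  -- the identity
  have hK : ∀ x : ZMod q, ((KK D x : ℤ) : ℝ) = ∑ h : H, ((fib Prod.snd D h : ℤ) : ℝ) ^ 2 - 2 * R x +
      q * (fib Prod.fst D x : ℤ) := by
    intro x
    rw [kid hq D x, hR]
    push_cast
    rfl
  have hκ : |(q : ℝ) - 2 * (k / w)| ≤ q := by
    have h1 : k / w ≤ q := (div_le_iff₀ hw0).2 hkv
    have h2 : 0 ≤ k / w := div_nonneg hk0 hw0.le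
    rw [abs_le]
    constructor <;> linarith
  have hfin : ((KK D i - KK D j : ℤ) : ℝ) = ((q : ℝ) - 2 * (k / w)) * ((fib Prod.fst D i : ℤ) - (fib Prod.fst D j : ℤ)) -
      2 * (R i - k / w * (fib Prod.fst D i : ℤ)) + 2 * (R j - k / w * (fib Prod.fst D j : ℤ)) := by
    rw [Int.cast_sub, hK i, hK j]
    ring
  rw [hfin, ← hw, ← hkk]
  have e2 := hCS i
  have e3 := hCS j
  rw [abs_le] at e2 e3 ⊢
  constructor <;> linarith [e2.1, e2.2, e3.1, e3.2]

end Pool.RY
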