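import Pool.Agent.Lib.MP_f4ebb7_co.RY.TauC
import Pool.Agent.Lib.MP_f4ebb7_co.RY.KId
import Pool.Agent.Lib.MP_f4ebb7_co.RY.Size2
import Pool.Agent.Lib.MP_f4ebb7_co.RY.Size
import Pool.Agent.Lib.MP_f4ebb7_co.RY.Num
import Pool.Agent.Lib.MP_f4ebb7_co.RY.EtaOne
import Pool.Agent.Lib.MP_f4ebb7_co.RY.AConst
import Pool.Agent.Lib.MP_f4ebb7_co.RY.Pos
import Pool.Agent.Lib.MP_f4ebb7_co.RY.ArE
import Pool.Agent.Lib.MP_f4ebb7_co.RY.ArP1
import Pool.Agent.Lib.MP_f4ebb7_co.RY.ArP2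
import Pool.Agent.Lib.MP_f4ebb7_co.RY.ArP3

/-! RY-EndC2 (`s = 1`, `c = 2`, `m` a square): contradiction. -/

set_option autoImplicit false

namespace Pool.RY

open Finset

variable {H : Type} [AddCommGroup H] [Fintype H] [DecidableEq H] {p s c m q n l : ℕ} [NeZero q]
  {D : Finset (ZMod q × H)}

theorem pow_big2 {μ : ℕ} (hμ : 2 ≤ μ) : 2 ^ 18 * μ ^ 14 ≤ 4 ^ ((μ * μ) ^ 2) := by
  obtain ⟨k, rfl⟩ : ∃ k, μ = k + 1 := ⟨μ - 1, by omega⟩
  have h1 : k + 1 ≤ 2 ^ k := Nat.lt_two_pow_self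
  have h2 : (k + 1) ^ 14 ≤ 2 ^ (k * 14) := by
    rw [pow_mul]
    exact Nat.pow_le_pow_left h1 14
  have h3 : 2 ^ 18 * (k + 1) ^ 14 ≤ 2 ^ (18 + k * 14) := by
    rw [pow_add]
    exact Nat.mul_le_mul_left _ h2
  refine h3.trans ?_
  rw [show (4 : ℕ) = 2 ^ 2 by norm_num, ← pow_mul]
  refine Nat.pow_le_pow_right (by norm_num) ?_
  have h4 : 8 * (k + 1) ≤ ((k + 1) * (k + 1)) ^ 2 := by
    have h5 : 2 ≤ k + 1 := hμ
    have h6 : 4 ≤ (k + 1) * (k + 1) := by nlinarith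
    have h7 : 2 * (k + 1) ≤ (k + 1) * (k + 1) := by nlinarith
    nlinarith
  omega

theorem ar_four {p μ w l : ℤ} (hμ : 2 ≤ μ) (hbig : 16 * μ ^ 8 < p) (hw : 0 < w) (hl : 0 ≤ l)
    (hds : (p ^ 2 * μ ^ 2 + l) ^ 2 = p ^ 2 * μ ^ 2 + l * (p * w)) (hsm : 2 * l < p ^ 2)
    (hT : p * (p * w - 2 * (p ^ 2 * μ ^ 2 + l)) ^ 2 ≤ 36 * μ ^ 2 * (p * w) ^ 2) : False := by
  have hμ8 : (64 : ℤ) * μ ^ 2 ≤ μ ^ 8 := by
    have h1 : (4 : ℤ) ≤ μ ^ 2 := by nlinarith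
    have h2 : (16 : ℤ) ≤ μ ^ 4 := by nlinarith
    have h3 : (64 : ℤ) ≤ μ ^ 6 := by nlinarith
    nlinarith
  have hp1 : 1024 * μ ^ 2 < p := by linarith
  have hμ2 : (4 : ℤ) ≤ μ ^ 2 := by nlinarith
  have hp0 : 0 < p := by linarith
  obtain ⟨v, hv⟩ : ∃ v : ℤ, v = p * w := ⟨_, rfl⟩
  have hv0 : 0 < v := by rw [hv]; positivity
  rw [← hv] at hds hT
  obtain ⟨P, hP⟩ : ∃ P : ℤ, P = p ^ 2 := ⟨_, rfl⟩
  have hP0 : 2 ≤ P := by rw [hP]; nlinarith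
  rw [← hP] at hds hsm hT
  obtain ⟨k, hk⟩ : ∃ k : ℤ, k = P * μ ^ 2 + l := ⟨_, rfl⟩
  have hkP : 4 * P ≤ k := by rw [hk]; nlinarith
  have hds' : k ^ 2 = k - l + l * v := by rw [hk]; linarith
  rw [← hk] at hT
  have h7 : 7 * k ≤ v := by
    by_contra hcon
    have h1 : v < 7 * k := by linarith
    have h2 : 2 * l * v ≤ (P - 1) * v := mul_le_mul_of_nonneg_right (by linarith) hv0.le
    have h3 : (P - 1) * v ≤ (P - 1) * (7 * k) := mul_le_mul_of_nonneg_left h1.le (by linarith)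
    have h4 : 2 * k ^ 2 ≤ 2 * k + (P - 1) * (7 * k) := by linarith
    have h5 : 4 * P * k ≤ k ^ 2 := by nlinarith
    nlinarith
  have hd : 5 * v ≤ 7 * (v - 2 * k) := by linarith
  have hd2 : 25 * v ^ 2 ≤ 49 * (v - 2 * k) ^ 2 := by nlinarith
  have hvv : 0 < v ^ 2 := by positivity
  have h8 : p * (25 * v ^ 2) ≤ p * (49 * (v - 2 * k) ^ 2) := mul_le_mul_of_nonneg_left hd2 hp0.le
  have h9 : (25 * p) * v ^ 2 ≤ (1764 * μ ^ 2) * v ^ 2 := by linarith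
  have h10 := le_of_mul_le_mul_right h9 hvv
  linarith

theorem endC2 (h : Dat p 1 2 m q n l D) (hsq : IsSquare m)
    (hR : ∀ (t : (ZMod q)ˣ) (E : ZMod q × H → ℤ), IsE p 2 m q D (t : ZMod q) E → 4 ^ ((sp E).image Prod.fst).card < p)
    (hcase : 4 ^ (m ^ 2) < p ∨ 2 * l < p ^ 2) : False := by
  obtain ⟨μ, hμm⟩ := id hsq
  have hm2 := h.hm
  have hμ : 2 ≤ μ := by
    by_contra hcon
    have h1 : μ ≤ 1 := by omega
    interval_cases μ <;> omega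
  have hqp : q = p := by
    have := h.hq
    rwa [pow_one] at this
  have hprime : q.Prime := by
    rw [hqp]
    exact h.hp
  have hpp : 0 < p := h.hp.pos
  have hqR : (q : ℝ) = p := by rw [hqp]
  have h16Z : (16 : ℤ) * (μ : ℤ) ^ 8 < p := by
    have h1 := h.h16
    rw [hμm] at h1
    have h2 : 16 * (μ * μ) ^ 4 = 16 * μ ^ 8 := by ring
    rw [h2] at h1
    exact_mod_cast h1
  have hμZ : (2 : ℤ) ≤ μ := by exact_mod_cast hμ
  have hmZ : (m : ℤ) = (μ : ℤ) ^ 2 := by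
    rw [hμm]
    push_cast
    ring
  have hn := h.hn
  have hnZ : (n : ℤ) = (p : ℤ) ^ 2 * (μ : ℤ) ^ 2 := by
    rw [hn, ← hmZ]
    push_cast
    ring
  have hnR : (n : ℝ) = (p : ℝ) ^ 2 * (μ : ℝ) ^ 2 := by exact_mod_cast hnZ
  choose E hE using exE h
  obtain ⟨N0, τ, x₁, η₁, h1, h2, h3, h4, i₀, h5, h6⟩ := tauC h E hE (fun t => hR t _ (hE t))
  have hη := eta_one h hsq E hE x₁ η₁ h3
  have h3' : ∀ (t : (ZMod q)ˣ) (x : ZMod q), FF (E t) 1 x =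
      if x = ((t : ZMod q) - 1) * x₁ then (m : ℂ) else 0 := by
    intro t x
    rw [h3 t x, hη, MonoidHom.one_apply, mul_one]
  have hN0 := h4 hη
  obtain ⟨w, hw⟩ : ∃ w : ℕ, w = Fintype.card H := ⟨_, rfl⟩
  have hw0 : 0 < w := by
    rw [hw]
    exact Fintype.card_pos
  have hwZ : (0 : ℤ) < w := by exact_mod_cast hw0
  rw [← hw] at h2 h6
  have hm0 : (m : ℤ) ≠ 0 := by
    exact_mod_cast (by omega : m ≠ 0)
  -- the size of the error
  have hErr : 4 * √((n : ℝ) * (n / p + √(2 * n))) < (p : ℝ) ^ 2 := by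
    have e1 := er_sq hpp hμ
    rw [← hnR] at e1
    have hp0 : (0 : ℝ) < p := by exact_mod_cast hpp
    have e2 : 36 * (μ : ℝ) ^ 4 < p := by
      have e3 : 36 * (μ : ℤ) ^ 4 < p := by
        have e4 : (16 : ℤ) ≤ (μ : ℤ) ^ 4 := by
          have e0 : (4 : ℤ) ≤ (μ : ℤ) ^ 2 := by nlinarith
          nlinarith
        have e0 : (16 : ℤ) * (μ : ℤ) ^ 4 ≤ (μ : ℤ) ^ 8 := by nlinarith
        linarith
      exact_mod_cast e3
    have e5 : 36 * (p : ℝ) ^ 3 * (μ : ℝ) ^ 4 < ((p : ℝ) ^ 2) ^ 2 := by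
      have e6 := mul_lt_mul_of_pos_left e2 (pow_pos hp0 3)
      nlinarith
    have hB : (0 : ℝ) ≤ (n : ℝ) * (n / p + √(2 * n)) := by positivity
    have e7 : (4 * √((n : ℝ) * (n / p + √(2 * n)))) ^ 2 < ((p : ℝ) ^ 2) ^ 2 := by
      rw [mul_pow, Real.sq_sqrt hB]
      refine lt_of_le_of_lt ?_ e5
      linarith
    exact lt_of_pow_lt_pow_left₀ 2 (by positivity) e7
  have hp2R : (0 : ℝ) < (p : ℝ) ^ 2 := by
    have : (0 : ℝ) < p := by exact_mod_cast hpp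
    positivity
  have hKW : ∀ i j, KK D i - KK D j = (p : ℤ) ^ 2 * (WW E i - WW E j) := fun i j => kdiff h E hE i j
  have hWi₀ : WW E i₀ = m := by
    have e1 := h1 i₀
    rw [← hw, h6] at e1
    have e2 : (w : ℤ) * (WW E i₀ - m) = 0 := by linear_combination e1
    rcases mul_eq_zero.1 e2 with e3 | e3
    · exact absurd e3 hwZ.ne'
    · linarith
  have hWi : ∀ i, i ≠ x₁ → WW E i = m := by
    intro i hi
    have e1 := size2 hprime h.ds h.card i i₀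
    rw [a_off h E hE x₁ h3' i i₀ hi h5, sub_self, mul_zero, sub_zero, hKW] at e1
    rw [hqR] at e1
    have e2 := e1.trans_lt hErr
    rw [Int.cast_mul, abs_mul, Int.cast_pow, Int.cast_natCast, abs_of_pos hp2R] at e2
    have e3 : |((WW E i - WW E i₀ : ℤ) : ℝ)| < 1 := by
      by_contra hcon
      push Not at hcon
      have := mul_le_mul_of_nonneg_left hcon hp2R.le
      linarith
    have e4 : |WW E i - WW E i₀| < 1 := by
      rw [← Int.cast_abs] at e3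
      exact_mod_cast e3
    have e5 := Int.abs_lt_one_iff.1 e4
    omega
  obtain ⟨J, hJ⟩ : ∃ J : ℤ, J = WW E x₁ := ⟨_, rfl⟩
  have hsumW : ∑ i, WW E i = J + ((q : ℤ) - 1) * m := by
    rw [← Finset.add_sum_erase univ (fun i => WW E i) (mem_univ x₁), ← hJ]
    congr 1
    rw [Finset.sum_congr rfl fun i hi => hWi i (Finset.ne_of_mem_erase hi), Finset.sum_const,
      Finset.card_erase_of_mem (mem_univ _), Finset.card_univ, ZMod.card, nsmul_eq_mul,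
      Nat.cast_sub hprime.one_lt.le]
    push_cast
    ring
  have hwJ : (w : ℤ) * J = (μ : ℤ) ^ 2 * ((p : ℤ) - 1) * N0 := by
    have e1 : ∑ i, (w : ℤ) * WW E i = m * (((q : ℤ) - 1) * (w + N0)) := by
      rw [← h2, Finset.mul_sum]
      refine Finset.sum_congr rfl fun i _ => ?_
      have := h1 i
      rw [← hw] at this
      exact this
    rw [← Finset.mul_sum, hsumW, hqp, hmZ] at e1
    linear_combination e1
  -- the equation of the difference set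
  have hds : ((p : ℤ) ^ 2 * (μ : ℤ) ^ 2 + l) ^ 2 = (p : ℤ) ^ 2 * (μ : ℤ) ^ 2 + l * (p * w) := by
    have e1 := ds_sq h.ds h.card
    rw [Fintype.card_prod, ZMod.card, ← hw, hqp, hnZ] at e1
    push_cast at e1
    exact e1
  have hkv : (p : ℤ) ^ 2 * (μ : ℤ) ^ 2 + l ≤ p * w := by
    have e1 : D.card ≤ Fintype.card (ZMod q × H) := Finset.card_le_univ D
    rw [Fintype.card_prod, ZMod.card, h.card, ← hw, hqp] at e1
    rw [← hnZ]
    exact_mod_cast e1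
  -- the sign
  obtain ⟨e, he, hae⟩ : ∃ e : ℤ, (e = 1 ∨ e = -1) ∧ fib Prod.fst D x₁ - fib Prod.fst D i₀ = e * (p * μ) := by
    have e1 := a_sq h E hE x₁ h3' i₀ h5
    rw [hnZ] at e1
    have e2 : (fib Prod.fst D x₁ - fib Prod.fst D i₀) ^ 2 = ((p : ℤ) * μ) ^ 2 := by
      rw [e1]
      ring
    rcases sq_eq_sq_iff_eq_or_eq_neg.1 e2 with e3 | e3
    · exact ⟨1, Or.inl rfl, by rw [e3]; ring⟩
    · exact ⟨-1, Or.inr rfl, by rw [e3]; ring⟩
  have hmain := size2 hprime h.ds h.card x₁ i₀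
  rw [hKW, hWi₀, ← hJ, ← Int.cast_sub (fib Prod.fst D x₁), hae, hmZ, ← hw, hqR, hnR] at hmain
  push_cast at hmain
  have hT := ar_e (e := e) (J := J) (l := l) hpp hμ hw0 hmain
  have hlZ : (0 : ℤ) ≤ l := by positivity
  have hN0Z : (1 : ℤ) ≤ N0 := by exact_mod_cast hN0
  have hT' : (p : ℤ) * ((p : ℤ) * w * (J - (μ : ℤ) ^ 2) - e * μ * ((p : ℤ) * w - 2 * ((p : ℤ) ^ 2 * (μ : ℤ) ^ 2 + l))) ^ 2 ≤
      36 * (μ : ℤ) ^ 4 * ((p : ℤ) * w) ^ 2 := hT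
  rcases hcase with hbig | hsmall
  · have hbigN : 2 ^ 18 * μ ^ 14 < p := by
      have h1 := pow_big2 hμ
      rw [← hμm] at h1
      exact h1.trans_lt hbig
    have hbigZ : (2 : ℤ) ^ 18 * (μ : ℤ) ^ 14 < p := by exact_mod_cast hbigN
    rcases ar_one hμZ hbigZ hwZ hlZ hN0Z he hds hwJ hT' with hc | ⟨hc1, hc2⟩
    · have hsm := ar_three hμZ hbigZ hwZ hlZ he hds hkv hc hT'
      have hpos : ∀ t : (ZMod q)ˣ, ∀ g, 0 ≤ E t g := by
        intro t g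
        refine pos_ge h (hE t) ?_ g
        rw [← hw, hqp, hnZ]
        exact hsm
      have hdv := ww_dvd (m := m) E (fun t u => (hE t).hac u) hpos x₁
      rw [← hJ, hmZ] at hdv
      have e1 : (μ : ℤ) ^ 2 ∣ J - (μ : ℤ) ^ 2 := dvd_sub hdv (dvd_refl _)
      have e2 : ((μ : ℤ) ^ 2) ^ 2 ∣ (J - (μ : ℤ) ^ 2) ^ 2 := pow_dvd_pow_of_dvd e1 2
      rw [hc] at e2
      have e3 := Int.le_of_dvd (by positivity) e2
      nlinarith
    · exact ar_two hμZ hbigZ hwZ hN0Z hds hwJ hc1 hc2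
  · have hsm : 2 * (l : ℤ) < (p : ℤ) ^ 2 := by exact_mod_cast hsmall
    have hpos : ∀ t : (ZMod q)ˣ, ∀ g, 0 ≤ E t g := fun t g => pos_ge h (hE t) (Or.inl hsm) g
    have hdv := ww_dvd (m := m) E (fun t u => (hE t).hac u) hpos x₁
    rw [← hJ] at hdv
    have hm3 : 3 ≤ m := by rw [hμm]; nlinarith
    have e1 := (size hprime h.ds h.card x₁ i₀).trans_lt (by
      rw [hqR]
      exact num2 hm3 h.h16 (by rw [h.hn]))
    rw [hKW, hWi₀, ← hJ, Int.cast_mul, abs_mul, Int.cast_pow, Int.cast_natCast, abs_of_pos hp2R] at e1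
    have e2 : |((J - m : ℤ) : ℝ)| < m := by
      by_contra hcon
      push Not at hcon
      have := mul_le_mul_of_nonneg_left hcon hp2R.le
      linarith
    have e3 : |J - m| < m := by
      rw [← Int.cast_abs] at e2
      exact_mod_cast e2
    have e4 : (m : ℤ) ∣ J - m := dvd_sub hdv (dvd_refl _)
    have e5 := Int.eq_zero_of_abs_lt_dvd e4 e3
    have e6 : J - (μ : ℤ) ^ 2 = 0 := by rw [← hmZ]; exact e5
    rw [e6, mul_zero, zero_sub] at hT'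
    refine ar_four hμZ h16Z hwZ hlZ hds hsm ?_
    have he2 : e ^ 2 = 1 := by rcases he with he | he <;> rw [he] <;> norm_num
    have hμ2 : (0 : ℤ) < (μ : ℤ) ^ 2 := by positivity
    refine le_of_mul_le_mul_left ?_ hμ2
    calc (μ : ℤ) ^ 2 * ((p : ℤ) * ((p : ℤ) * w - 2 * ((p : ℤ) ^ 2 * (μ : ℤ) ^ 2 + l)) ^ 2)
        = (p : ℤ) * (-(e * μ * ((p : ℤ) * w - 2 * ((p : ℤ) ^ 2 * (μ : ℤ) ^ 2 + l)))) ^ 2 := by
          rw [neg_sq, mul_pow, mul_pow, he2]; ring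
      _ ≤ 36 * (μ : ℤ) ^ 4 * ((p : ℤ) * w) ^ 2 := hT'
      _ = (μ : ℤ) ^ 2 * (36 * (μ : ℤ) ^ 2 * ((p : ℤ) * w) ^ 2) := by ring

end Pool.RY
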