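import Pool.Agent.Lib.MP_f4ebb7_co.RY.Cnt

/-! RY-EvenV: if `v` is even then `n` is a square (Schutzenberger); the exponent of `p` in `n`. -/

set_option autoImplicit false

namespace Pool.RY

open Finset

theorem even_sq {v n l : ℕ} [NeZero v] (hv : 2 ∣ v) (D : Finset (ZMod v)) (hD : CHD.IsDS (ZMod v) D l)
    (hk : D.card = n + l) : IsSquare n := by
  obtain ⟨φ, hφ⟩ : ∃ φ : ZMod v →+ ZMod 2, Function.Surjective φ :=
    ⟨(ZMod.castHom hv (ZMod 2)).toAddMonoidHom, ZMod.castHom_surjective hv⟩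
  obtain ⟨κ, hκ⟩ := hv
  have hc : κ * Fintype.card (ZMod 2) = Fintype.card (ZMod v) := by
    rw [ZMod.card, ZMod.card, mul_comm]
    exact hκ.symm
  have h0 := push_ac φ hφ κ hc hD hk 0
  have h1 := push_ac φ hφ κ hc hD hk 1
  rw [if_pos rfl] at h0
  rw [if_neg (by decide : (1 : ZMod 2) ≠ 0)] at h1
  have e0 : ac (fib φ D) 0 = fib φ D 0 ^ 2 + fib φ D 1 ^ 2 := by
    unfold ac
    rw [show (univ : Finset (ZMod 2)) = {0, 1} from rfl, Finset.sum_pair (by decide)]
    rw [add_zero, add_zero]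
    ring
  have e1 : ac (fib φ D) 1 = 2 * (fib φ D 0 * fib φ D 1) := by
    unfold ac
    rw [show (univ : Finset (ZMod 2)) = {0, 1} from rfl, Finset.sum_pair (by decide)]
    rw [zero_add, show (1 : ZMod 2) + 1 = 0 from rfl]
    ring
  have h2 : (fib φ D 0 - fib φ D 1) ^ 2 = (n : ℤ) := by
    have e2 : (fib φ D 0 - fib φ D 1) ^ 2 = ac (fib φ D) 0 - ac (fib φ D) 1 := by rw [e0, e1]; ring
    rw [e2, h0, h1]
    ring
  refine ⟨(fib φ D 0 - fib φ D 1).natAbs, ?_⟩
  have h3 : (((fib φ D 0 - fib φ D 1).natAbs * (fib φ D 0 - fib φ D 1).natAbs : ℕ) : ℤ) = (n : ℤ) := by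
    rw [← h2, Nat.cast_mul, sq]
    exact Int.natAbs_mul_self
  exact_mod_cast h3.symm

theorem even_exp {p c m : ℕ} (hp : p.Prime) (hpm : ¬ p ∣ m) (hm : m ≠ 0) (h : IsSquare (p ^ c * m)) : Even c := by
  obtain ⟨r, hr⟩ := h
  have h1 : (p ^ c * m).factorization p = (r * r).factorization p := by rw [hr]
  have hr0 : r ≠ 0 := by
    rintro rfl
    have : p ^ c * m ≠ 0 := mul_ne_zero (pow_ne_zero _ hp.ne_zero) hm
    exact this (by rw [hr])
  rw [Nat.factorization_mul (pow_ne_zero _ hp.ne_zero) hm, Nat.factorization_mul hr0 hr0, Finsupp.add_apply,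
    Finsupp.add_apply, hp.factorization_pow, Finsupp.single_eq_same, Nat.factorization_eq_zero_of_not_dvd hpm,
    add_zero] at h1
  exact ⟨r.factorization p, h1⟩

end Pool.RY
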