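import Pool.Agent.Lib.MP_f4ebb7_co.RY.Lift
import Pool.Agent.Lib.MP_f4ebb7_co.RY.B1

/-! RY-ExE: existence of the small part `E_t`; `E_1 = m δ₀`.

PROOF. `exE`: `lift` with `P = P1 p q H`, `f = Nt D t`, `Q = p ^ c`, `μ = m ^ 2`, `α = l^2 (q |H|) + 2 n l`: `hdiv` is `h.div`, `hac` is `nt_ac` with
`n^2 = (p^c)^2 m^2`, and `4 (m^2)^2 < p = Nat.card (P1 p q H)` (`card_P1`, `h.h16`). Casts: `((p ^ c : ℕ) : ℤ) = (p : ℤ) ^ c`, `((m ^ 2 : ℕ) : ℤ) = (m : ℤ) ^ 2`.
`e_one`: let `B g = E g - (if g = 0 then m else 0)`. By `nt_one`, `Nt D 1 g - p^c E g = l - p^c B g` (`n = p^c m`), so `Inv P1 B` (cancel `p^c ≠ 0`); the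
support of `B` has at most `m^2 + 1 < p` elements (`sp_card` with `hE.hac 0`), so `B = 0` by `inv_zero`, `card_P1`.
-/

set_option autoImplicit false

namespace Pool.RY

open Finset

variable {H : Type} [AddCommGroup H] [Fintype H] [DecidableEq H] {p s c m q n l : ℕ} [NeZero q]
  {D : Finset (ZMod q × H)}

theorem exE (h : Dat p s c m q n l D) (t : (ZMod q)ˣ) : ∃ E, IsE p c m q D (t : ZMod q) E := by
  have hP := card_P1 h.hp h.hs h.hq H
  have hlt : 4 * (m ^ 2) ^ 2 < Nat.card (P1 p q H) := by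
    rw [hP]
    have h1 := h.h16
    have h2 : (m ^ 2) ^ 2 = m ^ 4 := by ring
    omega
  obtain ⟨E, hE1, hE2⟩ := lift (P1 p q H) (Nt D (t : ZMod q)) (p ^ c) (m ^ 2)
    ((l : ℤ) ^ 2 * ((q : ℤ) * Fintype.card H) + 2 * n * l) (pow_pos h.hp.pos _)
    (by
      intro y hy g
      rw [Nat.cast_pow]
      exact h.div t y hy g)
    (by
      intro u
      rw [nt_ac h.ds h.card t u]
      have h3 : (n : ℤ) ^ 2 = ((p ^ c : ℕ) : ℤ) ^ 2 * ((m ^ 2 : ℕ) : ℤ) := by
        rw [h.hn]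
        push_cast
        ring
      rw [h3]) hlt
  refine ⟨E, ⟨?_, ?_⟩⟩
  · rw [Nat.cast_pow] at hE1
    exact hE1
  · intro u
    rw [hE2 u, Nat.cast_pow]

theorem e_one (h : Dat p s c m q n l D) {E : ZMod q × H → ℤ} (hE : IsE p c m q D 1 E) (g : ZMod q × H) :
    E g = if g = 0 then (m : ℤ) else 0 := by
  have hP := card_P1 h.hp h.hs h.hq H
  have hpc : (p : ℤ) ^ c ≠ 0 := pow_ne_zero _ (by exact_mod_cast h.hp.ne_zero)
  have hn : (n : ℤ) = (p : ℤ) ^ c * m := by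
    rw [h.hn]
    push_cast
    ring
  obtain ⟨B, hB⟩ : ∃ B : ZMod q × H → ℤ, B = fun g => E g - (if g = 0 then (m : ℤ) else 0) := ⟨_, rfl⟩
  have hNB : ∀ g, Nt D 1 g - (p : ℤ) ^ c * E g = (l : ℤ) - (p : ℤ) ^ c * B g := by
    intro g
    rw [nt_one h.ds h.card g, hB]
    simp only
    by_cases hg : g = 0
    · rw [if_pos hg, if_pos hg, hn]
      ring
    · rw [if_neg hg, if_neg hg]
      ring
  have hinv : Inv (P1 p q H) B := by
    intro y hy g
    have h1 : Nt D 1 (g + y) - (p : ℤ) ^ c * E (g + y) = Nt D 1 g - (p : ℤ) ^ c * E g := hE.inv y hy g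
    rw [hNB, hNB] at h1
    have h2 : (p : ℤ) ^ c * B (g + y) = (p : ℤ) ^ c * B g := by linarith
    exact mul_left_cancel₀ hpc h2
  have hsub : sp B ⊆ insert 0 (sp E) := by
    intro x hx
    rw [mem_insert]
    by_cases hx0 : x = 0
    · exact Or.inl hx0
    · refine Or.inr ?_
      have h1 : B x ≠ 0 := (mem_filter.1 hx).2
      rw [hB] at h1
      simp only [if_neg hx0, sub_zero] at h1
      exact mem_filter.2 ⟨mem_univ _, h1⟩
  have hcE : (sp E).card ≤ m ^ 2 := by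
    refine sp_card E (m ^ 2) ?_
    rw [hE.hac 0, if_pos rfl, Nat.cast_pow]
  have hcB : (sp B).card < Nat.card (P1 p q H) := by
    rw [hP]
    have h1 := (card_le_card hsub).trans (card_insert_le _ _)
    have h2 := h.h16
    have h3 : m ^ 2 ≤ m ^ 4 := Nat.pow_le_pow_right (by have := h.hm; omega) (by norm_num)
    have h4 : 1 ≤ m ^ 4 := Nat.one_le_pow _ _ (by have := h.hm; omega)
    omega
  have h0 := inv_zero (P1 p q H) B hinv hcB g
  rw [hB] at h0
  simp only at h0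
  linarith

end Pool.RY
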