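import Pool.Agent.Lib.MP_f4ebb7_co.RY.Defs3
import Pool.Agent.Lib.MP_f4ebb7_co.RY.Unq

/-! RY-Jm (`s ≥ 2`): at most `m^2` classes modulo `p` on which `D` is not invariant under `P1`.

PROOF. `D_j = cls D p j`, `N^j = cnt D_j D`, `P1` as a finset or subgroup, `s ≥ 2`: for `y ∈ P1` the class of `g + y` is the class of `g` (`y.1` is divisible by `p^(s-1)`, so by `p`).
(1) For `y ∈ P1`: `∑_g (N^j(g) - N^j(g+y))^2 = 2 n δ_j(y)`, `δ_j(y) = #{g ∈ D_j : g + y ∉ D_j}`. Proof: `∑_g N^j(g) N^j(g + u) = #{(a, b, a', b') : a, a' ∈ D_j, b, b' ∈ D, a' - b' = a - b + u} = ∑_{a, a' ∈ D_j} #{(b', b) ∈ D^2 : b' - b = a' - a - u} = ∑_{a,a' ∈ D_j} (l + n [a' - a = u])`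
(`ds_rep`) `= l |D_j|^2 + n A_j(u)`, `A_j(u) = #{(a, a') ∈ D_j^2 : a' - a = u}`; then `ac_diff` (`ac (cnt D_j D) u` is this): `2 n (A_j(0) - A_j(y)) = 2 n (|D_j| - #{a ∈ D_j : a + y ∈ D_j})`.
(2) If `D_j` is not `P1`-invariant then `∑_{y ∈ P1} δ_j(y) > 0`, so by (1) `N^j` is not `P1`-invariant: there is a coset `C` on which it is not constant; there the number of ordered pairs with different values is at least `2 (p - 1)` (`2 k (p - k)`, `1 ≤ k ≤ p-1`; `card_P1`), every difference is a non-zero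
multiple of `p^c` (`hdiv`): `2 n ∑_y δ_j(y) = ∑_{y ∈ P1} ∑_g (N^j(g) - N^j(g+y))^2 ≥ 2 (p-1) p^(2c)`, so `m ∑_y δ_j(y) ≥ (p-1) p^c` (`n = p^c m`).
(3) `∑_j ∑_{y ∈ P1} δ_j(y) = ∑_{y ∈ P1, y ≠ 0} #{g ∈ D : g + y ∉ D} = (p-1) n = (p-1) p^c m` (`ds_rep`: `#{g ∈ D : g + y ∈ D} = l`, `|D| = n + l`). So `J := {j : D_j not invariant}` has `|J| (p-1) p^c ≤ m * (p-1) p^c m`, `|J| ≤ m^2`.
(4) For `x` with class not in `J` and `p y = 0`: `(x, h) ∈ D ↔ (x + y, h) ∈ D` (invariance of `D_j` under `y` and `-y`).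
-/

set_option autoImplicit false

namespace Pool.RY

open Finset CHD

section gen

variable {G : Type} [AddCommGroup G] [DecidableEq G]

private theorem jm_cnt_eq (A B : Finset G) (g : G) :
    cnt A B g = ∑ a ∈ A, ∑ b ∈ B, if a - b = g then (1 : ℤ) else 0 := by
  unfold cnt
  rw [card_filter, sum_product]
  push_cast
  rfl

private theorem jm_sum_cnt [Fintype G] (A B : Finset G) (F : G → ℤ) :
    ∑ g, cnt A B g * F g = ∑ a ∈ A, ∑ b ∈ B, F (a - b) := by
  have h : ∀ g ∈ (univ : Finset G), cnt A B g * F g =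
      ∑ a ∈ A, ∑ b ∈ B, if a - b = g then F g else 0 := by
    intro g _
    rw [jm_cnt_eq, sum_mul]
    refine sum_congr rfl fun a _ => ?_
    rw [sum_mul]
    refine sum_congr rfl fun b _ => ?_
    rw [ite_mul, one_mul, zero_mul]
  rw [sum_congr rfl h, sum_comm]
  refine sum_congr rfl fun a _ => ?_
  rw [sum_comm]
  refine sum_congr rfl fun b _ => ?_
  rw [sum_ite_eq, if_pos (mem_univ _)]

private theorem jm_ac [Fintype G] {D : Finset G} {l n : ℕ} (hD : IsDS G D l) (hk : D.card = n + l)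
    (A : Finset G) (u : G) :
    ac (cnt A D) u = (l : ℤ) * (A.card : ℤ) ^ 2 + n * ((A.filter fun a => a + u ∈ A).card : ℤ) := by
  unfold ac
  rw [jm_sum_cnt A D (fun g => cnt A D (g + u))]
  have h : ∀ a ∈ A, ∑ b ∈ D, cnt A D (a - b + u) =
      (l : ℤ) * A.card + n * if a + u ∈ A then 1 else 0 := by
    intro a _
    have h1 : ∀ b ∈ D, cnt A D (a - b + u) =
        ∑ a' ∈ A, ∑ b' ∈ D, if b' - b = a' - a - u then (1 : ℤ) else 0 := by
      intro b _
      rw [jm_cnt_eq]
      refine sum_congr rfl fun a' _ => sum_congr rfl fun b' _ => ?_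
      have : (a' - b' = a - b + u) ↔ (b' - b = a' - a - u) := by
        constructor
        · intro h
          have h2 : a' = a - b + u + b' := by rw [← h]; abel
          rw [h2]
          abel
        · intro h
          have h2 : b' = a' - a - u + b := by rw [← h]; abel
          rw [h2]
          abel
      simp only [this]
    rw [sum_congr rfl h1, sum_comm]
    have h2 : ∀ a' ∈ A, ∑ b ∈ D, ∑ b' ∈ D, (if b' - b = a' - a - u then (1 : ℤ) else 0) =
        (l : ℤ) + if a' = a + u then (n : ℤ) else 0 := by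
      intro a' _
      have h3 := ds_rep hD hk (a' - a - u)
      rw [card_filter, sum_product] at h3
      push_cast at h3
      rw [sum_comm] at h3
      rw [h3]
      have : (a' - a - u = 0) ↔ (a' = a + u) := by
        rw [sub_sub, sub_eq_zero]
      simp only [this]
    rw [sum_congr rfl h2, sum_add_distrib, sum_const, sum_ite_eq', nsmul_eq_mul, mul_ite, mul_one,
      mul_zero, mul_comm]
  rw [sum_congr rfl h, sum_add_distrib, sum_const, nsmul_eq_mul, ← mul_sum, card_filter]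
  push_cast
  ring

private theorem jm_diff [Fintype G] {D : Finset G} {l n : ℕ} (hD : IsDS G D l) (hk : D.card = n + l)
    (A : Finset G) (u : G) :
    ∑ g, (cnt A D g - cnt A D (g + u)) ^ 2 = 2 * n * ((A.filter fun a => a + u ∉ A).card : ℤ) := by
  rw [ac_diff, jm_ac hD hk, jm_ac hD hk]
  have h1 : (A.filter fun a => a + 0 ∈ A) = A := filter_true_of_mem fun a ha => by
    rw [add_zero]
    exact ha
  have h2 : ((A.filter fun a => a + u ∈ A).card : ℤ) + ((A.filter fun a => a + u ∉ A).card : ℤ) =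
      A.card := by
    exact_mod_cast card_filter_add_card_filter_not (s := A) fun a => a + u ∈ A
  rw [h1, ← h2]
  ring

/-- two different values -/
private theorem jm_pairs {ι : Type} [DecidableEq ι] (S : Finset ι) (f : ι → ℤ) (K : ℤ) {z1 z2 : ι}
    (h1 : z1 ∈ S) (h2 : z2 ∈ S) (h12 : z1 ≠ z2) (hK : ∀ z ∈ S, K ≤ (f z1 - f z) ^ 2 + (f z2 - f z) ^ 2) :
    2 * ((S.card : ℤ) - 1) * K ≤ ∑ z ∈ S, ∑ z' ∈ S, (f z - f z') ^ 2 := by
  have hT : ∀ z ∈ S.erase z1, z ∈ (S.erase z1).erase z2 → K ≤ ∑ z' ∈ S, (f z - f z') ^ 2 := by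
    intro z hz _
    have hzS := mem_of_mem_erase hz
    have h3 : (f z - f z1) ^ 2 + (f z - f z2) ^ 2 ≤ ∑ z' ∈ S, (f z - f z') ^ 2 := by
      rw [← sum_pair h12 (f := fun z' => (f z - f z') ^ 2)]
      refine sum_le_sum_of_subset_of_nonneg ?_ fun _ _ _ => sq_nonneg _
      intro w hw
      rcases mem_insert.1 hw with rfl | hw
      · exact h1
      · rw [mem_singleton.1 hw]
        exact h2
    have h4 := hK z hzS
    nlinarith
  have h5 : ∑ z ∈ S, ∑ z' ∈ S, (f z - f z') ^ 2 = ∑ z' ∈ S, (f z1 - f z') ^ 2 +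
      (∑ z' ∈ S, (f z2 - f z') ^ 2 + ∑ z ∈ (S.erase z1).erase z2, ∑ z' ∈ S, (f z - f z') ^ 2) := by
    rw [add_sum_erase (S.erase z1) (fun z => ∑ z' ∈ S, (f z - f z') ^ 2) (mem_erase.2 ⟨h12.symm, h2⟩),
      add_sum_erase S (fun z => ∑ z' ∈ S, (f z - f z') ^ 2) h1]
  have h6 : (S.card : ℤ) * K ≤ ∑ z' ∈ S, (f z1 - f z') ^ 2 + ∑ z' ∈ S, (f z2 - f z') ^ 2 := by
    rw [← sum_add_distrib, ← nsmul_eq_mul, ← sum_const]
    exact sum_le_sum hK
  have h7 : (((S.erase z1).erase z2).card : ℤ) * K ≤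
      ∑ z ∈ (S.erase z1).erase z2, ∑ z' ∈ S, (f z - f z') ^ 2 := by
    rw [← nsmul_eq_mul, ← sum_const]
    exact sum_le_sum fun z hz => hT z (mem_of_mem_erase hz) hz
  have h8 : (((S.erase z1).erase z2).card : ℤ) = S.card - 2 := by
    have h9 := card_erase_add_one (mem_erase.2 ⟨h12.symm, h2⟩ : z2 ∈ S.erase z1)
    have h10 := card_erase_add_one h1
    omega
  rw [h8] at h7
  rw [h5]
  linarith

end gen

variable {H : Type} [AddCommGroup H] [Fintype H] [DecidableEq H] {p s c m q n l : ℕ} [NeZero q]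
  {D : Finset (ZMod q × H)}

private theorem jm_cls (hs : 2 ≤ s) (hp : p.Prime) (hq : q = p ^ s) (x y : ZMod q) (hy : (p : ZMod q) * y = 0) :
    (((x + y).val : ℕ) : ZMod p) = ((x.val : ℕ) : ZMod p) := by
  have hpq : p ∣ q := by
    rw [hq]
    exact dvd_pow_self p (by omega)
  have h1 : ∀ z : ZMod q, ((z.val : ℕ) : ZMod p) = ZMod.castHom hpq (ZMod p) z := by
    intro z
    rw [ZMod.castHom_apply, ZMod.natCast_val]
  have h2 : ZMod.castHom hpq (ZMod p) y = 0 := by
    rw [← h1 y, ZMod.natCast_eq_zero_iff]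
    have h3 : ((p * y.val : ℕ) : ZMod q) = 0 := by
      rw [Nat.cast_mul, ZMod.natCast_zmod_val]
      exact hy
    rw [ZMod.natCast_eq_zero_iff] at h3
    have h4 : p * p ∣ p * y.val := by
      refine dvd_trans ?_ h3
      rw [hq, ← pow_two]
      exact pow_dvd_pow p hs
    exact Nat.dvd_of_mul_dvd_mul_left hp.pos h4
  rw [h1, h1, map_add, h2, add_zero]

theorem jm (hp : p.Prime) (hs : 2 ≤ s) (hq : q = p ^ s) (hn : n = p ^ c * m) (hm : 0 < m)
    (hD : IsDS (ZMod q × H) D l) (hk : D.card = n + l)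
    (hdiv : ∀ j : ZMod p, ∀ y ∈ P1 p q H, ∀ g, (p : ℤ) ^ c ∣ cnt (cls D p j) D (g + y) - cnt (cls D p j) D g) :
    ∃ J : Finset (ZMod p), J.card ≤ m ^ 2 ∧ ∀ x : ZMod q, ((x.val : ℕ) : ZMod p) ∉ J →
      ∀ y : ZMod q, (p : ZMod q) * y = 0 → ∀ h : H, ((x + y, h) ∈ D ↔ (x, h) ∈ D) := by
  classical
  have : NeZero p := ⟨hp.ne_zero⟩
  set Pf : Finset (ZMod q × H) := univ.filter fun g => g ∈ P1 p q H with hPf
  have hPm : ∀ g, g ∈ Pf ↔ g ∈ P1 p q H := fun g => by rw [hPf, mem_filter]; simp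
  have hPc : Pf.card = p := by
    have h1 := card_P1 (H := H) hp (by omega : 1 ≤ s) hq
    rw [← h1, hPf, ← Fintype.card_subtype, Nat.card_eq_fintype_card]
  -- membership in the classes
  have hcm : ∀ (j : ZMod p) (g : ZMod q × H), g ∈ cls D p j ↔ g ∈ D ∧ ((g.1.val : ℕ) : ZMod p) = j := by
    intro j g
    unfold cls
    rw [mem_filter]
  have hcs : ∀ (j : ZMod p) (g y : ZMod q × H), y ∈ P1 p q H → g ∈ cls D p j →
      (g + y ∈ cls D p j ↔ g + y ∈ D) := by
    intro j g y hy hg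
    rw [hcm] at hg
    rw [hcm, Prod.fst_add, jm_cls hs hp hq g.1 y.1 (mem_P1.1 hy).1]
    exact ⟨fun h => h.1, fun h => ⟨h, hg.2⟩⟩
  set δ : ZMod p → ZMod q × H → ℕ := fun j y => ((cls D p j).filter fun a => a + y ∉ cls D p j).card with hδ
  set J : Finset (ZMod p) := univ.filter fun j => ∃ y ∈ P1 p q H, δ j y ≠ 0 with hJ
  have hnpos : 0 < n := by
    rw [hn]
    exact Nat.mul_pos (pow_pos hp.pos _) hm
  -- (3) the sum over the classes
  have hsumj : ∀ y ∈ Pf, (∑ j : ZMod p, δ j y) = if y = 0 then 0 else n := by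
    intro y hy
    have hyP := (hPm y).1 hy
    have h1 : ∑ j : ZMod p, δ j y = (D.filter fun a => a + y ∉ D).card := by
      have h2 := card_eq_sum_card_fiberwise (f := fun g : ZMod q × H => ((g.1.val : ℕ) : ZMod p))
        (s := D.filter fun a => a + y ∉ D) (t := (univ : Finset (ZMod p)))
        (fun g _ => by simp)
      rw [h2]
      refine sum_congr rfl fun j _ => ?_
      change ((cls D p j).filter fun a => a + y ∉ cls D p j).card = _
      refine congrArg card ?_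
      ext g
      simp only [mem_filter]
      constructor
      · rintro ⟨hg, hgy⟩
        have hg' := (hcm j g).1 hg
        refine ⟨⟨hg'.1, fun h => hgy ((hcs j g y hyP hg).2 h)⟩, hg'.2⟩
      · rintro ⟨⟨hg, hgy⟩, hj⟩
        have hg' := (hcm j g).2 ⟨hg, hj⟩
        exact ⟨hg', fun h => hgy ((hcs j g y hyP hg').1 h)⟩
    rw [h1]
    split_ifs with h0
    · rw [h0]
      refine card_eq_zero.2 (filter_false_of_mem fun a ha => ?_)
      rw [add_zero]
      exact not_not.2 ha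
    · have h2 : (D.filter fun a => a + y ∈ D).card = l := by
        have h3 := hD y h0
        rw [← h3]
        refine card_bij (fun a _ => (a + y, a)) ?_ ?_ ?_
        · intro a ha
          obtain ⟨ha1, ha2⟩ := mem_filter.1 ha
          exact mem_filter.2 ⟨mem_product.2 ⟨ha2, ha1⟩, add_sub_cancel_left _ _⟩
        · intro a _ b _ hab
          exact congrArg Prod.snd hab
        · rintro ⟨a, b⟩ hab
          obtain ⟨h4, h5⟩ := mem_filter.1 hab
          obtain ⟨h6, h7⟩ := mem_product.1 h4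
          have h8 : a = b + y := by
            rw [← h5]
            abel
          exact ⟨b, mem_filter.2 ⟨h7, by rw [← h8]; exact h6⟩, by rw [← h8]⟩
      have h3 := card_filter_add_card_filter_not (s := D) fun a => a + y ∈ D
      omega
  have htot : ∑ j : ZMod p, ∑ y ∈ Pf, δ j y = (p - 1) * n := by
    rw [sum_comm, sum_congr rfl hsumj, ← sum_filter_add_sum_filter_not Pf (fun y => y = 0)]
    have h1 : ∑ y ∈ Pf.filter (fun y => y = 0), (if y = 0 then 0 else n) = 0 :=
      sum_eq_zero fun y hy => if_pos (mem_filter.1 hy).2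
    have h2 : ∑ y ∈ Pf.filter (fun y => ¬ y = 0), (if y = 0 then 0 else n) =
        (Pf.filter (fun y => ¬ y = 0)).card * n := by
      rw [sum_congr rfl fun y hy => if_neg (mem_filter.1 hy).2, sum_const, smul_eq_mul]
    have h3 : (Pf.filter (fun y => y = 0)).card = 1 := by
      rw [card_eq_one]
      refine ⟨0, ?_⟩
      ext y
      rw [mem_filter, mem_singleton]
      exact ⟨fun h => h.2, fun h => ⟨by rw [h]; exact (hPm 0).2 (P1 p q H).zero_mem, h⟩⟩
    have h4 := card_filter_add_card_filter_not (s := Pf) fun y => y = 0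
    rw [h1, h2, zero_add]
    congr 1
    omega
  -- (2) a class that is not invariant
  have hlow : ∀ j ∈ J, (p - 1) * p ^ (2 * c) ≤ n * ∑ y ∈ Pf, δ j y := by
    intro j hj
    obtain ⟨-, y0, hy0, hd0⟩ := mem_filter.1 hj
    set N : ZMod q × H → ℤ := cnt (cls D p j) D with hN
    have hy0' := jm_diff hD hk (cls D p j) y0
    have hne : ∃ g, N g ≠ N (g + y0) := by
      by_contra hcon
      push Not at hcon
      have h1 : ∑ g, (N g - N (g + y0)) ^ 2 = 0 :=
        sum_eq_zero fun g _ => by rw [← hcon g, sub_self]; norm_num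
      rw [h1] at hy0'
      have h2 : (0 : ℤ) < 2 * n * (δ j y0 : ℤ) := by
        have h3 : (0 : ℤ) < (δ j y0 : ℤ) := Int.natCast_pos.2 (Nat.pos_of_ne_zero hd0)
        have h4 : (0 : ℤ) < (n : ℤ) := Int.natCast_pos.2 hnpos
        exact mul_pos (mul_pos two_pos h4) h3
      rw [← hy0'] at h2
      exact lt_irrefl _ h2
    obtain ⟨g1, hg1⟩ := hne
    set f : ZMod q × H → ℤ := fun z => N (g1 + z) with hf
    have hpair : 2 * ((Pf.card : ℤ) - 1) * ((p : ℤ) ^ c) ^ 2 ≤ ∑ z ∈ Pf, ∑ z' ∈ Pf, (f z - f z') ^ 2 := by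
      refine jm_pairs Pf f (((p : ℤ) ^ c) ^ 2) (z1 := 0) (z2 := y0) ((hPm 0).2 (P1 p q H).zero_mem)
        ((hPm y0).2 hy0) ?_ ?_
      · intro h
        apply hg1
        rw [← h, add_zero]
      · intro z hz
        have hzP := (hPm z).1 hz
        have hval : ∀ w ∈ P1 p q H, (p : ℤ) ^ c ∣ f w - f z := by
          intro w hw
          have h1 := hdiv j (w - z) ((P1 p q H).sub_mem hw hzP) (g1 + z)
          rw [add_add_sub_cancel] at h1
          exact h1
        have hsq : ∀ w ∈ P1 p q H, f w ≠ f z → ((p : ℤ) ^ c) ^ 2 ≤ (f w - f z) ^ 2 := by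
          intro w hw hwz
          rw [← sq_abs (f w - f z)]
          refine pow_le_pow_left₀ (by positivity) ?_ 2
          exact Int.le_of_dvd (abs_pos.2 (sub_ne_zero.2 hwz)) ((dvd_abs _ _).2 (hval w hw))
        by_cases h2 : f 0 = f z
        · have h3 : f y0 ≠ f z := by
            rw [← h2]
            intro h4
            apply hg1
            have : N (g1 + y0) = N (g1 + 0) := h4
            rw [this, add_zero]
          have h4 := hsq y0 hy0 h3
          have h5 := sq_nonneg (f 0 - f z)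
          linarith
        · have h4 := hsq 0 (P1 p q H).zero_mem h2
          have h5 := sq_nonneg (f y0 - f z)
          linarith
    have hup : ∑ z ∈ Pf, ∑ z' ∈ Pf, (f z - f z') ^ 2 ≤ ∑ y ∈ Pf, ∑ g, (N g - N (g + y)) ^ 2 := by
      have h1 : ∀ z ∈ Pf, ∑ z' ∈ Pf, (f z - f z') ^ 2 = ∑ y ∈ Pf, (N (g1 + z) - N (g1 + z + y)) ^ 2 := by
        intro z hz
        have hzP := (hPm z).1 hz
        refine sum_bij' (fun z' _ => z' - z) (fun y _ => z + y) ?_ ?_ ?_ ?_ ?_
        · intro z' hz'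
          exact (hPm _).2 ((P1 p q H).sub_mem ((hPm _).1 hz') hzP)
        · intro y hy
          exact (hPm _).2 ((P1 p q H).add_mem hzP ((hPm _).1 hy))
        · intro z' _
          exact add_sub_cancel _ _
        · intro y _
          exact add_sub_cancel_left _ _
        · intro z' _
          change (N (g1 + z) - N (g1 + z')) ^ 2 = _
          rw [add_add_sub_cancel]
      rw [sum_congr rfl h1, sum_comm]
      refine sum_le_sum fun y _ => ?_
      have h2 : ∑ z ∈ Pf, (N (g1 + z) - N (g1 + z + y)) ^ 2 =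
          ∑ g ∈ Pf.image (fun z => g1 + z), (N g - N (g + y)) ^ 2 := by
        rw [sum_image fun a _ b _ hab => add_left_cancel hab]
      rw [h2]
      exact sum_le_sum_of_subset_of_nonneg (subset_univ _) fun _ _ _ => sq_nonneg _
    have hd : ∑ y ∈ Pf, ∑ g, (N g - N (g + y)) ^ 2 = 2 * (n : ℤ) * ∑ y ∈ Pf, (δ j y : ℤ) := by
      rw [mul_sum]
      exact sum_congr rfl fun y _ => jm_diff hD hk (cls D p j) y
    have hfin : 2 * ((p : ℤ) - 1) * ((p : ℤ) ^ c) ^ 2 ≤ 2 * (n : ℤ) * ∑ y ∈ Pf, (δ j y : ℤ) := by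
      rw [hPc] at hpair
      exact hpair.trans (hup.trans (le_of_eq hd))
    have hp1 : ((p - 1 : ℕ) : ℤ) = (p : ℤ) - 1 := by
      rw [Nat.cast_sub hp.one_lt.le]
      norm_num
    have : (((p - 1) * p ^ (2 * c) : ℕ) : ℤ) ≤ ((n * ∑ y ∈ Pf, δ j y : ℕ) : ℤ) := by
      push_cast [hp1]
      rw [← pow_mul, mul_comm c 2] at hfin
      linarith
    exact_mod_cast this
  refine ⟨J, ?_, ?_⟩
  · have h1 : J.card * ((p - 1) * p ^ (2 * c)) ≤ n * ((p - 1) * n) := by
      calc J.card * ((p - 1) * p ^ (2 * c)) = ∑ _j ∈ J, (p - 1) * p ^ (2 * c) := by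
            rw [sum_const, smul_eq_mul]
        _ ≤ ∑ j ∈ J, n * ∑ y ∈ Pf, δ j y := sum_le_sum hlow
        _ = n * ∑ j ∈ J, ∑ y ∈ Pf, δ j y := (mul_sum _ _ _).symm
        _ ≤ n * ∑ j : ZMod p, ∑ y ∈ Pf, δ j y :=
            Nat.mul_le_mul_left _ (sum_le_sum_of_subset (subset_univ _))
        _ = n * ((p - 1) * n) := by rw [htot]
    have h2 : n * ((p - 1) * n) = m ^ 2 * ((p - 1) * p ^ (2 * c)) := by
      rw [hn]
      ring
    rw [h2] at h1
    have h3 : 0 < (p - 1) * p ^ (2 * c) :=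
      Nat.mul_pos (by have := hp.one_lt; omega) (pow_pos hp.pos _)
    exact Nat.le_of_mul_le_mul_right h1 h3
  · intro x hx y hy h
    have hinv : ∀ g ∈ cls D p ((x.val : ℕ) : ZMod p), ∀ w ∈ P1 p q H, g + w ∈ cls D p ((x.val : ℕ) : ZMod p) := by
      intro g hg w hw
      by_contra hcon
      apply hx
      refine mem_filter.2 ⟨mem_univ _, w, hw, ?_⟩
      exact card_ne_zero.2 ⟨g, mem_filter.2 ⟨hg, hcon⟩⟩
    have hyP : ((y, 0) : ZMod q × H) ∈ P1 p q H := mem_P1.2 ⟨hy, rfl⟩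
    have hadd : ((x, h) : ZMod q × H) + (y, 0) = (x + y, h) := by
      rw [Prod.mk_add_mk, add_zero]
    constructor
    · intro h1
      have h2 : ((x + y, h) : ZMod q × H) ∈ cls D p ((x.val : ℕ) : ZMod p) :=
        (hcm _ _).2 ⟨h1, jm_cls hs hp hq x y hy⟩
      have h3 := hinv _ h2 (-(y, 0)) ((P1 p q H).neg_mem hyP)
      rw [← hadd, add_neg_cancel_right] at h3
      exact ((hcm _ _).1 h3).1
    · intro h1
      have h2 : ((x, h) : ZMod q × H) ∈ cls D p ((x.val : ℕ) : ZMod p) := (hcm _ _).2 ⟨h1, rfl⟩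
      have h3 := hinv _ h2 (y, 0) hyP
      rw [hadd] at h3
      exact ((hcm _ _).1 h3).1

end Pool.RY
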