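import Pool.Agent.Lib.MP_f4ebb7_co.RY.FinA
import Pool.Agent.Lib.MP_f4ebb7_co.RY.Njd
import Pool.Agent.Lib.MP_f4ebb7_co.RY.Jm
import Pool.Agent.Lib.MP_f4ebb7_co.RY.BigB

/-! RY-Fin2: assembly of the second part (`p^2 ∣ v` implies `p ≤ 3 m^2`). -/

set_option autoImplicit false

namespace Pool.RY

open Finset

theorem main_t1 {p c m v l : ℕ} [NeZero v] (hp : p.Prime) (hm : 1 ≤ m) (hpm : ¬ p ∣ m) (hc : 1 ≤ c) (hpv : p ^ 2 ∣ v)
    (D : Finset (ZMod v)) (hD : CHD.IsDS (ZMod v) D l) (hk : D.card = p ^ c * m + l) : p ≤ 3 * m ^ 2 := by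
  by_contra hcon
  have hbig : 3 * m ^ 2 < p := not_le.1 hcon
  have hp2 : p ≠ 2 := by
    have h1 : 1 ≤ m ^ 2 := Nat.one_le_pow _ _ (by omega)
    omega
  have hv0 : v ≠ 0 := NeZero.ne v
  obtain ⟨s, w, hw, hvw⟩ := Nat.exists_eq_pow_mul_and_not_dvd hv0 p hp.ne_one
  have hw0 : w ≠ 0 := by
    rintro rfl
    exact hw (dvd_zero p)
  have hs : 2 ≤ s := by
    by_contra h
    have h1 : s ≤ 1 := by omega
    have h2 : p ^ 2 ∣ p ^ s * w := hvw ▸ hpv
    have h3 : p ^ s * w ∣ p ^ 1 * w := Nat.mul_dvd_mul_right (pow_dvd_pow p h1) w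
    have h4 := h2.trans h3
    rw [pow_one, sq] at h4
    exact hw (Nat.dvd_of_mul_dvd_mul_left hp.pos h4)
  have i1 : NeZero w := ⟨hw0⟩
  have i2 : NeZero (p ^ s) := ⟨pow_ne_zero _ hp.ne_zero⟩
  have hcop : (p ^ s).Coprime w := Nat.Coprime.pow_left s ((Nat.Prime.coprime_iff_not_dvd hp).2 hw)
  subst hvw
  have hc2 : 2 ≤ c := by
    have h1 := sq_dvd D l _ hD hk hp (by rw [ZMod.card]; exact (dvd_pow_self p (by omega)).mul_right w)
      ((dvd_pow_self p (by omega)).mul_right m)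
    rcases Nat.lt_or_ge c 2 with h | h
    · exfalso
      have hc1 : c = 1 := by omega
      rw [hc1, pow_one, sq] at h1
      exact hpm (Nat.dvd_of_mul_dvd_mul_left hp.pos h1)
    · exact h
  have hcardD : (D.map (ZMod.chineseRemainder hcop).toAddEquiv.toEquiv.toEmbedding).card = p ^ c * m + l := by
    rw [card_map, hk]
  have hD' := ds_map (ZMod.chineseRemainder hcop).toAddEquiv D l hD
  obtain ⟨J, hJ, hinv⟩ := jm hp hs rfl rfl (by omega : 0 < m) hD' hcardD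
    (fun j y hy g => nj_div hp hp2 hs rfl hw rfl (by omega) hpm hbig hD' hcardD j y hy g)
  exact bigB hp (by omega) rfl hc2 hm hbig rfl hD' hcardD J hJ hinv

end Pool.RY
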