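import Pool.Agent.Lib.MP_f4ebb7_co.RY.OddC
import Pool.Agent.Lib.MP_f4ebb7_co.RY.EndC2
import Pool.Agent.Lib.MP_f4ebb7_co.RY.EndB
import Pool.Agent.Lib.MP_f4ebb7_co.RY.EvenV

/-! RY-Fin3: assembly of the part `p > 4^(m^2)`. -/

set_option autoImplicit false

namespace Pool.RY

open Finset

/-- the data in `ZMod (p^s) × ZMod w` -/
theorem exists_dat {p c m v l : ℕ} [NeZero v] (hp : p.Prime) (hm : 2 ≤ m) (hpm : ¬ p ∣ m) (h16 : 16 * m ^ 4 < p)
    (hpv : p ∣ v) (D : Finset (ZMod v)) (hD : CHD.IsDS (ZMod v) D l) (hk : D.card = p ^ c * m + l) (hc : 1 ≤ c) :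
    ∃ (s w : ℕ) (_ : NeZero w) (_ : NeZero (p ^ s)) (D' : Finset (ZMod (p ^ s) × ZMod w)), v = p ^ s * w ∧ ¬ p ∣ w ∧
      Dat p s c m (p ^ s) (p ^ c * m) l D' := by
  have hv0 : v ≠ 0 := NeZero.ne v
  obtain ⟨s, w, hw, hvw⟩ := Nat.exists_eq_pow_mul_and_not_dvd hv0 p hp.ne_one
  have hs : 1 ≤ s := by
    rcases Nat.eq_zero_or_pos s with h | h
    · exfalso
      rw [h, pow_zero, one_mul] at hvw
      exact hw (hvw ▸ hpv)
    · exact h
  have hw0 : w ≠ 0 := by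
    rintro rfl
    exact hw (dvd_zero p)
  have i1 : NeZero w := ⟨hw0⟩
  have i2 : NeZero (p ^ s) := ⟨pow_ne_zero _ hp.ne_zero⟩
  have hp2 : p ≠ 2 := by
    have h3 : 1 ≤ m ^ 4 := Nat.one_le_pow _ _ (by omega)
    omega
  have hcop : (p ^ s).Coprime w := Nat.Coprime.pow_left s ((Nat.Prime.coprime_iff_not_dvd hp).2 hw)
  subst hvw
  have hc2 : 2 ≤ c := by
    have h1 := sq_dvd D l _ hD hk hp (by rw [ZMod.card]; exact hpv) ((dvd_pow_self p (by omega)).mul_right m)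
    rcases Nat.lt_or_ge c 2 with h | h
    · exfalso
      have hc1 : c = 1 := by omega
      rw [hc1, pow_one, sq] at h1
      exact hpm (Nat.dvd_of_mul_dvd_mul_left hp.pos h1)
    · exact h
  have hcardD : (D.map (ZMod.chineseRemainder hcop).toAddEquiv.toEquiv.toEmbedding).card = p ^ c * m + l := by
    rw [card_map, hk]
  have hD' := ds_map (ZMod.chineseRemainder hcop).toAddEquiv D l hD
  refine ⟨s, w, i1, i2, D.map (ZMod.chineseRemainder hcop).toAddEquiv.toEquiv.toEmbedding, rfl, hw, ?_⟩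
  exact
    { hp := hp
      hs := hs
      hc := hc2
      hm := hm
      hpm := hpm
      h16 := h16
      hH := by rw [ZMod.card]; exact hw
      hq := rfl
      hn := rfl
      ds := hD'
      card := hcardD
      div := fun t y hy g => nt_div hp hp2 hs rfl hw rfl (by omega) _ hD' hcardD t y hy g }

theorem main_d {p c m v l : ℕ} [NeZero v] (hp : p.Prime) (hm : 2 ≤ m) (hpm : ¬ p ∣ m)
    (hbig : 4 ^ (m ^ 2) < p ∨ (16 * m ^ 4 < p ∧ 2 * l < p ^ c))
    (hc : 1 ≤ c) (hpv : p ∣ v) (D : Finset (ZMod v)) (hD : CHD.IsDS (ZMod v) D l) (hk : D.card = p ^ c * m + l) :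
    4 ≤ c ∧ Even c ∧ IsSquare m ∧ Even m ∧ ¬ p ^ 2 ∣ v ∧ (p - 1) ∣ v := by
  have h16 : 16 * m ^ 4 < p := by
    rcases hbig with h | h
    · exact (pow_big hm).trans_lt h
    · exact h.1
  have hp2 : p ≠ 2 := by
    have h3 : 1 ≤ m ^ 4 := Nat.one_le_pow _ _ (by omega)
    omega
  have hn0 : 0 < p ^ c * m := Nat.mul_pos (Nat.pos_of_ne_zero (pow_ne_zero _ hp.ne_zero)) (by omega)
  have hsq : IsSquare m := by
    obtain ⟨w, hw, hwl⟩ := shape_of p c 1 m
    rw [one_pow, one_mul] at hw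
    obtain ⟨s, h1, h2, h3, h4⟩ := main_a hp hp2 hn0 hw hpm (by
      intro q hq hqw
      rcases hwl q hq hqw with h | h
      · exact Or.inl ((Nat.prime_dvd_prime_iff_eq hq hp).1 h)
      · exact absurd (Nat.dvd_one.1 h) hq.ne_one) D l hD hk (by rw [ZMod.card]; exact hpv)
    refine sq_of ?_ h1 h2 h3 h4
    have h6 : m ^ 2 ≤ m ^ 4 := Nat.pow_le_pow_right (by omega) (by norm_num)
    have h7 : m ^ 1 ≤ m ^ 4 := Nat.pow_le_pow_right (by omega) (by norm_num)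
    have h8 : 1 ≤ m ^ 4 := Nat.one_le_pow 4 m (by omega)
    rw [pow_one] at h7
    have h5 : m ^ 2 + m + 1 ≤ 16 * m ^ 4 := by linarith
    exact h5.trans_lt h16
  have hnot : ¬ p ^ 2 ∣ v := by
    intro h
    have h1 := main_t1 hp (by omega) hpm hc h D hD hk
    have h2 : m ^ 2 ≤ m ^ 4 := Nat.pow_le_pow_right (by omega) (by norm_num)
    omega
  obtain ⟨s, w, i1, i2, D', hv, hw, h⟩ := exists_dat hp hm hpm h16 hpv D hD hk hc
  have hs1 : s = 1 := by
    have h1 := h.hs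
    by_contra hcon
    apply hnot
    rw [hv]
    exact (pow_dvd_pow p (by omega : 2 ≤ s)).mul_right w
  subst hs1
  have hp4 : 4 < p := by
    have h3 : 1 ≤ m ^ 4 := Nat.one_le_pow _ _ (by omega)
    omega
  have hR : ∀ (t : (ZMod (p ^ 1))ˣ) (E : ZMod (p ^ 1) × ZMod w → ℤ), IsE p c m (p ^ 1) D' (t : ZMod (p ^ 1)) E →
      4 ^ ((sp E).image Prod.fst).card < p := by
    intro t E hE
    rcases hbig with hb | hb
    · exact rect_exp hb hE
    · refine rect_pos hp4 hE.hac fun g => pos_ge h hE (Or.inl ?_) g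
      exact_mod_cast hb.2
  have hc3 : 3 ≤ c := by
    have h1 := h.hc
    by_contra hcon
    have h2 : c = 2 := by omega
    subst h2
    exact endC2 h hsq hR (by
      rcases hbig with hb | hb
      · exact Or.inl hb
      · exact Or.inr hb.2)
  have hpv1 : (p - 1) ∣ v := by
    have h2 := endB h hc3 hR
    rw [ZMod.card] at h2
    rw [hv]
    exact h2.mul_left (p ^ 1)
  have h2v : 2 ∣ v := by
    refine dvd_trans ?_ hpv1
    have h1 : Odd p := hp.odd_of_ne_two hp2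
    obtain ⟨r, hr⟩ := h1
    exact ⟨r, by omega⟩
  have hce : Even c := even_exp hp hpm (by omega) (even_sq h2v D hD hk)
  refine ⟨?_, hce, hsq, ?_, hnot, hpv1⟩
  · obtain ⟨r, hr⟩ := hce
    omega
  · refine main_t2 hp hm hpm hc3 hpv ?_ D hD hk
    have h1 : 2 ≤ m ^ 2 := by nlinarith
    have h2 : 16 * (m ^ 2 * 2) ≤ 16 * (m ^ 2 * m ^ 2) := Nat.mul_le_mul_left _ (Nat.mul_le_mul_left _ h1)
    have h3 : m ^ 2 * m ^ 2 = m ^ 4 := by ring
    rw [h3] at h2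
    omega

theorem main_f {p c m v l : ℕ} [NeZero v] (hp : p.Prime) (hm : 2 ≤ m) (hpm : ¬ p ∣ m) (hc : 1 ≤ c) (hpv : p ∣ v)
    (D : Finset (ZMod v)) (hD : CHD.IsDS (ZMod v) D l) (hk : D.card = p ^ c * m + l)
    (hL : 4 ^ (m ^ 2) < p ∨ (16 * m ^ 4 < p ∧ 2 * l < p ^ c) ∨ (32 * m ^ 2 < p ∧ Odd m ∧ 3 ≤ c) ∨
      (m ^ 2 + m + 1 < p ∧ ¬ IsSquare m)) :
    4 ≤ c ∧ Even c ∧ IsSquare m ∧ Even m ∧ ¬ p ^ 2 ∣ v ∧ (p - 1) ∣ v := by
  rcases hL with h | h | h | h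
  · exact main_d hp hm hpm (Or.inl h) hc hpv D hD hk
  · exact main_d hp hm hpm (Or.inr h) hc hpv D hD hk
  · exfalso
    exact (Nat.not_even_iff_odd.2 h.2.1) (main_t2 hp hm hpm h.2.2 hpv h.1 D hD hk)
  · exfalso
    have hn0 : 0 < p ^ c * m := Nat.mul_pos (Nat.pos_of_ne_zero (pow_ne_zero _ hp.ne_zero)) (by omega)
    have hp2 : p ≠ 2 := by
      have h3 : 0 ≤ m ^ 2 := Nat.zero_le _
      omega
    obtain ⟨w, hw, hwl⟩ := shape_of p c 1 m
    rw [one_pow, one_mul] at hw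
    obtain ⟨s, h1, h2, h3, h4⟩ := main_a hp hp2 hn0 hw hpm (by
      intro q hq hqw
      rcases hwl q hq hqw with h | h
      · exact Or.inl ((Nat.prime_dvd_prime_iff_eq hq hp).1 h)
      · exact absurd (Nat.dvd_one.1 h) hq.ne_one) D l hD hk (by rw [ZMod.card]; exact hpv)
    exact h.2 (sq_of h.1 h1 h2 h3 h4)

end Pool.RY
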