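import Pool.Agent.Lib.MP_f4ebb7_co.RY.Crit
import Pool.Agent.Lib.MP_f4ebb7_co.CHD.Base
import Pool.Agent.Lib.MP_f4ebb7_co.Group

/-! RY-MainA: the criterion for difference sets in finite abelian groups. -/

set_option autoImplicit false

namespace Pool.RY

open Finset CHD

/-- the sum of all `p`-th roots of unity -/
theorem sum_wz {p : ℕ} [NeZero p] {R : Type} [CommRing R] [IsDomain R] (C : Cyc (2 * p) R) (hp : p.Prime) :
    ∑ u : ZMod p, wz C u = 0 := by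
  have : Fact p.Prime := ⟨hp⟩
  have h1 : wc C ≠ 1 := by
    intro h
    have h2 := wc_prim C (one_ne_zero : (1 : ZMod p) ≠ 0)
    apply h2
    rw [h]
    ext x
    simp [AddChar.mulShift_apply]
  exact AddChar.sum_eq_zero_of_ne_one h1

/-- the image of a difference set of order `n` in `ℤ[ζ_p]` has absolute value `√n` -/
theorem el_fib {p : ℕ} [NeZero p] {R : Type} [CommRing R] [IsDomain R] (C : Cyc (2 * p) R) (hp : p.Prime)
    {G : Type} [AddCommGroup G] [Fintype G] [DecidableEq G] (D : Finset G) (l n : ℕ)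
    (hD : ∀ g : G, g ≠ 0 → ((D ×ˢ D).filter (fun x => x.1 - x.2 = g)).card = l) (hk : D.card = n + l)
    (π : G →+ ZMod p) (hπ : Function.Surjective π) :
    el C (fib π D) * C.cj (el C (fib π D)) = (n : R) := by
  have : Fact p.Prime := ⟨hp⟩
  have h1 : ∀ u : ZMod p, ac (fib π D) u = (ac (fib π D) 0 - n) + if u = 0 then (n : ℤ) else 0 := by
    intro u
    by_cases hu : u = 0
    · rw [hu, if_pos rfl]
      ring
    · rw [if_neg hu, add_zero]
      have h2 := Pool.Agent.Lib.MP_f4ebb7_co.autocorr p π hπ D l n hD hk u hu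
      have h3 : ac (fib π D) 0 = ∑ i, ((D.filter (fun d => π d = i)).card : ℤ) *
          ((D.filter (fun d => π d = i)).card : ℤ) := by
        unfold ac fib
        refine sum_congr rfl fun i _ => ?_
        rw [add_zero]
      have h4 : ac (fib π D) u = ∑ i, ((D.filter (fun d => π d = i)).card : ℤ) *
          ((D.filter (fun d => π d = i + u)).card : ℤ) := rfl
      rw [h3, h4]
      linear_combination -h2
  rw [el_mul_cj]
  have h5 : ∀ u : ZMod p, (ac (fib π D) u : R) * wz C u =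
      ((ac (fib π D) 0 - n : ℤ) : R) * wz C u + if u = 0 then (n : R) * wz C u else 0 := by
    intro u
    rw [h1 u]
    by_cases hu : u = 0
    · rw [if_pos hu, if_pos hu]
      push_cast
      ring
    · rw [if_neg hu, if_neg hu]
      push_cast
      ring
  rw [sum_congr rfl fun u _ => h5 u, sum_add_distrib, ← mul_sum, sum_wz C hp, mul_zero, zero_add, sum_ite_eq',
    if_pos (mem_univ _), wz_zero, mul_one]

/-- the criterion -/
theorem main_a {p : ℕ} (hp : p.Prime) (hp2 : p ≠ 2) {n m u : ℕ} (hn0 : 0 < n)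
    (hn : n = u ^ 2 * m ∨ n = p * u ^ 2 * m) (hpm : ¬ p ∣ m)
    (hu : ∀ ℓ : ℕ, ℓ.Prime → ℓ ∣ u → ℓ = p ∨ ∃ j, p ∣ ℓ ^ j + 1)
    {G : Type} [AddCommGroup G] [Fintype G] [DecidableEq G] (D : Finset G) (l : ℕ)
    (hD : ∀ g : G, g ≠ 0 → ((D ×ˢ D).filter (fun x => x.1 - x.2 = g)).card = l) (hk : D.card = n + l)
    (hpG : p ∣ Fintype.card G) :
    ∃ s : ℕ, 0 < s ∧ s < p ∧ s ^ 2 ≡ m [MOD p] ∧ s * (p - s) ≤ m * (p - 1) := by
  have : Fact p.Prime := ⟨hp⟩
  have : NeZero p := ⟨hp.ne_zero⟩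
  obtain ⟨π, hπ⟩ := Pool.Agent.Lib.MP_f4ebb7_co.exists_hom p hpG
  obtain ⟨R, _, _, _, _, ⟨C⟩⟩ := cyc_exists (2 * p) (even_two_mul p)
  obtain ⟨Y, hY⟩ := strip C hp hp2 _ n m u (el_fib C hp D l n hD hk π hπ) hn0 hn hu
  exact crit_y C hp hp2 Y m hY hpm

/-- `p^c u^2 m` -/
theorem shape_of (p c u m : ℕ) : ∃ w, (p ^ c * (u ^ 2 * m) = w ^ 2 * m ∨ p ^ c * (u ^ 2 * m) = p * w ^ 2 * m) ∧
    ∀ ℓ : ℕ, ℓ.Prime → ℓ ∣ w → ℓ ∣ p ∨ ℓ ∣ u := by
  rcases Nat.even_or_odd c with ⟨r, hr⟩ | ⟨r, hr⟩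
  · refine ⟨p ^ r * u, Or.inl ?_, ?_⟩
    · rw [hr, pow_add]
      ring
    · intro ℓ hl hd
      rcases hl.dvd_mul.1 hd with h | h
      · exact Or.inl (hl.dvd_of_dvd_pow h)
      · exact Or.inr h
  · refine ⟨p ^ r * u, Or.inr ?_, ?_⟩
    · rw [hr, pow_succ, two_mul, pow_add]
      ring
    · intro ℓ hl hd
      rcases hl.dvd_mul.1 hd with h | h
      · exact Or.inl (hl.dvd_of_dvd_pow h)
      · exact Or.inr h

/-- a common prime factor of `v` and `n` divides `n` twice -/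
theorem sq_dvd {G : Type} [AddCommGroup G] [Fintype G] [DecidableEq G] (D : Finset G) (l n : ℕ)
    (hD : ∀ g : G, g ≠ 0 → ((D ×ˢ D).filter (fun x => x.1 - x.2 = g)).card = l) (hk : D.card = n + l)
    {ℓ : ℕ} (hl : ℓ.Prime) (h1 : ℓ ∣ Fintype.card G) (h2 : ℓ ∣ n) : ℓ ^ 2 ∣ n := by
  have h3 := Pool.Agent.Lib.MP_f4ebb7_co.param_eq D l n hD hk
  have h4 : ℓ ∣ (n + l) ^ 2 := by
    rw [h3]
    exact dvd_add h2 (h1.mul_left l)
  have h5 : ℓ ∣ n + l := hl.dvd_of_dvd_pow h4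
  have h6 : ℓ ∣ l := (Nat.dvd_add_right h2).1 h5
  have h7 : ℓ ^ 2 ∣ (n + l) ^ 2 := pow_dvd_pow_of_dvd h5 2
  have h8 : ℓ ^ 2 ∣ l * Fintype.card G := by
    rw [sq]
    exact mul_dvd_mul h6 h1
  rw [h3] at h7
  exact (Nat.dvd_add_left h8).1 h7

end Pool.RY
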