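import Pool.Agent.Lib.MP_f4ebb7_co.RY.NTb
import Pool.Agent.Lib.MP_f4ebb7_co.RY.MainA

/-! RY-FinA: transport of a difference set along an isomorphism. -/

set_option autoImplicit false

namespace Pool.RY

open Finset

theorem ds_map {G K : Type} [AddCommGroup G] [DecidableEq G] [AddCommGroup K] [DecidableEq K] (e : G ≃+ K)
    (D : Finset G) (l : ℕ) (hD : CHD.IsDS G D l) : CHD.IsDS K (D.map e.toEquiv.toEmbedding) l := by
  intro g hg
  have h1 : e.symm g ≠ 0 := by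
    intro h
    apply hg
    have h2 := congrArg e h
    rwa [AddEquiv.apply_symm_apply, map_zero] at h2
  rw [← hD (e.symm g) h1]
  have h2 : ((D.map e.toEquiv.toEmbedding ×ˢ D.map e.toEquiv.toEmbedding).filter (fun p => p.1 - p.2 = g)) =
      ((D ×ˢ D).filter (fun p => p.1 - p.2 = e.symm g)).map
        ⟨fun p => (e p.1, e p.2), fun a b hab => by
          simp only [Prod.mk.injEq, EmbeddingLike.apply_eq_iff_eq] at hab
          exact Prod.ext hab.1 hab.2⟩ := by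
    ext ⟨a, b⟩
    simp only [mem_filter, mem_product, mem_map, AddEquiv.toEquiv_eq_coe,
      EquivLike.coe_coe, Function.Embedding.coeFn_mk, Prod.mk.injEq, Prod.exists]
    constructor
    · rintro ⟨⟨⟨x, hx, rfl⟩, ⟨y, hy, rfl⟩⟩, h⟩
      refine ⟨x, y, ⟨⟨hx, hy⟩, ?_⟩, rfl, rfl⟩
      rw [← h, ← map_sub, AddEquiv.symm_apply_apply]
    · rintro ⟨x, y, ⟨⟨hx, hy⟩, h⟩, rfl, rfl⟩
      refine ⟨⟨⟨x, hx, rfl⟩, ⟨y, hy, rfl⟩⟩, ?_⟩
      rw [← map_sub, h, AddEquiv.apply_symm_apply]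
  rw [h2, card_map]

end Pool.RY
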