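import Pool.Agent.Lib.MP_f4ebb7_co.RY.MainA

/-! RY-FinB: all common prime factors of `v` and `n`, `n = p^c m`, in finite abelian groups. -/

set_option autoImplicit false

namespace Pool.RY

open Finset

/-- the exponent in `n` of a prime `r` that is self-conjugate modulo `q` is even -/
theorem even_exp_selfconj (q r : ℕ) [Fact q.Prime] [Fact r.Prime] (hqr : r ≠ q) (t : ℕ)
    (ht : (r : ZMod q) ^ t = -1) (N : ℕ) : ∀ (g : ZMod q → ℤ) (n : ℕ), n ≤ N → n ≠ 0 →
    (∀ j : ZMod q, j ≠ 0 → ∑ i, g i * g i - ∑ i, g i * g (i + j) = (n : ℤ)) → Even (n.factorization r) := by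
  have hr : r.Prime := Fact.out
  induction N with
  | zero =>
    intro g n h1 h2
    exact absurd (Nat.le_zero.1 h1) h2
  | succ N ih =>
    intro g n h1 h2 hn
    by_cases hd : r ∣ n
    · obtain ⟨h, hh⟩ := Pool.Agent.Lib.MP_f4ebb7_co.exists_quot q r hqr t ht g n hn (by exact_mod_cast hd)
      have key : ∀ j : ZMod q, j ≠ 0 → (r : ℤ) ^ 2 * (∑ i, h i * h i - ∑ i, h i * h (i + j)) = n := by
        intro j hj
        rw [← hn j hj]
        have e2 : ∑ i, g i * g i = ∑ i, (g 0 * g 0 + g 0 * r * h i + g 0 * r * h i + r ^ 2 * (h i * h i)) := by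
          refine Finset.sum_congr rfl fun i _ => ?_
          rw [hh i]
          ring
        have e3 : ∑ i, g i * g (i + j)
            = ∑ i, (g 0 * g 0 + g 0 * r * h i + g 0 * r * h (i + j) + r ^ 2 * (h i * h (i + j))) := by
          refine Finset.sum_congr rfl fun i _ => ?_
          rw [hh i, hh (i + j)]
          ring
        have e4 : ∑ i, h (i + j) = ∑ i : ZMod q, h i := Equiv.sum_comp (Equiv.addRight j) h
        rw [e2, e3]
        simp only [Finset.sum_add_distrib, ← Finset.mul_sum]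
        rw [e4]
        ring
      have hone : (1 : ZMod q) ≠ 0 := one_ne_zero
      have h3 := key 1 hone
      have hn0 : (0 : ℤ) < n := by exact_mod_cast Nat.pos_of_ne_zero h2
      have hr0 : (0 : ℤ) < (r : ℤ) ^ 2 := by
        have : (0 : ℤ) < r := by exact_mod_cast hr.pos
        positivity
      have h4 : 0 < ∑ i, h i * h i - ∑ i, h i * h (i + 1) := by
        by_contra hcon
        have h5 : (r : ℤ) ^ 2 * (∑ i, h i * h i - ∑ i, h i * h (i + 1)) ≤ 0 :=
          mul_nonpos_of_nonneg_of_nonpos hr0.le (not_lt.1 hcon)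
        omega
      obtain ⟨k, hk⟩ := Int.eq_ofNat_of_zero_le h4.le
      rw [hk] at h3 h4
      have h5 : r ^ 2 * k = n := by exact_mod_cast h3
      have hk0 : k ≠ 0 := by
        rintro rfl
        exact lt_irrefl _ h4
      have h6 : Even (k.factorization r) := by
        refine ih h k ?_ hk0 ?_
        · have h7 : 2 * 2 ≤ r ^ 2 := by
            have := hr.two_le
            nlinarith
          have h8 : 1 ≤ k := Nat.one_le_iff_ne_zero.2 hk0
          nlinarith
        · intro j hj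
          have h7 := key j hj
          have h8 : (r : ℤ) ^ 2 * (∑ i, h i * h i - ∑ i, h i * h (i + j)) = (r : ℤ) ^ 2 * k := by
            rw [h7, ← h3]
          exact mul_left_cancel₀ hr0.ne' h8
      rw [← h5, Nat.factorization_mul (pow_ne_zero _ hr.ne_zero) hk0, Finsupp.add_apply, hr.factorization_pow,
        Finsupp.single_eq_same]
      exact (even_two).add h6
    · rw [Nat.factorization_eq_zero_of_not_dvd hd]
      exact Even.zero

/-- a prime with odd exponent in `n` has odd order modulo each prime factor `q` of `v` -/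
theorem odd_order {G : Type} [AddCommGroup G] [Fintype G] [DecidableEq G] (D : Finset G) (l n : ℕ)
    (hD : ∀ g : G, g ≠ 0 → ((D ×ˢ D).filter (fun x => x.1 - x.2 = g)).card = l) (hk : D.card = n + l) (hn : n ≠ 0)
    {q r : ℕ} (hq : q.Prime) (hr : r.Prime) (hqr : r ≠ q) (hqG : q ∣ Fintype.card G) (ho : Odd (n.factorization r)) :
    Odd (orderOf (r : ZMod q)) := by
  have i1 : Fact q.Prime := ⟨hq⟩
  have i2 : Fact r.Prime := ⟨hr⟩
  by_contra hcon
  rw [Nat.not_odd_iff_even] at hcon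
  obtain ⟨j, hj⟩ := hcon
  have hr0 : (r : ZMod q) ≠ 0 := by
    rw [Ne, ZMod.natCast_eq_zero_iff]
    intro h
    exact hqr ((Nat.prime_dvd_prime_iff_eq hq hr).1 h).symm
  have hfin : IsOfFinOrder (r : ZMod q) := by
    have h1 : IsUnit (r : ZMod q) := hr0.isUnit
    obtain ⟨u, hu⟩ := h1
    rw [← hu, Units.isOfFinOrder_val]
    exact isOfFinOrder_of_finite u
  have hpos : 0 < orderOf (r : ZMod q) := orderOf_pos_iff.2 hfin
  have h1 : ((r : ZMod q) ^ j) ^ 2 = 1 := by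
    rw [← pow_mul, mul_two, ← hj]
    exact pow_orderOf_eq_one _
  have h2 : (r : ZMod q) ^ j ≠ 1 := by
    intro h
    have h3 := orderOf_dvd_of_pow_eq_one h
    have h4 := Nat.le_of_dvd (by omega) h3
    omega
  have h3 : (r : ZMod q) ^ j = -1 := by
    rcases mul_self_eq_one_iff.1 ((sq _).symm.trans h1) with h | h
    · exact absurd h h2
    · exact h
  obtain ⟨π, hπ⟩ := Pool.Agent.Lib.MP_f4ebb7_co.exists_hom q hqG
  have h4 := even_exp_selfconj q r hqr j h3 n _ n le_rfl hn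
    (Pool.Agent.Lib.MP_f4ebb7_co.autocorr q π hπ D l n hD hk)
  exact (Nat.not_odd_iff_even.2 h4) ho

/-- a group of even order: `n` is a square -/
theorem even_sq_group {G : Type} [AddCommGroup G] [Fintype G] [DecidableEq G] (D : Finset G) (l n : ℕ)
    (hD : ∀ g : G, g ≠ 0 → ((D ×ˢ D).filter (fun x => x.1 - x.2 = g)).card = l) (hk : D.card = n + l)
    (h2 : 2 ∣ Fintype.card G) : IsSquare n := by
  have i1 : Fact (Nat.Prime 2) := ⟨Nat.prime_two⟩
  obtain ⟨π, hπ⟩ := Pool.Agent.Lib.MP_f4ebb7_co.exists_hom 2 h2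
  obtain ⟨x, hx⟩ := Pool.Agent.Lib.MP_f4ebb7_co.isSquare_of_two _ n
    (Pool.Agent.Lib.MP_f4ebb7_co.autocorr 2 π hπ D l n hD hk)
  refine ⟨x.natAbs, ?_⟩
  have h3 : ((x.natAbs * x.natAbs : ℕ) : ℤ) = (n : ℤ) := by
    rw [hx, Nat.cast_mul]
    exact Int.natAbs_mul_self
  exact_mod_cast h3.symm

/-- a square `p^c m` with `p ∤ m` has a square `m` -/
theorem sq_part {p c m : ℕ} (hp : p.Prime) (hpm : ¬ p ∣ m) (h : IsSquare (p ^ c * m)) : IsSquare m := by
  obtain ⟨r, hr⟩ := h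
  rcases Nat.eq_zero_or_pos m with hm | hm
  · exact ⟨0, by rw [hm]⟩
  have hcop : Nat.Coprime (p ^ c) m := Nat.Coprime.pow_left c ((Nat.Prime.coprime_iff_not_dvd hp).2 hpm)
  have h1 : p ^ c * m = r ^ 2 := by rw [hr, sq]
  obtain ⟨d, hd⟩ := exists_eq_pow_of_mul_eq_pow (a := m) (b := p ^ c) (c := r) (k := 2)
    (by rw [Nat.isUnit_iff]; exact Nat.Coprime.gcd_eq_one hcop.symm) (by rw [mul_comm]; exact h1)
  exact ⟨d, by rw [hd, sq]⟩

/-- the condition on `p` and `m` -/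
def GoodB (p m : ℕ) : Prop :=
  (m ^ 2 + m + 1 < p ∧ ¬ IsSquare m) ∨
    ∀ s : ℕ, 0 < s → s < p → s ^ 2 ≡ m [MOD p] → m * (p - 1) < s * (p - s)

theorem GoodB.ne_two {p m : ℕ} (hg : GoodB p m) (hpm : ¬ p ∣ m) : p ≠ 2 := by
  rintro rfl
  rcases hg with ⟨h1, -⟩ | h1
  · have h2 : m = 0 := by nlinarith
    exact hpm (by rw [h2]; exact dvd_zero 2)
  · have h2 : 1 ^ 2 ≡ m [MOD 2] := by
      unfold Nat.ModEq
      omega
    have h3 := h1 1 (by norm_num) (by norm_num) h2
    have h4 : m = 0 := by omega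
    exact hpm (by rw [h4]; exact dvd_zero 2)

theorem GoodB.not_sq {p m : ℕ} (hg : GoodB p m) (hp : p.Prime) (hpm : ¬ p ∣ m) : ¬ IsSquare m := by
  rcases hg with ⟨-, h1⟩ | h1
  · exact h1
  · rintro ⟨s0, h2⟩
    have h3 : ¬ p ∣ s0 := fun h => hpm (by rw [h2]; exact h.mul_right s0)
    have h4 : 0 < s0 % p := Nat.pos_of_ne_zero fun h => h3 (Nat.dvd_of_mod_eq_zero h)
    have h5 : s0 % p < p := Nat.mod_lt _ hp.pos
    have h6 : (s0 % p) ^ 2 ≡ m [MOD p] := by
      rw [h2, ← sq]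
      exact (Nat.mod_modEq s0 p).pow 2
    have h7 := h1 _ h4 h5 h6
    have h8 : s0 % p ≤ s0 := Nat.mod_le _ _
    have h9 : s0 % p * (p - s0 % p) ≤ m * (p - 1) := by
      calc s0 % p * (p - s0 % p) ≤ s0 % p * (p - 1) := Nat.mul_le_mul_left _ (by omega)
        _ ≤ s0 * (p - 1) := Nat.mul_le_mul_right _ h8
        _ ≤ m * (p - 1) := by
          refine Nat.mul_le_mul_right _ ?_
          rw [h2]
          exact Nat.le_mul_of_pos_left _ (lt_of_lt_of_le h4 h8)
    exact absurd h7 (not_lt.2 h9)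

theorem main_b {p c m l : ℕ} (hp : p.Prime) (hpm : ¬ p ∣ m) (hg : GoodB p m) {G : Type} [AddCommGroup G] [Fintype G]
    [DecidableEq G] (D : Finset G)
    (hD : ∀ g : G, g ≠ 0 → ((D ×ˢ D).filter (fun x => x.1 - x.2 = g)).card = l) (hk : D.card = p ^ c * m + l) :
    ¬ p ∣ Fintype.card G ∧
      (∀ q : ℕ, q.Prime → q ∣ Fintype.card G → q ∣ m → Odd q ∧ q ^ 2 ∣ m ∧
        ∀ r : ℕ, r.Prime → r ≠ q → Odd ((p ^ c * m).factorization r) → Odd (orderOf (r : ZMod q))) ∧
      ((∀ q : ℕ, q.Prime → q ^ 2 ∣ m → q = 2) → Nat.gcd (Fintype.card G) (p ^ c * m) = 1) := by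
  have hp2 := hg.ne_two hpm
  have hsq := hg.not_sq hp hpm
  have hm0 : m ≠ 0 := by
    rintro rfl
    exact hpm (dvd_zero p)
  have hn : p ^ c * m ≠ 0 := mul_ne_zero (pow_ne_zero _ hp.ne_zero) hm0
  have hmain : ¬ p ∣ Fintype.card G := by
    intro hpG
    obtain ⟨w, hw, hwl⟩ := shape_of p c 1 m
    rw [one_pow, one_mul] at hw
    obtain ⟨s, h1, h2, h3, h4⟩ := main_a hp hp2 (Nat.pos_of_ne_zero hn) hw hpm (by
      intro q hq hqw
      rcases hwl q hq hqw with h | h
      · exact Or.inl ((Nat.prime_dvd_prime_iff_eq hq hp).1 h)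
      · exact absurd (Nat.dvd_one.1 h) hq.ne_one) D l hD hk hpG
    rcases hg with ⟨h5, h6⟩ | h5
    · exact h6 (sq_of h5 h1 h2 h3 h4)
    · exact absurd (h5 s h1 h2 h3) (not_lt.2 h4)
  have hsmall : ∀ q : ℕ, q.Prime → q ∣ Fintype.card G → q ∣ m → Odd q ∧ q ^ 2 ∣ m ∧
        ∀ r : ℕ, r.Prime → r ≠ q → Odd ((p ^ c * m).factorization r) → Odd (orderOf (r : ZMod q)) := by
    intro q hq hqG hqm
    have hqp : q ≠ p := fun h => hmain (h ▸ hqG)
    refine ⟨?_, ?_, fun r hr hrq ho => odd_order D l _ hD hk hn hq hr hrq hqG ho⟩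
    · refine hq.odd_of_ne_two ?_
      rintro rfl
      exact hsq (sq_part hp hpm (even_sq_group D l _ hD hk hqG))
    · have h1 := sq_dvd D l _ hD hk hq hqG (hqm.mul_left _)
      exact (Nat.Coprime.pow 2 c ((Nat.coprime_primes hq hp).2 hqp)).dvd_of_dvd_mul_left h1
  refine ⟨hmain, hsmall, fun hm => ?_⟩
  by_contra hgcd
  obtain ⟨q, hq, hqd⟩ := Nat.exists_prime_and_dvd hgcd
  have hq1 : q ∣ Fintype.card G := hqd.trans (Nat.gcd_dvd_left _ _)
  have hq2 : q ∣ p ^ c * m := hqd.trans (Nat.gcd_dvd_right _ _)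
  have hqp : q ≠ p := fun h => hmain (h ▸ hq1)
  have hqm : q ∣ m := by
    rcases hq.dvd_mul.1 hq2 with h | h
    · exact absurd ((Nat.prime_dvd_prime_iff_eq hq hp).1 (hq.dvd_of_dvd_pow h)) hqp
    · exact h
  obtain ⟨h1, h2, -⟩ := hsmall q hq hq1 hqm
  rw [hm q hq h2] at h1
  exact absurd h1 (by decide)

end Pool.RY
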