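import Pool.Agent.Lib.MP_f4ebb7_co.RY.Chr

/-! RY-GChr: the characters of `ZMod q × H` with values in `R`, given by homomorphisms `β : H →+ ZMod w`. Compare `RY/Chr.lean`. -/

set_option autoImplicit false
set_option linter.unusedSectionVars false

namespace Pool.RY

open Finset CHD

/-- the homomorphisms to `ZMod w` separate the points of `H` -/
def Sep (H : Type) [AddCommGroup H] (w : ℕ) : Prop := ∀ h : H, h ≠ 0 → ∃ β : H →+ ZMod w, β h ≠ 0

/-- the character `(x, h) ↦ ζ_q^x ζ_w^{β h}` with values in `ℤ[ζ_{2qw}]` -/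
def chiH {q w : ℕ} [NeZero q] [NeZero w] {H : Type} [AddCommGroup H] {R : Type} [CommRing R] (C : Cyc (2 * q * w) R)
    (b : H →+ ZMod w) (g : ZMod q × H) : R := wq C (2 * w) g.1 * wq C (2 * q) (b g.2)

/-- `∑_g f(g) χ_β(g)` -/
def PhiH {q w : ℕ} [NeZero q] [NeZero w] {H : Type} [AddCommGroup H] [Fintype H] {R : Type} [CommRing R]
    (C : Cyc (2 * q * w) R) (b : H →+ ZMod w) (f : ZMod q × H → ℤ) : R := ∑ g, (f g : R) * chiH C b g

section gen

variable {N : ℕ} [NeZero N] {R : Type} [CommRing R] (C : Cyc N R)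

private theorem gprim {q r : ℕ} (hN : N = q * r) : IsPrimitiveRoot (C.z ^ r) q :=
  (z_prim C).pow (NeZero.pos N) (by rw [hN, mul_comm])

private theorem gchar {q r : ℕ} [NeZero q] (hN : N = q * r) (i : ZMod q) :
    wq C r i = AddChar.zmodChar q (gprim C hN).pow_eq_one i := by
  rw [AddChar.zmodChar_apply]
  unfold wq
  rw [pow_mul]

private theorem gadd {q r : ℕ} [NeZero q] (hN : N = q * r) (i j : ZMod q) :
    wq C r (i + j) = wq C r i * wq C r j := by
  rw [gchar C hN, gchar C hN, gchar C hN, AddChar.map_add_eq_mul]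

private theorem gsum [IsDomain R] {q r : ℕ} [NeZero q] (hN : N = q * r) (j : ZMod q) :
    ∑ a : ZMod q, wq C r (a * j) = if j = 0 then (q : R) else 0 := by
  have h := AddChar.sum_mulShift (R := ZMod q) (R' := R) j
    (AddChar.zmodChar_primitive_of_primitive_root q (gprim C hN))
  rw [ZMod.card] at h
  rw [Finset.sum_congr rfl fun a _ => gchar C hN (a * j)]
  rw [h]
  split_ifs <;> simp

private theorem gzero {q r : ℕ} : wq C r (0 : ZMod q) = 1 := by
  unfold wq
  rw [ZMod.val_zero, mul_zero, pow_zero]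

private theorem gsg {q r : ℕ} [NeZero q] (hN : N = q * r) (T : (ZMod N)ˣ) (t : ZMod q)
    (hT : (T : ZMod N).val ≡ t.val [MOD q]) (k : ZMod q) :
    C.sg T (wq C r k) = wq C r (t * k) := by
  unfold wq
  rw [sg_pow_z, z_pow_eq_iff]
  have h1 : (T : ZMod N).val * k.val ≡ (t * k).val [MOD q] := by
    rw [ZMod.val_mul]
    exact (hT.mul_right k.val).trans (Nat.mod_modEq _ _).symm
  have h2 := Nat.ModEq.mul_left' r h1
  have h3 : r * q = N := by rw [hN, mul_comm]
  rw [h3] at h2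
  have h4 : (T : ZMod N).val * (r * k.val) = r * ((T : ZMod N).val * k.val) := by ring
  rw [h4]
  exact h2

private theorem neg_one_val' {q r : ℕ} [NeZero q] (hN : N = q * r) :
    ((-1 : (ZMod N)ˣ) : ZMod N).val ≡ (-1 : ZMod q).val [MOD q] := by
  have h3 : (((((-1 : (ZMod N)ˣ) : ZMod N).val + 1 : ℕ)) : ZMod N) = ((0 : ℕ) : ZMod N) := by
    push_cast
    rw [ZMod.natCast_zmod_val]
    simp
  have h4 := (ZMod.natCast_eq_natCast_iff _ _ _).1 h3
  have h5 : ((-1 : (ZMod N)ˣ) : ZMod N).val + 1 ≡ 0 [MOD q] := h4.of_dvd ⟨r, hN⟩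
  have h6 : (((((-1 : (ZMod N)ˣ) : ZMod N).val + 1 : ℕ)) : ZMod q) = ((0 : ℕ) : ZMod q) :=
    (ZMod.natCast_eq_natCast_iff _ _ _).2 h5
  rw [← ZMod.natCast_eq_natCast_iff, ZMod.natCast_zmod_val]
  push_cast at h6
  linear_combination h6

private theorem gcj {q r : ℕ} [NeZero q] (hN : N = q * r) (k : ZMod q) : C.cj (wq C r k) = wq C r (-k) := by
  unfold Cyc.cj
  rw [gsg C hN (-1) (-1) (neg_one_val' hN) k, neg_one_mul]

end gen
variable {q w : ℕ} [NeZero q] [NeZero w] {H : Type} [AddCommGroup H] [Fintype H] [DecidableEq H] {R : Type} [CommRing R]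
  (C : Cyc (2 * q * w) R)

private theorem hNq (q w : ℕ) : 2 * q * w = q * (2 * w) := by ring

private theorem hNw (q w : ℕ) : 2 * q * w = w * (2 * q) := by ring

theorem chiH_add (b : H →+ ZMod w) (g g' : ZMod q × H) : chiH C b (g + g') = chiH C b g * chiH C b g' := by
  unfold chiH
  rw [Prod.fst_add, Prod.snd_add, wq_add, map_add, gadd C (hNw q w)]
  ring

theorem cj_chiH (b : H →+ ZMod w) (g : ZMod q × H) : C.cj (chiH C b g) = chiH C b (-g) := by
  unfold chiH
  have h : C.cj (wq C (2 * w) g.1 * wq C (2 * q) (b g.2)) =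
      C.cj (wq C (2 * w) g.1) * C.cj (wq C (2 * q) (b g.2)) := by
    unfold Cyc.cj
    rw [map_mul]
  rw [h, gcj C (hNq q w), gcj C (hNw q w), Prod.fst_neg, Prod.snd_neg, map_neg]

theorem sg_chiH (T : (ZMod (2 * q * w))ˣ) (t : ZMod q) (h1 : (T : ZMod (2 * q * w)).val ≡ t.val [MOD q])
    (h2 : (T : ZMod (2 * q * w)).val ≡ 1 [MOD 2 * w]) (b : H →+ ZMod w) (x : ZMod q) (h : H) :
    C.sg T (chiH C b (x, h)) = chiH C b (t * x, h) := by
  unfold chiH
  rw [map_mul, gsg C (hNq q w) T t h1 x]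
  congr 1
  have h3 : (T : ZMod (2 * q * w)).val ≡ (1 : ZMod w).val [MOD w] := by
    have h4 : (T : ZMod (2 * q * w)).val ≡ 1 [MOD w] := h2.of_dvd ⟨2, mul_comm _ _⟩
    refine h4.trans ?_
    rw [← ZMod.natCast_eq_natCast_iff, ZMod.natCast_zmod_val, Nat.cast_one]
  rw [gsg C (hNw q w) T 1 h3, one_mul]

private theorem Phi_ind (b : H →+ ZMod w) (A : Finset (ZMod q × H)) :
    PhiH C b (ind A) = ∑ a ∈ A, chiH C b a := by
  unfold PhiH ind
  rw [← Finset.sum_filter_add_sum_filter_not univ (fun g => g ∈ A)]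
  have h1 : ∑ g ∈ univ.filter (fun g => g ∉ A), (((if g ∈ A then 1 else 0 : ℤ)) : R) * chiH C b g = 0 := by
    refine sum_eq_zero fun g hg => ?_
    rw [if_neg (mem_filter.1 hg).2, Int.cast_zero, zero_mul]
  rw [h1, add_zero]
  have h2 : univ.filter (fun g => g ∈ A) = A := by
    ext g
    simp
  rw [h2]
  refine sum_congr rfl fun g hg => ?_
  rw [if_pos hg, Int.cast_one, one_mul]

private theorem sum_pairs (b : H →+ ZMod w) (S : Finset ((ZMod q × H) × (ZMod q × H)))
    (φ : (ZMod q × H) × (ZMod q × H) → ZMod q × H) :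
    ∑ e ∈ S, chiH C b (φ e) = ∑ g, (((S.filter fun e => φ e = g).card : ℤ) : R) * chiH C b g := by
  rw [← Finset.sum_fiberwise_of_maps_to (s := S) (t := univ) (g := φ) (fun e _ => mem_univ _)]
  refine sum_congr rfl fun g _ => ?_
  rw [Finset.sum_congr rfl (g := fun _ => chiH C b g) (fun e he => by rw [(mem_filter.1 he).2]), sum_const,
    nsmul_eq_mul]
  push_cast
  rfl

private theorem cj_sum {ι : Type} (S : Finset ι) (f : ι → R) : C.cj (∑ i ∈ S, f i) = ∑ i ∈ S, C.cj (f i) := by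
  unfold Cyc.cj
  rw [map_sum]

theorem phiH_mul_cj (b : H →+ ZMod w) (A B : Finset (ZMod q × H)) :
    PhiH C b (ind A) * C.cj (PhiH C b (ind B)) = PhiH C b (cnt A B) := by
  rw [Phi_ind, Phi_ind, cj_sum, sum_mul_sum, ← sum_product']
  have h1 : ∀ e ∈ A ×ˢ B, chiH C b e.1 * C.cj (chiH C b e.2) = chiH C b (e.1 - e.2) := by
    intro e _
    rw [cj_chiH, ← chiH_add, sub_eq_add_neg]
  rw [sum_congr rfl h1, sum_pairs C b (A ×ˢ B) (fun e => e.1 - e.2)]
  rfl

theorem phiH_nt (T : (ZMod (2 * q * w))ˣ) (t : ZMod q) (h1 : (T : ZMod (2 * q * w)).val ≡ t.val [MOD q])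
    (h2 : (T : ZMod (2 * q * w)).val ≡ 1 [MOD 2 * w]) (b : H →+ ZMod w) (D : Finset (ZMod q × H)) :
    C.sg T (PhiH C b (ind D)) * C.cj (PhiH C b (ind D)) = PhiH C b (Nt D t) := by
  rw [Phi_ind, map_sum, cj_sum, sum_mul_sum, ← sum_product']
  have h3 : ∀ e ∈ D ×ˢ D, C.sg T (chiH C b e.1) * C.cj (chiH C b e.2) =
      chiH C b (t * e.1.1 - e.2.1, e.1.2 - e.2.2) := by
    intro e _
    have h4 : C.sg T (chiH C b e.1) = chiH C b (t * e.1.1, e.1.2) := sg_chiH C T t h1 h2 b e.1.1 e.1.2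
    rw [h4, cj_chiH, ← chiH_add]
    congr 1
    ext
    · simp [sub_eq_add_neg]
    · simp [sub_eq_add_neg]
  rw [sum_congr rfl h3, sum_pairs C b (D ×ˢ D) (fun e => (t * e.1.1 - e.2.1, e.1.2 - e.2.2))]
  rfl

theorem sum_chiH [IsDomain R] (hq : 1 < q) (b : H →+ ZMod w) : ∑ g : ZMod q × H, chiH C b g = 0 := by
  rw [Fintype.sum_prod_type]
  unfold chiH
  simp only
  have h1 : ∀ x : ZMod q, ∑ y : H, wq C (2 * w) x * wq C (2 * q) (b y) =
      wq C (2 * w) x * ∑ y : H, wq C (2 * q) (b y) := fun x => (mul_sum _ _ _).symm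
  rw [sum_congr rfl fun x _ => h1 x, ← sum_mul]
  have h2 : ∑ x : ZMod q, wq C (2 * w) x = 0 := by
    have h3 := gsum C (hNq q w) (1 : ZMod q)
    have h4 : (1 : ZMod q) ≠ 0 := by
      have : Fact (1 < q) := ⟨hq⟩
      exact one_ne_zero
    rw [if_neg h4] at h3
    rw [← h3]
    exact sum_congr rfl fun x _ => by rw [mul_one]
  rw [h2, zero_mul]

theorem homs_finite (H : Type) [AddCommGroup H] [Finite H] (w : ℕ) [NeZero w] : Finite (H →+ ZMod w) :=
  Finite.of_injective (fun f : H →+ ZMod w => (f : H → ZMod w)) DFunLike.coe_injective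

theorem homs_card (H : Type) [AddCommGroup H] [Finite H] {p w : ℕ} [NeZero w] (hp : p.Prime) (hw : ¬ p ∣ w)
    [Fintype (H →+ ZMod w)] : ¬ p ∣ Fintype.card (H →+ ZMod w) := by
  have : Fact p.Prime := ⟨hp⟩
  intro h
  obtain ⟨β, hβ⟩ := exists_prime_addOrderOf_dvd_card p h
  apply hw
  rw [← hβ, addOrderOf_dvd_iff_nsmul_eq_zero]
  ext h
  rw [AddMonoidHom.smul_apply, nsmul_eq_mul, ZMod.natCast_self, zero_mul]
  rfl

private theorem sum_homs [IsDomain R] [Fintype (H →+ ZMod w)] (hsep : Sep H w) (h : H) :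
    ∑ β : H →+ ZMod w, wq C (2 * q) (β h) = if h = 0 then (Fintype.card (H →+ ZMod w) : R) else 0 := by
  by_cases h0 : h = 0
  · rw [if_pos h0, h0]
    have h1 : ∀ β : H →+ ZMod w, wq C (2 * q) (β 0) = 1 := by
      intro β
      rw [map_zero, gzero]
    rw [sum_congr rfl fun β _ => h1 β, sum_const, card_univ, nsmul_eq_mul, mul_one]
  · rw [if_neg h0]
    obtain ⟨β₀, hβ₀⟩ := hsep h h0
    have h1 : ∑ β : H →+ ZMod w, wq C (2 * q) (β h) = wq C (2 * q) (β₀ h) * ∑ β : H →+ ZMod w, wq C (2 * q) (β h) := by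
      rw [mul_sum]
      conv_lhs => rw [← Equiv.sum_comp (Equiv.addRight β₀) (fun β : H →+ ZMod w => wq C (2 * q) (β h))]
      refine sum_congr rfl fun β _ => ?_
      rw [Equiv.coe_addRight, AddMonoidHom.add_apply, gadd C (hNw q w), mul_comm]
    have h2 : wq C (2 * q) (β₀ h) ≠ 1 := by
      intro h3
      apply hβ₀
      unfold wq at h3
      rw [pow_mul] at h3
      have h4 := (gprim C (hNw q w)).dvd_of_pow_eq_one _ h3
      have h5 : (β₀ h).val = 0 := Nat.eq_zero_of_dvd_of_lt h4 (ZMod.val_lt _)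
      exact (ZMod.val_eq_zero _).1 h5
    have h3 : (1 - wq C (2 * q) (β₀ h)) * ∑ β : H →+ ZMod w, wq C (2 * q) (β h) = 0 := by
      linear_combination h1
    rcases mul_eq_zero.1 h3 with h4 | h4
    · exact absurd (sub_eq_zero.1 h4).symm h2
    · exact h4

theorem inv_H [IsDomain R] (hsep : Sep H w) (I : Ideal R) {p e : ℕ} (hp : p.Prime) (hw : ¬ p ∣ w) (hI : (p : R) ^ e ∈ I)
    (f : ZMod q × H → ℤ) (κ : R) (h : ∀ b : H →+ ZMod w, κ * PhiH C b f ∈ I) (h₀ : H) :
    κ * ∑ x : ZMod q, (f (x, h₀) : R) * wq C (2 * w) x ∈ I := by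
  classical
  have hfin := homs_finite H w
  have ft : Fintype (H →+ ZMod w) := Fintype.ofFinite _
  set K : ℕ := Fintype.card (H →+ ZMod w) with hK
  have hKp : ¬ p ∣ K := homs_card H hp hw
  set S : R := ∑ x : ZMod q, (f (x, h₀) : R) * wq C (2 * w) x with hS
  have h1 : ∑ b : H →+ ZMod w, wq C (2 * q) (b (-h₀)) * (κ * PhiH C b f) = (K : R) * (κ * S) := by
    have h2 : ∀ b : H →+ ZMod w, wq C (2 * q) (b (-h₀)) * (κ * PhiH C b f) =
        κ * ∑ g : ZMod q × H, (f g : R) * wq C (2 * w) g.1 * wq C (2 * q) (b (g.2 - h₀)) := by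
      intro b
      unfold PhiH chiH
      rw [mul_left_comm, mul_sum]
      congr 1
      refine sum_congr rfl fun g _ => ?_
      rw [sub_eq_add_neg, map_add, gadd C (hNw q w)]
      ring
    rw [sum_congr rfl fun b _ => h2 b, ← mul_sum, sum_comm]
    have h3 : ∀ g : ZMod q × H, ∑ b : H →+ ZMod w, (f g : R) * wq C (2 * w) g.1 * wq C (2 * q) (b (g.2 - h₀)) =
        (f g : R) * wq C (2 * w) g.1 * (if g.2 - h₀ = 0 then (K : R) else 0) := by
      intro g
      rw [← mul_sum, sum_homs C hsep]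
    rw [sum_congr rfl fun g _ => h3 g, Fintype.sum_prod_type]
    have h4 : ∀ x : ZMod q, ∑ y : H, (f (x, y) : R) * wq C (2 * w) (x, y).1 *
        (if (x, y).2 - h₀ = 0 then (K : R) else 0) = (f (x, h₀) : R) * wq C (2 * w) x * K := by
      intro x
      rw [sum_eq_single h₀]
      · rw [if_pos (sub_self _)]
      · intro y _ hy
        rw [if_neg (sub_ne_zero.2 hy), mul_zero]
      · intro hh
        exact absurd (mem_univ _) hh
    rw [sum_congr rfl fun x _ => h4 x, ← sum_mul, ← hS]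
    ring
  have h5 : (K : R) * (κ * S) ∈ I := by
    rw [← h1]
    exact Ideal.sum_mem I fun b _ => Ideal.mul_mem_left I _ (h b)
  have h6 : (p : R) ^ e * (κ * S) ∈ I := Ideal.mul_mem_right _ I hI
  have hc : K.Coprime (p ^ e) :=
    Nat.Coprime.pow_right e ((Nat.Prime.coprime_iff_not_dvd hp).2 hKp).symm
  obtain ⟨a, c, hac⟩ := (Nat.isCoprime_iff_coprime.2 hc)
  have h7 : (a : R) * (K : R) + (c : R) * (p : R) ^ e = 1 := by
    have h8 := congrArg (fun n : ℤ => (n : R)) hac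
    push_cast at h8
    exact h8
  have h9 : κ * S = (a : R) * ((K : R) * (κ * S)) + (c : R) * ((p : R) ^ e * (κ * S)) := by
    linear_combination (-(κ * S)) * h7
  rw [h9]
  exact Ideal.add_mem I (Ideal.mul_mem_left I _ h5) (Ideal.mul_mem_left I _ h6)

/-- the homomorphisms from `H` to `ZMod |H|` separate the points -/
theorem sep_card (H : Type) [AddCommGroup H] [Fintype H] : Sep H (Fintype.card H) := by
  intro h hh
  have i1 : NeZero (Fintype.card H) := ⟨Fintype.card_ne_zero⟩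
  obtain ⟨ψ, hψ⟩ := AddChar.exists_apply_ne_zero.2 hh
  set w := Fintype.card H with hw
  have hpow : ∀ x : H, ψ x ^ w = 1 := by
    intro x
    rw [← AddChar.map_nsmul_eq_pow, hw, card_nsmul_eq_zero, AddChar.map_zero_eq_one]
  have hex : ∀ x : H, ∃ j : ZMod w, ZMod.stdAddChar j = ψ x := by
    intro x
    obtain ⟨i, -, hi⟩ := (Complex.isPrimitiveRoot_exp w (NeZero.ne w)).eq_pow_of_pow_eq_one (hpow x)
    refine ⟨(i : ZMod w), ?_⟩
    rw [← hi, ← Complex.exp_nat_mul]
    have h1 := ZMod.stdAddChar_coe (N := w) (i : ℤ)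
    rw [Int.cast_natCast] at h1
    rw [h1]
    congr 1
    push_cast
    ring
  choose j hj using hex
  have hinj := ZMod.injective_stdAddChar (N := w)
  refine ⟨⟨⟨j, ?_⟩, ?_⟩, ?_⟩
  · apply hinj
    rw [hj, AddChar.map_zero_eq_one, AddChar.map_zero_eq_one]
  · intro x y
    apply hinj
    show ZMod.stdAddChar (j (x + y)) = ZMod.stdAddChar (j x + j y)
    rw [AddChar.map_add_eq_mul, hj, hj, hj, AddChar.map_add_eq_mul]
  · intro h0
    apply hψ
    have h1 : j h = 0 := h0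
    rw [← hj h, h1, AddChar.map_zero_eq_one]

end Pool.RY
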