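import Pool.Agent.Lib.MP_f4ebb7_co.RY.NTa
import Pool.Agent.Lib.MP_f4ebb7_co.CHD.Base
import Pool.Agent.Lib.MP_f4ebb7_co.CHD.Ded
import Pool.Agent.Lib.MP_f4ebb7_co.CHD.Frob
import Pool.Agent.Lib.MP_f4ebb7_co.RY.Cnt

/-! RY-NTb: `p^c` divides `N_t(g + y) - N_t(g)` for `y ∈ P1` (cyclic groups `ZMod q × ZMod w`).

PROOF. `N = 2 q w`, `cyc_exists N` gives `R`, `C : Cyc N R` (Dedekind domain, characteristic zero). `p` is odd, so `gcd(q, 2w) = 1`. `ζ_q = z^{2w}` (`wq C (2*w)`), `ζ_w = z^{2q}`.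
For `b : ZMod w` let `χ (x, h) = z^(2w x.val) z^(2q (b h).val)`, multiplicative: `χ (g + g') = χ g χ g'` (`z_pow_eq_iff`), and `cj (χ g) = χ (-g)`. `X = ∑_{d ∈ D} χ d`.
(1) `X * cj X = n`: `= ∑_{d, d'} χ (d - d') = ∑_g #{d - d' = g} χ g = n + l ∑_g χ g` (`ds_rep`) and `∑_g χ g = 0` (factor `∑_x ζ_q^x = 0`, `q > 1`). Compare `CHD/DSX.lean`.
(2) Let `T` be the lift of `t` (`unit_lift` with `r = 2 w`), `σ = sg T`. `σ (χ (x, h)) = χ (t x, h)`. `div_lemma` with `X`, `Xc = cj X`, `nS = m`, `n0 = p^c`: a prime ideal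
containing `p^c` contains `p` (`hP.mem_of_pow_mem`), and is fixed by `σ`: `frob C p hp T ⟨s, 2 * w, 0, _, _⟩` (`N = p^s * (2w)`, `T.val ≡ 1 = p^0 mod 2w`). So `p^c ∣ σ X * cj X`.
`σ X * cj X = ∑_{d, d'} χ (t d.1 - d'.1, d.2 - d'.2) = ∑_{x, h} N_t(x, h) ζ_q^x z^(2q (b h).val)`.
(3) Multiply by `z^(2q (-(b h0)).val)` and sum over `b : ZMod w`: `∑_b ζ_w^{b (h - h0)} = w [h = h0]`. So `p^c ∣ w ∑_x N_t(x, h0) ζ_q^x` in `R`, and since `gcd(w, p^c) = 1` (Bezout, integers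
in `R`), `p^c ∣ ∑_x N_t(x, h0) ζ_q^x`.
(4) `tr_lemma` with `r = 2 w`, `c x = Nt D t (x, h0)`, `Q = p^c`; for `g = (x, h0)`, `y = (y1, 0)`, `p y1 = 0`.
-/

set_option autoImplicit false

namespace Pool.RY

open Finset CHD

variable {N : ℕ} [NeZero N] {R : Type} [CommRing R] (C : Cyc N R)

private theorem b_prim {q r : ℕ} (hN : N = q * r) : IsPrimitiveRoot (C.z ^ r) q :=
  (z_prim C).pow (NeZero.pos N) (by rw [hN, mul_comm])

private theorem b_char {q r : ℕ} [NeZero q] (hN : N = q * r) (i : ZMod q) :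
    wq C r i = AddChar.zmodChar q (b_prim C hN).pow_eq_one i := by
  rw [AddChar.zmodChar_apply]
  unfold wq
  rw [pow_mul]

private theorem b_add {q r : ℕ} [NeZero q] (hN : N = q * r) (i j : ZMod q) :
    wq C r (i + j) = wq C r i * wq C r j := by
  rw [b_char C hN, b_char C hN, b_char C hN, AddChar.map_add_eq_mul]

private theorem b_sum [IsDomain R] {q r : ℕ} [NeZero q] (hN : N = q * r) (j : ZMod q) :
    ∑ a : ZMod q, wq C r (a * j) = if j = 0 then (q : R) else 0 := by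
  have h := AddChar.sum_mulShift (R := ZMod q) (R' := R) j
    (AddChar.zmodChar_primitive_of_primitive_root q (b_prim C hN))
  rw [ZMod.card] at h
  rw [Finset.sum_congr rfl fun a _ => b_char C hN (a * j)]
  rw [h]
  split_ifs <;> simp

private theorem b_sg {q r : ℕ} [NeZero q] (hN : N = q * r) (t : (ZMod q)ˣ) (T : (ZMod N)ˣ)
    (hT : (T : ZMod N).val ≡ (t : ZMod q).val [MOD q]) (k : ZMod q) :
    C.sg T (wq C r k) = wq C r ((t : ZMod q) * k) := by
  unfold wq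
  rw [sg_pow_z, z_pow_eq_iff]
  have h1 : (T : ZMod N).val * k.val ≡ ((t : ZMod q) * k).val [MOD q] := by
    rw [ZMod.val_mul]
    exact (hT.mul_right k.val).trans (Nat.mod_modEq _ _).symm
  have h2 := Nat.ModEq.mul_left' r h1
  have h3 : r * q = N := by rw [hN, mul_comm]
  rw [h3] at h2
  have h4 : (T : ZMod N).val * (r * k.val) = r * ((T : ZMod N).val * k.val) := by ring
  rw [h4]
  exact h2

private theorem b_fix {q r : ℕ} (hN : N = q * r) (T : (ZMod N)ˣ)
    (hT : (T : ZMod N).val ≡ 1 [MOD r]) (e : ℕ) :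
    C.sg T (C.z ^ (q * e)) = C.z ^ (q * e) := by
  rw [sg_pow_z, z_pow_eq_iff]
  have h1 : (T : ZMod N).val * e ≡ 1 * e [MOD r] := hT.mul_right e
  have h2 := Nat.ModEq.mul_left' q h1
  rw [← hN, one_mul] at h2
  have h4 : (T : ZMod N).val * (q * e) = q * ((T : ZMod N).val * e) := by ring
  rw [h4]
  exact h2

private theorem b_cj {q r : ℕ} [NeZero q] (hN : N = q * r) (k : ZMod q) :
    C.cj (wq C r k) = wq C r (-k) := by
  unfold Cyc.cj
  have hq : q ∣ N := ⟨r, hN⟩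
  have h := b_sg C hN (-1 : (ZMod q)ˣ) (-1 : (ZMod N)ˣ) (by
    rw [← ZMod.natCast_eq_natCast_iff, ZMod.natCast_zmod_val, Units.val_neg, Units.val_one,
      Units.val_neg, Units.val_one]
    have h1 := ZMod.natCast_zmod_val (-1 : ZMod N)
    have h2 := congrArg (ZMod.castHom hq (ZMod q)) h1
    rw [map_natCast, map_neg, map_one] at h2
    exact h2) k
  rw [h, Units.val_neg, Units.val_one, neg_one_mul]

/-- the character -/
private def chi (q w : ℕ) (b : ZMod w) (g : ZMod q × ZMod w) : R := wq C (2 * w) g.1 * wq C (2 * q) (b * g.2)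

private theorem chi_add {q w : ℕ} [NeZero q] [NeZero w] (hN : N = q * (2 * w)) (b : ZMod w) (g g' : ZMod q × ZMod w) :
    chi C q w b (g + g') = chi C q w b g * chi C q w b g' := by
  have hN' : N = w * (2 * q) := by rw [hN]; ring
  unfold chi
  rw [Prod.fst_add, Prod.snd_add, mul_add, b_add C hN, b_add C hN']
  ring

private theorem chi_cj {q w : ℕ} [NeZero q] [NeZero w] (hN : N = q * (2 * w)) (b : ZMod w) (g : ZMod q × ZMod w) :
    C.cj (chi C q w b g) = chi C q w b (-g) := by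
  have hN' : N = w * (2 * q) := by rw [hN]; ring
  have h1 : C.cj (chi C q w b g) = C.cj (wq C (2 * w) g.1) * C.cj (wq C (2 * q) (b * g.2)) := by
    unfold Cyc.cj chi
    rw [map_mul]
  rw [h1, b_cj C hN, b_cj C hN']
  unfold chi
  rw [Prod.fst_neg, Prod.snd_neg, mul_neg]

private theorem chi_sg {q w : ℕ} [NeZero q] [NeZero w] (hN : N = q * (2 * w)) (t : (ZMod q)ˣ) (T : (ZMod N)ˣ)
    (hT : (T : ZMod N).val ≡ (t : ZMod q).val [MOD q]) (hT1 : (T : ZMod N).val ≡ 1 [MOD 2 * w])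
    (b : ZMod w) (g : ZMod q × ZMod w) :
    C.sg T (chi C q w b g) = chi C q w b ((t : ZMod q) * g.1, g.2) := by
  unfold chi
  rw [map_mul, b_sg C hN t T hT]
  congr 1
  unfold wq
  have h1 : 2 * q * (b * g.2).val = q * (2 * (b * g.2).val) := by ring
  rw [h1]
  exact b_fix C hN T hT1 _

private theorem chi_sum [IsDomain R] {q w : ℕ} [NeZero q] [NeZero w] (hN : N = q * (2 * w)) (hq : 1 < q) (b : ZMod w) :
    ∑ g : ZMod q × ZMod w, chi C q w b g = 0 := by
  haveI : Fact (1 < q) := ⟨hq⟩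
  unfold chi
  rw [Fintype.sum_prod_type]
  simp only
  rw [← Finset.sum_mul_sum]
  have h := b_sum C hN (1 : ZMod q)
  rw [if_neg one_ne_zero] at h
  simp only [mul_one] at h
  rw [h, zero_mul]

private theorem norm_chi [IsDomain R] {q w n l : ℕ} [NeZero q] [NeZero w] (hN : N = q * (2 * w)) (hq : 1 < q) (b : ZMod w)
    (D : Finset (ZMod q × ZMod w)) (hD : IsDS (ZMod q × ZMod w) D l) (hk : D.card = n + l) :
    (∑ d ∈ D, chi C q w b d) * C.cj (∑ d ∈ D, chi C q w b d) = (n : R) := by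
  have h1 : C.cj (∑ d ∈ D, chi C q w b d) = ∑ d ∈ D, chi C q w b (-d) := by
    have h2 : C.cj (∑ d ∈ D, chi C q w b d) = ∑ d ∈ D, C.cj (chi C q w b d) := by
      unfold Cyc.cj
      rw [map_sum]
    rw [h2]
    exact Finset.sum_congr rfl fun d _ => chi_cj C hN b d
  rw [h1, Finset.sum_mul_sum, ← Finset.sum_product']
  have h3 : ∀ e ∈ D ×ˢ D, chi C q w b e.1 * chi C q w b (-e.2) = chi C q w b (e.1 - e.2) := by
    intro e _
    rw [sub_eq_add_neg, chi_add C hN]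
  rw [Finset.sum_congr rfl h3]
  rw [← Finset.sum_fiberwise (s := D ×ˢ D) (g := fun e : (ZMod q × ZMod w) × (ZMod q × ZMod w) => e.1 - e.2)
    (f := fun e => chi C q w b (e.1 - e.2))]
  have h4 : ∀ g : ZMod q × ZMod w, ∑ e ∈ (D ×ˢ D).filter (fun e => e.1 - e.2 = g), chi C q w b (e.1 - e.2) =
      (l : R) * chi C q w b g + (if g = 0 then (n : R) * chi C q w b g else 0) := by
    intro g
    have h5 : ∑ e ∈ (D ×ˢ D).filter (fun e => e.1 - e.2 = g), chi C q w b (e.1 - e.2) =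
        ∑ e ∈ (D ×ˢ D).filter (fun e => e.1 - e.2 = g), chi C q w b g := by
      refine Finset.sum_congr rfl fun e he => ?_
      rw [(Finset.mem_filter.1 he).2]
    rw [h5, Finset.sum_const, nsmul_eq_mul]
    have h6 := ds_rep hD hk g
    have h7 : ((((D ×ˢ D).filter fun e => e.1 - e.2 = g).card : ℕ) : R) = (l : R) + if g = 0 then (n : R) else 0 := by
      have h8 := congrArg (Int.cast : ℤ → R) h6
      push_cast at h8
      rw [h8]
    rw [h7]
    split_ifs <;> ring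
  rw [Finset.sum_congr rfl fun g _ => h4 g, Finset.sum_add_distrib, ← Finset.mul_sum, chi_sum C hN hq b, mul_zero,
    zero_add, Finset.sum_ite_eq' Finset.univ (0 : ZMod q × ZMod w), if_pos (Finset.mem_univ _)]
  have h9 : chi C q w b (0 : ZMod q × ZMod w) = 1 := by
    unfold chi wq
    simp
  rw [h9, mul_one]

private theorem mul_chi [IsDomain R] {q w : ℕ} [NeZero q] [NeZero w] (hN : N = q * (2 * w)) (t : (ZMod q)ˣ) (T : (ZMod N)ˣ)
    (hT : (T : ZMod N).val ≡ (t : ZMod q).val [MOD q]) (hT1 : (T : ZMod N).val ≡ 1 [MOD 2 * w]) (b : ZMod w)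
    (D : Finset (ZMod q × ZMod w)) :
    C.sg T (∑ d ∈ D, chi C q w b d) * C.cj (∑ d ∈ D, chi C q w b d) =
      ∑ g : ZMod q × ZMod w, (Nt D (t : ZMod q) g : R) * chi C q w b g := by
  have h1 : C.cj (∑ d ∈ D, chi C q w b d) = ∑ d ∈ D, chi C q w b (-d) := by
    have h2 : C.cj (∑ d ∈ D, chi C q w b d) = ∑ d ∈ D, C.cj (chi C q w b d) := by
      unfold Cyc.cj
      rw [map_sum]
    rw [h2]
    exact Finset.sum_congr rfl fun d _ => chi_cj C hN b d
  have h2 : C.sg T (∑ d ∈ D, chi C q w b d) = ∑ d ∈ D, chi C q w b ((t : ZMod q) * d.1, d.2) := by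
    rw [map_sum]
    exact Finset.sum_congr rfl fun d _ => chi_sg C hN t T hT hT1 b d
  rw [h1, h2, Finset.sum_mul_sum, ← Finset.sum_product']
  have h3 : ∀ e ∈ D ×ˢ D, chi C q w b ((t : ZMod q) * e.1.1, e.1.2) * chi C q w b (-e.2) =
      chi C q w b ((t : ZMod q) * e.1.1 - e.2.1, e.1.2 - e.2.2) := by
    intro e _
    rw [← chi_add C hN]
    congr 1
    ext
    · simp [sub_eq_add_neg]
    · simp [sub_eq_add_neg]
  rw [Finset.sum_congr rfl h3]
  rw [← Finset.sum_fiberwise (s := D ×ˢ D)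
    (g := fun e : (ZMod q × ZMod w) × (ZMod q × ZMod w) => ((t : ZMod q) * e.1.1 - e.2.1, e.1.2 - e.2.2))
    (f := fun e => chi C q w b ((t : ZMod q) * e.1.1 - e.2.1, e.1.2 - e.2.2))]
  refine Finset.sum_congr rfl fun g _ => ?_
  have h5 : ∑ e ∈ (D ×ˢ D).filter (fun e => ((t : ZMod q) * e.1.1 - e.2.1, e.1.2 - e.2.2) = g),
      chi C q w b ((t : ZMod q) * e.1.1 - e.2.1, e.1.2 - e.2.2) =
      ∑ e ∈ (D ×ˢ D).filter (fun e => ((t : ZMod q) * e.1.1 - e.2.1, e.1.2 - e.2.2) = g), chi C q w b g := by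
    refine Finset.sum_congr rfl fun e he => ?_
    rw [(Finset.mem_filter.1 he).2]
  rw [h5, Finset.sum_const, nsmul_eq_mul]
  unfold Nt
  push_cast
  rfl

private theorem inv_chi [IsDomain R] {q w : ℕ} [NeZero q] [NeZero w] (hN : N = q * (2 * w))
    (F : ZMod q × ZMod w → ℤ) (h0 : ZMod w) :
    ∑ b : ZMod w, wq C (2 * q) (b * (-h0)) * ∑ g : ZMod q × ZMod w, (F g : R) * chi C q w b g =
      (w : R) * ∑ x : ZMod q, (F (x, h0) : R) * wq C (2 * w) x := by
  have hN' : N = w * (2 * q) := by rw [hN]; ring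
  have h1 : ∀ b : ZMod w, wq C (2 * q) (b * (-h0)) * ∑ g : ZMod q × ZMod w, (F g : R) * chi C q w b g =
      ∑ g : ZMod q × ZMod w, (F g : R) * wq C (2 * w) g.1 * wq C (2 * q) (b * (g.2 - h0)) := by
    intro b
    rw [Finset.mul_sum]
    refine Finset.sum_congr rfl fun g _ => ?_
    have h2 : b * (g.2 - h0) = b * (-h0) + b * g.2 := by ring
    rw [h2, b_add C hN']
    unfold chi
    ring
  rw [Finset.sum_congr rfl fun b _ => h1 b, Finset.sum_comm]
  have h3 : ∀ g : ZMod q × ZMod w, ∑ b : ZMod w, (F g : R) * wq C (2 * w) g.1 * wq C (2 * q) (b * (g.2 - h0)) =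
      if g.2 = h0 then (w : R) * ((F g : R) * wq C (2 * w) g.1) else 0 := by
    intro g
    rw [← Finset.mul_sum, b_sum C hN']
    by_cases hg : g.2 = h0
    · rw [if_pos hg, if_pos (sub_eq_zero.2 hg)]
      ring
    · rw [if_neg hg, if_neg fun h => hg (sub_eq_zero.1 h), mul_zero]
  rw [Finset.sum_congr rfl fun g _ => h3 g, Fintype.sum_prod_type, Finset.mul_sum]
  refine Finset.sum_congr rfl fun x _ => ?_
  simp

theorem nt_div {p s c m q w n l : ℕ} [NeZero q] [NeZero w] (hp : p.Prime) (hp2 : p ≠ 2) (hs : 1 ≤ s) (hq : q = p ^ s)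
    (hw : ¬ p ∣ w) (hn : n = p ^ c * m) (hm : m ≠ 0) (D : Finset (ZMod q × ZMod w)) (hD : IsDS (ZMod q × ZMod w) D l)
    (hk : D.card = n + l) (t : (ZMod q)ˣ) (y : ZMod q × ZMod w) (hy : y ∈ P1 p q (ZMod w)) (g : ZMod q × ZMod w) :
    (p : ℤ) ^ c ∣ Nt D (t : ZMod q) (g + y) - Nt D (t : ZMod q) g := by
  have hw0 : 0 < w := NeZero.pos w
  have hq0 : 0 < q := NeZero.pos q
  haveI : NeZero (q * (2 * w)) := ⟨by positivity⟩
  have hev : Even (q * (2 * w)) := ⟨q * w, by ring⟩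
  obtain ⟨R, _, _, _, _, ⟨C⟩⟩ := cyc_exists (q * (2 * w)) hev
  have hq1 : 1 < q := by
    rw [hq]
    exact Nat.one_lt_pow (by omega) hp.one_lt
  have hcop : q.Coprime (2 * w) := by
    rw [hq]
    refine Nat.Coprime.pow_left s ?_
    refine Nat.Coprime.mul_right ?_ ((Nat.Prime.coprime_iff_not_dvd hp).2 hw)
    exact (Nat.coprime_primes hp Nat.prime_two).2 hp2
  obtain ⟨T, hT, hT1⟩ := unit_lift (N := q * (2 * w)) rfl hcop t
  have hn0 : (n : R) ≠ 0 := by
    have : n ≠ 0 := by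
      rw [hn]
      exact Nat.mul_ne_zero (pow_ne_zero _ hp.ne_zero) hm
    exact_mod_cast this
  have hdiv : ∀ b : ZMod w, ∃ x : R, ∑ g : ZMod q × ZMod w, (Nt D (t : ZMod q) g : R) * chi C q w b g =
      ((p ^ c : ℕ) : R) * x := by
    intro b
    have hX := norm_chi C rfl hq1 b D hD hk
    have hne : ∑ d ∈ D, chi C q w b d ≠ 0 := by
      intro h
      rw [h, zero_mul] at hX
      exact hn0 hX.symm
    have h1 := div_lemma (C.sg T) (∑ d ∈ D, chi C q w b d) (C.cj (∑ d ∈ D, chi C q w b d)) m (p ^ c)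
      (by rw [hX, hn]; push_cast; ring) hne (by
        intro P hP hPm
        have h2 : (p : R) ∈ P := by
          rw [Nat.cast_pow] at hPm
          exact hP.mem_of_pow_mem c hPm
        exact frob C p hp T ⟨s, 2 * w, 0, by rw [hq], by rw [pow_zero]; exact hT1⟩ P hP h2)
    obtain ⟨x, hx⟩ := h1
    exact ⟨x, by rw [← hx, mul_chi C rfl t T hT hT1 b D]⟩
  choose x hx using hdiv
  have hS : ∃ z : R, ∑ i : ZMod q, (Nt D (t : ZMod q) (i, g.2) : R) * wq C (2 * w) i = ((p ^ c : ℕ) : R) * z := by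
    have h1 := inv_chi C rfl (Nt D (t : ZMod q)) g.2
    rw [Finset.sum_congr rfl fun b _ => by rw [hx b]] at h1
    have h2 : ∑ b : ZMod w, wq C (2 * q) (b * (-g.2)) * (((p ^ c : ℕ) : R) * x b) =
        ((p ^ c : ℕ) : R) * ∑ b : ZMod w, wq C (2 * q) (b * (-g.2)) * x b := by
      rw [Finset.mul_sum]
      exact Finset.sum_congr rfl fun b _ => by ring
    rw [h2] at h1
    have hc : w.Coprime (p ^ c) := (Nat.Coprime.pow_right c ((Nat.Prime.coprime_iff_not_dvd hp).2 hw).symm)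
    obtain ⟨u, v, huv⟩ := (Nat.isCoprime_iff_coprime.2 hc)
    refine ⟨(u : R) * (∑ b : ZMod w, wq C (2 * q) (b * (-g.2)) * x b) +
      (v : R) * ∑ i : ZMod q, (Nt D (t : ZMod q) (i, g.2) : R) * wq C (2 * w) i, ?_⟩
    have h3 : (u : R) * (w : R) + (v : R) * ((p ^ c : ℕ) : R) = 1 := by
      have h4 := congrArg (Int.cast : ℤ → R) huv
      push_cast at h4 ⊢
      exact h4
    linear_combination (-(∑ i : ZMod q, (Nt D (t : ZMod q) (i, g.2) : R) * wq C (2 * w) i)) * h3 - (u : R) * h1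
  have hy' := mem_P1.1 hy
  have h := tr_lemma C hp hs hq rfl hcop (fun i => Nt D (t : ZMod q) (i, g.2)) (p ^ c)
    (pow_ne_zero _ hp.ne_zero) hS g.1 y.1 hy'.1
  have hg : g + y = (g.1 + y.1, g.2) := by
    ext
    · rfl
    · simp [hy'.2]
  rw [hg]
  have h5 : ((p ^ c : ℕ) : ℤ) = (p : ℤ) ^ c := by push_cast; rfl
  rw [← h5]
  exact h

end Pool.RY
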