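import Pool.Agent.Lib.MP_f4ebb7_co.RY.GChr
import Pool.Agent.Lib.MP_f4ebb7_co.RY.NTb

/-! RY-GNTb: `p^c` divides `N_t(g + y) - N_t(g)` for `y ∈ P1` (groups `ZMod q × H`). Compare `RY/NTb.lean`. -/

set_option autoImplicit false
set_option linter.unusedSectionVars false

namespace Pool.RY

open Finset CHD

variable {q w : ℕ} [NeZero q] [NeZero w] {H : Type} [AddCommGroup H] [Fintype H] [DecidableEq H] {R : Type} [CommRing R]
  (C : Cyc (2 * q * w) R)

theorem chiH_zero (b : H →+ ZMod w) : chiH C b (0 : ZMod q × H) = 1 := by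
  unfold chiH
  have h2 : wq C (2 * w) (0 : ZMod q × H).1 = 1 := wq_zero C (2 * w)
  rw [h2]
  have h3 : b (0 : ZMod q × H).2 = 0 := map_zero b
  rw [h3]
  unfold wq
  rw [ZMod.val_zero, mul_zero, pow_zero, one_mul]

theorem phiH_norm [IsDomain R] {n l : ℕ} (hq : 1 < q) {D : Finset (ZMod q × H)} (hD : IsDS (ZMod q × H) D l)
    (hk : D.card = n + l) (b : H →+ ZMod w) : PhiH C b (ind D) * C.cj (PhiH C b (ind D)) = (n : R) := by
  rw [phiH_mul_cj]
  unfold PhiH
  have h1 : ∀ g' : ZMod q × H, ((cnt D D g' : ℤ) : R) * chiH C b g' =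
      (l : R) * chiH C b g' + if g' = 0 then (n : R) * chiH C b g' else 0 := by
    intro g'
    have h2 : cnt D D g' = (l : ℤ) + if g' = 0 then (n : ℤ) else 0 := ds_rep hD hk g'
    rw [h2]
    split_ifs
    · push_cast
      ring
    · push_cast
      ring
  rw [Finset.sum_congr rfl fun g' _ => h1 g', Finset.sum_add_distrib, ← Finset.mul_sum, sum_chiH C hq b, mul_zero,
    zero_add, Finset.sum_ite_eq' univ (0 : ZMod q × H), if_pos (mem_univ _), chiH_zero, mul_one]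

theorem nt_divH {p s c m n l : ℕ} (hsep : Sep H w) (hp : p.Prime) (hp2 : p ≠ 2) (hs : 1 ≤ s) (hq : q = p ^ s)
    (hw : ¬ p ∣ w) (hn : n = p ^ c * m) (hm : m ≠ 0) (D : Finset (ZMod q × H)) (hD : IsDS (ZMod q × H) D l)
    (hk : D.card = n + l) (t : (ZMod q)ˣ) (y : ZMod q × H) (hy : y ∈ P1 p q H) (g : ZMod q × H) :
    (p : ℤ) ^ c ∣ Nt D (t : ZMod q) (g + y) - Nt D (t : ZMod q) g := by
  have hq1 : 1 < q := by
    rw [hq]
    exact Nat.one_lt_pow (by omega) hp.one_lt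
  have hqr : q.Coprime (2 * w) := by
    rw [hq]
    apply Nat.Coprime.pow_left
    rw [Nat.Prime.coprime_iff_not_dvd hp, Nat.Prime.dvd_mul hp]
    rintro (h | h)
    · exact hp2 ((Nat.prime_dvd_prime_iff_eq hp Nat.prime_two).1 h)
    · exact hw h
  have hN : 2 * q * w = q * (2 * w) := by ring
  obtain ⟨R, _, _, _, _, ⟨C⟩⟩ := cyc_exists (2 * q * w) ⟨q * w, by ring⟩
  obtain ⟨T, hT, hT1⟩ := unit_lift (N := 2 * q * w) hN hqr t
  have hn0 : (n : R) ≠ 0 := by
    have : n ≠ 0 := by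
      rw [hn]
      exact Nat.mul_ne_zero (pow_ne_zero _ hp.ne_zero) hm
    exact_mod_cast this
  have hdiv : ∀ b : H →+ ZMod w, (1 : R) * PhiH C b (Nt D (t : ZMod q)) ∈ Ideal.span {(p : R) ^ c} := by
    intro b
    have hX := phiH_norm C hq1 hD hk b
    have hne : PhiH C b (ind D) ≠ 0 := by
      intro h
      rw [h, zero_mul] at hX
      exact hn0 hX.symm
    obtain ⟨x, hx⟩ := div_lemma (C.sg T) (PhiH C b (ind D)) (C.cj (PhiH C b (ind D))) m (p ^ c)
      (by rw [hX, hn]; push_cast; ring) hne (by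
        intro P hP hPm
        have h2 : (p : R) ∈ P := by
          rw [Nat.cast_pow] at hPm
          exact hP.mem_of_pow_mem c hPm
        refine frob C p hp T ⟨s, 2 * w, 0, ?_, by rw [pow_zero]; exact hT1⟩ P hP h2
        rw [hN]
        nth_rw 1 [hq])
    rw [one_mul, Ideal.mem_span_singleton, ← phiH_nt C T (t : ZMod q) hT hT1 b D]
    refine ⟨x, ?_⟩
    rw [← Nat.cast_pow]
    exact hx
  have h2 := inv_H C hsep (Ideal.span {(p : R) ^ c}) hp hw (Ideal.mem_span_singleton_self _) (Nt D (t : ZMod q)) 1 hdiv g.2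
  rw [one_mul, Ideal.mem_span_singleton] at h2
  obtain ⟨x, hx⟩ := h2
  have h3 := tr_lemma C hp hs hq hN hqr (fun x => Nt D (t : ZMod q) (x, g.2)) (p ^ c)
    (pow_ne_zero _ hp.ne_zero) ⟨x, by rw [hx, Nat.cast_pow]⟩ g.1 y.1 (mem_P1.1 hy).1
  have h4 : g + y = (g.1 + y.1, g.2) := by
    apply Prod.ext
    · rfl
    · rw [Prod.snd_add, (mem_P1.1 hy).2, add_zero]
  rw [h4]
  have h5 : ((p ^ c : ℕ) : ℤ) = (p : ℤ) ^ c := Nat.cast_pow _ _
  rw [← h5]
  exact h3

end Pool.RY
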