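import Mathlib

/-! RY-GSpl: a finite abelian group with cyclic Sylow `p`-subgroup is `ZMod (p^s) × H` with `p ∤ |H|`. -/

set_option autoImplicit false

namespace Pool.RY

open Finset

/-- the elements killed by `n` -/
def tors (G : Type) [AddCommGroup G] (n : ℕ) : AddSubgroup G := (nsmulAddMonoidHom n).ker

theorem mem_tors {G : Type} [AddCommGroup G] {n : ℕ} {x : G} : x ∈ tors G n ↔ n • x = 0 := Iff.rfl

theorem prim_eq_tors {G : Type} [AddCommGroup G] [Fintype G] {p s w : ℕ} (hp : p.Prime)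
    (hc : Fintype.card G = p ^ s * w) (hw : ¬ p ∣ w) : AddCommGroup.primaryComponent G p = tors G (p ^ s) := by
  ext x
  rw [AddCommGroup.mem_primaryComponent, mem_tors]
  constructor
  · rintro ⟨k, hk⟩
    have h1 : addOrderOf x ∣ p ^ k := addOrderOf_dvd_iff_nsmul_eq_zero.2 hk
    have h2 : addOrderOf x ∣ p ^ s * w := hc ▸ addOrderOf_dvd_card
    have h3 : Nat.Coprime (p ^ k) w := Nat.Coprime.pow_left k ((Nat.Prime.coprime_iff_not_dvd hp).2 hw)
    have h4 : Nat.Coprime (addOrderOf x) w := Nat.Coprime.coprime_dvd_left h1 h3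
    exact addOrderOf_dvd_iff_nsmul_eq_zero.1 (h4.dvd_of_dvd_mul_right h2)
  · intro h
    exact ⟨s, h⟩

/-- the splitting of a group whose order is a product of coprime numbers -/
theorem split_equiv {G : Type} [AddCommGroup G] [Fintype G] {u w : ℕ} (hc : Fintype.card G = u * w)
    (hcop : Nat.Coprime u w) : Nonempty (G ≃+ tors G u × tors G w) := by
  obtain ⟨a, b, hab⟩ := Nat.isCoprime_iff_coprime.2 hcop
  have hk : ∀ x : G, (u * w) • x = 0 := fun x => by rw [← hc]; exact card_nsmul_eq_zero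
  have h1 : ∀ x : G, (b * w : ℤ) • x ∈ tors G u := by
    intro x
    rw [mem_tors, ← natCast_zsmul, smul_smul]
    have e : (u : ℤ) * (b * w) = b * ((u * w : ℕ) : ℤ) := by push_cast; ring
    rw [e, mul_smul, natCast_zsmul, hk, smul_zero]
  have h2 : ∀ x : G, (a * u : ℤ) • x ∈ tors G w := by
    intro x
    rw [mem_tors, ← natCast_zsmul, smul_smul]
    have e : (w : ℤ) * (a * u) = a * ((u * w : ℕ) : ℤ) := by push_cast; ring
    rw [e, mul_smul, natCast_zsmul, hk, smul_zero]
  have h3 : ∀ x : G, (b * w : ℤ) • x + (a * u : ℤ) • x = x := by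
    intro x
    rw [← add_smul, add_comm, hab, one_smul]
  have h4 : ∀ y : G, y ∈ tors G u → (a * u : ℤ) • y = 0 := by
    intro y hy
    rw [mem_tors] at hy
    rw [mul_smul, natCast_zsmul, hy, smul_zero]
  have h5 : ∀ z : G, z ∈ tors G w → (b * w : ℤ) • z = 0 := by
    intro z hz
    rw [mem_tors] at hz
    rw [mul_smul, natCast_zsmul, hz, smul_zero]
  refine ⟨{ toFun := fun x => (⟨_, h1 x⟩, ⟨_, h2 x⟩), invFun := fun y => (y.1 : G) + (y.2 : G),
            left_inv := fun x => h3 x, right_inv := ?_, map_add' := ?_ }⟩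
  · rintro ⟨⟨y, hy⟩, ⟨z, hz⟩⟩
    have e1 := h3 y
    have e2 := h3 z
    rw [h4 y hy, add_zero] at e1
    rw [h5 z hz, zero_add] at e2
    refine Prod.ext (Subtype.ext ?_) (Subtype.ext ?_)
    · show (b * w : ℤ) • (y + z) = y
      rw [smul_add, e1, h5 z hz, add_zero]
    · show (a * u : ℤ) • (y + z) = z
      rw [smul_add, e2, h4 y hy, zero_add]
  · intro x y
    refine Prod.ext (Subtype.ext ?_) (Subtype.ext ?_)
    · show (b * w : ℤ) • (x + y) = (b * w : ℤ) • x + (b * w : ℤ) • y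
      rw [smul_add]
    · show (a * u : ℤ) • (x + y) = (a * u : ℤ) • x + (a * u : ℤ) • y
      rw [smul_add]

theorem tors_coprime {G : Type} [AddCommGroup G] [Fintype G] {u w : ℕ} (hcop : Nat.Coprime u w) :
    Nat.Coprime (Nat.card (tors G u)) w := by
  have : Fintype (tors G u) := Fintype.ofFinite _
  rw [Nat.card_eq_fintype_card]
  refine Nat.coprime_of_dvd fun q hq h1 h2 => ?_
  have i1 : Fact q.Prime := ⟨hq⟩
  obtain ⟨x, hx⟩ := exists_prime_addOrderOf_dvd_card q h1
  have h3 : q ∣ u := by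
    rw [← hx, addOrderOf_dvd_iff_nsmul_eq_zero]
    exact Subtype.ext x.2
  exact hq.one_lt.ne' (Nat.dvd_one.1 (hcop ▸ Nat.dvd_gcd h3 h2))

theorem tors_card {G : Type} [AddCommGroup G] [Fintype G] {u w : ℕ} (hc : Fintype.card G = u * w)
    (hcop : Nat.Coprime u w) : Nat.card (tors G u) = u ∧ Nat.card (tors G w) = w := by
  obtain ⟨e⟩ := split_equiv hc hcop
  have h1 : Nat.card (tors G u) * Nat.card (tors G w) = u * w := by
    rw [← Nat.card_prod, ← Nat.card_congr e.toEquiv, Nat.card_eq_fintype_card, hc]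
  have h2 : Nat.card (tors G u) ∣ u := (tors_coprime hcop).dvd_of_dvd_mul_right (h1 ▸ Dvd.intro _ rfl)
  have h3 : Nat.card (tors G w) ∣ w :=
    (tors_coprime hcop.symm).dvd_of_dvd_mul_left (h1 ▸ Dvd.intro_left _ rfl)
  have hpos : 0 < u * w := by rw [← hc]; exact Fintype.card_pos
  have hu : 0 < u := Nat.pos_of_ne_zero fun h => by rw [h, zero_mul] at hpos; omega
  have hw : 0 < w := Nat.pos_of_ne_zero fun h => by rw [h, mul_zero] at hpos; omega
  have h4 := Nat.le_of_dvd hu h2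
  have h5 := Nat.le_of_dvd hw h3
  have p1 : 0 < Nat.card (tors G u) := Nat.pos_of_dvd_of_pos h2 hu
  have p2 : 0 < Nat.card (tors G w) := Nat.pos_of_dvd_of_pos h3 hw
  constructor
  · by_contra hne
    have h6 : Nat.card (tors G u) < u := lt_of_le_of_ne h4 hne
    have h7 : Nat.card (tors G u) * Nat.card (tors G w) < u * w := Nat.mul_lt_mul_of_lt_of_le h6 h5 hw
    omega
  · by_contra hne
    have h6 : Nat.card (tors G w) < w := lt_of_le_of_ne h5 hne
    have h7 : Nat.card (tors G u) * Nat.card (tors G w) < u * w := Nat.mul_lt_mul_of_le_of_lt h4 h6 hu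
    omega

theorem exists_split {p : ℕ} (hp : p.Prime) {G : Type} [AddCommGroup G] [Fintype G] [DecidableEq G]
    (hcyc : IsAddCyclic (AddCommGroup.primaryComponent G p)) :
    ∃ (s w : ℕ) (H : Type) (_ : AddCommGroup H) (_ : Fintype H) (_ : DecidableEq H),
      Fintype.card G = p ^ s * w ∧ ¬ p ∣ w ∧ Fintype.card H = w ∧ Nonempty (G ≃+ ZMod (p ^ s) × H) := by
  have hG : Fintype.card G ≠ 0 := Fintype.card_ne_zero
  obtain ⟨s, w, hw, hc⟩ := Nat.exists_eq_pow_mul_and_not_dvd hG p hp.ne_one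
  have hcop : Nat.Coprime (p ^ s) w := Nat.Coprime.pow_left s ((Nat.Prime.coprime_iff_not_dvd hp).2 hw)
  obtain ⟨e⟩ := split_equiv hc hcop
  obtain ⟨h1, h2⟩ := tors_card hc hcop
  rw [prim_eq_tors hp hc hw] at hcyc
  have ft : Fintype (tors G w) := Fintype.ofFinite _
  have e2 : ZMod (p ^ s) ≃+ tors G (p ^ s) := by
    have e3 := zmodAddCyclicAddEquiv hcyc
    rwa [h1] at e3
  refine ⟨s, w, tors G w, inferInstance, ft, inferInstance, hc, hw, ?_, ⟨e.trans (e2.symm.prodCongr (AddEquiv.refl _))⟩⟩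
  exact Nat.card_eq_fintype_card.symm.trans h2

end Pool.RY
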