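import Pool.Agent.Lib.MP_f4ebb7_co.RY.GNjd
import Pool.Agent.Lib.MP_f4ebb7_co.RY.GSpl
import Pool.Agent.Lib.MP_f4ebb7_co.RY.FinB
import Pool.Agent.Lib.MP_f4ebb7_co.RY.Fin3

/-! RY-GFin: difference sets of order `n = p^c m` in finite abelian groups with cyclic Sylow `p`-subgroup. Compare `RY/Fin2.lean`,
`RY/OddC.lean`, `RY/Fin3.lean`. -/

set_option autoImplicit false

namespace Pool.RY

open Finset

/-- the order of `p` in `n` is at least two -/
theorem two_le_c {p c m l : ℕ} (hp : p.Prime) (hpm : ¬ p ∣ m) (hc : 1 ≤ c) {G : Type} [AddCommGroup G] [Fintype G]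
    [DecidableEq G] (hpG : p ∣ Fintype.card G) (D : Finset G) (hD : CHD.IsDS G D l) (hk : D.card = p ^ c * m + l) :
    2 ≤ c := by
  have h1 := sq_dvd D l _ hD hk hp hpG ((dvd_pow_self p (by omega)).mul_right m)
  rcases Nat.lt_or_ge c 2 with h | h
  · exfalso
    have hc1 : c = 1 := by omega
    rw [hc1, pow_one, sq] at h1
    exact hpm (Nat.dvd_of_mul_dvd_mul_left hp.pos h1)
  · exact h

theorem main_t1G {p c m l : ℕ} (hp : p.Prime) (hm : 1 ≤ m) (hpm : ¬ p ∣ m) (hc : 1 ≤ c) {G : Type} [AddCommGroup G]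
    [Fintype G] [DecidableEq G] (hcyc : IsAddCyclic (AddCommGroup.primaryComponent G p)) (hpG : p ^ 2 ∣ Fintype.card G)
    (D : Finset G) (hD : CHD.IsDS G D l) (hk : D.card = p ^ c * m + l) : p ≤ 3 * m ^ 2 := by
  by_contra hcon
  have hbig : 3 * m ^ 2 < p := not_le.1 hcon
  have hp2 : p ≠ 2 := by
    have h1 : 1 ≤ m ^ 2 := Nat.one_le_pow _ _ (by omega)
    omega
  obtain ⟨s, w, H, i1, i2, i3, hG, hw, hH, ⟨e⟩⟩ := exists_split hp hcyc
  have hs : 2 ≤ s := by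
    by_contra h
    have h1 : s ≤ 1 := by omega
    have h2 : p ^ 2 ∣ p ^ s * w := hG ▸ hpG
    have h3 : p ^ s * w ∣ p ^ 1 * w := Nat.mul_dvd_mul_right (pow_dvd_pow p h1) w
    have h4 := h2.trans h3
    rw [pow_one, sq] at h4
    exact hw (Nat.dvd_of_mul_dvd_mul_left hp.pos h4)
  have hw0 : w ≠ 0 := by
    rintro rfl
    exact hw (dvd_zero p)
  have j1 : NeZero w := ⟨hw0⟩
  have j2 : NeZero (p ^ s) := ⟨pow_ne_zero _ hp.ne_zero⟩
  have hsep : Sep H w := hH ▸ sep_card H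
  have hc2 : 2 ≤ c := two_le_c hp hpm hc ((dvd_pow_self p two_ne_zero).trans hpG) D hD hk
  have hcardD : (D.map e.toEquiv.toEmbedding).card = p ^ c * m + l := by
    rw [card_map, hk]
  have hD' := ds_map e D l hD
  obtain ⟨J, hJ, hinv⟩ := jm hp hs rfl rfl (by omega : 0 < m) hD' hcardD
    (fun j y hy g => nj_divH hsep hp hp2 hs rfl hw rfl (by omega) hpm hbig hD' hcardD j y hy g)
  exact bigB hp (by omega) rfl hc2 hm hbig rfl hD' hcardD J hJ hinv

theorem main_t2G {p c m l : ℕ} (hp : p.Prime) (hm : 2 ≤ m) (hpm : ¬ p ∣ m) (hc : 3 ≤ c) {G : Type} [AddCommGroup G]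
    [Fintype G] [DecidableEq G] (hcyc : IsAddCyclic (AddCommGroup.primaryComponent G p)) (hpG : p ∣ Fintype.card G)
    (hbig : 32 * m ^ 2 < p) (D : Finset G) (hD : CHD.IsDS G D l) (hk : D.card = p ^ c * m + l) : Even m := by
  have hm1 : 1 ≤ m ^ 2 := Nat.one_le_pow _ _ (by omega)
  have hp2 : p ≠ 2 := by omega
  have hnot : ¬ p ^ 2 ∣ Fintype.card G := by
    intro h
    have := main_t1G hp (by omega) hpm (by omega) hcyc h D hD hk
    omega
  obtain ⟨s, w, H, i1, i2, i3, hG, hw, hH, ⟨e⟩⟩ := exists_split hp hcyc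
  have hs : s = 1 := by
    have h1 : s ≠ 0 := by
      rintro rfl
      rw [pow_zero, one_mul] at hG
      exact hw (hG ▸ hpG)
    by_contra h2
    apply hnot
    rw [hG]
    exact (pow_dvd_pow p (by omega : 2 ≤ s)).mul_right w
  subst hs
  have hw0 : w ≠ 0 := by
    rintro rfl
    exact hw (dvd_zero p)
  have j1 : NeZero w := ⟨hw0⟩
  have j2 : NeZero (p ^ 1) := ⟨pow_ne_zero _ hp.ne_zero⟩
  have hsep : Sep H w := hH ▸ sep_card H
  have hcardD : (D.map e.toEquiv.toEmbedding).card = p ^ c * m + l := by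
    rw [card_map, hk]
  have hD' := ds_map e D l hD
  set D' := D.map e.toEquiv.toEmbedding with hD'def
  have hdiv : ∀ t : (ZMod (p ^ 1))ˣ, ∀ y ∈ P1 p (p ^ 1) H, ∀ g,
      (p : ℤ) ^ c ∣ Nt D' (t : ZMod (p ^ 1)) (g + y) - Nt D' (t : ZMod (p ^ 1)) g := fun t y hy g =>
    nt_divH (s := 1) hsep hp hp2 le_rfl rfl hw rfl (by omega) _ hD' hcardD t y hy g
  have hpc : (0 : ℤ) < (p : ℤ) ^ c := pow_pos (by exact_mod_cast hp.pos) c
  have hq : (p ^ 1).Prime := by rw [pow_one]; exact hp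
  have hK : ∀ i j, KK D' i = KK D' j := by
    intro i j
    have h0 := size hq hD' hcardD i j
    have e0 : ((p ^ 1 : ℕ) : ℝ) = (p : ℝ) := by rw [pow_one]
    rw [e0] at h0
    have h1 := h0.trans_lt (num4 hm hbig hc rfl)
    have h2 : |KK D' i - KK D' j| < (p : ℤ) ^ c := by
      have h3 : |((KK D' i - KK D' j : ℤ) : ℝ)| = ((|KK D' i - KK D' j| : ℤ) : ℝ) := by rw [Int.cast_abs]
      rw [h3] at h1
      exact_mod_cast h1
    have h4 := Int.eq_zero_of_abs_lt_dvd (kcong (pow_one p) hdiv i j) h2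
    omega
  have heven := par hq (by rw [pow_one]; exact hp2) hD' hcardD hK
  rcases Nat.even_mul.1 heven with h | h
  · exfalso
    have h5 : Odd (p ^ c) := (hp.odd_of_ne_two hp2).pow
    exact (Nat.not_even_iff_odd.2 h5) h
  · exact h

theorem main_dG {p c m l : ℕ} (hp : p.Prime) (hm : 2 ≤ m) (hpm : ¬ p ∣ m)
    (hbig : 4 ^ (m ^ 2) < p ∨ (16 * m ^ 4 < p ∧ 2 * l < p ^ c)) (hc : 1 ≤ c) {G : Type} [AddCommGroup G]
    [Fintype G] [DecidableEq G] (hcyc : IsAddCyclic (AddCommGroup.primaryComponent G p)) (hpG : p ∣ Fintype.card G)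
    (D : Finset G) (hD : CHD.IsDS G D l) (hk : D.card = p ^ c * m + l) :
    4 ≤ c ∧ Even c ∧ IsSquare m ∧ Even m ∧ ¬ p ^ 2 ∣ Fintype.card G ∧ (p - 1) ∣ Fintype.card G := by
  have h16 : 16 * m ^ 4 < p := by
    rcases hbig with h | h
    · exact (pow_big hm).trans_lt h
    · exact h.1
  have hp2 : p ≠ 2 := by
    have h3 : 1 ≤ m ^ 4 := Nat.one_le_pow _ _ (by omega)
    omega
  have hsq : IsSquare m := by
    by_contra hns
    have h6 : m ^ 2 ≤ m ^ 4 := Nat.pow_le_pow_right (by omega) (by norm_num)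
    have h7 : m ^ 1 ≤ m ^ 4 := Nat.pow_le_pow_right (by omega) (by norm_num)
    have h8 : 1 ≤ m ^ 4 := Nat.one_le_pow 4 m (by omega)
    rw [pow_one] at h7
    have h5 : m ^ 2 + m + 1 < p := by omega
    exact (main_b hp hpm (Or.inl ⟨h5, hns⟩) D hD hk).1 hpG
  have hnot : ¬ p ^ 2 ∣ Fintype.card G := by
    intro h
    have h1 := main_t1G hp (by omega) hpm hc hcyc h D hD hk
    have h2 : m ^ 2 ≤ m ^ 4 := Nat.pow_le_pow_right (by omega) (by norm_num)
    omega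
  have hc2 : 2 ≤ c := two_le_c hp hpm hc hpG D hD hk
  obtain ⟨s, w, H, i1, i2, i3, hG, hw, hH, ⟨e⟩⟩ := exists_split hp hcyc
  have hs : s = 1 := by
    have h1 : s ≠ 0 := by
      rintro rfl
      rw [pow_zero, one_mul] at hG
      exact hw (hG ▸ hpG)
    by_contra h2
    apply hnot
    rw [hG]
    exact (pow_dvd_pow p (by omega : 2 ≤ s)).mul_right w
  subst hs
  have hw0 : w ≠ 0 := by
    rintro rfl
    exact hw (dvd_zero p)
  have j1 : NeZero w := ⟨hw0⟩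
  have j2 : NeZero (p ^ 1) := ⟨pow_ne_zero _ hp.ne_zero⟩
  have hsep : Sep H w := hH ▸ sep_card H
  have hcardD : (D.map e.toEquiv.toEmbedding).card = p ^ c * m + l := by
    rw [card_map, hk]
  have hD' := ds_map e D l hD
  set D' := D.map e.toEquiv.toEmbedding with hD'def
  have h : Dat p 1 c m (p ^ 1) (p ^ c * m) l D' :=
    { hp := hp
      hs := le_rfl
      hc := hc2
      hm := hm
      hpm := hpm
      h16 := h16
      hH := by rw [hH]; exact hw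
      hq := rfl
      hn := rfl
      ds := hD'
      card := hcardD
      div := fun t y hy g => nt_divH hsep hp hp2 le_rfl rfl hw rfl (by omega) _ hD' hcardD t y hy g }
  have hp4 : 4 < p := by
    have h3 : 1 ≤ m ^ 4 := Nat.one_le_pow _ _ (by omega)
    omega
  have hR : ∀ (t : (ZMod (p ^ 1))ˣ) (E : ZMod (p ^ 1) × H → ℤ), IsE p c m (p ^ 1) D' (t : ZMod (p ^ 1)) E →
      4 ^ ((sp E).image Prod.fst).card < p := by
    intro t E hE
    rcases hbig with hb | hb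
    · exact rect_exp hb hE
    · refine rect_pos hp4 hE.hac fun g => pos_ge h hE (Or.inl ?_) g
      exact_mod_cast hb.2
  have hc3 : 3 ≤ c := by
    by_contra hcon
    have h2 : c = 2 := by omega
    subst h2
    exact endC2 h hsq hR (by
      rcases hbig with hb | hb
      · exact Or.inl hb
      · exact Or.inr hb.2)
  have hpv1 : (p - 1) ∣ Fintype.card G := by
    have h2 := endB h hc3 hR
    rw [hG, ← hH]
    exact h2.mul_left (p ^ 1)
  have h2v : 2 ∣ Fintype.card G := by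
    refine dvd_trans ?_ hpv1
    have h1 : Odd p := hp.odd_of_ne_two hp2
    obtain ⟨r, hr⟩ := h1
    exact ⟨r, by omega⟩
  have hce : Even c := even_exp hp hpm (by omega) (even_sq_group D l _ hD hk h2v)
  refine ⟨?_, hce, hsq, ?_, hnot, hpv1⟩
  · obtain ⟨r, hr⟩ := hce
    omega
  · refine main_t2G hp hm hpm hc3 hcyc hpG ?_ D hD hk
    have h1 : 2 ≤ m ^ 2 := by nlinarith
    have h2 : 16 * (m ^ 2 * 2) ≤ 16 * (m ^ 2 * m ^ 2) := Nat.mul_le_mul_left _ (Nat.mul_le_mul_left _ h1)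
    have h3 : m ^ 2 * m ^ 2 = m ^ 4 := by ring
    rw [h3] at h2
    omega

theorem main_fG {p c m l : ℕ} (hp : p.Prime) (hm : 2 ≤ m) (hpm : ¬ p ∣ m) (hc : 1 ≤ c) {G : Type} [AddCommGroup G]
    [Fintype G] [DecidableEq G] (hcyc : IsAddCyclic (AddCommGroup.primaryComponent G p)) (hpG : p ∣ Fintype.card G)
    (D : Finset G) (hD : CHD.IsDS G D l) (hk : D.card = p ^ c * m + l)
    (hL : 4 ^ (m ^ 2) < p ∨ (16 * m ^ 4 < p ∧ 2 * l < p ^ c) ∨ (32 * m ^ 2 < p ∧ Odd m ∧ 3 ≤ c)) :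
    4 ≤ c ∧ Even c ∧ IsSquare m ∧ Even m ∧ ¬ p ^ 2 ∣ Fintype.card G ∧ (p - 1) ∣ Fintype.card G := by
  rcases hL with h | h | h
  · exact main_dG hp hm hpm (Or.inl h) hc hcyc hpG D hD hk
  · exact main_dG hp hm hpm (Or.inr h) hc hcyc hpG D hD hk
  · exfalso
    exact (Nat.not_even_iff_odd.2 h.2.1) (main_t2G hp hm hpm h.2.2 hcyc hpG h.1 D hD hk)

/-- the condition on `p`, `m` and `G` -/
def LargeG (p c m l : ℕ) (G : Type) [AddCommGroup G] : Prop :=
  (m ^ 2 + m + 1 < p ∧ ¬ IsSquare m) ∨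
    (∀ s : ℕ, 0 < s → s < p → s ^ 2 ≡ m [MOD p] → m * (p - 1) < s * (p - s)) ∨
    (IsAddCyclic (AddCommGroup.primaryComponent G p) ∧
      (4 ^ (m ^ 2) < p ∨ (16 * m ^ 4 < p ∧ 2 * l < p ^ c) ∨ (32 * m ^ 2 < p ∧ Odd m ∧ 3 ≤ c)))

theorem main_gG {p c m l : ℕ} (hp : p.Prime) (hc : 1 ≤ c) (hm : 2 ≤ m) (hpm : ¬ p ∣ m) {G : Type} [AddCommGroup G]
    [Fintype G] [DecidableEq G] (hL : LargeG p c m l G) (D : Finset G) (hD : CHD.IsDS G D l)
    (hk : D.card = p ^ c * m + l) :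
    (p ∣ Fintype.card G →
      4 ≤ c ∧ Even c ∧ IsSquare m ∧ Even m ∧ ¬ p ^ 2 ∣ Fintype.card G ∧ (p - 1) ∣ Fintype.card G) ∧
    (¬ IsSquare m → (∀ q : ℕ, q.Prime → q ^ 2 ∣ m → q = 2 ∨
        ∃ r : ℕ, r.Prime ∧ r ≠ q ∧ Odd ((p ^ c * m).factorization r) ∧ Even (orderOf (r : ZMod q))) →
      Nat.gcd (Fintype.card G) (p ^ c * m) = 1) := by
  have h1 : p ∣ Fintype.card G →
      4 ≤ c ∧ Even c ∧ IsSquare m ∧ Even m ∧ ¬ p ^ 2 ∣ Fintype.card G ∧ (p - 1) ∣ Fintype.card G := by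
    intro hpG
    rcases hL with h | h | ⟨h, h'⟩
    · exact absurd hpG (main_b hp hpm (Or.inl h) D hD hk).1
    · exact absurd hpG (main_b hp hpm (Or.inr h) D hD hk).1
    · exact main_fG hp hm hpm hc h hpG D hD hk h'
  refine ⟨h1, fun hsq hq => ?_⟩
  have hpG : ¬ p ∣ Fintype.card G := fun h => hsq (h1 h).2.2.1
  have hn : p ^ c * m ≠ 0 := mul_ne_zero (pow_ne_zero _ hp.ne_zero) (by omega)
  by_contra hgcd
  obtain ⟨q, hqp, hqd⟩ := Nat.exists_prime_and_dvd hgcd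
  have hq1 : q ∣ Fintype.card G := hqd.trans (Nat.gcd_dvd_left _ _)
  have hq2 : q ∣ p ^ c * m := hqd.trans (Nat.gcd_dvd_right _ _)
  have hne : q ≠ p := fun h => hpG (h ▸ hq1)
  have h2 : q ^ 2 ∣ m :=
    (Nat.Coprime.pow 2 c ((Nat.coprime_primes hqp hp).2 hne)).dvd_of_dvd_mul_left (sq_dvd D l _ hD hk hqp hq1 hq2)
  rcases hq q hqp h2 with h3 | ⟨r, hr, hrq, ho, he⟩
  · subst h3
    exact hsq (sq_part hp hpm (even_sq_group D l _ hD hk hq1))
  · exact (Nat.not_odd_iff_even.2 he) (odd_order D l _ hD hk hn hqp hr hrq hq1 ho)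

end Pool.RY
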