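import Pool.Agent.Lib.MP_f4ebb7_co.RY.Njd
import Pool.Agent.Lib.MP_f4ebb7_co.RY.GDjd

/-! RY-GNjd: `p^c` divides the differences of the counts of `D_j × D` on the cosets of `P1` (groups `ZMod q × H`).
Compare `RY/Njd.lean`. -/

set_option autoImplicit false
set_option linter.unusedSectionVars false

namespace Pool.RY

open Finset CHD

variable {p s c m q w n l : ℕ} [NeZero q] [NeZero w] {H : Type} [AddCommGroup H] [Fintype H] [DecidableEq H]
  {D : Finset (ZMod q × H)}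

theorem nj_divH (hsep : Sep H w) (hp : p.Prime) (hp2 : p ≠ 2) (hs : 2 ≤ s) (hq : q = p ^ s) (hw : ¬ p ∣ w) (hn : n = p ^ c * m) (hm : m ≠ 0)
    (hpm : ¬ p ∣ m) (hbig : 3 * m ^ 2 < p) (hD : IsDS (ZMod q × H) D l) (hk : D.card = n + l) (j : ZMod p)
    (y : ZMod q × H) (hy : y ∈ P1 p q H) (g : ZMod q × H) :
    (p : ℤ) ^ c ∣ cnt (cls D p j) D (g + y) - cnt (cls D p j) D g := by
  classical
  have hqr : q.Coprime (2 * w) := by
    rw [hq]
    apply Nat.Coprime.pow_left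
    rw [Nat.Prime.coprime_iff_not_dvd hp, Nat.Prime.dvd_mul hp]
    rintro (h | h)
    · exact hp2 ((Nat.prime_dvd_prime_iff_eq hp Nat.prime_two).1 h)
    · exact hw h
  have hN : 2 * q * w = q * (2 * w) := by ring
  obtain ⟨R, i1, i2, i3, i4, ⟨C⟩⟩ := cyc_exists (2 * q * w) ⟨q * w, by ring⟩
  have h1 : ∀ b : H →+ ZMod w, (1 : R) * PhiH C b (cnt (cls D p j) D) ∈ Ideal.span {(p : R) ^ c} := by
    intro b
    rw [one_mul, Ideal.mem_span_singleton, ← phiH_mul_cj]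
    exact dj_dvdH C hsep hp hp2 hs hq hw hn hm hpm hbig hD hk b j
  have h2 := inv_H C hsep (Ideal.span {(p : R) ^ c}) hp hw (Ideal.mem_span_singleton_self _) (cnt (cls D p j) D) 1 h1 g.2
  rw [one_mul, Ideal.mem_span_singleton] at h2
  obtain ⟨x, hx⟩ := h2
  have h3 := tr_lemma C hp (by omega : 1 ≤ s) hq hN hqr (fun x => cnt (cls D p j) D (x, g.2)) (p ^ c)
    (pow_ne_zero _ hp.ne_zero) ⟨x, by rw [hx, Nat.cast_pow]⟩ g.1 y.1 (mem_P1.1 hy).1
  have h4 : g + y = (g.1 + y.1, g.2) := by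
    apply Prod.ext
    · rfl
    · rw [Prod.snd_add, (mem_P1.1 hy).2, add_zero]
  rw [h4]
  have h5 : ((p ^ c : ℕ) : ℤ) = (p : ℤ) ^ c := Nat.cast_pow _ _
  rw [← h5]
  exact h3

end Pool.RY
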