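import Pool.Agent.Lib.MP_f4ebb7_co.RY.El

/-! RY-Ind: linear independence of the `ζ_p^i`, `i ≠ 0`. -/

set_option autoImplicit false

namespace Pool.RY

open Finset CHD

variable {p : ℕ} [NeZero p] {R : Type} [CommRing R] (C : Cyc (2 * p) R)

theorem el_eq_zero (hp : p.Prime) (a : ZMod p → ℤ) (h : el C a = 0) (i : ZMod p) : a i = a 0 := by
  classical
  have : Fact p.Prime := ⟨hp⟩
  obtain ⟨ζ, hζ⟩ : ∃ ζ, ζ = C.io (C.z ^ 2) := ⟨_, rfl⟩
  have hprim : IsPrimitiveRoot ζ p := by
    have h1 := (z_prim C).pow (NeZero.pos (2 * p)) (rfl : 2 * p = 2 * p)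
    rw [hζ]
    exact h1.map_of_injective C.io_inj
  obtain ⟨P, hP⟩ : ∃ P : Polynomial ℤ, P = ∑ i : ZMod p, Polynomial.C (a i) * Polynomial.X ^ i.val := ⟨_, rfl⟩
  have hcoeff : ∀ j : ZMod p, P.coeff j.val = a j := by
    intro j
    rw [hP, Polynomial.finsetSum_coeff, Finset.sum_eq_single j]
    · rw [Polynomial.coeff_C_mul, Polynomial.coeff_X_pow, if_pos rfl, mul_one]
    · intro k _ hk
      rw [Polynomial.coeff_C_mul, Polynomial.coeff_X_pow, if_neg, mul_zero]
      intro h2
      exact hk (ZMod.val_injective p h2.symm)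
    · intro h2
      exact absurd (mem_univ j) h2
  have hdeg : P.natDegree ≤ p - 1 := by
    rw [hP]
    refine Polynomial.natDegree_sum_le_of_forall_le _ _ fun j _ => ?_
    refine (Polynomial.natDegree_C_mul_X_pow_le _ _).trans ?_
    have := ZMod.val_lt j
    omega
  have haeval : Polynomial.aeval ζ P = 0 := by
    have h2 := congrArg C.io h
    unfold el wz at h2
    rw [map_sum, map_zero] at h2
    rw [hP, map_sum, ← h2]
    refine sum_congr rfl fun j _ => ?_
    rw [map_mul, map_pow, Polynomial.aeval_X, Polynomial.aeval_C, map_mul, map_intCast, hζ, pow_mul, map_pow,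
      map_pow, map_pow]
    simp
  have hdvd : Polynomial.cyclotomic p ℤ ∣ P := by
    rw [Polynomial.cyclotomic_eq_minpoly hprim hp.pos]
    exact minpoly.isIntegrallyClosed_dvd (hprim.isIntegral hp.pos) haeval
  obtain ⟨Q, hQ⟩ := hdvd
  by_cases hP0 : P = 0
  · rw [← hcoeff i, ← hcoeff 0, hP0, Polynomial.coeff_zero, Polynomial.coeff_zero]
  · have hQ0 : Q ≠ 0 := by
      rintro rfl
      exact hP0 (by rw [hQ, mul_zero])
    have hQd : Q.natDegree = 0 := by
      have h3 := Polynomial.natDegree_mul (Polynomial.cyclotomic_ne_zero p ℤ) hQ0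
      rw [← hQ, Polynomial.natDegree_cyclotomic, Nat.totient_prime hp] at h3
      have := hp.one_lt
      omega
    obtain ⟨k, hk⟩ : ∃ k, Q = Polynomial.C k := ⟨_, Polynomial.eq_C_of_natDegree_eq_zero hQd⟩
    have hall : ∀ j : ZMod p, a j = k := by
      intro j
      rw [← hcoeff j, hQ, hk, Polynomial.coeff_mul_C, Polynomial.cyclotomic_prime, Polynomial.finsetSum_coeff,
        Finset.sum_eq_single j.val]
      · rw [Polynomial.coeff_X_pow, if_pos rfl, one_mul]
      · intro b _ hb
        rw [Polynomial.coeff_X_pow, if_neg (Ne.symm hb)]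
      · intro h2
        exact absurd (mem_range.2 (ZMod.val_lt j)) h2
    rw [hall, hall]

end Pool.RY
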