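import Pool.Agent.Lib.MP_f4ebb7_co.RY.Cnt
import Pool.Agent.Lib.MP_f4ebb7_co.RY.Unq

/-! RY-Lift: the lifting lemma (majority value on every coset of `P`).

PROOF. Let `N = Nat.card P`.  (1) For `y ∈ P`, `y ≠ 0`: `∑_g (f g - f (g + y))^2 = 2 Q^2 μ` (`ac_diff`, `hac`), and every term is `0` or `≥ Q^2`
(`hdiv`), so `#{g : f g ≠ f (g + y)} ≤ 2 μ`.
(2) For `g : G` let `b(g) = #{y ∈ P : f (g + y) ≠ f g}`. Then `∑_g b(g) = ∑_{y ∈ P} #{g : f (g+y) ≠ f g} ≤ 2 μ (N - 1)` (`y = 0` gives `0`).
(3) For every coset of `P` choose a representative with minimal `b`: a function `r : G → G` with `r g - g ∈ P`, `r (g + y) = r g` for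
`y ∈ P`, `b (r g) ≤ b(g + y)` for all `y ∈ P` (e.g. `r g = ρ (QuotientAddGroup.mk g)` with `ρ` chosen by `Finset.exists_min_image` for every element
of `G ⧸ P`). `M g := f (r g)`, `E g := (f g - M g) / Q` (exact division by `hdiv`). `Inv P M`, `f - Q E = M`.
(4) `S = sp E = {g : f g ≠ M g}`. For a coset `C`: `#(S ∩ C) = b(r)` (`r` the representative), so `N * #(S ∩ C) ≤ ∑_{g ∈ C} b(g)` and
`N * #S = ∑_{g} b (r g) ≤ ∑_g b(g) ≤ 2 μ (N - 1)` (in the form `∑_g b(r g) = N #S`: for every `g`, `b (r g) = #{y ∈ P : g + y ∈ S}`, sum over `g`,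
swap). So `#S < 2 μ` if `μ ≥ 1`, and `S = ∅` if `μ = 0` (then everything is trivial: `E = 0`).
(5) `B u := ac E u - (if u = 0 then μ else 0)`. For `y ∈ P`: `2 B u = B (u + y) + B (u - y)`: the autocorrelation at `u` of `g ↦ f g - f (g + y) = Q (E g - E (g + y))`
is `2 ac f u - ac f (u + y) - ac f (u - y) = Q^2 μ (2 [u=0] - [u+y=0] - [u-y=0])` and also `Q^2 (2 ac E u - ac E (u+y) - ac E (u-y))`; divide by `Q^2`.
Sum over `y ∈ P`: `2 N B u = 2 ∑_{y ∈ P} B (u + y)`; the right side does not change under `u → u + y'`, so `Inv P B`.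
(6) `B u ≠ 0` implies `u = 0` or `u = g' - g` with `g, g' ∈ S`; so `#(sp B) ≤ #S ^ 2 + 1 ≤ (2μ - 1)^2 + 1 ≤ 4 μ^2 < N`: `B = 0` by `inv_zero`.
-/

set_option autoImplicit false

namespace Pool.RY

open Finset

private theorem ac_h {G : Type} [AddCommGroup G] [Fintype G] (F : G → ℤ) (u y : G) :
    ∑ g, (F g - F (g + y)) * (F (g + u) - F (g + u + y)) = 2 * ac F u - ac F (u + y) - ac F (u - y) := by
  have e1 : ∑ g, F (g + y) * F (g + u) = ac F (u - y) := by
    unfold ac
    rw [← Equiv.sum_comp (Equiv.addRight y) (fun g => F g * F (g + (u - y)))]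
    refine sum_congr rfl fun g _ => ?_
    simp only [Equiv.coe_addRight]
    congr 2
    abel
  have e2 : ∑ g, F (g + y) * F (g + u + y) = ac F u := by
    unfold ac
    rw [← Equiv.sum_comp (Equiv.addRight y) (fun g => F g * F (g + u))]
    refine sum_congr rfl fun g _ => ?_
    simp only [Equiv.coe_addRight]
    congr 2
    abel
  have e3 : ∑ g, F g * F (g + u + y) = ac F (u + y) := by
    unfold ac
    refine sum_congr rfl fun g _ => ?_
    congr 2
    abel
  have e4 : ∑ g, F g * F (g + u) = ac F u := rfl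
  have : ∑ g, (F g - F (g + y)) * (F (g + u) - F (g + u + y)) =
      (∑ g, F g * F (g + u)) - (∑ g, F g * F (g + u + y)) - (∑ g, F (g + y) * F (g + u))
        + ∑ g, F (g + y) * F (g + u + y) := by
    rw [← sum_sub_distrib, ← sum_sub_distrib, ← sum_add_distrib]
    refine sum_congr rfl fun g _ => ?_
    ring
  rw [this, e1, e2, e3, e4]
  ring

private theorem step1 {G : Type} [AddCommGroup G] [Fintype G] [DecidableEq G] (P : AddSubgroup G) (f : G → ℤ) (Q μ : ℕ) (α : ℤ)
    (hQ : 0 < Q) (hdiv : ∀ y ∈ P, ∀ g, (Q : ℤ) ∣ f (g + y) - f g)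
    (hac : ∀ u, ac f u = α + if u = 0 then (Q : ℤ) ^ 2 * μ else 0) (y : G) (hy0 : y ≠ 0) (hyP : y ∈ P) :
    (univ.filter fun g => f (g + y) ≠ f g).card ≤ 2 * μ := by
  have hQ' : (0 : ℤ) < Q := by exact_mod_cast hQ
  have hs : ∑ g, (f g - f (g + y)) ^ 2 = 2 * (Q : ℤ) ^ 2 * μ := by
    rw [ac_diff, hac, hac, if_pos rfl, if_neg hy0]
    ring
  have hle : ((univ.filter fun g => f (g + y) ≠ f g).card : ℤ) * (Q : ℤ) ^ 2 ≤ ∑ g, (f g - f (g + y)) ^ 2 := by
    calc ((univ.filter fun g => f (g + y) ≠ f g).card : ℤ) * (Q : ℤ) ^ 2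
        = ∑ g ∈ univ.filter fun g => f (g + y) ≠ f g, (Q : ℤ) ^ 2 := by simp
      _ ≤ ∑ g ∈ univ.filter fun g => f (g + y) ≠ f g, (f g - f (g + y)) ^ 2 := by
          apply sum_le_sum
          intro g hg
          rw [mem_filter] at hg
          obtain ⟨c, hc⟩ := hdiv y hyP g
          have hcne : c ≠ 0 := by
            rintro rfl
            apply hg.2
            linarith
          have h2 : f g - f (g + y) = -(Q * c) := by linarith
          have h3 : 1 ≤ c ^ 2 := by
            have := sq_nonneg c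
            have h4 : c ^ 2 ≠ 0 := pow_ne_zero 2 hcne
            omega
          rw [h2]
          nlinarith [sq_nonneg (Q : ℤ)]
      _ ≤ _ := sum_le_sum_of_subset_of_nonneg (filter_subset _ _) (fun _ _ _ => sq_nonneg _)
  rw [hs] at hle
  have hQ2 : (0 : ℤ) < (Q : ℤ) ^ 2 := by positivity
  have : ((univ.filter fun g => f (g + y) ≠ f g).card : ℤ) ≤ 2 * μ := by
    by_contra hcon
    push Not at hcon
    nlinarith
  exact_mod_cast this

theorem lift {G : Type} [AddCommGroup G] [Fintype G] [DecidableEq G] (P : AddSubgroup G) (f : G → ℤ) (Q μ : ℕ) (α : ℤ)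
    (hQ : 0 < Q) (hdiv : ∀ y ∈ P, ∀ g, (Q : ℤ) ∣ f (g + y) - f g)
    (hac : ∀ u, ac f u = α + if u = 0 then (Q : ℤ) ^ 2 * μ else 0) (hP : 4 * μ ^ 2 < Nat.card P) :
    ∃ E : G → ℤ, Inv P (fun g => f g - Q * E g) ∧ ∀ u, ac E u = if u = 0 then (μ : ℤ) else 0 := by
  classical
  have hQ' : (0 : ℤ) < Q := by exact_mod_cast hQ
  have hQne : (Q : ℤ) ≠ 0 := hQ'.ne'
  have hN : Nat.card P = Fintype.card P := Nat.card_eq_fintype_card
  set N := Nat.card P with hNdef
  have hNpos : 0 < N := by omega
  -- the bad count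
  let b : G → ℕ := fun g => (univ.filter fun y : P => f (g + y) ≠ f g).card
  have hmin : ∀ q : G ⧸ P, ∃ g : G, (QuotientAddGroup.mk g : G ⧸ P) = q ∧
      ∀ g', (QuotientAddGroup.mk g' : G ⧸ P) = q → b g ≤ b g' := by
    intro q
    have hne : (univ.filter fun g : G => (QuotientAddGroup.mk g : G ⧸ P) = q).Nonempty := by
      obtain ⟨g, hg⟩ := QuotientAddGroup.mk_surjective q
      exact ⟨g, by simp [hg]⟩
    obtain ⟨g, hg, hm⟩ := exists_min_image _ b hne
    refine ⟨g, (mem_filter.1 hg).2, fun g' hg' => hm g' ?_⟩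
    simp [hg']
  choose ρ hρ1 hρ2 using hmin
  let r : G → G := fun g => ρ (QuotientAddGroup.mk g)
  have hrP : ∀ g, r g - g ∈ P := by
    intro g
    have h := hρ1 (QuotientAddGroup.mk g : G ⧸ P)
    have h2 := QuotientAddGroup.eq.1 h.symm
    have h3 : -g + ρ (QuotientAddGroup.mk g) = r g - g := by
      show -g + ρ (QuotientAddGroup.mk g) = ρ (QuotientAddGroup.mk g) - g
      abel
    rw [← h3]
    exact h2
  have hrinv : ∀ y ∈ P, ∀ g, r (g + y) = r g := by
    intro y hy g
    show ρ (QuotientAddGroup.mk (g + y)) = ρ (QuotientAddGroup.mk g)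
    congr 1
    rw [QuotientAddGroup.eq]
    have : -(g + y) + g = -y := by abel
    rw [this]
    exact P.neg_mem hy
  have hrb : ∀ g, b (r g) ≤ b g := fun g => hρ2 _ g rfl
  have hdr : ∀ g, (Q : ℤ) ∣ f g - f (r g) := by
    intro g
    have h := hdiv (r g - g) (hrP g) g
    rw [add_sub_cancel] at h
    have h2 : f g - f (r g) = -(f (r g) - f g) := by ring
    rw [h2]
    exact (dvd_neg).2 h
  let E : G → ℤ := fun g => (f g - f (r g)) / Q
  have hE : ∀ g, (Q : ℤ) * E g = f g - f (r g) := fun g => Int.mul_ediv_cancel' (hdr g)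
  have hInv : Inv P (fun g => f g - Q * E g) := by
    intro y hy g
    show f (g + y) - Q * E (g + y) = f g - Q * E g
    rw [hE, hE, hrinv y hy g]
    ring
  refine ⟨E, hInv, ?_⟩
  -- support
  have hEne : ∀ g, E g ≠ 0 ↔ f g ≠ f (r g) := by
    intro g
    constructor
    · intro h1 h2
      apply h1
      have := hE g
      rw [h2, sub_self] at this
      rcases mul_eq_zero.1 this with h | h
      · exact absurd h hQne
      · exact h
    · intro h1 h2
      apply h1
      have := hE g
      rw [h2, mul_zero] at this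
      linarith
  have hcount1 : ∑ g, b (r g) = N * (sp E).card := by
    have e1 : ∀ g, b (r g) = ∑ y : P, if g + (y : G) ∈ sp E then 1 else 0 := by
      intro g
      show (univ.filter fun y : P => f (r g + y) ≠ f (r g)).card = _
      rw [card_filter]
      rw [← Equiv.sum_comp (Equiv.addRight (⟨g - r g, by
        have h := P.neg_mem (hrP g)
        rwa [neg_sub] at h⟩ : P)) (fun y : P => if f (r g + (y : G)) ≠ f (r g) then 1 else 0)]
      refine sum_congr rfl fun y _ => ?_
      have h1 : r g + (((Equiv.addRight (⟨g - r g, by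
        have h := P.neg_mem (hrP g)
        rwa [neg_sub] at h⟩ : P)) y : P) : G) = g + y := by
        simp only [Equiv.coe_addRight, AddSubgroup.coe_add]
        abel
      rw [h1]
      have h2 : g + (y : G) ∈ sp E ↔ f (g + y) ≠ f (r g) := by
        unfold sp
        rw [mem_filter, hEne, hrinv y y.2 g]
        simp
      by_cases h3 : f (g + y) ≠ f (r g)
      · rw [if_pos h3, if_pos (h2.2 h3)]
      · rw [if_neg h3, if_neg (fun h => h3 (h2.1 h))]
    simp_rw [e1]
    rw [sum_comm]
    have e2 : ∀ y : P, (∑ g : G, if g + (y : G) ∈ sp E then 1 else 0) = (sp E).card := by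
      intro y
      rw [← card_filter]
      refine card_nbij' (fun g => g + (y : G)) (fun g => g - (y : G)) ?_ ?_ ?_ ?_
      · intro g hg
        simpa using hg
      · intro g hg
        simpa using hg
      · intro g _
        simp
      · intro g _
        simp
    simp_rw [e2]
    rw [sum_const, card_univ, smul_eq_mul, ← hN]
  have hcount2 : ∑ g, b g ≤ 2 * μ * (N - 1) := by
    have e1 : ∀ g, b g = ∑ y : P, if f (g + (y : G)) ≠ f g then 1 else 0 := by
      intro g
      exact card_filter _ _
    simp_rw [e1]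
    rw [sum_comm]
    rw [← add_sum_erase univ _ (mem_univ (0 : P))]
    have e2 : (∑ g : G, if f (g + ((0 : P) : G)) ≠ f g then 1 else 0) = 0 := by
      apply sum_eq_zero
      intro g _
      simp
    rw [e2, zero_add]
    calc (∑ y ∈ univ.erase (0 : P), ∑ g : G, if f (g + (y : G)) ≠ f g then 1 else 0)
        ≤ ∑ y ∈ univ.erase (0 : P), 2 * μ := by
          apply sum_le_sum
          intro y hy
          rw [← card_filter]
          apply step1 P f Q μ α hQ hdiv hac (y : G) ?_ y.2
          intro h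
          exact (mem_erase.1 hy).1 (Subtype.ext h)
      _ = 2 * μ * (N - 1) := by
          rw [sum_const, card_erase_of_mem (mem_univ _), card_univ, smul_eq_mul, ← hN, mul_comm]
  have hcount : N * (sp E).card ≤ 2 * μ * (N - 1) := by
    rw [← hcount1]
    exact (sum_le_sum fun g _ => hrb g).trans hcount2
  rcases Nat.eq_zero_or_pos μ with hμ | hμ
  · -- trivial case
    have hS : (sp E).card = 0 := by
      rw [hμ] at hcount
      simp only [mul_zero, zero_mul, Nat.le_zero, mul_eq_zero] at hcount
      rcases hcount with h | h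
      · omega
      · exact h
    have hE0 : ∀ g, E g = 0 := by
      intro g
      by_contra h
      have : g ∈ sp E := by
        unfold sp
        exact mem_filter.2 ⟨mem_univ _, h⟩
      rw [card_eq_zero.1 hS] at this
      exact absurd this (notMem_empty g)
    intro u
    unfold ac
    simp [hE0, hμ]
  · have hS : (sp E).card ≤ 2 * μ - 1 := by
      by_contra hcon
      have h1 : 2 * μ ≤ (sp E).card := by omega
      have h2 : N * (2 * μ) ≤ N * (sp E).card := Nat.mul_le_mul_left N h1
      have h3 : 2 * μ * (N - 1) < 2 * μ * N := by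
        apply Nat.mul_lt_mul_of_pos_left _ (by omega)
        omega
      have h4 : N * (2 * μ) = 2 * μ * N := mul_comm _ _
      omega
    let B : G → ℤ := fun u => ac E u - (if u = 0 then (μ : ℤ) else 0)
    have hB2 : ∀ y ∈ P, ∀ u, 2 * B u = B (u + y) + B (u - y) := by
      intro y hy u
      have hfE : ∀ g, f g - f (g + y) = Q * (E g - E (g + y)) := by
        intro g
        have := hInv y hy g
        simp only at this
        linarith
      have h1 := ac_h f u y
      have h2 := ac_h E u y
      have h3 : ∑ g, (f g - f (g + y)) * (f (g + u) - f (g + u + y)) =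
          (Q : ℤ) ^ 2 * ∑ g, (E g - E (g + y)) * (E (g + u) - E (g + u + y)) := by
        rw [mul_sum]
        refine sum_congr rfl fun g _ => ?_
        rw [hfE g, hfE (g + u)]
        ring
      rw [h1, h2, hac, hac, hac] at h3
      have h4 : (Q : ℤ) ^ 2 * (2 * B u - B (u + y) - B (u - y)) = 0 := by
        show (Q : ℤ) ^ 2 * (2 * (ac E u - (if u = 0 then (μ : ℤ) else 0)) - (ac E (u + y) - (if u + y = 0 then (μ : ℤ) else 0))
          - (ac E (u - y) - (if u - y = 0 then (μ : ℤ) else 0))) = 0
        have i1 : (if u = 0 then (Q : ℤ) ^ 2 * μ else 0) = (Q : ℤ) ^ 2 * (if u = 0 then (μ : ℤ) else 0) := by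
          split_ifs <;> simp
        have i2 : (if u + y = 0 then (Q : ℤ) ^ 2 * μ else 0) = (Q : ℤ) ^ 2 * (if u + y = 0 then (μ : ℤ) else 0) := by
          split_ifs <;> simp
        have i3 : (if u - y = 0 then (Q : ℤ) ^ 2 * μ else 0) = (Q : ℤ) ^ 2 * (if u - y = 0 then (μ : ℤ) else 0) := by
          split_ifs <;> simp
        rw [i1, i2, i3] at h3
        linear_combination -h3
      rcases mul_eq_zero.1 h4 with h | h
      · exact absurd (pow_eq_zero_iff (two_ne_zero)|>.1 h) hQne
      · linarith
    have hsum : ∀ u, (N : ℤ) * B u = ∑ y : P, B (u + y) := by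
      intro u
      have e1 : ∑ y : P, (2 * B u) = ∑ y : P, (B (u + y) + B (u - y)) :=
        sum_congr rfl fun y _ => hB2 y y.2 u
      rw [sum_add_distrib] at e1
      have e2 : ∑ y : P, B (u - y) = ∑ y : P, B (u + y) := by
        rw [← Equiv.sum_comp (Equiv.neg P) (fun y : P => B (u + (y : G)))]
        refine sum_congr rfl fun y _ => ?_
        simp [sub_eq_add_neg]
      rw [e2, sum_const, card_univ, nsmul_eq_mul, ← hN] at e1
      linarith
    have hBinv : Inv P B := by
      intro y' hy' u
      have h1 := hsum (u + y')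
      have h2 := hsum u
      have e2 : ∑ y : P, B (u + y' + y) = ∑ y : P, B (u + y) := by
        rw [← Equiv.sum_comp (Equiv.addLeft (⟨y', hy'⟩ : P)) (fun y : P => B (u + (y : G)))]
        refine sum_congr rfl fun y _ => ?_
        simp [add_assoc]
      rw [e2, ← h2] at h1
      have hN0 : (N : ℤ) ≠ 0 := by
        have : (0 : ℤ) < N := by exact_mod_cast hNpos
        exact this.ne'
      exact mul_left_cancel₀ hN0 h1
    have hBsp : (sp B).card < Nat.card P := by
      have hsub : sp B ⊆ insert 0 ((sp E ×ˢ sp E).image fun e => e.2 - e.1) := by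
        intro u hu
        unfold sp at hu
        rw [mem_filter] at hu
        rw [mem_insert]
        by_cases hu0 : u = 0
        · exact Or.inl hu0
        · right
          have h1 : ac E u ≠ 0 := by
            have h2 := hu.2
            show ac E u ≠ 0
            have h3 : B u = ac E u := by
              show ac E u - (if u = 0 then (μ : ℤ) else 0) = ac E u
              rw [if_neg hu0, sub_zero]
            rwa [h3] at h2
          unfold ac at h1
          obtain ⟨g, _, hg⟩ := exists_ne_zero_of_sum_ne_zero h1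
          rw [mem_image]
          refine ⟨(g, g + u), ?_, by simp⟩
          rw [mem_product]
          constructor
          · exact mem_filter.2 ⟨mem_univ _, left_ne_zero_of_mul hg⟩
          · exact mem_filter.2 ⟨mem_univ _, right_ne_zero_of_mul hg⟩
      have h1 : (sp B).card ≤ (sp E).card * (sp E).card + 1 := by
        refine (card_le_card hsub).trans ((card_insert_le _ _).trans ?_)
        have := (card_image_le (s := sp E ×ˢ sp E) (f := fun e => e.2 - e.1))
        rw [card_product] at this
        omega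
      have h2 : (sp E).card * (sp E).card ≤ (2 * μ - 1) * (2 * μ - 1) := Nat.mul_le_mul hS hS
      obtain ⟨m, rfl⟩ : ∃ m, μ = m + 1 := ⟨μ - 1, by omega⟩
      have h3 : (2 * (m + 1) - 1) * (2 * (m + 1) - 1) = 4 * m ^ 2 + 4 * m + 1 := by
        have : 2 * (m + 1) - 1 = 2 * m + 1 := by omega
        rw [this]
        ring
      have h4 : 4 * (m + 1) ^ 2 = 4 * m ^ 2 + 8 * m + 4 := by ring
      omega
    intro u
    have h := inv_zero P B hBinv hBsp u
    have h2 : ac E u - (if u = 0 then (μ : ℤ) else 0) = 0 := h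
    linarith

end Pool.RY
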