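import Pool.Agent.Lib.MP_f4ebb7_co.RY.Defs2

/-! RY-Mono: a function with autocorrelation `μ δ₀` whose support is rectified is supported at one point.

PROOF. Let `S` be the support of `F`. `u = 0` gives `∑ |F x|^2 = μ > 0`, so `S` is not empty. `v x := ((r : ZMod q) * x).valMinAbs`, injective (`r` a unit, `ZMod.injective_valMinAbs` / `ZMod.coe_valMinAbs`).
Choose `x1 ∈ S` with maximal and `x2 ∈ S` with minimal `v` (`Finset.exists_max_image`). Suppose `x1 ≠ x2`. Take `u = x1 - x2 ≠ 0`. If `F x ≠ 0` and `F (x + u) ≠ 0` then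
`r (x + u) = r x + r x1 - r x2`, so `v(x+u) - v x - v x1 + v x2` is divisible by `q` and has absolute value `< q` (four terms, each `|.| < q/4`): `v (x + u) = v x + v x1 - v x2`. Since
`v (x+u) ≤ v x1`: `v x ≤ v x2`, so `v x = v x2`, `x = x2`. So the sum at `u` is the single term `F x2 * conj (F x1) ≠ 0`, but it is `0` by `hac u`: contradiction. So `S = {x1}`, and
`|F x1|^2 = μ` from `u = 0`.
-/

set_option autoImplicit false

namespace Pool.RY

open Finset

theorem mono {q : ℕ} [NeZero q] (F : ZMod q → ℂ) (μ : ℝ) (hμ : 0 < μ)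
    (hac : ∀ u : ZMod q, ∑ x : ZMod q, F x * (starRingEnd ℂ) (F (x + u)) = if u = 0 then (μ : ℂ) else 0)
    (r : (ZMod q)ˣ) (hr : ∀ x, F x ≠ 0 → 4 * |((r : ZMod q) * x).valMinAbs| < (q : ℤ)) :
    ∃ x₀ : ZMod q, (∀ x, x ≠ x₀ → F x = 0) ∧ ‖F x₀‖ ^ 2 = μ := by
  classical
  set v : ZMod q → ℤ := fun x => ((r : ZMod q) * x).valMinAbs with hv
  have hcast : ∀ x : ZMod q, ((v x : ℤ) : ZMod q) = (r : ZMod q) * x := by
    intro x
    exact ZMod.coe_valMinAbs _
  have hvinj : ∀ x y : ZMod q, v x = v y → x = y := by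
    intro x y h
    have h1 : (r : ZMod q) * x = (r : ZMod q) * y := by
      rw [← hcast x, ← hcast y, h]
    exact (Units.mul_right_inj r).mp h1
  -- nonempty support
  have h0 := hac 0
  simp only [add_zero, if_true] at h0
  have hne : ((univ : Finset (ZMod q)).filter (fun x => F x ≠ 0)).Nonempty := by
    by_contra hcon
    rw [Finset.not_nonempty_iff_eq_empty, Finset.filter_eq_empty_iff] at hcon
    have hz : ∑ x : ZMod q, F x * (starRingEnd ℂ) (F x) = 0 := by
      apply Finset.sum_eq_zero
      intro x hx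
      have := hcon hx
      push Not at this
      rw [this, zero_mul]
    rw [hz] at h0
    have : μ = 0 := by exact_mod_cast h0.symm
    exact hμ.ne' this
  obtain ⟨x1, hx1, hmax⟩ := Finset.exists_max_image _ v hne
  obtain ⟨x2, hx2, hmin⟩ := Finset.exists_min_image _ v hne
  rw [Finset.mem_filter] at hx1 hx2
  have hq : (0 : ℤ) < q := by exact_mod_cast Nat.pos_of_ne_zero (NeZero.ne q)
  have key : x1 = x2 := by
    by_contra h12
    have hu : x1 - x2 ≠ 0 := sub_ne_zero.mpr h12
    have hsum := hac (x1 - x2)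
    rw [if_neg hu] at hsum
    have hsingle : ∑ x : ZMod q, F x * (starRingEnd ℂ) (F (x + (x1 - x2)))
        = F x2 * (starRingEnd ℂ) (F x1) := by
      rw [Finset.sum_eq_single x2]
      · congr 3
        ring
      · intro x _ hx
        by_contra hprod
        have hFx : F x ≠ 0 := fun h => hprod (by rw [h, zero_mul])
        have hFxu : F (x + (x1 - x2)) ≠ 0 := fun h => hprod (by rw [h, map_zero, mul_zero])
        have b0 := hr x hFx
        have b1 := hr _ hFxu
        have b2 := hr x1 hx1.2
        have b3 := hr x2 hx2.2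
        change 4 * |v x| < (q : ℤ) at b0
        change 4 * |v (x + (x1 - x2))| < (q : ℤ) at b1
        change 4 * |v x1| < (q : ℤ) at b2
        change 4 * |v x2| < (q : ℤ) at b3
        have hz : (((v (x + (x1 - x2)) - v x - v x1 + v x2 : ℤ)) : ZMod q) = 0 := by
          push_cast
          rw [hcast, hcast, hcast, hcast]
          ring
        rw [ZMod.intCast_zmod_eq_zero_iff_dvd] at hz
        have habs : |v (x + (x1 - x2)) - v x - v x1 + v x2| < (q : ℤ) := by
          have a0 := abs_le.mp (le_refl |v x|)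
          have a1 := abs_le.mp (le_refl |v (x + (x1 - x2))|)
          have a2 := abs_le.mp (le_refl |v x1|)
          have a3 := abs_le.mp (le_refl |v x2|)
          rw [abs_lt]
          constructor <;> linarith [a0.1, a0.2, a1.1, a1.2, a2.1, a2.2, a3.1, a3.2]
        have heq : v (x + (x1 - x2)) - v x - v x1 + v x2 = 0 :=
          Int.eq_zero_of_abs_lt_dvd hz habs
        have m1 := hmax (x + (x1 - x2)) (Finset.mem_filter.mpr ⟨mem_univ _, hFxu⟩)
        have m2 := hmin x (Finset.mem_filter.mpr ⟨mem_univ _, hFx⟩)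
        have : v x = v x2 := by linarith
        exact hx (hvinj _ _ this)
      · intro h
        exact absurd (mem_univ _) h
    rw [hsingle] at hsum
    have h1 : F x2 ≠ 0 := hx2.2
    have h2 : (starRingEnd ℂ) (F x1) ≠ 0 := by
      rw [Ne, map_eq_zero]
      exact hx1.2
    exact (mul_ne_zero h1 h2) hsum
  have hoff : ∀ x, x ≠ x1 → F x = 0 := by
    intro x hx
    by_contra hFx
    have m1 := hmax x (Finset.mem_filter.mpr ⟨mem_univ _, hFx⟩)
    have m2 := hmin x (Finset.mem_filter.mpr ⟨mem_univ _, hFx⟩)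
    rw [← key] at m2
    exact hx (hvinj _ _ (le_antisymm m1 m2))
  refine ⟨x1, hoff, ?_⟩
  have hs : ∑ x : ZMod q, F x * (starRingEnd ℂ) (F x) = F x1 * (starRingEnd ℂ) (F x1) := by
    rw [Finset.sum_eq_single x1]
    · intro x _ hx
      rw [hoff x hx, zero_mul]
    · intro h
      exact absurd (mem_univ _) h
  rw [hs, Complex.mul_conj] at h0
  have h3 : Complex.normSq (F x1) = μ := by exact_mod_cast h0
  rw [← h3, Complex.normSq_eq_norm_sq]

end Pool.RY
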