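import Pool.Agent.Lib.MP_f4ebb7_co.CHD.Basic
import Pool.Agent.Lib.MP_f4ebb7_co.RY.Defs2

/-! RY-NTa: divisibility of the coefficients of `∑ c_i ζ_q^i` in `ℤ[ζ_N]`, `N = q r`, `q = p^s`, `gcd(q, r) = 1`.

PROOF. `int_dvd`: write `a = b k + r0`, `0 ≤ r0 < |b|`; then `(r0 : R) = b * y` with `y = x - k`. If `r0 ≠ 0` then `y ≠ 0` and for every `t`, `sg t` fixes integers, so
`b * sg t y = r0`, `‖io (sg t y)‖ = r0 / |b| < 1`; the product over `t` is `< 1` (or `≤` a power of a number `< 1`, at least the factor for `t = 1`), against `C.one_le y`.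
`unit_lift`: Chinese remainder (`Nat.chineseRemainder` for `t.val` mod `q` and `1` mod `r` gives `x`, coprime to `q` and `r`, so to `N`;
`ZMod.unitOfCoprime x`, `ZMod.val_natCast`, `Nat.mod_mod_of_dvd`).
`ram` (Ramanujan sum): `∑_{t ∈ (ZMod q)ˣ} ζ^{t j} = ∑_{a ∈ ZMod q} ζ^{a j} - ∑_{a ∈ ZMod q, p ∣ a} ζ^{a j}`; the first is `q [j = 0]`, the second is `(q/p) [p j = 0]`: its `a` are
`p b`, `b mod q/p`, and `ζ^{p b j}`, a geometric sum. Here `wq C i = z^(r i.val)`. It is enough to have: if `p (j - j') = 0` then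
`∑_t (wq (t j) - wq (t j')) = q ([j = 0] - [j' = 0])`, where `p j = 0 ↔ p j' = 0`.
`tr_lemma`: let `y, i` be given, `∑_k c_k wq k = Q x`. For a unit `t` of `ZMod q` let `T` be its lift (`≡ t mod q`, `≡ 1 mod r`), `sg T (wq k) = wq (t k)`. Multiply by
`wq (-(i+y)) - wq (-i)` and sum the conjugates over `t`: left side `∑_k c_k ∑_t (wq (t (k-i-y)) - wq (t (k-i))) = q (c_{i+y} - c_i)` (`ram`; `p y = 0`). Right side
`Q ∑_t sg T ((wq (-(i+y)) - wq (-i)) x)`; by `C.span`, `x = ∑_j b_j z^j`, and `z^j = wq(k) * ξ` where `ξ = z^{q e}` is fixed by all the `sg T`: (`gcd(q, r) = 1`: `j = r a + q b` with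
integers, so `z^j = z^{r a} z^{q b}`; `sg T (z^{q b}) = z^{T q b} = z^{q b}` since `T ≡ 1 mod r`). So `∑_t sg T (..) = ξ q (..)` by `ram` again: it is `q * x'` with `x' ∈ R`.
So `q (c_{i+y} - c_i) = Q q x'` in `R`, cancel `q` (`CharZero`, domain), and `int_dvd`.
-/

set_option autoImplicit false

namespace Pool.RY

open Finset CHD

variable {N : ℕ} [NeZero N] {R : Type} [CommRing R] (C : Cyc N R)

/-- `ζ_q^i` with `ζ_q = z^r` -/
def wq {q : ℕ} (r : ℕ) (i : ZMod q) : R := C.z ^ (r * i.val)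

include C in
theorem int_dvd [IsDomain R] [CharZero R] (a b : ℤ) (x : R) (hb : b ≠ 0) (h : (a : R) = (b : R) * x) : b ∣ a := by
  by_contra hd
  have h0 : a % b ≠ 0 := fun h1 => hd (Int.dvd_of_emod_eq_zero h1)
  have h1 : ((a % b : ℤ) : R) = (b : R) * (x - ((a / b : ℤ) : R)) := by
    have h2 : a % b = a - b * (a / b) := Int.emod_def a b
    rw [h2]
    push_cast
    rw [h]
    ring
  have hy : x - ((a / b : ℤ) : R) ≠ 0 := by
    intro hy
    rw [hy, mul_zero] at h1
    exact h0 (by exact_mod_cast h1)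
  have hb1 : (0 : ℝ) < |(b : ℝ)| := by
    rw [abs_pos]
    exact_mod_cast hb
  have h3 : ∀ t : (ZMod N)ˣ, ‖C.io (C.sg t (x - ((a / b : ℤ) : R)))‖ = |((a % b : ℤ) : ℝ)| / |(b : ℝ)| := by
    intro t
    have h4 := congrArg (fun w => ‖C.io (C.sg t w)‖) h1
    simp only [map_intCast, map_mul, norm_mul, Complex.norm_intCast] at h4
    rw [eq_div_iff hb1.ne']
    rw [mul_comm]
    exact h4.symm
  have h5 := C.one_le _ hy
  rw [Finset.prod_congr rfl fun t _ => h3 t, Finset.prod_const] at h5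
  have h6 : |((a % b : ℤ) : ℝ)| / |(b : ℝ)| < 1 := by
    rw [div_lt_one hb1]
    have h7 : |a % b| < |b| := by
      rw [abs_of_nonneg (Int.emod_nonneg a hb)]
      exact Int.emod_lt_abs a hb
    exact_mod_cast h7
  have h8 : (|((a % b : ℤ) : ℝ)| / |(b : ℝ)|) ^ (univ : Finset (ZMod N)ˣ).card < 1 := by
    apply pow_lt_one₀ (by positivity) h6
    exact (Finset.card_pos.2 ⟨1, mem_univ _⟩).ne'
  linarith

theorem unit_lift {q r : ℕ} [NeZero q] (hN : N = q * r) (hqr : q.Coprime r) (t : (ZMod q)ˣ) :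
    ∃ T : (ZMod N)ˣ, (T : ZMod N).val ≡ (t : ZMod q).val [MOD q] ∧ (T : ZMod N).val ≡ 1 [MOD r] := by
  obtain ⟨x, hx1, hx2⟩ := Nat.chineseRemainder hqr (t : ZMod q).val 1
  have h1 : x.Coprime q := by
    have h2 := ZMod.val_coe_unit_coprime t
    unfold Nat.Coprime at *
    rw [hx1.gcd_eq, h2]
  have h3 : x.Coprime r := by
    unfold Nat.Coprime at *
    rw [hx2.gcd_eq]
    exact Nat.gcd_one_left r
  have h4 : x.Coprime N := by
    rw [hN]
    exact Nat.Coprime.mul_right h1 h3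
  refine ⟨ZMod.unitOfCoprime x h4, ?_, ?_⟩
  · rw [ZMod.coe_unitOfCoprime, ZMod.val_natCast]
    refine Nat.ModEq.trans ?_ hx1
    have h5 : q ∣ N := ⟨r, hN⟩
    exact (Nat.mod_modEq x N).of_dvd h5
  · rw [ZMod.coe_unitOfCoprime, ZMod.val_natCast]
    refine Nat.ModEq.trans ?_ hx2
    have h5 : r ∣ N := ⟨q, by rw [hN, mul_comm]⟩
    exact (Nat.mod_modEq x N).of_dvd h5

private theorem prim_r {q r : ℕ} (hN : N = q * r) : IsPrimitiveRoot (C.z ^ r) q :=
  (z_prim C).pow (NeZero.pos N) (by rw [hN, mul_comm])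

private theorem wq_char {q r : ℕ} [NeZero q] (hN : N = q * r) (i : ZMod q) :
    wq C r i = AddChar.zmodChar q (prim_r C hN).pow_eq_one i := by
  rw [AddChar.zmodChar_apply]
  unfold wq
  rw [pow_mul]

private theorem wq_add {q r : ℕ} [NeZero q] (hN : N = q * r) (i j : ZMod q) :
    wq C r (i + j) = wq C r i * wq C r j := by
  rw [wq_char C hN, wq_char C hN, wq_char C hN, AddChar.map_add_eq_mul]

private theorem wq_sum [IsDomain R] {q r : ℕ} [NeZero q] (hN : N = q * r) (j : ZMod q) :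
    ∑ a : ZMod q, wq C r (a * j) = if j = 0 then (q : R) else 0 := by
  have h := AddChar.sum_mulShift (R := ZMod q) (R' := R) j
    (AddChar.zmodChar_primitive_of_primitive_root q (prim_r C hN))
  rw [ZMod.card] at h
  rw [Finset.sum_congr rfl fun a _ => wq_char C hN (a * j)]
  rw [h]
  split_ifs <;> simp

private theorem nonunit {p s q : ℕ} [NeZero q] (hp : p.Prime) (hq : q = p ^ s) (a : ZMod q)
    (ha : ¬ IsUnit a) : ∃ b : ZMod q, a = (p : ZMod q) * b := by
  have h1 : ¬ (a.val).Coprime q := by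
    intro h
    apply ha
    have h2 := (ZMod.isUnit_iff_coprime a.val q).2 h
    rwa [ZMod.natCast_zmod_val] at h2
  have h2 : p ∣ a.val := by
    by_contra h3
    apply h1
    have h4 : (a.val).Coprime (p ^ s) := Nat.Coprime.pow_right s ((Nat.Prime.coprime_iff_not_dvd hp).2 h3).symm
    exact hq ▸ h4
  obtain ⟨b, hb⟩ := h2
  refine ⟨(b : ZMod q), ?_⟩
  rw [← Nat.cast_mul, ← hb, ZMod.natCast_zmod_val]

private theorem sum_units' {q : ℕ} [NeZero q] (f : ZMod q → R) :
    ∑ a : ZMod q, f a = ∑ t : (ZMod q)ˣ, f (t : ZMod q) +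
      ∑ a ∈ (univ : Finset (ZMod q)).filter (fun a => ¬ IsUnit a), f a := by
  classical
  rw [← Finset.sum_filter_add_sum_filter_not (univ : Finset (ZMod q)) (fun a => IsUnit a)]
  congr 1
  symm
  refine Finset.sum_bij (fun t _ => ((t : (ZMod q)ˣ) : ZMod q)) ?_ ?_ ?_ ?_
  · intro t _
    rw [mem_filter]
    exact ⟨mem_univ _, t.isUnit⟩
  · intro t _ t' _ h
    exact Units.ext h
  · intro b hb
    obtain ⟨u, hu⟩ := (mem_filter.1 hb).2
    exact ⟨u, mem_univ _, hu⟩
  · intro t _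
    rfl

theorem ram [IsDomain R] {p s q r : ℕ} [NeZero q] (hp : p.Prime) (hs : 1 ≤ s) (hq : q = p ^ s) (hN : N = q * r)
    (j j' : ZMod q) (hj : (p : ZMod q) * (j - j') = 0) :
    ∑ t : (ZMod q)ˣ, (wq C r ((t : ZMod q) * j) - wq C r ((t : ZMod q) * j')) =
      (q : R) * ((if j = 0 then 1 else 0) - (if j' = 0 then 1 else 0)) := by
  classical
  have h1 := sum_units' (R := R) (q := q) (fun a => wq C r (a * j) - wq C r (a * j'))
  have h2 : ∑ a ∈ (univ : Finset (ZMod q)).filter (fun a => ¬ IsUnit a), (wq C r (a * j) - wq C r (a * j')) = 0 := by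
    refine Finset.sum_eq_zero fun a ha => ?_
    obtain ⟨b, hb⟩ := nonunit hp hq a (mem_filter.1 ha).2
    have h3 : a * j = a * j' := by
      have h4 : a * j - a * j' = 0 := by
        rw [hb]
        calc (p : ZMod q) * b * j - (p : ZMod q) * b * j' = b * ((p : ZMod q) * (j - j')) := by ring
          _ = 0 := by rw [hj, mul_zero]
      exact sub_eq_zero.1 h4
    rw [h3, sub_self]
  rw [h2, add_zero] at h1
  rw [← h1, Finset.sum_sub_distrib, wq_sum C hN, wq_sum C hN]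
  split_ifs <;> simp

private theorem sg_wq {q r : ℕ} [NeZero q] (hN : N = q * r) (t : (ZMod q)ˣ) (T : (ZMod N)ˣ)
    (hT : (T : ZMod N).val ≡ (t : ZMod q).val [MOD q]) (k : ZMod q) :
    C.sg T (wq C r k) = wq C r ((t : ZMod q) * k) := by
  unfold wq
  rw [sg_pow_z, z_pow_eq_iff]
  have h1 : (T : ZMod N).val * k.val ≡ ((t : ZMod q) * k).val [MOD q] := by
    rw [ZMod.val_mul]
    exact (hT.mul_right k.val).trans (Nat.mod_modEq _ _).symm
  have h2 := Nat.ModEq.mul_left' r h1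
  have h3 : r * q = N := by rw [hN, mul_comm]
  rw [h3] at h2
  have h4 : (T : ZMod N).val * (r * k.val) = r * ((T : ZMod N).val * k.val) := by ring
  rw [h4]
  exact h2

private theorem sg_fix {q r : ℕ} (hN : N = q * r) (T : (ZMod N)ˣ)
    (hT : (T : ZMod N).val ≡ 1 [MOD r]) (e : ℕ) :
    C.sg T (C.z ^ (q * e)) = C.z ^ (q * e) := by
  rw [sg_pow_z, z_pow_eq_iff]
  have h1 : (T : ZMod N).val * e ≡ 1 * e [MOD r] := hT.mul_right e
  have h2 := Nat.ModEq.mul_left' q h1
  rw [← hN, one_mul] at h2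
  have h4 : (T : ZMod N).val * (q * e) = q * ((T : ZMod N).val * e) := by ring
  rw [h4]
  exact h2

private theorem z_split {q r : ℕ} [NeZero q] [NeZero r] (hN : N = q * r) (hqr : q.Coprime r) (j : ℕ) :
    ∃ (k : ZMod q) (e : ℕ), C.z ^ j = wq C r k * C.z ^ (q * e) := by
  refine ⟨(j : ZMod q) * (r : ZMod q)⁻¹, ((j : ZMod r) * (q : ZMod r)⁻¹).val, ?_⟩
  unfold wq
  rw [← pow_add, z_pow_eq_iff, hN]
  rw [← Nat.modEq_and_modEq_iff_modEq_mul hqr]
  constructor
  · rw [← ZMod.natCast_eq_natCast_iff]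
    push_cast
    rw [ZMod.natCast_zmod_val, ZMod.natCast_self, zero_mul, add_zero]
    have h1 : (r : ZMod q) * (r : ZMod q)⁻¹ = 1 := ZMod.coe_mul_inv_eq_one r hqr.symm
    calc (j : ZMod q) = (j : ZMod q) * ((r : ZMod q) * (r : ZMod q)⁻¹) := by rw [h1, mul_one]
      _ = _ := by ring
  · rw [← ZMod.natCast_eq_natCast_iff]
    push_cast
    rw [ZMod.natCast_self r, zero_mul, zero_add, ZMod.natCast_zmod_val]
    have h1 : (q : ZMod r) * (q : ZMod r)⁻¹ = 1 := ZMod.coe_mul_inv_eq_one q hqr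
    calc (j : ZMod r) = (j : ZMod r) * ((q : ZMod r) * (q : ZMod r)⁻¹) := by rw [h1, mul_one]
      _ = _ := by ring

theorem tr_lemma [IsDomain R] [CharZero R] {p s q r : ℕ} [NeZero q] (hp : p.Prime) (hs : 1 ≤ s) (hq : q = p ^ s)
    (hN : N = q * r) (hqr : q.Coprime r) (c : ZMod q → ℤ) (Q : ℕ) (hQ : Q ≠ 0)
    (h : ∃ x : R, ∑ i : ZMod q, (c i : R) * wq C r i = (Q : R) * x) (i y : ZMod q) (hy : (p : ZMod q) * y = 0) :
    (Q : ℤ) ∣ c (i + y) - c i := by
  classical
  obtain ⟨x, hx⟩ := h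
  have hr0 : r ≠ 0 := by
    rintro rfl
    rw [mul_zero] at hN
    exact NeZero.ne N hN
  haveI : NeZero r := ⟨hr0⟩
  choose T hT1 hT2 using unit_lift (N := N) hN hqr
  -- the sum over the conjugates
  have key : ∀ k : ZMod q, ∑ t : (ZMod q)ˣ, C.sg (T t) ((wq C r (-(i + y)) - wq C r (-i)) * wq C r k) =
      (q : R) * ((if k = i + y then 1 else 0) - (if k = i then 1 else 0)) := by
    intro k
    have h1 : ∀ t : (ZMod q)ˣ, C.sg (T t) ((wq C r (-(i + y)) - wq C r (-i)) * wq C r k) =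
        wq C r ((t : ZMod q) * (k - (i + y))) - wq C r ((t : ZMod q) * (k - i)) := by
      intro t
      rw [sub_mul, ← wq_add C hN, ← wq_add C hN, map_sub, sg_wq C hN t (T t) (hT1 t), sg_wq C hN t (T t) (hT1 t)]
      congr 3
      · ring
      · ring
    rw [Finset.sum_congr rfl fun t _ => h1 t, ram C hp hs hq hN]
    · simp only [sub_eq_zero]
    · calc (p : ZMod q) * (k - (i + y) - (k - i)) = -((p : ZMod q) * y) := by ring
        _ = 0 := by rw [hy, neg_zero]
  have key2 : ∀ w : R, ∃ w' : R, ∑ t : (ZMod q)ˣ, C.sg (T t) ((wq C r (-(i + y)) - wq C r (-i)) * w) =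
      (q : R) * w' := by
    have h1 : ∀ j : ℕ, ∃ w' : R, ∑ t : (ZMod q)ˣ, C.sg (T t) ((wq C r (-(i + y)) - wq C r (-i)) * C.z ^ j) =
        (q : R) * w' := by
      intro j
      obtain ⟨k, e, hke⟩ := z_split C hN hqr j
      refine ⟨((if k = i + y then 1 else 0) - (if k = i then 1 else 0)) * C.z ^ (q * e), ?_⟩
      rw [← mul_assoc, ← key k, Finset.sum_mul]
      refine Finset.sum_congr rfl fun t _ => ?_
      rw [hke, ← mul_assoc, map_mul, sg_fix C hN (T t) (hT2 t)]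
    intro w
    obtain ⟨b, rfl⟩ := C.span w
    choose w' hw' using h1
    refine ⟨∑ j : ZMod N, (b j : R) * w' j.val, ?_⟩
    have h2 : ∀ t : (ZMod q)ˣ, C.sg (T t) ((wq C r (-(i + y)) - wq C r (-i)) * ∑ j : ZMod N, (b j : R) * C.z ^ j.val) =
        ∑ j : ZMod N, (b j : R) * C.sg (T t) ((wq C r (-(i + y)) - wq C r (-i)) * C.z ^ j.val) := by
      intro t
      rw [Finset.mul_sum, map_sum]
      refine Finset.sum_congr rfl fun j _ => ?_
      rw [← map_intCast (C.sg (T t)) (b j), ← map_mul]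
      congr 1
      rw [map_intCast]
      ring
    rw [Finset.sum_congr rfl fun t _ => h2 t, Finset.sum_comm, Finset.mul_sum]
    refine Finset.sum_congr rfl fun j _ => ?_
    rw [← Finset.mul_sum, hw' j.val]
    ring
  obtain ⟨x', hx'⟩ := key2 x
  have hl : ∑ t : (ZMod q)ˣ, C.sg (T t) ((wq C r (-(i + y)) - wq C r (-i)) * ∑ k : ZMod q, (c k : R) * wq C r k) =
      (q : R) * ((c (i + y) : R) - (c i : R)) := by
    have h2 : ∀ t : (ZMod q)ˣ, C.sg (T t) ((wq C r (-(i + y)) - wq C r (-i)) * ∑ k : ZMod q, (c k : R) * wq C r k) =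
        ∑ k : ZMod q, (c k : R) * C.sg (T t) ((wq C r (-(i + y)) - wq C r (-i)) * wq C r k) := by
      intro t
      rw [Finset.mul_sum, map_sum]
      refine Finset.sum_congr rfl fun j _ => ?_
      rw [← map_intCast (C.sg (T t)) (c j), ← map_mul]
      congr 1
      rw [map_intCast]
      ring
    rw [Finset.sum_congr rfl fun t _ => h2 t, Finset.sum_comm]
    have h3 : ∀ k : ZMod q, ∑ t : (ZMod q)ˣ, (c k : R) * C.sg (T t) ((wq C r (-(i + y)) - wq C r (-i)) * wq C r k) =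
        (q : R) * ((if k = i + y then (c k : R) else 0) - (if k = i then (c k : R) else 0)) := by
      intro k
      rw [← Finset.mul_sum, key k]
      split_ifs <;> ring
    rw [Finset.sum_congr rfl fun k _ => h3 k, ← Finset.mul_sum, Finset.sum_sub_distrib, Finset.sum_ite_eq',
      Finset.sum_ite_eq']
    simp
  have hr : ∑ t : (ZMod q)ˣ, C.sg (T t) ((wq C r (-(i + y)) - wq C r (-i)) * ((Q : R) * x)) =
      (Q : R) * ((q : R) * x') := by
    rw [← hx', Finset.mul_sum]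
    refine Finset.sum_congr rfl fun t _ => ?_
    rw [← map_natCast (C.sg (T t)) Q, ← map_mul]
    congr 1
    rw [map_natCast]
    ring
  rw [hx, hr] at hl
  have hq0 : (q : R) ≠ 0 := by exact_mod_cast NeZero.ne q
  have hfin : ((c (i + y) - c i : ℤ) : R) = ((Q : ℤ) : R) * x' := by
    apply mul_left_cancel₀ hq0
    push_cast
    rw [← hl]
    ring
  exact int_dvd C _ _ x' (by exact_mod_cast hQ) hfin

end Pool.RY
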