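import Pool.Agent.Lib.MP_f4ebb7_co.RY.Defs2
import Pool.Agent.Lib.MP_f4ebb7_co.CHD.Ded

/-! RY-Nid: an ideal lemma in a Dedekind domain.

PROOF. Call an ideal `b` good if `σ x ∈ b` for all `x ∈ b` and for every `x ∈ b` there is `y ∈ b` with `π (σ x - x) = ϖ y`. (1) `⊤` is good (`hσ`). (2) If `b` is good and `P` is an ideal with `σ P ⊆ P`, `π ∈ P`, then `b * P` is good:
elements of `b * P` are finite sums of products `x y`, `x ∈ b`, `y ∈ P` (`Submodule.mul_induction_on`), and `π (σ(xy) - xy) = σ x * (π (σ y - y)) + (π (σ x - x)) * y`; `σ y - y = ϖ r`, so the first is `ϖ * (σ x * (π r))` with `σ x ∈ b`, `π r ∈ P`, the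
second is `ϖ * (y' * y)` with `y' ∈ b`. (3) `a := Ideal.span {X, (Q : R)}` is not `⊥`, so it is the product of its normalized factors (`Ideal.prod_normalizedFactors_eq_self`), each is prime and contains `a`, so contains `Q`
(compare `fix_of_primes` in CHD/Ded.lean), so `FixI σ P` and `π ∈ P`; by induction on the multiset `a` is good. (4) For `x = X`: `π (σ X - X) = ϖ (α X + β Q)` (`Ideal.mem_span_pair`); times `Xc`: `ϖ (α m Q + β Q Xc) = ϖ Q (α m + β Xc)`.
-/

set_option autoImplicit false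

namespace Pool.RY

open Finset CHD

/-- an ideal that is stable under `σ` and on which `π (σ - 1)` is divisible by `ϖ` inside the ideal -/
private def NidGood {R : Type} [CommRing R] (σ : R ≃+* R) (π ϖ : R) (b : Ideal R) : Prop :=
  ∀ x ∈ b, σ x ∈ b ∧ ∃ y ∈ b, π * (σ x - x) = ϖ * y

private theorem nid_top {R : Type} [CommRing R] (σ : R ≃+* R) (π ϖ : R)
    (hσ : ∀ x, ∃ y, σ x - x = ϖ * y) : NidGood σ π ϖ ⊤ := by
  intro x _
  obtain ⟨y, hy⟩ := hσ x
  exact ⟨trivial, π * y, trivial, by rw [hy]; ring⟩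

private theorem nid_mul {R : Type} [CommRing R] (σ : R ≃+* R) (π ϖ : R)
    (hσ : ∀ x, ∃ y, σ x - x = ϖ * y) (b P : Ideal R) (hb : NidGood σ π ϖ b) (hP : FixI σ P)
    (hπ : π ∈ P) : NidGood σ π ϖ (b * P) := by
  intro z hz
  refine Submodule.mul_induction_on hz ?_ ?_
  · intro x hx y hy
    obtain ⟨hx1, y', hy', he⟩ := hb x hx
    obtain ⟨r, hr⟩ := hσ y
    refine ⟨?_, σ x * (π * r) + y' * y, ?_, ?_⟩
    · change σ (x * y) ∈ b * P
      rw [map_mul]
      exact Ideal.mul_mem_mul hx1 ((hP y).mpr hy)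
    · exact Ideal.add_mem _ (Ideal.mul_mem_mul hx1 (P.mul_mem_right r hπ))
        (Ideal.mul_mem_mul hy' hy)
    · change π * (σ (x * y) - x * y) = _
      rw [map_mul]
      linear_combination (σ x * π) * hr + y * he
  · intro x y hx hy
    obtain ⟨hx1, x', hx', hxe⟩ := hx
    obtain ⟨hy1, y', hy', hye⟩ := hy
    refine ⟨?_, x' + y', Ideal.add_mem _ hx' hy', ?_⟩
    · rw [map_add]
      exact Ideal.add_mem _ hx1 hy1
    · rw [map_add]
      linear_combination hxe + hye

theorem n1 {R : Type} [CommRing R] [IsDedekindDomain R] (σ : R ≃+* R) (π ϖ X Xc : R) (m Q : ℕ)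
    (hX : X * Xc = (m : R) * (Q : R)) (hne : X ≠ 0) (hσ : ∀ x, ∃ y, σ x - x = ϖ * y)
    (hP : ∀ P : Ideal R, P.IsPrime → (Q : R) ∈ P → FixI σ P ∧ π ∈ P) :
    ∃ y, π * (σ X - X) * Xc = ϖ * (Q : R) * y := by
  have hI : Ideal.span {X, (Q : R)} ≠ ⊥ := by
    intro hb
    apply hne
    have : X ∈ Ideal.span {X, (Q : R)} := Ideal.subset_span (by simp)
    rw [hb] at this
    simpa using this
  have key : ∀ s : Multiset (Ideal R), (∀ P ∈ s, FixI σ P ∧ π ∈ P) → NidGood σ π ϖ s.prod := by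
    intro s
    induction s using Multiset.induction_on with
    | empty =>
      intro _
      rw [Multiset.prod_zero, Ideal.one_eq_top]
      exact nid_top σ π ϖ hσ
    | cons a t ih =>
      intro hs
      rw [Multiset.prod_cons, mul_comm]
      have ha := hs a (Multiset.mem_cons_self a t)
      exact nid_mul σ π ϖ hσ _ _ (ih fun P hP => hs P (Multiset.mem_cons_of_mem hP)) ha.1 ha.2
  have h0 : (UniqueFactorizationMonoid.normalizedFactors (Ideal.span {X, (Q : R)})).prod =
      Ideal.span {X, (Q : R)} := Ideal.prod_normalizedFactors_eq_self hI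
  have hg : NidGood σ π ϖ (Ideal.span {X, (Q : R)}) := by
    rw [← h0]
    apply key
    intro P hPm
    apply hP P
    · exact Ideal.isPrime_of_prime (UniqueFactorizationMonoid.prime_of_normalized_factor P hPm)
    · exact Ideal.dvd_iff_le.mp (UniqueFactorizationMonoid.dvd_of_mem_normalizedFactors hPm)
        (Ideal.subset_span (by simp))
  obtain ⟨_, y, hy, he⟩ := hg X (Ideal.subset_span (by simp))
  rw [Ideal.mem_span_pair] at hy
  obtain ⟨a, b, hab⟩ := hy
  refine ⟨a * m + b * Xc, ?_⟩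
  rw [he, ← hab]
  linear_combination (ϖ * a) * hX

end Pool.RY
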