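import Pool.Agent.Lib.MP_f4ebb7_co.RY.Cnt

/-! RY-Nn (`q = p`): the sums of `N_t` over `H`.

PROOF. `nn_eq`: both sides count the pairs `(d, d') ∈ D × D` with `t d.1 - d'.1 = x` (sum over `h` of `[d.2 - d'.2 = h]` is `1`): `∑_{d, d'} [d'.1 = t d.1 - x]`, group by `y = d.1`; `fib Prod.fst D y = #{d ∈ D : d.1 = y}`.
`nn_tot`: `∑_g Nt D t g = |D|^2`.
`nn_val`: `q = p` (`h.hq`, `pow_one`), so `(y, 0) ∈ P1` for every `y` (`p = 0` in `ZMod q`): `hE.inv`: `Nt D t (x, h) - p^c E(x, h)` does not depend on `x`. Sum over `h`: `B := ∑_h Nt D t (x, h) - p^c ∑_h E(x, h)` does not depend on `x`; sum over `x`: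
`q B = (n + l)^2 - p^c ∑_g E g` (`nn_tot`, `h.card`). Compare RY/KId.lean (`kdiff`).
-/

set_option autoImplicit false

namespace Pool.RY

open Finset

variable {H : Type} [AddCommGroup H] [Fintype H] [DecidableEq H] {p s c m q n l : ℕ} [NeZero q]
  {D : Finset (ZMod q × H)}

theorem nn_eq (D : Finset (ZMod q × H)) (t x : ZMod q) :
    ∑ h : H, Nt D t (x, h) = ∑ y : ZMod q, fib Prod.fst D y * fib Prod.fst D (t * y - x) := by
  have h1 : ∑ h : H, Nt D t (x, h) = (((D ×ˢ D).filter fun e => t * e.1.1 - e.2.1 = x).card : ℤ) := by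
    rw [Finset.card_eq_sum_card_fiberwise (f := fun e : (ZMod q × H) × (ZMod q × H) => e.1.2 - e.2.2)
      (t := (univ : Finset H)) (fun _ _ => by simp)]
    push_cast
    refine Finset.sum_congr rfl fun h _ => ?_
    unfold Nt
    congr 2
    ext e
    simp only [Finset.mem_filter, Prod.mk.injEq, and_assoc]
  have h2 : (((D ×ˢ D).filter fun e => t * e.1.1 - e.2.1 = x).card : ℤ)
      = ∑ y : ZMod q, fib Prod.fst D y * fib Prod.fst D (t * y - x) := by
    rw [Finset.card_eq_sum_card_fiberwise (f := fun e : (ZMod q × H) × (ZMod q × H) => e.1.1)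
      (t := (univ : Finset (ZMod q))) (fun _ _ => by simp)]
    push_cast
    refine Finset.sum_congr rfl fun y _ => ?_
    have h : ((D ×ˢ D).filter fun e => t * e.1.1 - e.2.1 = x).filter (fun e => e.1.1 = y)
        = (D.filter fun d => d.1 = y) ×ˢ (D.filter fun d => d.1 = t * y - x) := by
      ext ⟨a, b⟩
      simp only [Finset.mem_filter, Finset.mem_product]
      constructor
      · rintro ⟨⟨⟨h1, h2⟩, h3⟩, h4⟩
        exact ⟨⟨h1, h4⟩, h2, by rw [← h3, ← h4]; ring⟩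
      · rintro ⟨⟨h1, h2⟩, h3, h4⟩
        exact ⟨⟨⟨h1, h3⟩, by rw [h2, h4]; ring⟩, h2⟩
    rw [h, Finset.card_product]
    unfold fib
    push_cast
    ring
  rw [h1, h2]

theorem nn_tot (D : Finset (ZMod q × H)) (t : ZMod q) : ∑ g : ZMod q × H, Nt D t g = (D.card : ℤ) ^ 2 := by
  have h1 : ((D ×ˢ D).card : ℤ) = ∑ g : ZMod q × H, Nt D t g := by
    rw [Finset.card_eq_sum_card_fiberwise
      (f := fun e : (ZMod q × H) × (ZMod q × H) => (t * e.1.1 - e.2.1, e.1.2 - e.2.2))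
      (t := (univ : Finset (ZMod q × H))) (fun _ _ => by simp)]
    push_cast
    rfl
  rw [← h1, Finset.card_product]
  push_cast
  ring

theorem nn_val (h : Dat p 1 c m q n l D) {t : ZMod q} {E : ZMod q × H → ℤ} (hE : IsE p c m q D t E) (x : ZMod q) :
    (q : ℤ) * ∑ k : H, Nt D t (x, k) =
      ((n : ℤ) + l) ^ 2 + (p : ℤ) ^ c * ((q : ℤ) * ∑ k : H, E (x, k) - ∑ g : ZMod q × H, E g) := by
  have hqp : q = p := by rw [h.hq, pow_one]
  have hp0 : (p : ZMod q) = 0 := by rw [← hqp]; exact ZMod.natCast_self q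
  have hinv : ∀ y : ZMod q, ∀ k : H, Nt D t (y, k) - (p : ℤ) ^ c * E (y, k)
      = Nt D t (x, k) - (p : ℤ) ^ c * E (x, k) := by
    intro y k
    have h1 := hE.inv ((y - x, 0) : ZMod q × H) (mem_P1.mpr ⟨by rw [hp0, zero_mul], rfl⟩) (x, k)
    have h2 : ((x, k) : ZMod q × H) + (y - x, 0) = (y, k) := by
      rw [Prod.mk_add_mk, add_zero, add_sub_cancel]
    simp only [h2] at h1
    exact h1
  have hB : ∀ y : ZMod q, ∑ k : H, Nt D t (y, k) - (p : ℤ) ^ c * ∑ k : H, E (y, k)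
      = ∑ k : H, Nt D t (x, k) - (p : ℤ) ^ c * ∑ k : H, E (x, k) := by
    intro y
    rw [Finset.mul_sum, Finset.mul_sum, ← Finset.sum_sub_distrib, ← Finset.sum_sub_distrib]
    exact Finset.sum_congr rfl fun k _ => hinv y k
  have hS : ∑ y : ZMod q, (∑ k : H, Nt D t (y, k) - (p : ℤ) ^ c * ∑ k : H, E (y, k))
      = (q : ℤ) * (∑ k : H, Nt D t (x, k) - (p : ℤ) ^ c * ∑ k : H, E (x, k)) := by
    rw [Finset.sum_congr rfl fun y _ => hB y, Finset.sum_const, Finset.card_univ, ZMod.card, nsmul_eq_mul]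
  rw [Finset.sum_sub_distrib, ← Finset.mul_sum, ← Fintype.sum_prod_type (f := fun g : ZMod q × H => Nt D t g),
    ← Fintype.sum_prod_type (f := fun g : ZMod q × H => E g), nn_tot, h.card] at hS
  push_cast at hS
  linear_combination -hS

end Pool.RY
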