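import Pool.Agent.Lib.MP_f4ebb7_co.RY.Fin2
import Pool.Agent.Lib.MP_f4ebb7_co.RY.Size
import Pool.Agent.Lib.MP_f4ebb7_co.RY.Par

/-! RY-OddC (`c ≥ 3`): `p ∣ v` and `p > 32 m^2` imply that `m` is even. -/

set_option autoImplicit false

namespace Pool.RY

open Finset

theorem num4 {p m c n : ℕ} (hm : 2 ≤ m) (hp : 32 * m ^ 2 < p) (hc : 3 ≤ c) (hn : n = p ^ c * m) :
    (p : ℝ) * √(2 * n) + 4 * √(n * (n / p + √(2 * n))) < (p : ℝ) ^ c := by
  obtain ⟨k, rfl⟩ : ∃ k, c = k + 3 := ⟨c - 3, by omega⟩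
  have hM : (2 : ℝ) ≤ m := by exact_mod_cast hm
  have hP : 32 * (m : ℝ) ^ 2 < p := by exact_mod_cast hp
  have hm2 : (4 : ℝ) ≤ (m : ℝ) ^ 2 := by nlinarith
  have hP0 : (1 : ℝ) < p := by nlinarith
  have hPp : (0 : ℝ) < p := by linarith
  have hPm : 64 * (m : ℝ) < p := by nlinarith
  set P : ℝ := (p : ℝ) with hPdef
  set M : ℝ := (m : ℝ) with hMdef
  obtain ⟨Q, hQ⟩ : ∃ Q : ℝ, Q = P ^ (k + 2) := ⟨_, rfl⟩
  have hQ0 : 0 < Q := by rw [hQ]; positivity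
  have hPc : P ^ (k + 3) = Q * P := by rw [hQ]; ring
  have hN : (n : ℝ) = Q * P * M := by
    rw [hn]; push_cast; rw [← hPdef, ← hMdef, hPc]
  have hQP : P ^ 2 ≤ Q := by
    rw [hQ]; exact pow_le_pow_right₀ hP0.le (by omega)
  have hr0 : (0 : ℝ) ≤ √2 := Real.sqrt_nonneg _
  -- `2 n ≤ (2 / (11)) ^ 2 Q ^ 2`
  have hQ2 : 64 * P * M ≤ Q := by nlinarith
  have h1 : √(2 * (n : ℝ)) ≤ 2 * Q / 11 := by
    rw [Real.sqrt_le_left (by positivity), hN]
    nlinarith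
  have h1' : 0 ≤ √(2 * (n : ℝ)) := Real.sqrt_nonneg _
  have hdiv : (n : ℝ) / P = Q * M := by
    rw [hN]; field_simp
  have h2 : √((n : ℝ) * (n / P + √(2 * n))) < 9 * Q * P / 44 := by
    rw [Real.sqrt_lt' (by positivity), hdiv]
    have e1 : (n : ℝ) * (Q * M + √(2 * n)) ≤ Q * P * M * (Q * M + 2 * Q / 11) := by
      rw [hN] at h1 ⊢
      have : 0 ≤ Q * P * M := by positivity
      exact mul_le_mul_of_nonneg_left (by linarith) this
    have e2 : M * (M + 2 / 11) < 81 * P / 1936 := by nlinarith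
    have e3 : 0 < Q ^ 2 * P := by positivity
    have e4 := mul_lt_mul_of_pos_left e2 e3
    have e5 : Q * P * M * (Q * M + 2 * Q / 11) = Q ^ 2 * P * (M * (M + 2 / 11)) := by ring
    have e6 : (9 * Q * P / 44) ^ 2 = Q ^ 2 * P * (81 * P / 1936) := by ring
    rw [e6]
    linarith
  rw [hPc]
  have h3 : P * √(2 * (n : ℝ)) ≤ P * (2 * Q / 11) := mul_le_mul_of_nonneg_left h1 hPp.le
  linarith

theorem kcong {H : Type} [AddCommGroup H] [DecidableEq H] {p c q : ℕ} [NeZero q] {D : Finset (ZMod q × H)} (hq : q = p)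
    (hdiv : ∀ t : (ZMod q)ˣ, ∀ y ∈ P1 p q H, ∀ g, (p : ℤ) ^ c ∣ Nt D (t : ZMod q) (g + y) - Nt D (t : ZMod q) g)
    (i j : ZMod q) : (p : ℤ) ^ c ∣ KK D i - KK D j := by
  have hp0 : (p : ZMod q) = 0 := by
    rw [ZMod.natCast_eq_zero_iff, hq]
  unfold KK
  rw [← sum_sub_distrib]
  refine dvd_sum fun t _ => ?_
  have h2 := hdiv t (((t : ZMod q) - 1) * (i - j), 0) (mem_P1.2 ⟨by rw [hp0, zero_mul], rfl⟩) (((t : ZMod q) - 1) * j, 0)
  have h3 : ((((t : ZMod q) - 1) * j, 0) : ZMod q × H) + (((t : ZMod q) - 1) * (i - j), 0) =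
      (((t : ZMod q) - 1) * i, 0) := by
    rw [Prod.mk_add_mk, add_zero]
    congr 1
    ring
  rwa [h3] at h2

theorem main_t2 {p c m v l : ℕ} [NeZero v] (hp : p.Prime) (hm : 2 ≤ m) (hpm : ¬ p ∣ m) (hc : 3 ≤ c) (hpv : p ∣ v)
    (hbig : 32 * m ^ 2 < p) (D : Finset (ZMod v)) (hD : CHD.IsDS (ZMod v) D l) (hk : D.card = p ^ c * m + l) : Even m := by
  have hm1 : 1 ≤ m ^ 2 := Nat.one_le_pow _ _ (by omega)
  have hp2 : p ≠ 2 := by omega
  have hnot : ¬ p ^ 2 ∣ v := by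
    intro h
    have := main_t1 hp (by omega) hpm (by omega) h D hD hk
    omega
  obtain ⟨w, rfl⟩ := hpv
  have hw : ¬ p ∣ w := by
    intro h
    apply hnot
    rw [sq]
    exact Nat.mul_dvd_mul_left p h
  have hw0 : w ≠ 0 := by
    rintro rfl
    exact hw (dvd_zero p)
  have i1 : NeZero w := ⟨hw0⟩
  have i2 : NeZero p := ⟨hp.ne_zero⟩
  have hcop : p.Coprime w := (Nat.Prime.coprime_iff_not_dvd hp).2 hw
  have hcardD : (D.map (ZMod.chineseRemainder hcop).toAddEquiv.toEquiv.toEmbedding).card = p ^ c * m + l := by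
    rw [card_map, hk]
  have hD' := ds_map (ZMod.chineseRemainder hcop).toAddEquiv D l hD
  set D' := D.map (ZMod.chineseRemainder hcop).toAddEquiv.toEquiv.toEmbedding with hD'def
  have hdiv : ∀ t : (ZMod p)ˣ, ∀ y ∈ P1 p p (ZMod w), ∀ g,
      (p : ℤ) ^ c ∣ Nt D' (t : ZMod p) (g + y) - Nt D' (t : ZMod p) g := fun t y hy g =>
    nt_div (s := 1) hp hp2 le_rfl (pow_one p).symm hw rfl (by omega) _ hD' hcardD t y hy g
  have hpc : (0 : ℤ) < (p : ℤ) ^ c := pow_pos (by exact_mod_cast hp.pos) c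
  have hK : ∀ i j, KK D' i = KK D' j := by
    intro i j
    have h1 := (size hp hD' hcardD i j).trans_lt (num4 hm hbig hc rfl)
    have h2 : |KK D' i - KK D' j| < (p : ℤ) ^ c := by
      have h3 : |((KK D' i - KK D' j : ℤ) : ℝ)| = ((|KK D' i - KK D' j| : ℤ) : ℝ) := by rw [Int.cast_abs]
      rw [h3] at h1
      exact_mod_cast h1
    have h4 := Int.eq_zero_of_abs_lt_dvd (kcong rfl hdiv i j) h2
    omega
  have heven := par hp hp2 hD' hcardD hK
  rcases Nat.even_mul.1 heven with h | h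
  · exfalso
    have h5 : Odd (p ^ c) := (hp.odd_of_ne_two hp2).pow
    exact (Nat.not_even_iff_odd.2 h5) h
  · exact h

end Pool.RY
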