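import Pool.Agent.Lib.MP_f4ebb7_co.RY.Defs2

/-! RY-Pig: rectification by the pigeonhole principle.

PROOF. For `j < p` and `x ∈ S` the box `β(j)(x) = 4 * ((j : ZMod q) * x).val / q ∈ {0, 1, 2, 3}` (natural number division). The map `j ↦ β(j) ∈ (S → Fin 4)` from `range p` (or `Fin p`) to a set of `4^|S| < p`
elements is not injective (`Finset.exists_ne_map_eq_of_card_lt_of_maps_to` / `Fintype.exists_ne_map_eq_of_card_lt`): `j < j'` with the same boxes. Let `k = j' - j`, `1 ≤ k < p`, so `k` is a unit mod `q = p^s` (`ZMod.unitOfCoprime`).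
For `x ∈ S` let `A = ((j':ZMod q) x).val`, `B = ((j : ZMod q) x).val`, `d = A - B : ℤ`; both `4A`, `4B` lie in `[b q, (b+1) q)`, so `4 |d| < q`. And `(k : ZMod q) * x = (d : ZMod q)`, so by uniqueness
(`ZMod.valMinAbs_spec`, `-q < 2 d ≤ q`) `valMinAbs (k x) = d`.
-/

set_option autoImplicit false

namespace Pool.RY

open Finset

private theorem pig_box {q : ℕ} (hq : 0 < q) {A B : ℕ} (h : 4 * A / q = 4 * B / q) :
    4 * |((A : ℤ) - (B : ℤ))| < (q : ℤ) := by
  have hA := Nat.div_add_mod (4 * A) q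
  have hB := Nat.div_add_mod (4 * B) q
  have hA' := Nat.mod_lt (4 * A) hq
  have hB' := Nat.mod_lt (4 * B) hq
  rw [h] at hA
  have e : (4 * (A : ℤ)) - 4 * B = ((4 * A % q : ℕ) : ℤ) - ((4 * B % q : ℕ) : ℤ) := by
    have hA2 : ((q * (4 * B / q) + 4 * A % q : ℕ) : ℤ) = ((4 * A : ℕ) : ℤ) := by rw [hA]
    have hB2 : ((q * (4 * B / q) + 4 * B % q : ℕ) : ℤ) = ((4 * B : ℕ) : ℤ) := by rw [hB]
    push_cast at hA2 hB2
    push_cast
    linarith
  have h1 : (((4 * A % q : ℕ) : ℤ)) < q := by exact_mod_cast hA'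
  have h2 : (((4 * B % q : ℕ) : ℤ)) < q := by exact_mod_cast hB'
  have h3 : (0 : ℤ) ≤ ((4 * A % q : ℕ) : ℤ) := Int.natCast_nonneg _
  have h4 : (0 : ℤ) ≤ ((4 * B % q : ℕ) : ℤ) := Int.natCast_nonneg _
  have e2 : 4 * |((A : ℤ) - (B : ℤ))| = |(4 * (A : ℤ)) - 4 * B| := by
    rw [← mul_sub, abs_mul]; norm_num
  rw [e2, e, abs_lt]
  constructor <;> linarith

theorem pig {p s q : ℕ} [NeZero q] (hp : p.Prime) (hs : 1 ≤ s) (hq : q = p ^ s) (S : Finset (ZMod q))
    (hS : 4 ^ S.card < p) : ∃ r : (ZMod q)ˣ, ∀ x ∈ S, 4 * |((r : ZMod q) * x).valMinAbs| < (q : ℤ) := by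
  have hq0 : 0 < q := Nat.pos_of_ne_zero (NeZero.ne q)
  let β : Fin p → (S → Fin 4) := fun j x =>
    ⟨4 * (((j : ℕ) : ZMod q) * (x : ZMod q)).val / q, by
      rw [Nat.div_lt_iff_lt_mul hq0]
      have := ZMod.val_lt (((j : ℕ) : ZMod q) * (x : ZMod q))
      omega⟩
  have hcard : Fintype.card (S → Fin 4) < Fintype.card (Fin p) := by
    rw [Fintype.card_fun, Fintype.card_fin, Fintype.card_fin, Fintype.card_coe]
    exact hS
  obtain ⟨a, b, hab, hβ⟩ := Fintype.exists_ne_map_eq_of_card_lt β hcard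
  -- order the two
  have key : ∀ a b : Fin p, (a : ℕ) < (b : ℕ) → β a = β b →
      ∃ r : (ZMod q)ˣ, ∀ x ∈ S, 4 * |((r : ZMod q) * x).valMinAbs| < (q : ℤ) := by
    intro a b hlt hβ
    have hk1 : 0 < (b : ℕ) - (a : ℕ) := by omega
    have hk2 : (b : ℕ) - (a : ℕ) < p := by have := b.isLt; omega
    have hcop : Nat.Coprime ((b : ℕ) - (a : ℕ)) q := by
      rw [hq]
      refine Nat.Coprime.pow_right s ?_
      exact Nat.Coprime.symm ((Nat.Prime.coprime_iff_not_dvd hp).2 (Nat.not_dvd_of_pos_of_lt hk1 hk2))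
    refine ⟨ZMod.unitOfCoprime _ hcop, ?_⟩
    intro x hx
    have hbox : 4 * (((b : ℕ) : ZMod q) * x).val / q = 4 * (((a : ℕ) : ZMod q) * x).val / q := by
      have := congrFun hβ ⟨x, hx⟩
      have h2 := congrArg Fin.val this
      exact h2.symm
    have hlt4 := pig_box hq0 hbox
    have hval : (((ZMod.unitOfCoprime _ hcop : (ZMod q)ˣ) : ZMod q) * x)
        = ((((((b : ℕ) : ZMod q) * x).val : ℤ) - ((((a : ℕ) : ZMod q) * x).val : ℤ) : ℤ) : ZMod q) := by
      rw [ZMod.coe_unitOfCoprime, Nat.cast_sub hlt.le]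
      push_cast
      rw [ZMod.natCast_zmod_val, ZMod.natCast_zmod_val]
      ring
    have hmin : (((ZMod.unitOfCoprime _ hcop : (ZMod q)ˣ) : ZMod q) * x).valMinAbs
        = ((((b : ℕ) : ZMod q) * x).val : ℤ) - ((((a : ℕ) : ZMod q) * x).val : ℤ) := by
      rw [ZMod.valMinAbs_spec]
      refine ⟨hval, ?_⟩
      have h5 := neg_abs_le ((((((b : ℕ) : ZMod q) * x).val : ℤ) - ((((a : ℕ) : ZMod q) * x).val : ℤ)))
      have h6 := le_abs_self ((((((b : ℕ) : ZMod q) * x).val : ℤ) - ((((a : ℕ) : ZMod q) * x).val : ℤ)))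
      have h7 : (0 : ℤ) < (q : ℤ) := by exact_mod_cast hq0
      constructor <;> linarith
    rw [hmin]
    exact hlt4
  rcases lt_or_gt_of_ne (fun h => hab (Fin.ext h)) with h | h
  · exact key a b h hβ
  · exact key b a h hβ.symm

end Pool.RY
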