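import Pool.Agent.Lib.MP_f4ebb7_co.RY.Cnt

/-! RY-Rel: character sums.

PROOF. `ch a ψ` is a character of `ZMod q × H` with values of absolute value one: `ch a ψ (g + g') = ch a ψ g * ch a ψ g'`, `conj (ch a ψ g) = ch a ψ (-g)` (`AddChar.map_neg_eq_conj`, `ZMod.stdAddChar`),
`ch (t * a) ψ (x, h) = ch a ψ (t x, h)`.
`ch_sum`: `∑_x e(a x) = 0` for `a ≠ 0` (`AddChar.sum_eq_zero_of_ne_one`, `ZMod.stdAddChar` is primitive/injective: `ZMod.injective_stdAddChar`) and `∑_h ψ h = 0` for `ψ ≠ 1`; product of the two sums.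
`x_nt`: `X D (t a) ψ * conj (X D a ψ) = ∑_{d, d' ∈ D} ch a ψ (t d.1 - d'.1, d.2 - d'.2)`, group the pairs by the value (`Finset.sum_fiberwise`).
`x_norm`: `x_nt` with `t = 1`: `Nt D 1 g = l + n [g = 0]` (`ds_rep`), `∑_g ch a ψ g = 0`, `ch a ψ 0 = 1`.
`inv_ch`: `y := (((p^(s-1) : ℕ) : ZMod q), 0) ∈ P1`; `∑_g f g ch g = ∑_g f (g+y) ch (g+y) = ch y * ∑_g f g ch g` and `ch y = e(a p^(s-1)) ≠ 1` since `a p^(s-1) ≠ 0` in `ZMod q` (`a` a unit).
`x_rel`: `x_nt` and `Nt D t g = (Nt D t g - p^c E g) + p^c E g`, `inv_ch`. In terms of `FF`: `∑_g E g ch a ψ g = ∑_x FF E ψ x e(a x)`.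
-/

set_option autoImplicit false

namespace Pool.RY

open Finset

variable {H : Type} [AddCommGroup H] [Fintype H] [DecidableEq H] {p s c m q n l : ℕ} [NeZero q]
  {D : Finset (ZMod q × H)}

private theorem rel_ch_add (a : ZMod q) (ψ : AddChar H ℂ) (g g' : ZMod q × H) :
    ch a ψ (g + g') = ch a ψ g * ch a ψ g' := by
  unfold ch
  rw [Prod.fst_add, Prod.snd_add, mul_add, AddChar.map_add_eq_mul, AddChar.map_add_eq_mul]
  ring

private theorem rel_ch_zero (a : ZMod q) (ψ : AddChar H ℂ) : ch a ψ (0 : ZMod q × H) = 1 := by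
  unfold ch
  rw [Prod.fst_zero, Prod.snd_zero, mul_zero, AddChar.map_zero_eq_one, AddChar.map_zero_eq_one, mul_one]

private theorem rel_ch_conj (a : ZMod q) (ψ : AddChar H ℂ) (g : ZMod q × H) :
    (starRingEnd ℂ) (ch a ψ g) = ch a ψ (-g) := by
  unfold ch
  rw [map_mul, Prod.fst_neg, Prod.snd_neg, mul_neg, AddChar.map_neg_eq_conj, AddChar.map_neg_eq_conj]

theorem ch_sum (a : ZMod q) (ψ : AddChar H ℂ) (h : a ≠ 0 ∨ ψ ≠ 1) : ∑ g : ZMod q × H, ch a ψ g = 0 := by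
  have h1 : ∑ g : ZMod q × H, ch a ψ g = (∑ x : ZMod q, ZMod.stdAddChar (x * a)) * ∑ y : H, ψ y := by
    rw [Finset.sum_mul_sum, Fintype.sum_prod_type]
    refine Finset.sum_congr rfl fun x _ => Finset.sum_congr rfl fun y _ => ?_
    unfold ch
    rw [mul_comm a x]
  rw [h1]
  rcases h with h | h
  · rw [AddChar.sum_mulShift a (ZMod.isPrimitive_stdAddChar q), if_neg h]
    simp
  · rw [AddChar.sum_eq_zero_of_ne_one h, mul_zero]

theorem x_nt (D : Finset (ZMod q × H)) (t a : ZMod q) (ψ : AddChar H ℂ) :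
    X D (t * a) ψ * (starRingEnd ℂ) (X D a ψ) = ∑ g : ZMod q × H, (Nt D t g : ℂ) * ch a ψ g := by
  have h1 : X D (t * a) ψ * (starRingEnd ℂ) (X D a ψ) =
      ∑ e ∈ D ×ˢ D, ch a ψ (t * e.1.1 - e.2.1, e.1.2 - e.2.2) := by
    unfold X
    rw [map_sum, Finset.sum_mul_sum, Finset.sum_product]
    refine Finset.sum_congr rfl fun d _ => Finset.sum_congr rfl fun d' _ => ?_
    rw [rel_ch_conj]
    have h2 : ch (t * a) ψ d = ch a ψ (t * d.1, d.2) := by
      unfold ch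
      dsimp only
      rw [mul_comm t a, mul_assoc]
    rw [h2, ← rel_ch_add]
    congr 1
    ext
    · simp [sub_eq_add_neg]
    · simp [sub_eq_add_neg]
  rw [h1, ← Finset.sum_fiberwise (D ×ˢ D) (fun e => ((t * e.1.1 - e.2.1, e.1.2 - e.2.2) : ZMod q × H))]
  refine Finset.sum_congr rfl fun g _ => ?_
  rw [Finset.sum_congr rfl (g := fun _ => ch a ψ g) (fun e he => by rw [(Finset.mem_filter.mp he).2])]
  rw [Finset.sum_const, nsmul_eq_mul]
  unfold Nt
  push_cast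
  rfl

theorem x_norm (hD : CHD.IsDS (ZMod q × H) D l) (hk : D.card = n + l) (a : ZMod q) (ψ : AddChar H ℂ)
    (h : a ≠ 0 ∨ ψ ≠ 1) : X D a ψ * (starRingEnd ℂ) (X D a ψ) = (n : ℂ) := by
  have h1 := x_nt D 1 a ψ
  rw [one_mul] at h1
  rw [h1]
  have h2 : ∀ g : ZMod q × H, (Nt D 1 g : ℂ) = (l : ℂ) + if g = 0 then (n : ℂ) else 0 := by
    intro g
    have h3 : Nt D 1 g = (l : ℤ) + if g = 0 then (n : ℤ) else 0 := by
      rw [← ds_rep hD hk g]
      unfold Nt
      congr 2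
      refine Finset.filter_congr fun e _ => ?_
      rw [one_mul]
      constructor
      · intro h4
        rw [← h4]
        rfl
      · intro h4
        rw [← h4]
        rfl
    rw [h3]
    split_ifs <;> push_cast <;> ring
  calc ∑ g : ZMod q × H, (Nt D 1 g : ℂ) * ch a ψ g
      = ∑ g : ZMod q × H, ((l : ℂ) * ch a ψ g + if g = 0 then (n : ℂ) * ch a ψ g else 0) := by
        refine Finset.sum_congr rfl fun g _ => ?_
        rw [h2 g]
        split_ifs <;> ring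
    _ = (n : ℂ) := by
        rw [Finset.sum_add_distrib, ← Finset.mul_sum, ch_sum a ψ h, mul_zero, zero_add, Finset.sum_ite_eq' univ 0]
        rw [if_pos (Finset.mem_univ _), rel_ch_zero, mul_one]

theorem inv_ch (hp : p.Prime) (hs : 1 ≤ s) (hq : q = p ^ s) (f : ZMod q × H → ℂ) (hf : Inv (P1 p q H) f)
    (a : (ZMod q)ˣ) (ψ : AddChar H ℂ) : ∑ g : ZMod q × H, f g * ch (a : ZMod q) ψ g = 0 := by
  set y : ZMod q × H := (((p ^ (s - 1) : ℕ) : ZMod q), 0) with hy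
  have hy1 : y ∈ P1 p q H := by
    rw [mem_P1]
    refine ⟨?_, rfl⟩
    rw [hy]
    dsimp only
    rw [← Nat.cast_mul, ← pow_succ', Nat.sub_add_cancel hs, ← hq, ZMod.natCast_self]
  have h1 : ch (a : ZMod q) ψ y ≠ 1 := by
    unfold ch
    rw [hy]
    dsimp only
    rw [AddChar.map_zero_eq_one, mul_one]
    intro h2
    have h3 : (a : ZMod q) * ((p ^ (s - 1) : ℕ) : ZMod q) = 0 := by
      apply ZMod.injective_stdAddChar
      rw [h2, AddChar.map_zero_eq_one]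
    have h4 : ((p ^ (s - 1) : ℕ) : ZMod q) = 0 := by
      have := (Units.mul_right_eq_zero a).mp h3
      exact this
    rw [ZMod.natCast_eq_zero_iff] at h4
    have h5 := Nat.le_of_dvd (pow_pos hp.pos _) h4
    rw [hq] at h5
    have h6 : p ^ (s - 1) < p ^ s := Nat.pow_lt_pow_right hp.one_lt (by omega)
    omega
  have h2 : ∑ g : ZMod q × H, f g * ch (a : ZMod q) ψ g =
      ch (a : ZMod q) ψ y * ∑ g : ZMod q × H, f g * ch (a : ZMod q) ψ g := by
    conv_lhs => rw [← Equiv.sum_comp (Equiv.addRight y)]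
    rw [Finset.mul_sum]
    refine Finset.sum_congr rfl fun g _ => ?_
    rw [Equiv.coe_addRight, hf y hy1 g, rel_ch_add]
    ring
  have h3 : (ch (a : ZMod q) ψ y - 1) * ∑ g : ZMod q × H, f g * ch (a : ZMod q) ψ g = 0 := by
    rw [sub_mul, one_mul, ← h2, sub_self]
  rcases mul_eq_zero.mp h3 with h4 | h4
  · exact absurd (sub_eq_zero.mp h4) h1
  · exact h4

theorem x_rel (h : Dat p s c m q n l D) {t : (ZMod q)ˣ} {E : ZMod q × H → ℤ} (hE : IsE p c m q D (t : ZMod q) E)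
    (a : (ZMod q)ˣ) (ψ : AddChar H ℂ) :
    X D ((t : ZMod q) * a) ψ * (starRingEnd ℂ) (X D (a : ZMod q) ψ) =
      (p : ℂ) ^ c * ∑ x : ZMod q, FF E ψ x * ZMod.stdAddChar ((a : ZMod q) * x) := by
  rw [x_nt]
  have h1 := inv_ch (H := H) h.hp h.hs h.hq (fun g => ((Nt D (t : ZMod q) g - (p : ℤ) ^ c * E g : ℤ) : ℂ))
    (fun y hy g => by
      have h2 := hE.inv y hy g
      dsimp only at h2 ⊢
      rw [h2]) a ψ
  have h3 : ∑ g : ZMod q × H, (E g : ℂ) * ch (a : ZMod q) ψ g =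
      ∑ x : ZMod q, FF E ψ x * ZMod.stdAddChar ((a : ZMod q) * x) := by
    rw [Fintype.sum_prod_type]
    refine Finset.sum_congr rfl fun x _ => ?_
    unfold FF ch
    rw [Finset.sum_mul]
    refine Finset.sum_congr rfl fun y _ => ?_
    ring
  rw [← h3, Finset.mul_sum, ← sub_eq_zero, ← Finset.sum_sub_distrib, ← h1]
  refine Finset.sum_congr rfl fun g _ => ?_
  push_cast
  ring

end Pool.RY
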