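import Pool.Agent.Lib.MP_f4ebb7_co.RY.Pig
import Pool.Agent.Lib.MP_f4ebb7_co.RY.Mono
import Pool.Agent.Lib.MP_f4ebb7_co.RY.Unq

/-! RY-Sing: for every character `ψ` of `H` the function `x ↦ ∑_h E(x, h) ψ(h)` is supported at one point `x₀ ψ`.

PROOF. `S` := the image of `sp E` under `Prod.fst`; `S.card ≤ (sp E).card ≤ m^2` (`sp_card` with `hE.hac 0`), so `4^|S| ≤ 4^(m^2) < p` and `pig` gives a unit `r` (the same for all `ψ`).
`FF E ψ x ≠ 0` implies `E (x, h) ≠ 0` for some `h`, so `x ∈ S`. Autocorrelation: `∑_x FF E ψ x * conj (FF E ψ (x + u)) = ∑_{h, h'} ψ h * conj (ψ h') ∑_x E(x,h) E(x+u,h')`; put `h' = h + k`: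
`ψ h * conj (ψ (h + k)) = conj (ψ k)`, so it is `∑_k conj (ψ k) * ac E (u, k) = m^2 [u = 0]` (`hE.hac`). `mono` with `μ = m^2`. `J := S` (`x₀ ψ ∈ S` since `FF E ψ (x₀ ψ) ≠ 0`). Choose `x₀` by `choose`.
-/

set_option autoImplicit false

namespace Pool.RY

open Finset

variable {H : Type} [AddCommGroup H] [Fintype H] [DecidableEq H] {p s c m q n l : ℕ} [NeZero q]
  {D : Finset (ZMod q × H)}

private theorem ff_ac {E : ZMod q × H → ℤ} (hac : ∀ u, ac E u = if u = 0 then (m : ℤ) ^ 2 else 0)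
    (ψ : AddChar H ℂ) (u : ZMod q) :
    ∑ x : ZMod q, FF E ψ x * (starRingEnd ℂ) (FF E ψ (x + u)) =
      if u = 0 then (((m : ℝ) ^ 2 : ℝ) : ℂ) else 0 := by
  have hψ : ∀ h : H, ψ h * (starRingEnd ℂ) (ψ h) = 1 := by
    intro h
    rw [Complex.mul_conj, Complex.normSq_eq_norm_sq, AddChar.norm_apply]
    norm_num
  have h1 : ∀ x : ZMod q, FF E ψ x * (starRingEnd ℂ) (FF E ψ (x + u)) =
      ∑ k : H, (starRingEnd ℂ) (ψ k) * ∑ h : H, ((E (x, h) * E (x + u, h + k) : ℤ) : ℂ) := by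
    intro x
    rw [FF, FF, map_sum, sum_mul]
    have h2 : ∀ h : H, ((E (x, h) : ℂ) * ψ h) * ∑ h' : H, (starRingEnd ℂ) ((E (x + u, h') : ℂ) * ψ h') =
        ∑ k : H, (starRingEnd ℂ) (ψ k) * ((E (x, h) * E (x + u, h + k) : ℤ) : ℂ) := by
      intro h
      rw [← Equiv.sum_comp (Equiv.addLeft h), mul_sum]
      refine sum_congr rfl fun k _ => ?_
      rw [Equiv.coe_addLeft, AddChar.map_add_eq_mul, map_mul, map_mul, map_intCast]
      push_cast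
      linear_combination (E (x, h) : ℂ) * (E (x + u, h + k) : ℂ) * (starRingEnd ℂ) (ψ k) * hψ h
    rw [sum_congr rfl fun h _ => h2 h, sum_comm]
    exact sum_congr rfl fun k _ => by rw [mul_sum]
  rw [sum_congr rfl fun x _ => h1 x, sum_comm]
  have h3 : ∀ k : H, ∑ x : ZMod q, (starRingEnd ℂ) (ψ k) *
      ∑ h : H, ((E (x, h) * E (x + u, h + k) : ℤ) : ℂ) =
      (starRingEnd ℂ) (ψ k) * ((ac E (u, k) : ℤ) : ℂ) := by
    intro k
    rw [← mul_sum, ac, Fintype.sum_prod_type]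
    push_cast
    rfl
  rw [sum_congr rfl fun k _ => h3 k]
  by_cases hu : u = 0
  · subst hu
    rw [if_pos rfl, sum_eq_single (0 : H)]
    · rw [hac, if_pos (by rfl), AddChar.map_zero_eq_one, map_one]
      push_cast
      ring
    · intro k _ hk
      rw [hac, if_neg (fun h => hk (congrArg Prod.snd h)), Int.cast_zero, mul_zero]
    · intro h
      exact absurd (mem_univ _) h
  · rw [if_neg hu]
    refine sum_eq_zero fun k _ => ?_
    rw [hac, if_neg (fun h => hu (congrArg Prod.fst h)), Int.cast_zero, mul_zero]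

theorem sing (h : Dat p s c m q n l D) {t : ZMod q} {E : ZMod q × H → ℤ} (hE : IsE p c m q D t E)
    (hS4 : 4 ^ ((sp E).image Prod.fst).card < p) :
    ∃ (x₀ : AddChar H ℂ → ZMod q) (J : Finset (ZMod q)), J.card ≤ m ^ 2 ∧ (∀ ψ, x₀ ψ ∈ J) ∧
      (∀ ψ x, x ≠ x₀ ψ → FF E ψ x = 0) ∧ ∀ ψ, ‖FF E ψ (x₀ ψ)‖ = m := by
  classical
  have hm := h.hm
  set S : Finset (ZMod q) := (sp E).image Prod.fst with hS
  have hSm : S.card ≤ m ^ 2 := by
    refine card_image_le.trans (sp_card E (m ^ 2) ?_)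
    rw [hE.hac 0, if_pos rfl]
    push_cast
    rfl
  obtain ⟨r, hr⟩ := pig h.hp h.hs h.hq S hS4
  have hmem : ∀ (ψ : AddChar H ℂ) (x : ZMod q), FF E ψ x ≠ 0 → x ∈ S := by
    intro ψ x hx
    obtain ⟨k, -, hk⟩ := exists_ne_zero_of_sum_ne_zero hx
    have hk2 : E (x, k) ≠ 0 := by
      intro h0
      exact hk (by rw [h0, Int.cast_zero, zero_mul])
    exact mem_image.mpr ⟨(x, k), mem_filter.mpr ⟨mem_univ _, hk2⟩, rfl⟩
  have hμ : (0 : ℝ) < (m : ℝ) ^ 2 := by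
    have : (0 : ℝ) < m := by exact_mod_cast (by omega : 0 < m)
    positivity
  have key : ∀ ψ : AddChar H ℂ, ∃ x₀ : ZMod q, (∀ x, x ≠ x₀ → FF E ψ x = 0) ∧
      ‖FF E ψ x₀‖ ^ 2 = (m : ℝ) ^ 2 := fun ψ =>
    mono (FF E ψ) ((m : ℝ) ^ 2) hμ (ff_ac hE.hac ψ) r fun x hx => hr x (hmem ψ x hx)
  choose x₀ hx₀ hn using key
  have hnorm : ∀ ψ, ‖FF E ψ (x₀ ψ)‖ = m := fun ψ =>
    (pow_left_inj₀ (norm_nonneg _) (Nat.cast_nonneg m) two_ne_zero).mp (hn ψ)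
  refine ⟨x₀, S, hSm, fun ψ => hmem ψ _ fun h0 => ?_, hx₀, hnorm⟩
  have h1 := hn ψ
  rw [h0, norm_zero] at h1
  norm_num at h1
  rw [← h1] at hμ
  exact lt_irrefl _ hμ

end Pool.RY
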