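import Pool.Agent.Lib.MP_f4ebb7_co.RY.ExE
import Pool.Agent.Lib.MP_f4ebb7_co.RY.Rel
import Pool.Agent.Lib.MP_f4ebb7_co.RY.Sing

/-! RY-Str1 (`s = 1`, `q = p`): the structure of all the `E_t`: for every `ψ` there are `x₀` and a homomorphism `η` with `FF (E_t) ψ x = m η(t) [x = (t-1) x₀]`.

PROOF. `q = p` is prime (`h.hq`), `ZMod q` a field with at least three elements; every `a ≠ 0` is a unit. For each `t`: `sing` gives `x_t`, `η_t := FF (E t) ψ x_t / m`, `‖η_t‖ = 1`. As in ClsA, by `x_rel`, `x_norm`: for all units `a`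
`X(t a) = η_t e(a x_t) X(a)`, `X(a) ≠ 0`  (*). For units `s', t`: `X(s' t a) = η_{s'} e(t a x_{s'}) X(t a) = η_{s'} η_t e(a (t x_{s'} + x_t)) X(a)`. Compare with (*) for `s' t`: `η_{s't} e(a x_{s't}) = η_{s'} η_t e(a (t x_{s'} + x_t))` for all units `a`;
the quotient of `a = 2` and `a = 1` (`p ≠ 2`; general: `e(a w) = const` for all units `a` implies `w = 0`): `x_{s't} = t x_{s'} + x_t` and then `η_{s't} = η_{s'} η_t`. `η_1 = 1`: `E 1 = m δ₀` by `e_one` (or `η_1^2 = η_1 ≠ 0`), so `η` is a monoid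
homomorphism. Commutativity: `t x_s' + x_t = s' x_t + x_s'`, i.e. `(t - 1) x_{s'} = (s' - 1) x_t`. Fix a unit `t0 ≠ 1` (`2`, `q ≥ 3`), `x₀ := x_{t0} / (t0 - 1)`: `x_{s'} = (s' - 1) x₀` for all `s'`.
The norm of `η t` is one. Last clause (conjugate character): `FF E ψ⁻¹ x = conj (FF E ψ x)` since `E` is integer valued (`AddChar.inv_apply_eq_conj` / `AddChar.map_neg_eq_conj`).
-/

set_option autoImplicit false

namespace Pool.RY

open Finset

variable {H : Type} [AddCommGroup H] [Fintype H] [DecidableEq H] {p s c m q n l : ℕ} [NeZero q]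
  {D : Finset (ZMod q × H)}

theorem str1 (h : Dat p 1 c m q n l D) (E : (ZMod q)ˣ → ZMod q × H → ℤ) (hE : ∀ t : (ZMod q)ˣ, IsE p c m q D (t : ZMod q) (E t))
    (hS4 : ∀ t : (ZMod q)ˣ, 4 ^ ((sp (E t)).image Prod.fst).card < p)
    (ψ : AddChar H ℂ) : ∃ (x₀ : ZMod q) (η : (ZMod q)ˣ →* ℂ), ∀ (t : (ZMod q)ˣ) (x : ZMod q),
      FF (E t) ψ x = if x = ((t : ZMod q) - 1) * x₀ then (m : ℂ) * η t else 0 := by
  classical
  have hqp : q = p := by rw [h.hq, pow_one]
  have hqprime : q.Prime := hqp ▸ h.hp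
  have : Fact q.Prime := ⟨hqprime⟩
  have hq2 : q ≠ 2 := hqp ▸ h.hp2
  have hm0 : (m : ℂ) ≠ 0 := by
    have := h.hm
    exact_mod_cast (by omega : m ≠ 0)
  have hp0 : (p : ℂ) ^ c ≠ 0 := pow_ne_zero _ (by exact_mod_cast h.hp.ne_zero)
  have hn : (n : ℂ) = (p : ℂ) ^ c * m := by rw [h.hn]; push_cast; rfl
  have hn0 : (n : ℂ) ≠ 0 := by rw [hn]; exact mul_ne_zero hp0 hm0
  -- the data of `sing`
  have hs := fun t : (ZMod q)ˣ => sing h (hE t) (hS4 t)
  choose y J hJ hyJ hz hnorm using hs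
  set xt : (ZMod q)ˣ → ZMod q := fun t => y t ψ with hxt
  set et : (ZMod q)ˣ → ℂ := fun t => FF (E t) ψ (xt t) / m with het
  have hz' : ∀ t x, x ≠ xt t → FF (E t) ψ x = 0 := fun t x hx => hz t ψ x hx
  have hmul : ∀ t, FF (E t) ψ (xt t) = (m : ℂ) * et t := by
    intro t
    rw [het]
    field_simp
  have het0 : ∀ t, et t ≠ 0 := by
    intro t ht
    have h1 := hnorm t ψ
    have h2 : FF (E t) ψ (y t ψ) = 0 := by
      have := hmul t
      rw [ht, mul_zero] at this
      exact this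
    rw [h2, norm_zero] at h1
    exact hm0 (by exact_mod_cast congrArg (fun r : ℝ => (r : ℂ)) h1.symm)
  -- nonvanishing of the character sums
  have hnm : ∀ a : (ZMod q)ˣ, X D (a : ZMod q) ψ * (starRingEnd ℂ) (X D (a : ZMod q) ψ) = (n : ℂ) :=
    fun a => x_norm h.ds h.card _ _ (Or.inl a.ne_zero)
  have hX0 : ∀ a : (ZMod q)ˣ, X D (a : ZMod q) ψ ≠ 0 := by
    intro a ha
    have h1 := hnm a
    rw [ha, zero_mul] at h1
    exact hn0 h1.symm
  -- the main relation
  have hrel : ∀ t a : (ZMod q)ˣ, X D ((t : ZMod q) * a) ψ =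
      et t * ZMod.stdAddChar ((a : ZMod q) * xt t) * X D (a : ZMod q) ψ := by
    intro t a
    have h1 := x_rel h (hE t) a ψ
    rw [sum_eq_single (xt t) (fun x _ hx => by rw [hz' t x hx, zero_mul])
      (fun hx => absurd (mem_univ _) hx), hmul t] at h1
    have h2 := hnm a
    have h3 : X D ((t : ZMod q) * a) ψ * (n : ℂ) =
        (n : ℂ) * (et t * ZMod.stdAddChar ((a : ZMod q) * xt t) * X D (a : ZMod q) ψ) := by
      calc X D ((t : ZMod q) * a) ψ * (n : ℂ)
          = (X D ((t : ZMod q) * a) ψ * (starRingEnd ℂ) (X D (a : ZMod q) ψ)) *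
            X D (a : ZMod q) ψ := by rw [← h2]; ring
        _ = _ := by rw [h1, hn]; ring
    rw [mul_comm] at h3
    exact mul_left_cancel₀ hn0 h3
  have hadd : ∀ u v : ZMod q, (ZMod.stdAddChar (u + v) : ℂ) = ZMod.stdAddChar u * ZMod.stdAddChar v :=
    fun u v => AddChar.map_add_eq_mul _ _ _
  have hcomp : ∀ u t a : (ZMod q)ˣ, et (u * t) * ZMod.stdAddChar ((a : ZMod q) * xt (u * t)) =
      et u * et t * ZMod.stdAddChar ((a : ZMod q) * ((t : ZMod q) * xt u + xt t)) := by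
    intro u t a
    have h1 := hrel (u * t) a
    have h2 := hrel u (t * a)
    have h3 := hrel t a
    rw [Units.val_mul] at h1 h2
    rw [show (u : ZMod q) * ((t : ZMod q) * (a : ZMod q)) = (u : ZMod q) * t * a from
      (mul_assoc _ _ _).symm] at h2
    rw [h2, h3] at h1
    have h4 : (ZMod.stdAddChar ((a : ZMod q) * ((t : ZMod q) * xt u + xt t)) : ℂ) =
        ZMod.stdAddChar ((t : ZMod q) * (a : ZMod q) * xt u) * ZMod.stdAddChar ((a : ZMod q) * xt t) := by
      rw [← hadd]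
      congr 1
      ring
    rw [h4]
    refine mul_right_cancel₀ (hX0 a) ?_
    rw [← h1]
    ring
  have h20 : (2 : ZMod q) ≠ 0 := by
    have : ((2 : ℕ) : ZMod q) ≠ 0 := by
      rw [Ne, ZMod.natCast_eq_zero_iff]
      intro hd
      exact hq2 ((Nat.prime_dvd_prime_iff_eq hqprime Nat.prime_two).1 hd)
    simpa using this
  have hxmul : ∀ u t : (ZMod q)ˣ, xt (u * t) = (t : ZMod q) * xt u + xt t := by
    intro u t
    have h1 := hcomp u t 1
    have h2 := hcomp u t (Units.mk0 2 h20)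
    rw [Units.val_one, one_mul, one_mul] at h1
    rw [Units.val_mk0] at h2
    set A := xt (u * t)
    set B := (t : ZMod q) * xt u + xt t
    rw [two_mul, two_mul, hadd, hadd] at h2
    have hA : (ZMod.stdAddChar A : ℂ) ≠ 0 := by
      have := (ZMod.stdAddChar (N := q)).map_add_eq_mul A (-A)
      rw [add_neg_cancel, AddChar.map_zero_eq_one] at this
      exact left_ne_zero_of_mul (a := (ZMod.stdAddChar A : ℂ)) (this ▸ one_ne_zero)
    have h3 : et (u * t) * ZMod.stdAddChar A ≠ 0 := mul_ne_zero (het0 _) hA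
    have h4 : (et (u * t) * ZMod.stdAddChar A) * ZMod.stdAddChar A =
        (et (u * t) * ZMod.stdAddChar A) * ZMod.stdAddChar B := by
      calc (et (u * t) * ZMod.stdAddChar A) * ZMod.stdAddChar A
          = et (u * t) * (ZMod.stdAddChar A * ZMod.stdAddChar A) := by ring
        _ = (et u * et t * ZMod.stdAddChar B) * ZMod.stdAddChar B := by rw [h2]; ring
        _ = _ := by rw [← h1]
    exact ZMod.injective_stdAddChar (mul_left_cancel₀ h3 h4)
  have hemul : ∀ u t : (ZMod q)ˣ, et (u * t) = et u * et t := by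
    intro u t
    have h1 := hcomp u t 1
    rw [← hxmul u t] at h1
    have hA : (ZMod.stdAddChar (((1 : (ZMod q)ˣ) : ZMod q) * xt (u * t)) : ℂ) ≠ 0 := by
      have := (ZMod.stdAddChar (N := q)).map_add_eq_mul (((1 : (ZMod q)ˣ) : ZMod q) * xt (u * t))
        (-(((1 : (ZMod q)ˣ) : ZMod q) * xt (u * t)))
      rw [add_neg_cancel, AddChar.map_zero_eq_one] at this
      exact left_ne_zero_of_mul (this ▸ one_ne_zero)
    exact mul_right_cancel₀ hA h1
  have he1 : et 1 = 1 := by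
    have h1 := hemul 1 1
    rw [mul_one] at h1
    exact (mul_right_cancel₀ (het0 1) (by rw [one_mul]; exact h1)).symm
  refine ⟨xt (Units.mk0 2 h20), ⟨⟨et, he1⟩, hemul⟩, fun t x => ?_⟩
  have hx : xt t = ((t : ZMod q) - 1) * xt (Units.mk0 2 h20) := by
    have h1 := hxmul (Units.mk0 2 h20) t
    have h2 := hxmul t (Units.mk0 2 h20)
    rw [mul_comm t] at h2
    rw [h2, Units.val_mk0] at h1
    linear_combination h1
  rw [← hx]
  split_ifs with hxx
  · rw [hxx]
    exact hmul t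
  · exact hz' t x hxx

theorem ff_conj (E : ZMod q × H → ℤ) (ψ : AddChar H ℂ) (x : ZMod q) :
    FF E ψ⁻¹ x = (starRingEnd ℂ) (FF E ψ x) := by
  unfold FF
  rw [map_sum]
  refine sum_congr rfl fun k _ => ?_
  rw [map_mul, map_intCast, AddChar.inv_apply, AddChar.map_neg_eq_conj]

end Pool.RY
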