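import Pool.Agent.Lib.MP_f4ebb7_co.RY.Str1

/-! RY-TauC (`s = 1`): as RY-TauB, with the data of `ψ = 1`. -/

set_option autoImplicit false

namespace Pool.RY

open Finset

variable {H : Type} [AddCommGroup H] [Fintype H] [DecidableEq H] {p s c m q n l : ℕ} [NeZero q]
  {D : Finset (ZMod q × H)}

private theorem tauC_units (hq : q.Prime) : (∑ _t : (ZMod q)ˣ, (1 : ℂ)) = ((q : ℤ) - 1 : ℤ) := by
  have : Fact q.Prime := ⟨hq⟩
  rw [Finset.sum_const, Finset.card_univ, ZMod.card_units, nsmul_eq_mul, mul_one]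
  have h1 : 1 ≤ q := hq.one_lt.le
  push_cast [Nat.cast_sub h1]
  rfl

private theorem tauC_hom (hq : q.Prime) (η : (ZMod q)ˣ →* ℂ) :
    ∑ t : (ZMod q)ˣ, η t = (((if η = 1 then (q : ℤ) - 1 else 0 : ℤ)) : ℂ) := by
  split_ifs with h
  · rw [h]
    have := tauC_units hq
    rw [← this]
    rfl
  · have h1 : ∃ t1, η t1 ≠ 1 := by
      by_contra hcon
      push Not at hcon
      apply h
      ext t
      rw [hcon t]
      rfl
    obtain ⟨t1, ht1⟩ := h1
    have h2 : η t1 * ∑ t : (ZMod q)ˣ, η t = ∑ t : (ZMod q)ˣ, η t := by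
      rw [Finset.mul_sum]
      refine Fintype.sum_bijective (fun t => t1 * t) (Group.mulLeft_bijective t1) _ _ fun t => ?_
      rw [map_mul]
    have h3 : (η t1 - 1) * ∑ t : (ZMod q)ˣ, η t = 0 := by
      rw [sub_mul, one_mul, h2, sub_self]
    rcases mul_eq_zero.1 h3 with h4 | h4
    · exact absurd (sub_eq_zero.1 h4) ht1
    · rw [h4]
      simp

theorem tauC (h : Dat p 1 c m q n l D) (E : (ZMod q)ˣ → ZMod q × H → ℤ) (hE : ∀ t : (ZMod q)ˣ, IsE p c m q D (t : ZMod q) (E t))
    (hS4 : ∀ t : (ZMod q)ˣ, 4 ^ ((sp (E t)).image Prod.fst).card < p) :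
    ∃ (N0 : ℕ) (τ : ZMod q → ℤ) (x₁ : ZMod q) (η₁ : (ZMod q)ˣ →* ℂ), (∀ i, (Fintype.card H : ℤ) * WW E i = m * τ i) ∧
      (∑ i, τ i = ((q : ℤ) - 1) * (Fintype.card H + N0)) ∧
      (∀ (t : (ZMod q)ˣ) (x : ZMod q), FF (E t) 1 x = if x = ((t : ZMod q) - 1) * x₁ then (m : ℂ) * η₁ t else 0) ∧
      (η₁ = 1 → 1 ≤ N0) ∧ ∃ i, i ≠ x₁ ∧ τ i = Fintype.card H := by
  have hqp : q.Prime := by
    have := h.hq
    rw [pow_one] at this
    rw [this]
    exact h.hp
  have hfact : Fact q.Prime := ⟨hqp⟩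
  have hm0 : (m : ℂ) ≠ 0 := by
    have := h.hm
    exact_mod_cast (by omega : m ≠ 0)
  choose x₀ η hη using fun ψ => str1 h E hE hS4 ψ
  -- the local terms
  obtain ⟨τψ, hτψ⟩ : ∃ τψ : ZMod q → AddChar H ℂ → ℤ, τψ = fun i ψ =>
    if i = x₀ ψ then (if η ψ = 1 then (q : ℤ) - 1 else 0) else 1 := ⟨_, rfl⟩
  have hT : ∀ i ψ, ∑ t : (ZMod q)ˣ, FF (E t) ψ (((t : ZMod q) - 1) * i) = (m : ℂ) * (τψ i ψ : ℂ) := by
    intro i ψ
    rw [hτψ]
    by_cases hi : i = x₀ ψ
    · have h1 : ∀ t : (ZMod q)ˣ, FF (E t) ψ (((t : ZMod q) - 1) * i) = (m : ℂ) * η ψ t := by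
        intro t
        rw [hη ψ t, if_pos (by rw [hi])]
      rw [Finset.sum_congr rfl fun t _ => h1 t, ← Finset.mul_sum, tauC_hom hqp (η ψ)]
      simp only [hi, if_true]
    · have h1 : ∀ t : (ZMod q)ˣ, FF (E t) ψ (((t : ZMod q) - 1) * i) =
          if t = 1 then (m : ℂ) else 0 := by
        intro t
        rw [hη ψ t]
        by_cases ht : t = 1
        · rw [if_pos ht, ht, map_one, mul_one, if_pos (by simp)]
        · rw [if_neg ht, if_neg]
          intro hcon
          have h2 : ((t : ZMod q) - 1) * (i - x₀ ψ) = 0 := by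
            rw [mul_sub, hcon, sub_self]
          rcases mul_eq_zero.1 h2 with h3 | h3
          · apply ht
            apply Units.ext
            rw [sub_eq_zero.1 h3]
            rfl
          · exact hi (sub_eq_zero.1 h3)
      rw [Finset.sum_congr rfl fun t _ => h1 t]
      simp [hi]
  have hsum : ∀ i, (Fintype.card H : ℤ) * WW E i = m * ∑ ψ : AddChar H ℂ, τψ i ψ := by
    intro i
    have h1 : ((Fintype.card H : ℤ) : ℂ) * ((WW E i : ℤ) : ℂ) =
        (m : ℂ) * ∑ ψ : AddChar H ℂ, (τψ i ψ : ℂ) := by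
      rw [Finset.mul_sum, ← Finset.sum_congr rfl fun ψ _ => hT i ψ, Finset.sum_comm]
      unfold WW
      push_cast
      rw [Finset.mul_sum]
      refine Finset.sum_congr rfl fun t _ => ?_
      unfold FF
      rw [Finset.sum_comm]
      have h2 : ∀ x : H, ∑ ψ : AddChar H ℂ, ((E t (((t : ZMod q) - 1) * i, x) : ℤ) : ℂ) * ψ x =
          if x = 0 then ((E t (((t : ZMod q) - 1) * i, x) : ℤ) : ℂ) * (Fintype.card H : ℂ) else 0 := by
        intro x
        rw [← Finset.mul_sum, AddChar.sum_apply_eq_ite]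
        split_ifs <;> simp
      rw [Finset.sum_congr rfl fun x _ => h2 x, Finset.sum_ite_eq' univ (0 : H)]
      simp [mul_comm]
    have h2 : (((Fintype.card H : ℤ) * WW E i : ℤ) : ℂ) =
        ((m * ∑ ψ : AddChar H ℂ, τψ i ψ : ℤ) : ℂ) := by
      push_cast
      push_cast at h1
      exact h1
    exact_mod_cast h2
  refine ⟨(univ.filter fun ψ : AddChar H ℂ => η ψ = 1).card, fun i => ∑ ψ : AddChar H ℂ, τψ i ψ, x₀ 1, η 1, hsum, ?_,
    hη 1, ?_, ?_⟩
  · rw [Finset.sum_comm]
    have h1 : ∀ ψ : AddChar H ℂ, ∑ i : ZMod q, τψ i ψ = ((q : ℤ) - 1) * (1 + if η ψ = 1 then 1 else 0) := by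
      intro ψ
      rw [hτψ]
      have h2 : ∀ i : ZMod q, (if i = x₀ ψ then (if η ψ = 1 then (q : ℤ) - 1 else 0) else 1) =
          1 + if i = x₀ ψ then ((if η ψ = 1 then (q : ℤ) - 1 else 0) - 1) else 0 := by
        intro i
        split_ifs <;> ring
      show ∑ i : ZMod q, (if i = x₀ ψ then (if η ψ = 1 then (q : ℤ) - 1 else 0) else 1) = _
      rw [Finset.sum_congr rfl fun i _ => h2 i, Finset.sum_add_distrib, Finset.sum_ite_eq' univ (x₀ ψ),
        if_pos (Finset.mem_univ _), Finset.sum_const, Finset.card_univ, ZMod.card, nsmul_eq_mul]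
      split_ifs <;> ring
    rw [Finset.sum_congr rfl fun ψ _ => h1 ψ, ← Finset.mul_sum, Finset.sum_add_distrib, Finset.sum_boole,
      Finset.sum_const, Finset.card_univ, AddChar.card_eq, nsmul_eq_mul, mul_one]
  · intro h1
    exact Finset.card_pos.2 ⟨1, Finset.mem_filter.2 ⟨Finset.mem_univ _, h1⟩⟩
  · -- a point which is not an `x₀ ψ`
    have hq3 : 3 ≤ q := by
      have h1 := hqp.two_le
      have h2 : q ≠ 2 := by
        have h3 := h.hq
        rw [pow_one] at h3
        rw [h3]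
        exact h.hp2
      omega
    have hneg : ((-1 : (ZMod q)ˣ) : ZMod q) - 1 ≠ 0 := by
      rw [Units.val_neg, Units.val_one]
      intro hcon
      have h1 : ((2 : ℕ) : ZMod q) = 0 := by
        push_cast
        linear_combination -hcon
      rw [ZMod.natCast_eq_zero_iff] at h1
      have := Nat.le_of_dvd (by norm_num) h1
      omega
    have hsub : (univ.image x₀).image (fun i => (((-1 : (ZMod q)ˣ) : ZMod q) - 1) * i) ⊆
        (sp (E (-1))).image Prod.fst := by
      intro y hy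
      rw [Finset.mem_image] at hy
      obtain ⟨i, hi, rfl⟩ := hy
      rw [Finset.mem_image] at hi
      obtain ⟨ψ, -, rfl⟩ := hi
      have h1 := hη ψ (-1) ((((-1 : (ZMod q)ˣ) : ZMod q) - 1) * x₀ ψ)
      rw [if_pos rfl] at h1
      have h2 : FF (E (-1)) ψ ((((-1 : (ZMod q)ˣ) : ZMod q) - 1) * x₀ ψ) ≠ 0 := by
        rw [h1]
        refine mul_ne_zero hm0 ?_
        intro hcon
        have h3 : η ψ (-1) * η ψ (-1) = 1 := by
          rw [← map_mul, neg_one_mul, neg_neg, map_one]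
        rw [hcon, zero_mul] at h3
        exact zero_ne_one h3
      unfold FF at h2
      obtain ⟨x, -, hx⟩ := Finset.exists_ne_zero_of_sum_ne_zero h2
      rw [Finset.mem_image]
      refine ⟨((((-1 : (ZMod q)ˣ) : ZMod q) - 1) * x₀ ψ, x), ?_, rfl⟩
      unfold sp
      rw [Finset.mem_filter]
      refine ⟨Finset.mem_univ _, ?_⟩
      intro hcon
      apply hx
      rw [hcon]
      simp
    have hcard : (univ.image x₀).card ≤ m ^ 2 := by
      have h1 := Finset.card_le_card hsub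
      rw [Finset.card_image_of_injective _ (mul_right_injective₀ hneg)] at h1
      refine h1.trans (Finset.card_image_le.trans (sp_card (E (-1)) (m ^ 2) ?_))
      have h2 := (hE (-1)).hac 0
      rw [if_pos rfl] at h2
      rw [h2]
      push_cast
      rfl
    have hlt : (univ.image x₀).card < Fintype.card (ZMod q) := by
      rw [ZMod.card]
      have h1 := h.h16
      have h2 : q = p := by
        have := h.hq
        rwa [pow_one] at this
      have h3 : m ^ 2 ≤ m ^ 4 := Nat.pow_le_pow_right (by have := h.hm; omega) (by norm_num)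
      omega
    obtain ⟨i, hi⟩ : ∃ i, i ∉ univ.image x₀ := by
      by_contra hcon
      push Not at hcon
      have h1 : univ.image x₀ = univ := Finset.eq_univ_iff_forall.2 hcon
      rw [h1, Finset.card_univ] at hlt
      exact lt_irrefl _ hlt
    refine ⟨i, fun hcon => hi (Finset.mem_image.2 ⟨1, Finset.mem_univ _, hcon.symm⟩), ?_⟩
    have h1 : ∀ ψ ∈ (univ : Finset (AddChar H ℂ)), τψ i ψ = 1 := by
      intro ψ _
      rw [hτψ]
      show (if i = x₀ ψ then (if η ψ = 1 then (q : ℤ) - 1 else 0) else 1) = 1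
      rw [if_neg]
      intro hcon
      exact hi (Finset.mem_image.2 ⟨ψ, Finset.mem_univ _, hcon.symm⟩)
    show ∑ ψ : AddChar H ℂ, τψ i ψ = _
    rw [Finset.sum_congr rfl h1, Finset.sum_const, Finset.card_univ, AddChar.card_eq, nsmul_eq_mul, mul_one]

end Pool.RY
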