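import Pool.Agent.Lib.MP_f4ebb7_co.RY.Rng
import Pool.Agent.Lib.MP_f4ebb7_co.RY.Nid

/-! RY-Tcon: `T(x, h) = ∑_{p y = 0} (Δ(x + y, h) - Δ(x, h))`, `Δ = N_t - N_1`, `t = 1 + p^(s-1)`, does not depend on `x` modulo `p^(c+1)`.

PROOF. `N = 2 q w`, `cyc_exists N` (N even) gives `R`, `C` (Dedekind, characteristic zero). `T` the lift of `t` (`unit_lift` with `r = 2 w`, `2 q w = q (2 w)`, `gcd(q, 2w) = 1`). `σ = sg T`. `X = Phi C b (ind D)`, `Xc = cj X`.
`X Xc = Phi b (cnt D D) = n = m p^c` (`phi_mul_cj`, `ds_rep`, `sum_chi`). `σ X Xc = Phi b (Nt D t)` (`phi_nt`). So `(σ X - X) Xc = Phi b Δ`, `Δ g = Nt D t g - cnt D D g`.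
`n1` with `π = 1 - wq 1`, `ϖ = 1 - wq z` (`z = p^(s-1)`), `Q = p^c`, `hσ = rng_sigma`, `hP`: a prime ideal with `p^c ∈ P` contains `p`, `frob C p hp T ⟨s, 2 * w, 0, _, _⟩ P` and `rng_prime`: so `(1 - wq 1) Phi b Δ ∈ I := span {ϖ p^c}` for all `b`. `p^(c+1) ∈ I` (`rng_w`: `p = -ϖ W`,
`W = ∑_{i<p} i wq(i z)`). `inv_b`: `(1 - wq 1) ∑_x Δ(x, h) wq x = ϖ p^c r`. Multiply by `W`: `W (1 - wq 1) ∑_x Δ(x,h) wq x = - p^(c+1) r`. The left side is `∑_x F(x) wq x`, `F(x) = ∑_{i<p} i (Δ(x - i z, h) - Δ(x - 1 - i z, h))` (reindex).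
`tr_lemma` (`Q = p^(c+1)`, `r = 2 w`, `i = x - z`, `y = z`, or `y = -z`): `p^(c+1) ∣ F(x - z) - F(x)`. With `f(x) = Δ(x,h) - Δ(x-1,h)`: `F(x - z) - F(x) = ∑_{i<p} i f(x - (i+1) z) - ∑_{i<p} i f(x - i z) = p f(x) - ∑_{i<p} f(x - i z)` (as `p z = 0`), and
`{y : p y = 0} = {i z : i < p}` (bijection; `card` `p`): this is `-(∑_{p y = 0} (f(x + y) - f(x))) = -(TT Δ (x, h) - TT Δ (x - 1, h))`. Replace `x` by `x + 1`.
-/

set_option autoImplicit false

namespace Pool.RY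

open Finset CHD

variable {p s c m q w n l : ℕ} [NeZero q] [NeZero w] {D : Finset (ZMod q × ZMod w)}

private theorem tcon_tor {p s q : ℕ} [NeZero q] (hp : p.Prime) (hs : 1 ≤ s) (hq : q = p ^ s) (F : ZMod q → ℤ) :
    ∑ y ∈ univ.filter (fun y : ZMod q => (p : ZMod q) * y = 0), F y =
      ∑ k ∈ range p, F (-((k : ZMod q) * (p : ZMod q) ^ (s - 1))) := by
  obtain ⟨r, rfl⟩ : ∃ r, s = r + 1 := ⟨s - 1, by omega⟩
  rw [Nat.add_sub_cancel]
  have hq' : q = p ^ r * p := by rw [hq, pow_succ]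
  have hpr : 0 < p ^ r := pow_pos hp.pos _
  have hc : ∀ k : ℕ, (k : ZMod q) * (p : ZMod q) ^ r = ((p ^ r * k : ℕ) : ZMod q) := by
    intro k
    push_cast
    ring
  symm
  refine Finset.sum_bij (fun k _ => -((k : ZMod q) * (p : ZMod q) ^ r)) ?_ ?_ ?_ ?_
  · intro k _
    rw [mem_filter]
    refine ⟨mem_univ _, ?_⟩
    have h1 : (p : ZMod q) * -((k : ZMod q) * (p : ZMod q) ^ r) = -((p ^ r * p * k : ℕ) : ZMod q) := by
      push_cast
      ring
    rw [h1, ← hq', neg_eq_zero, ZMod.natCast_eq_zero_iff]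
    exact dvd_mul_right _ _
  · intro a ha b hb hab
    rw [mem_range] at ha hb
    have h0 : ∀ k, k < p → p ^ r * k < q := fun k hk => by
      rw [hq']
      exact Nat.mul_lt_mul_of_pos_left hk hpr
    have hab' := neg_injective hab
    rw [hc, hc, ZMod.natCast_eq_natCast_iff] at hab'
    have h2 : p ^ r * a = p ^ r * b := Nat.ModEq.eq_of_lt_of_lt hab' (h0 a ha) (h0 b hb)
    exact Nat.eq_of_mul_eq_mul_left hpr h2
  · intro y hy
    rw [mem_filter] at hy
    have h1 : ((p * (-y).val : ℕ) : ZMod q) = 0 := by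
      rw [Nat.cast_mul, ZMod.natCast_zmod_val, mul_neg, hy.2, neg_zero]
    rw [ZMod.natCast_eq_zero_iff] at h1
    have h1' : p * p ^ r ∣ p * (-y).val := by
      rwa [show p * p ^ r = q by rw [hq', mul_comm]]
    have h2 : p ^ r ∣ (-y).val := Nat.dvd_of_mul_dvd_mul_left hp.pos h1'
    obtain ⟨k, hk⟩ := h2
    have h3 : (-y).val < q := ZMod.val_lt (-y)
    refine ⟨k, ?_, ?_⟩
    · rw [mem_range]
      have h5 : p ^ r * k < p ^ r * p := by
        rw [← hk, ← hq']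
        exact h3
      exact Nat.lt_of_mul_lt_mul_left h5
    · show -((k : ZMod q) * (p : ZMod q) ^ r) = y
      rw [hc, ← hk, ZMod.natCast_zmod_val, neg_neg]
  · intro k _
    rfl

private theorem tcon_abel (a : ℕ → ℤ) (n : ℕ) :
    ∑ i ∈ range n, (i : ℤ) * (a (i + 1) - a i) = (n : ℤ) * a n - ∑ i ∈ range n, a (i + 1) := by
  induction n with
  | zero => simp
  | succ n ih =>
    rw [sum_range_succ, sum_range_succ, ih]
    push_cast
    ring

private theorem tcon_abel' (a : ℕ → ℤ) (n : ℕ) (h : a n = a 0) :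
    ∑ i ∈ range n, (i : ℤ) * (a (i + 1) - a i) = -∑ i ∈ range n, (a i - a 0) := by
  have h1 : ∑ i ∈ range n, a (i + 1) = ∑ i ∈ range n, a i := by
    have h2 := sum_range_succ a n
    have h3 := sum_range_succ' a n
    linarith
  rw [tcon_abel, h, h1, sum_sub_distrib, sum_const, card_range, nsmul_eq_mul]
  ring

/-- multiplication of the sum by `(1 - ζ) ∑ i ζ_p^i` -/
private theorem tcon_mul {R : Type} [CommRing R] (C : Cyc (2 * q * w) R) (p : ℕ) (z : ZMod q) (f : ZMod q → ℤ) :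
    (∑ i ∈ range p, (i : R) * wq C (2 * w) ((i : ZMod q) * z)) *
      ((1 - wq C (2 * w) (1 : ZMod q)) * ∑ x : ZMod q, (f x : R) * wq C (2 * w) x) =
      ∑ x : ZMod q, ((∑ i ∈ range p, (i : ℤ) * (f (x - (i : ZMod q) * z) - f (x - (i : ZMod q) * z - 1)) : ℤ) : R) *
        wq C (2 * w) x := by
  have h1 : ∀ y : ZMod q, wq C (2 * w) y * ∑ x : ZMod q, (f x : R) * wq C (2 * w) x =
      ∑ x : ZMod q, (f (x - y) : R) * wq C (2 * w) x := by
    intro y
    rw [mul_sum, ← Equiv.sum_comp (Equiv.addRight y) (fun x => (f (x - y) : R) * wq C (2 * w) x)]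
    refine sum_congr rfl fun x _ => ?_
    simp only [Equiv.coe_addRight, add_sub_cancel_right]
    rw [wq_add]
    ring
  have h2 : ∀ i : ℕ, (i : R) * wq C (2 * w) ((i : ZMod q) * z) *
      ((1 - wq C (2 * w) (1 : ZMod q)) * ∑ x : ZMod q, (f x : R) * wq C (2 * w) x) =
      ∑ x : ZMod q, ((i : ℤ) * (f (x - (i : ZMod q) * z) - f (x - (i : ZMod q) * z - 1)) : ℤ) *
        wq C (2 * w) x := by
    intro i
    have h3 : (i : R) * wq C (2 * w) ((i : ZMod q) * z) *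
        ((1 - wq C (2 * w) (1 : ZMod q)) * ∑ x : ZMod q, (f x : R) * wq C (2 * w) x) =
        (i : R) * (wq C (2 * w) ((i : ZMod q) * z) * ∑ x : ZMod q, (f x : R) * wq C (2 * w) x -
          wq C (2 * w) ((i : ZMod q) * z + 1) * ∑ x : ZMod q, (f x : R) * wq C (2 * w) x) := by
      rw [wq_add]
      ring
    rw [h3, h1, h1, ← sum_sub_distrib, mul_sum]
    refine sum_congr rfl fun x _ => ?_
    rw [← sub_sub]
    push_cast
    ring
  rw [sum_mul, sum_congr rfl fun i _ => h2 i, sum_comm]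
  refine sum_congr rfl fun x _ => ?_
  rw [← sum_mul]
  push_cast
  rfl

theorem t_const (hp : p.Prime) (hp2 : p ≠ 2) (hs : 2 ≤ s) (hq : q = p ^ s) (hw : ¬ p ∣ w) (hn : n = p ^ c * m) (hm : m ≠ 0)
    (hD : IsDS (ZMod q × ZMod w) D l) (hk : D.card = n + l) (t : (ZMod q)ˣ) (ht : (t : ZMod q) = 1 + (p : ZMod q) ^ (s - 1))
    (x : ZMod q) (h : ZMod w) :
    (p : ℤ) ^ (c + 1) ∣ TT p (fun g => Nt D (t : ZMod q) g - cnt D D g) (x + 1, h) -
      TT p (fun g => Nt D (t : ZMod q) g - cnt D D g) (x, h) := by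
  classical
  haveI : Fact p.Prime := ⟨hp⟩
  haveI : NeZero p := ⟨hp.ne_zero⟩
  have hs1 : 1 ≤ s := by omega
  have hq1 : 1 < q := by
    rw [hq]
    exact Nat.one_lt_pow (by omega) hp.one_lt
  have hqr : q.Coprime (2 * w) := by
    rw [hq]
    apply Nat.Coprime.pow_left
    rw [Nat.Prime.coprime_iff_not_dvd hp, Nat.Prime.dvd_mul hp]
    rintro (h | h)
    · exact hp2 ((Nat.prime_dvd_prime_iff_eq hp Nat.prime_two).1 h)
    · exact hw h
  have hN : 2 * q * w = q * (2 * w) := by ring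
  obtain ⟨R, i1, i2, i3, i4, ⟨C⟩⟩ := cyc_exists (2 * q * w) ⟨q * w, by ring⟩
  obtain ⟨T, hT1, hT2⟩ := unit_lift (N := 2 * q * w) hN hqr t
  set z : ZMod q := (p : ZMod q) ^ (s - 1) with hz
  set g : R := wq C (2 * w) z with hg
  set π : R := 1 - wq C (2 * w) (1 : ZMod q) with hπ
  set W : R := ∑ i ∈ range p, (i : R) * wq C (2 * w) ((i : ZMod q) * z) with hW
  have hpW : (g - 1) * W = (p : R) := rng_w C hp hs1 hq
  -- the character sums
  have hchi0 : ∀ b : ZMod w, chi C b (0 : ZMod q × ZMod w) = 1 := by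
    intro b
    unfold chi
    have h2 : wq C (2 * w) (0 : ZMod q × ZMod w).1 = 1 := wq_zero C (2 * w)
    rw [h2]
    have h3 : b * (0 : ZMod q × ZMod w).2 = 0 := mul_zero b
    rw [h3]
    unfold wq
    rw [ZMod.val_zero, mul_zero, pow_zero, one_mul]
  have hcnt : ∀ g' : ZMod q × ZMod w, cnt D D g' = (l : ℤ) + if g' = 0 then (n : ℤ) else 0 := fun g' =>
    ds_rep hD hk g'
  have hXX : ∀ b : ZMod w, Phi C b (ind D) * C.cj (Phi C b (ind D)) = (m : R) * ((p ^ c : ℕ) : R) := by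
    intro b
    rw [phi_mul_cj]
    unfold Phi
    have h1 : ∀ g' : ZMod q × ZMod w, ((cnt D D g' : ℤ) : R) * chi C b g' =
        (l : R) * chi C b g' + if g' = 0 then (n : R) * chi C b g' else 0 := by
      intro g'
      rw [hcnt]
      split_ifs
      · push_cast
        ring
      · push_cast
        ring
    rw [Finset.sum_congr rfl fun g' _ => h1 g', Finset.sum_add_distrib, ← Finset.mul_sum, sum_chi C hq1 b, mul_zero,
      zero_add, Finset.sum_ite_eq' univ (0 : ZMod q × ZMod w), if_pos (mem_univ _), hchi0, mul_one, hn]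
    push_cast
    ring
  set Δ : ZMod q × ZMod w → ℤ := fun g' => Nt D (t : ZMod q) g' - cnt D D g' with hΔ
  have hPhi : ∀ b : ZMod w, (C.sg T (Phi C b (ind D)) - Phi C b (ind D)) * C.cj (Phi C b (ind D)) = Phi C b Δ := by
    intro b
    have h1 := phi_nt C T (t : ZMod q) hT1 hT2 b D
    have h2 := phi_mul_cj C b D D
    rw [sub_mul, h1, h2]
    unfold Phi
    rw [← Finset.sum_sub_distrib]
    refine Finset.sum_congr rfl fun g' _ => ?_
    rw [hΔ]
    push_cast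
    ring
  -- the ideal
  have hker : ∀ b : ZMod w, π * Phi C b Δ ∈ Ideal.span {(1 - g) * ((p ^ c : ℕ) : R)} := by
    intro b
    have hne : Phi C b (ind D) ≠ 0 := by
      intro h0
      have h1 := hXX b
      rw [h0, zero_mul] at h1
      have h2 : ((m * p ^ c : ℕ) : R) ≠ 0 := by
        have : m * p ^ c ≠ 0 := mul_ne_zero hm (pow_ne_zero _ hp.ne_zero)
        exact_mod_cast this
      apply h2
      push_cast at h1 ⊢
      exact h1.symm
    obtain ⟨y, hy⟩ := n1 (C.sg T) π (1 - g) (Phi C b (ind D)) (C.cj (Phi C b (ind D))) m (p ^ c) (hXX b) hne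
      (fun x => rng_sigma C hp hp2 hs hq hw T (t : ZMod q) ht hT1 hT2 x) (by
        intro P hP h1
        have h2 : (p : R) ∈ P := by
          rw [Nat.cast_pow] at h1
          exact hP.mem_of_pow_mem c h1
        refine ⟨frob C p hp T ⟨s, 2 * w, 0, ?_, ?_⟩ P hP h2, rng_prime C hp hs1 hq P hP h2⟩
        · rw [hN]
          nth_rw 1 [hq]
        · rw [pow_zero]
          exact hT2)
    rw [← hPhi, ← mul_assoc, hy]
    exact Ideal.mul_mem_right _ _ (Ideal.mem_span_singleton_self _)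
  have hpc : (p : R) ^ (c + 1) ∈ Ideal.span {(1 - g) * ((p ^ c : ℕ) : R)} := by
    rw [Ideal.mem_span_singleton]
    refine ⟨-W, ?_⟩
    push_cast
    linear_combination (-(p : R) ^ c) * hpW
  have hinv := inv_b C (Ideal.span {(1 - g) * ((p ^ c : ℕ) : R)}) hp hw hpc Δ π hker h
  rw [Ideal.mem_span_singleton] at hinv
  obtain ⟨r, hr⟩ := hinv
  have hF := tcon_mul C p z (fun x => Δ (x, h))
  have hF2 : ∑ x : ZMod q, ((∑ i ∈ range p, (i : ℤ) * ((fun x => Δ (x, h)) (x - (i : ZMod q) * z) -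
      (fun x => Δ (x, h)) (x - (i : ZMod q) * z - 1)) : ℤ) : R) * wq C (2 * w) x =
      ((p ^ (c + 1) : ℕ) : R) * (-r) := by
    rw [← hF]
    have h3 : (1 - wq C (2 * w) (1 : ZMod q)) * ∑ x : ZMod q, (((fun x => Δ (x, h)) x : ℤ) : R) * wq C (2 * w) x =
        (1 - g) * ((p ^ c : ℕ) : R) * r := hr
    rw [h3, ← hW]
    push_cast
    linear_combination (-(p : R) ^ c * r) * hpW
  have hpz : (p : ZMod q) * (-z) = 0 := by
    rw [mul_neg, hz, ← pow_succ', Nat.sub_add_cancel hs1]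
    have h3 : ((p ^ s : ℕ) : ZMod q) = 0 := by rw [← hq]; exact ZMod.natCast_self q
    have h4 : (p : ZMod q) ^ s = 0 := by exact_mod_cast h3
    rw [h4, neg_zero]
  have htr := tr_lemma C hp hs1 hq hN hqr (fun x => ∑ i ∈ range p, (i : ℤ) * (Δ (x - (i : ZMod q) * z, h) -
      Δ (x - (i : ZMod q) * z - 1, h))) (p ^ (c + 1)) (pow_ne_zero _ hp.ne_zero) ⟨-r, hF2⟩ (x + 1) (-z) hpz
  -- summation by parts
  set f : ZMod q → ℤ := fun y => Δ (y, h) - Δ (y - 1, h) with hf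
  have hab := tcon_abel' (fun i : ℕ => f (x + 1 - (i : ZMod q) * z)) p (by
    show f (x + 1 - (p : ZMod q) * z) = f (x + 1 - ((0 : ℕ) : ZMod q) * z)
    have h3 : (p : ZMod q) * z = 0 := by
      rw [mul_neg, neg_eq_zero] at hpz
      exact hpz
    rw [h3, Nat.cast_zero, zero_mul])
  have hd : (∑ i ∈ range p, (i : ℤ) * (Δ (x + 1 + -z - (i : ZMod q) * z, h) - Δ (x + 1 + -z - (i : ZMod q) * z - 1, h))) -
      (∑ i ∈ range p, (i : ℤ) * (Δ (x + 1 - (i : ZMod q) * z, h) - Δ (x + 1 - (i : ZMod q) * z - 1, h))) =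
      -∑ i ∈ range p, (f (x + 1 - (i : ZMod q) * z) - f (x + 1)) := by
    have h4 : ∀ i : ℕ, x + 1 + -z - (i : ZMod q) * z = x + 1 - ((i + 1 : ℕ) : ZMod q) * z := by
      intro i
      push_cast
      ring
    have h5 : x + 1 - ((0 : ℕ) : ZMod q) * z = x + 1 := by
      rw [Nat.cast_zero, zero_mul, sub_zero]
    rw [h5] at hab
    rw [← hab, ← sum_sub_distrib]
    refine sum_congr rfl fun i _ => ?_
    rw [h4]
    show _ = (i : ℤ) * (f (x + 1 - ((i + 1 : ℕ) : ZMod q) * z) - f (x + 1 - (i : ZMod q) * z))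
    rw [hf]
    ring
  have hgoal : TT p Δ (x + 1, h) - TT p Δ (x, h) = ∑ i ∈ range p, (f (x + 1 - (i : ZMod q) * z) - f (x + 1)) := by
    unfold TT
    rw [← sum_sub_distrib]
    have h6 : ∀ y ∈ univ.filter (fun y : ZMod q => (p : ZMod q) * y = 0),
        Δ ((x + 1, h) + (y, 0)) - Δ (x + 1, h) - (Δ ((x, h) + (y, 0)) - Δ (x, h)) =
        (fun y => f (x + 1 + y) - f (x + 1)) y := by
      intro y _
      have h7 : ((x + 1, h) + (y, 0) : ZMod q × ZMod w) = (x + 1 + y, h) := by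
        rw [Prod.mk_add_mk, add_zero]
      have h8 : ((x, h) + (y, 0) : ZMod q × ZMod w) = (x + 1 + y - 1, h) := by
        rw [Prod.mk_add_mk, add_zero]
        congr 1
        ring
      have h9 : x + 1 - 1 = x := add_sub_cancel_right x 1
      show _ = f (x + 1 + y) - f (x + 1)
      rw [h7, h8, hf]
      simp only [h9]
      ring
    rw [sum_congr rfl h6, tcon_tor hp hs1 hq]
    refine sum_congr rfl fun i _ => ?_
    show f (x + 1 + -((i : ZMod q) * z)) - f (x + 1) = _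
    rw [← sub_eq_add_neg]
  show (p : ℤ) ^ (c + 1) ∣ TT p Δ (x + 1, h) - TT p Δ (x, h)
  rw [hgoal, ← dvd_neg, ← hd]
  have h10 : ((p ^ (c + 1) : ℕ) : ℤ) = (p : ℤ) ^ (c + 1) := by push_cast; rfl
  rw [← h10]
  exact htr

end Pool.RY
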