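import Pool.Agent.Lib.MP_f4ebb7_co.RY.Tcon
import Pool.Agent.Lib.MP_f4ebb7_co.RY.NTb
import Pool.Agent.Lib.MP_f4ebb7_co.RY.B1
import Pool.Agent.Lib.MP_f4ebb7_co.RY.Unq

/-! RY-Tzero: `T(g) ≡ 0 mod p^(c+1)`.

PROOF. Fix `g = (x, h)`. By `t_const` and induction `T(x', h) ≡ T(x, h) mod p^(c+1)` for all `x'`. So it is enough to find `x'` with `Δ` constant on `(x', h) + P1` (then `T(x', h) = 0`).
`cnt D D g' = l + n [g' = 0]` (`ds_rep`) is constant on `(x', h) + P1` unless `(x', h) ∈ P1`, i.e. `h = 0`, `p x' = 0`. `N_t`: by `nt_ac` and `ac_diff`, for `y ∈ P1`, `y ≠ 0`: `∑_g (N_t(g) - N_t(g+y))^2 = 2 n^2`; sum over the `p - 1` such `y` (`card_P1`):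
`∑_g ∑_{y ∈ P1} (N_t(g) - N_t(g+y))^2 = 2 (p-1) n^2`. For a coset `C` of `P1` on which `N_t` is not constant, `∑_{g ∈ C} ∑_y (N_t(g) - N_t(g+y))^2 ≥ 2 (p-1) p^(2c)`: the differences are multiples of `p^c` (`nt_div`), and the number of ordered pairs in `C` with different
values is at least `2 (p-1)` (choose two elements `a`, `b` of `C` with different values: every `g ∈ C` differs from `a` or from `b` in value; so at least `p` unordered pairs... in detail: if `k` elements of `C` have the value of `a`, `1 ≤ k ≤ p-1`, there are at least `2 k (p-k) ≥ 2 (p-1)`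
ordered pairs). So the number of non-constant cosets is at most `m^2` (`n = p^c m`). The fibre over `h` contains `q/p = p^(s-1) ≥ p > 3 m^2 ≥ m^2 + 2` cosets (`m ≥ 1`; the `x' = 0, 1, ..., p^(s-1) - 1` are in different cosets), so one of them, different from `P1`, is constant
for `N_t`. (It is enough to use the cosets of `x' = 1, ..., p - 1`, all different from `P1` and from each other, `p - 1 > m^2`.)
-/

set_option autoImplicit false

namespace Pool.RY

open Finset CHD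

variable {p s c m q w n l : ℕ} [NeZero q] [NeZero w] {D : Finset (ZMod q × ZMod w)}

private theorem tz_p {p s q : ℕ} [NeZero q] (hp : p.Prime) (hs : 2 ≤ s) (hq : q = p ^ s) (a b : ℕ) (ha : a < p)
    (hb : b < p) (h : (p : ZMod q) * ((a : ZMod q) - b) = 0) : a = b := by
  have h1 : ((p * a : ℕ) : ZMod q) = ((p * b : ℕ) : ZMod q) := by
    push_cast
    linear_combination h
  rw [ZMod.natCast_eq_natCast_iff] at h1
  have h2 : p * p ∣ q := by
    rw [hq, ← pow_two]
    exact pow_dvd_pow p hs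
  have h3 : p * a ≡ p * b [MOD p * p] := h1.of_dvd h2
  have h4 : a ≡ b [MOD p] := Nat.ModEq.mul_left_cancel' hp.ne_zero h3
  exact Nat.ModEq.eq_of_lt_of_lt h4 ha hb

private theorem tz_sq {a b : ℤ} {Q : ℤ} (hd : Q ∣ b - a) (hne : a ≠ b) : Q ^ 2 ≤ (a - b) ^ 2 := by
  obtain ⟨r, hr⟩ := hd
  have h1 : r ≠ 0 := by
    rintro rfl
    apply hne
    linarith
  have h2 : (a - b) ^ 2 = Q ^ 2 * r ^ 2 := by
    have : a - b = -(Q * r) := by linarith
    rw [this]
    ring
  have h3 : 1 ≤ r ^ 2 := by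
    have : 0 < r ^ 2 := by positivity
    omega
  rw [h2]
  nlinarith [sq_nonneg Q]

theorem t_zero (hp : p.Prime) (hp2 : p ≠ 2) (hs : 2 ≤ s) (hq : q = p ^ s) (hw : ¬ p ∣ w) (hn : n = p ^ c * m) (hm : m ≠ 0)
    (hbig : 3 * m ^ 2 < p) (hD : IsDS (ZMod q × ZMod w) D l) (hk : D.card = n + l) (t : (ZMod q)ˣ)
    (ht : (t : ZMod q) = 1 + (p : ZMod q) ^ (s - 1)) (g : ZMod q × ZMod w) :
    (p : ℤ) ^ (c + 1) ∣ TT p (fun g => Nt D (t : ZMod q) g - cnt D D g) g := by
  obtain ⟨x, h⟩ := g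
  have hstep : ∀ k : ℕ, ∀ x : ZMod q, (p : ℤ) ^ (c + 1) ∣
      TT p (fun g => Nt D (t : ZMod q) g - cnt D D g) (x + (k : ZMod q), h) -
        TT p (fun g => Nt D (t : ZMod q) g - cnt D D g) (x, h) := by
    intro k
    induction k with
    | zero =>
      intro x
      rw [Nat.cast_zero, add_zero, sub_self]
      exact dvd_zero _
    | succ k ih =>
      intro x
      have h1 := t_const hp hp2 hs hq hw hn hm hD hk t ht (x + (k : ZMod q)) h
      have h2 := dvd_add h1 (ih x)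
      have h3 : x + (k : ZMod q) + 1 = x + ((k + 1 : ℕ) : ZMod q) := by
        push_cast
        ring
      rw [h3] at h2
      have h4 : ∀ a b c : ℤ, a - b + (b - c) = a - c := fun a b c => by ring
      rw [h4] at h2
      exact h2
  set Y : Finset (ZMod q) := univ.filter (fun y : ZMod q => (p : ZMod q) * y = 0) with hY
  have hYm : ∀ y : ZMod q, y ∈ Y ↔ (p : ZMod q) * y = 0 := fun y => by
    rw [hY, mem_filter]
    exact ⟨fun h => h.2, fun h => ⟨mem_univ _, h⟩⟩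
  have hY0 : (0 : ZMod q) ∈ Y := (hYm 0).2 (mul_zero _)
  have hYpos : 0 < Y.card := card_pos.2 ⟨0, hY0⟩
  have hac : ∀ u : ZMod q × ZMod w, ∑ g, (Nt D (t : ZMod q) g - Nt D (t : ZMod q) (g + u)) ^ 2 ≤ 2 * (n : ℤ) ^ 2 := by
    intro u
    rw [ac_diff, nt_ac hD hk t 0, nt_ac hD hk t u, if_pos rfl]
    split_ifs
    · nlinarith [sq_nonneg (n : ℤ)]
    · linarith
  obtain ⟨a, ha1, ha2, ha3⟩ : ∃ a : ℕ, 0 < a ∧ a < p ∧
      ∀ z ∈ Y, Nt D (t : ZMod q) ((a : ZMod q) + z, h) = Nt D (t : ZMod q) ((a : ZMod q), h) := by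
    by_contra hcon
    push Not at hcon
    have hlow : ∀ a ∈ Ioo 0 p, (Y.card : ℤ) * ((p : ℤ) ^ c) ^ 2 ≤
        ∑ z ∈ Y, ∑ y ∈ Y, (Nt D (t : ZMod q) ((a : ZMod q) + z, h) - Nt D (t : ZMod q) ((a : ZMod q) + z + y, h)) ^ 2 := by
      intro a ha
      rw [mem_Ioo] at ha
      obtain ⟨z0, hz0, hne⟩ := hcon a ha.1 ha.2
      have hz00 : z0 ≠ 0 := by
        rintro rfl
        exact hne (by rw [add_zero])
      have key : ∀ z ∈ Y, ((p : ℤ) ^ c) ^ 2 ≤
          ∑ y ∈ Y, (Nt D (t : ZMod q) ((a : ZMod q) + z, h) - Nt D (t : ZMod q) ((a : ZMod q) + z + y, h)) ^ 2 := by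
        intro z hz
        have hz1 := (hYm z).1 hz
        have hz2 := (hYm z0).1 hz0
        have hdiv : ∀ y ∈ Y, (p : ℤ) ^ c ∣ Nt D (t : ZMod q) ((a : ZMod q) + z + y, h) -
            Nt D (t : ZMod q) ((a : ZMod q) + z, h) := by
          intro y hy
          have h1 := nt_div hp hp2 (by omega : 1 ≤ s) hq hw hn hm D hD hk t (y, 0)
            (mem_P1.2 ⟨(hYm y).1 hy, rfl⟩) ((a : ZMod q) + z, h)
          rw [Prod.mk_add_mk, add_zero] at h1
          exact h1
        have hex : ∃ y ∈ Y, Nt D (t : ZMod q) ((a : ZMod q) + z, h) ≠ Nt D (t : ZMod q) ((a : ZMod q) + z + y, h) := by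
          by_cases hc0 : Nt D (t : ZMod q) ((a : ZMod q) + z, h) = Nt D (t : ZMod q) ((a : ZMod q), h)
          · refine ⟨z0 - z, (hYm _).2 (by rw [mul_sub, hz1, hz2, sub_zero]), ?_⟩
            have h1 : (a : ZMod q) + z + (z0 - z) = (a : ZMod q) + z0 := by ring
            rw [h1, hc0]
            exact fun h2 => hne h2.symm
          · refine ⟨-z, (hYm _).2 (by rw [mul_neg, hz1, neg_zero]), ?_⟩
            have h1 : (a : ZMod q) + z + (-z) = (a : ZMod q) := by ring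
            rw [h1]
            exact hc0
        obtain ⟨y, hy, hy2⟩ := hex
        refine (tz_sq (hdiv y hy) hy2).trans ?_
        exact single_le_sum (f := fun y => (Nt D (t : ZMod q) ((a : ZMod q) + z, h) -
          Nt D (t : ZMod q) ((a : ZMod q) + z + y, h)) ^ 2) (fun i _ => sq_nonneg _) hy
      have h1 := card_nsmul_le_sum Y _ _ key
      rw [nsmul_eq_mul] at h1
      exact h1
    have hup : ∑ a ∈ Ioo 0 p, ∑ z ∈ Y, ∑ y ∈ Y, (Nt D (t : ZMod q) ((a : ZMod q) + z, h) -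
        Nt D (t : ZMod q) ((a : ZMod q) + z + y, h)) ^ 2 ≤ (Y.card : ℤ) * (2 * (n : ℤ) ^ 2) := by
      have h1 : ∑ a ∈ Ioo 0 p, ∑ z ∈ Y, ∑ y ∈ Y, (Nt D (t : ZMod q) ((a : ZMod q) + z, h) -
        Nt D (t : ZMod q) ((a : ZMod q) + z + y, h)) ^ 2 = ∑ y ∈ Y, ∑ e ∈ Ioo 0 p ×ˢ Y,
          (Nt D (t : ZMod q) ((e.1 : ZMod q) + e.2, h) - Nt D (t : ZMod q) ((e.1 : ZMod q) + e.2 + y, h)) ^ 2 := by
        rw [sum_comm' (t' := Ioo 0 p ×ˢ Y) (s' := fun _ => Y) (by simp)]
        rw [sum_product]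
      rw [h1]
      have h2 : ∀ y ∈ Y, ∑ e ∈ Ioo 0 p ×ˢ Y,
          (Nt D (t : ZMod q) ((e.1 : ZMod q) + e.2, h) - Nt D (t : ZMod q) ((e.1 : ZMod q) + e.2 + y, h)) ^ 2 ≤
          2 * (n : ℤ) ^ 2 := by
        intro y _
        refine le_trans ?_ (hac (y, 0))
        have h3 : ∑ e ∈ Ioo 0 p ×ˢ Y,
          (Nt D (t : ZMod q) ((e.1 : ZMod q) + e.2, h) - Nt D (t : ZMod q) ((e.1 : ZMod q) + e.2 + y, h)) ^ 2 =
          ∑ g ∈ (Ioo 0 p ×ˢ Y).image (fun e : ℕ × ZMod q => ((e.1 : ZMod q) + e.2, h)),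
            (Nt D (t : ZMod q) g - Nt D (t : ZMod q) (g + (y, 0))) ^ 2 := by
          rw [sum_image]
          · refine sum_congr rfl fun e _ => ?_
            rw [Prod.mk_add_mk, add_zero]
          · rintro ⟨a1, z1⟩ h1 ⟨a2, z2⟩ h2 h3
            simp only [coe_product, Set.mem_prod, mem_coe, mem_Ioo] at h1 h2
            simp only [Prod.mk.injEq, and_true] at h3
            have h4 := (hYm z1).1 h1.2
            have h5 := (hYm z2).1 h2.2
            have h6 : a1 = a2 := by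
              refine tz_p hp hs hq a1 a2 h1.1.2 h2.1.2 ?_
              linear_combination (p : ZMod q) * h3 - h4 + h5
            subst h6
            have h7 : z1 = z2 := by linear_combination h3
            rw [h7]
        rw [h3]
        exact sum_le_sum_of_subset_of_nonneg (subset_univ _) fun _ _ _ => sq_nonneg _
      have h3 := sum_le_card_nsmul Y _ _ h2
      rw [nsmul_eq_mul] at h3
      exact h3
    have hlow2 := card_nsmul_le_sum (Ioo 0 p) _ _ hlow
    rw [nsmul_eq_mul, Nat.card_Ioo] at hlow2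
    have h1 := hlow2.trans hup
    have h2 : ((p - 0 - 1 : ℕ) : ℤ) = (p : ℤ) - 1 := by
      have := hp.one_lt
      omega
    rw [h2, hn] at h1
    push_cast at h1
    have hY1 : (0 : ℤ) < Y.card := by exact_mod_cast hYpos
    have hp1 : (0 : ℤ) < ((p : ℤ) ^ c) ^ 2 := by
      have : (0 : ℤ) < p := by exact_mod_cast hp.pos
      positivity
    have h3 : ((p : ℤ) - 1) * ((Y.card : ℤ) * ((p : ℤ) ^ c) ^ 2) ≤ (2 * (m : ℤ) ^ 2) * ((Y.card : ℤ) * ((p : ℤ) ^ c) ^ 2) := by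
      linarith [show (Y.card : ℤ) * (2 * ((p : ℤ) ^ c * m) ^ 2) = (2 * (m : ℤ) ^ 2) * ((Y.card : ℤ) * ((p : ℤ) ^ c) ^ 2) by ring]
    have h4 := le_of_mul_le_mul_right h3 (mul_pos hY1 hp1)
    have h5 : (3 : ℤ) * (m : ℤ) ^ 2 < p := by exact_mod_cast hbig
    have h6 : (1 : ℤ) ≤ (m : ℤ) ^ 2 := by
      have : 1 ≤ m ^ 2 := Nat.one_le_iff_ne_zero.2 (pow_ne_zero 2 hm)
      exact_mod_cast this
    linarith
  have hcnt : ∀ y ∈ Y, cnt D D ((a : ZMod q) + y, h) = (l : ℤ) := by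
    intro y hy
    unfold cnt
    rw [ds_rep hD hk, if_neg, add_zero]
    intro h1
    have h2 : (a : ZMod q) + y = 0 := congrArg Prod.fst h1
    have h3 := (hYm y).1 hy
    have h4 : a = 0 := by
      refine tz_p hp hs hq a 0 ha2 hp.pos ?_
      rw [Nat.cast_zero]
      linear_combination (p : ZMod q) * h2 - h3
    omega
  have h0 : TT p (fun g => Nt D (t : ZMod q) g - cnt D D g) ((a : ZMod q), h) = 0 := by
    unfold TT
    refine sum_eq_zero fun y hy => ?_
    have h1 := ha3 y hy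
    have h2 := hcnt y hy
    have h3 := hcnt 0 hY0
    rw [add_zero] at h3
    simp only [Prod.mk_add_mk, add_zero]
    rw [h1, h2, h3, sub_self]
  have h5 := hstep ((a : ZMod q) - x).val x
  rw [ZMod.natCast_zmod_val, add_sub_cancel, h0, zero_sub, dvd_neg] at h5
  exact h5

end Pool.RY
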